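import Pool.Agent.R479.NF.Fac

/-!
# A number which is locally close to a norm and a prime up to the primes of `T` is a norm
-/

set_option autoImplicit false
set_option linter.unusedSectionVars false

namespace Pool.Agent.R479.NF

open NumberField Module

instance instFact (p : Nat.Primes) : Fact (p : ℕ).Prime := ⟨p.2⟩

/-- a prime outside `T` up to the primes of `T` -/
def PrimeVal (T : Finset Nat.Primes) (a : ℚ) : Prop :=
  ∃ c D q : ℕ, Smooth T c ∧ Smooth T D ∧ q.Prime ∧ Rough T q ∧ a = (c : ℚ) * q / D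

lemma PrimeVal.pos {T : Finset Nat.Primes} {a : ℚ} (h : PrimeVal T a) : 0 < a := by
  obtain ⟨c, D, q, hc, hD, hq, -, rfl⟩ := h
  have h1 := Nat.pos_of_ne_zero hc.1
  have h2 := Nat.pos_of_ne_zero hD.1
  have h3 := hq.pos
  positivity

lemma PrimeVal.mul_smooth {T : Finset Nat.Primes} {a : ℚ} (h : PrimeVal T a) {b : ℕ} (hb : Smooth T b) :
    PrimeVal T ((b : ℚ) * a) := by
  obtain ⟨c, D, q, hc, hD, hq, hqr, rfl⟩ := h
  exact ⟨b * c, D, q, hb.mul hc, hD, hq, hqr, by push_cast; ring⟩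

lemma norm_one_of_near {p : ℕ} [Fact p.Prime] (w : ℚ_[p]) (h : ‖w - 1‖ < 1) : ‖w‖ = 1 := by
  have e : w = (w - 1) + 1 := by ring
  have h1 : ‖w - 1‖ ≠ ‖(1 : ℚ_[p])‖ := by
    rw [norm_one]
    exact h.ne
  rw [e, Padic.add_eq_max_of_ne h1, norm_one]
  exact max_eq_right h.le

lemma rough_norm {T : Finset Nat.Primes} {r : ℕ} (hr : Rough T r) (p : Nat.Primes) (hp : p ∈ T) : ‖(r : ℚ_[(p : ℕ)])‖ = 1 := by
  have h1 : ¬ ((p : ℕ) : ℤ) ∣ (r : ℤ) := fun h => hr.2 p (by exact_mod_cast h) hp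
  have h2 : ‖((r : ℤ) : ℚ_[(p : ℕ)])‖ ≤ 1 := Padic.norm_int_le_one _
  have h3 : ¬ ‖((r : ℤ) : ℚ_[(p : ℕ)])‖ < 1 := fun h => h1 ((Padic.norm_intCast_lt_one_iff).1 h)
  have h4 : ‖((r : ℤ) : ℚ_[(p : ℕ)])‖ = 1 := le_antisymm h2 (not_lt.1 h3)
  simpa using h4

lemma smooth_eq {T : Finset Nat.Primes} {a b : ℕ} (ha : Smooth T a) (hb : Smooth T b)
    (h : ∀ p ∈ T, ‖((a : ℕ) : ℚ_[((p : Nat.Primes) : ℕ)])‖ = ‖((b : ℕ) : ℚ_[(p : ℕ)])‖) : a = b := by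
  have key : ∀ a b : ℕ, Smooth T a → Smooth T b →
      (∀ p ∈ T, ‖((a : ℕ) : ℚ_[((p : Nat.Primes) : ℕ)])‖ = ‖((b : ℕ) : ℚ_[(p : ℕ)])‖) → a ∣ b := by
    intro a b ha hb h
    rw [Nat.dvd_iff_prime_pow_dvd_dvd]
    intro p k hp hpk
    by_cases hpT : (⟨p, hp⟩ : Nat.Primes) ∈ T
    · have : Fact p.Prime := ⟨hp⟩
      have h1 := h _ hpT
      have h2 := (Padic.norm_int_le_pow_iff_dvd (p := p) (a : ℤ) k).2 (by exact_mod_cast hpk)
      have h3 : ‖((a : ℤ) : ℚ_[p])‖ = ‖((b : ℤ) : ℚ_[p])‖ := by simpa using h1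
      rw [h3] at h2
      exact_mod_cast (Padic.norm_int_le_pow_iff_dvd (p := p) (b : ℤ) k).1 h2
    · rcases Nat.eq_zero_or_pos k with rfl | hk
      · simp
      · exact absurd (ha.2 ⟨p, hp⟩ ((dvd_pow_self p hk.ne').trans hpk)) hpT
  exact Nat.dvd_antisymm (key a b ha hb h) (key b a hb ha (fun p hp => (h p hp).symm))

lemma dvd_of_norm (m : ℕ) (x : ℤ) (h : ∀ p : Nat.Primes, ‖((x : ℤ) : ℚ_[(p : ℕ)])‖ ≤ ‖((m : ℕ) : ℚ_[(p : ℕ)])‖) : (m : ℤ) ∣ x := by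
  rw [Int.natCast_dvd, Nat.dvd_iff_prime_pow_dvd_dvd]
  intro p k hp hpk
  have : Fact p.Prime := ⟨hp⟩
  have h1 := h ⟨p, hp⟩
  have h2 := (Padic.norm_int_le_pow_iff_dvd (p := p) (m : ℤ) k).2 (by exact_mod_cast hpk)
  have h3 : ‖((x : ℤ) : ℚ_[p])‖ ≤ ‖((m : ℤ) : ℚ_[p])‖ := by simpa using h1
  have h4 := (Padic.norm_int_le_pow_iff_dvd (p := p) x k).1 (h3.trans h2)
  exact Int.natCast_dvd.1 h4

variable (m : ℕ) [NeZero m] {L : Type} [Field L] [NumberField L] [IsCyclotomicExtension {m} ℚ L]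
  (K : IntermediateField ℚ L)

theorem core (hh : (classNumber K).Coprime (finrank ℚ K)) (hs : Sgn K) (T : Finset Nat.Primes)
    (hT : ∀ p : Nat.Primes, (p : ℕ) ∣ m → p ∈ T) (a : ℚ) (ha : PrimeVal T a) (Z : 𝓞 K) (D : ℕ) (hD : Smooth T D)
    (hZ : 0 < Algebra.norm ℚ (Z : K))
    (hcl : ∀ p ∈ T, ‖((a / (Algebra.norm ℚ (Z : K) / (D : ℚ) ^ finrank ℚ K) - 1 : ℚ) : ℚ_[((p : Nat.Primes) : ℕ)])‖ < 1 ∧
      ‖((a / (Algebra.norm ℚ (Z : K) / (D : ℚ) ^ finrank ℚ K) - 1 : ℚ) : ℚ_[(p : ℕ)])‖ ≤ ‖((m : ℕ) : ℚ_[(p : ℕ)])‖) :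
    IsN K a := by
  obtain ⟨c, D0, q, hc, hD0, hq, hqr, rfl⟩ := ha
  have hZ0 : Z ≠ 0 := by
    rintro rfl
    simp [Algebra.norm_zero] at hZ
  obtain ⟨c1, r1, hc1, hr1, hcr, hg, hn⟩ := factor m K hh hs T hT (Ideal.span {Z}) (by
    rw [Ideal.zero_eq_bot, Ne, Ideal.span_singleton_eq_bot]
    exact hZ0)
  have hNZ : Algebra.norm ℚ (Z : K) = (c1 : ℚ) * r1 := by
    rw [Ideal.absNorm_span_singleton] at hcr
    rw [← Algebra.coe_norm_int] at hZ ⊢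
    have h1 : 0 < Algebra.norm ℤ Z := by exact_mod_cast hZ
    have h2 : Algebra.norm ℤ Z = ((Algebra.norm ℤ Z).natAbs : ℤ) := by
      rw [Int.natCast_natAbs, abs_of_pos h1]
    rw [h2, hcr]
    push_cast
    ring
  obtain ⟨n, hnd⟩ : ∃ n, n = finrank ℚ K := ⟨_, rfl⟩
  rw [← hnd] at hcl
  rw [hNZ] at hcl hZ
  obtain ⟨s1, hs1⟩ : ∃ s1, s1 = c * D ^ n := ⟨_, rfl⟩
  obtain ⟨s2, hs2⟩ : ∃ s2, s2 = D0 * c1 := ⟨_, rfl⟩
  have hs1' : Smooth T s1 := by rw [hs1]; exact hc.mul (hD.pow n)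
  have hs2' : Smooth T s2 := by rw [hs2]; exact hD0.mul hc1
  have hc0 : (c : ℚ) ≠ 0 := by exact_mod_cast hc.1
  have hD00 : (D0 : ℚ) ≠ 0 := by exact_mod_cast hD0.1
  have hDq : (D : ℚ) ≠ 0 := by exact_mod_cast hD.1
  have hc10 : (c1 : ℚ) ≠ 0 := by exact_mod_cast hc1.1
  have hr10 : (r1 : ℚ) ≠ 0 := by exact_mod_cast hr1.1
  have e : (c : ℚ) * q / D0 / ((c1 : ℚ) * r1 / (D : ℚ) ^ n) = (s1 : ℚ) * q / (s2 * r1) := by
    rw [hs1, hs2]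
    push_cast
    field_simp
  rw [e] at hcl
  have hs20 : (s2 : ℚ) ≠ 0 := by exact_mod_cast hs2'.1
  have hss : s1 = s2 := by
    apply smooth_eq hs1' hs2'
    intro p hp
    have h1 := (hcl p hp).1
    have h2 : ‖(((s1 : ℚ) * q / (s2 * r1) : ℚ) : ℚ_[(p : ℕ)])‖ = 1 := by
      obtain ⟨w, hw⟩ : ∃ w : ℚ_[(p : ℕ)], w = (((s1 : ℚ) * q / (s2 * r1) : ℚ) : ℚ_[(p : ℕ)]) := ⟨_, rfl⟩
      have h3 : ‖w - 1‖ < 1 := by
        rw [hw]
        have e3 : (((s1 : ℚ) * q / (s2 * r1) : ℚ) : ℚ_[(p : ℕ)]) - 1 = (((s1 : ℚ) * q / (s2 * r1) - 1 : ℚ) : ℚ_[(p : ℕ)]) := by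
          push_cast
          ring
        rw [e3]
        exact h1
      rw [← hw]
      exact norm_one_of_near w h3
    push_cast at h2
    rw [norm_div, norm_mul, norm_mul, rough_norm hqr p hp, rough_norm hr1 p hp, mul_one, mul_one] at h2
    have h4 : ‖(s2 : ℚ_[(p : ℕ)])‖ ≠ 0 := by
      rw [Ne, norm_eq_zero]
      exact_mod_cast hs2'.1
    exact (div_eq_one_iff_eq h4).1 h2
  have hmod : q ≡ r1 [MOD m] := by
    have h1 : (m : ℤ) ∣ ((r1 : ℤ) - q) := by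
      apply dvd_of_norm
      intro p
      by_cases hp : p ∈ T
      · have h1 := (hcl p hp).2
        rw [hss] at h1
        have h2 : ((((s2 : ℚ) * q / (s2 * r1) - 1 : ℚ)) : ℚ_[(p : ℕ)]) = -((((r1 : ℤ) - q : ℤ) : ℚ_[(p : ℕ)]) / r1) := by
          have h3 : ((s2 : ℚ) * q / (s2 * r1) - 1 : ℚ) = -((((r1 : ℤ) - q : ℤ) : ℚ) / r1) := by
            push_cast
            field_simp
            ring
          rw [h3]
          push_cast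
          ring
        rw [h2, norm_neg, norm_div, rough_norm hr1 p hp, div_one] at h1
        exact h1
      · have h1 : ‖((m : ℕ) : ℚ_[(p : ℕ)])‖ = 1 := by
          have h1 : ¬ ((p : ℕ) : ℤ) ∣ (m : ℤ) := fun h => hp (hT p (by exact_mod_cast h))
          have h2 : ‖((m : ℤ) : ℚ_[(p : ℕ)])‖ ≤ 1 := Padic.norm_int_le_one _
          have h3 : ¬ ‖((m : ℤ) : ℚ_[(p : ℕ)])‖ < 1 := fun h => h1 ((Padic.norm_intCast_lt_one_iff).1 h)
          have h4 : ‖((m : ℤ) : ℚ_[(p : ℕ)])‖ = 1 := le_antisymm h2 (not_lt.1 h3)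
          simpa using h4
        rw [h1]
        exact Padic.norm_int_le_one _
    exact (Nat.modEq_iff_dvd).2 h1
  have hgq := good_congr m K hg hmod.symm
  have hqm : ¬ q ∣ m := fun h => hqr.2 ⟨q, hq⟩ dvd_rfl (hT ⟨q, hq⟩ h)
  obtain ⟨P, hP⟩ := exists_absNorm m K hq hqm hgq
  have hP0 : P ≠ ⊥ := by
    rintro rfl
    rw [Ideal.absNorm_bot] at hP
    exact hq.ne_zero hP.symm
  have hqN : IsN K (q : ℚ) := by
    have := isN_absNorm hh hs P hP0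
    rwa [hP] at this
  have hfin : (c : ℚ) * q / D0 = ((Algebra.norm ℚ (Z : K)) / (D : ℚ) ^ n) * (q / r1) := by
    rw [hNZ]
    have h5 : (c : ℚ) * D ^ n = D0 * c1 := by
      have : ((s1 : ℕ) : ℚ) = (s2 : ℕ) := by rw [hss]
      rw [hs1, hs2] at this
      exact_mod_cast this
    field_simp
    linear_combination (q : ℚ) * h5
  rw [hfin]
  refine (IsN.div ⟨_, rfl⟩ ?_).mul (hqN.div hn)
  rw [hnd]
  exact IsN.pow_finrank _

end Pool.Agent.R479.NF
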