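import Mathlib

/-!
# The norm form
-/

set_option autoImplicit false

namespace Pool.Agent.R479.NF

open NumberField Module TensorProduct Filter

variable (K : Type) [Field K] [NumberField K]

/-- the index type of the integral basis -/
abbrev Ix : Type := Free.ChooseBasisIndex ℤ (𝓞 K)

/-- the matrices of the multiplication by the elements of the integral basis -/
noncomputable def Mt (j : Ix K) : Matrix (Ix K) (Ix K) ℚ :=
  Algebra.leftMulMatrix (integralBasis K) (integralBasis K j)

/-- the norm form over a field -/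
noncomputable def P (F : Type) [Field F] [Algebra ℚ F] (x : Ix K → F) : F :=
  Matrix.det (∑ j, x j • (Mt K j).map (algebraMap ℚ F))

variable {K}

lemma leftMul_one_tmul (F : Type) [Field F] [Algebra ℚ F] (a : K) :
    Algebra.leftMulMatrix (Algebra.TensorProduct.basis F (integralBasis K)) ((1 : F) ⊗ₜ[ℚ] a) =
      (Algebra.leftMulMatrix (integralBasis K) a).map (algebraMap ℚ F) := by
  ext i j
  rw [Algebra.leftMulMatrix_eq_repr_mul, Algebra.TensorProduct.basis_apply, Algebra.TensorProduct.tmul_mul_tmul, one_mul,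
    Algebra.TensorProduct.basis_repr_tmul, Matrix.map_apply, Algebra.leftMulMatrix_eq_repr_mul]
  simp

lemma norm_eq_P (F : Type) [Field F] [Algebra ℚ F] (z : F ⊗[ℚ] K) :
    Algebra.norm F z = P K F (fun j => (Algebra.TensorProduct.basis F (integralBasis K)).repr z j) := by
  rw [Algebra.norm_eq_matrix_det (Algebra.TensorProduct.basis F (integralBasis K)), P]
  congr 1
  conv_lhs => rw [← (Algebra.TensorProduct.basis F (integralBasis K)).sum_repr z]
  rw [map_sum]
  refine Finset.sum_congr rfl fun j _ => ?_
  rw [map_smul, Algebra.TensorProduct.basis_apply, leftMul_one_tmul]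
  rfl

lemma P_smul (F : Type) [Field F] [Algebra ℚ F] (c : F) (x : Ix K → F) :
    P K F (fun j => c * x j) = c ^ finrank ℚ K * P K F x := by
  have h : finrank ℚ K = Fintype.card (Ix K) := Module.finrank_eq_card_basis (integralBasis K)
  rw [P, P, h, ← Matrix.det_smul, Finset.smul_sum]
  simp only [mul_smul]

lemma P_int (F : Type) [Field F] [Algebra ℚ F] (u : Ix K → ℤ) :
    P K F (fun j => (u j : F)) = algebraMap ℚ F (Algebra.norm ℚ ((∑ j, u j • RingOfIntegers.basis K j : 𝓞 K) : K)) := by
  rw [Algebra.norm_eq_matrix_det (integralBasis K), P, RingHom.map_det]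
  congr 1
  have h : ((∑ j, u j • RingOfIntegers.basis K j : 𝓞 K) : K) = ∑ j, (u j : ℚ) • integralBasis K j := by
    rw [RingOfIntegers.coe_eq_algebraMap, map_sum]
    refine Finset.sum_congr rfl fun j _ => ?_
    rw [map_zsmul, integralBasis_apply]
    simp [Algebra.smul_def]
  rw [h, map_sum, map_sum]
  refine Finset.sum_congr rfl fun j _ => ?_
  rw [map_smul, RingHom.mapMatrix_apply]
  ext a b
  simp only [Mt, Matrix.map_apply, Matrix.smul_apply, smul_eq_mul, RingHom.mapMatrix_apply, map_mul, map_intCast]

lemma P_continuous (p : ℕ) [Fact p.Prime] : Continuous (P K ℚ_[p]) := by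
  unfold P
  fun_prop

lemma norm_pos (α : K) : ∃ s0 : ℕ, ∀ t : ℕ, s0 ≤ t → 0 < Algebra.norm ℚ (α + (t : K)) := by
  have hcard : 0 < Fintype.card (Ix K) := by
    rw [← Module.finrank_eq_card_basis (integralBasis K)]
    exact finrank_pos
  have h := Polynomial.tendsto_atTop_of_leadingCoeff_nonneg (𝕜 := ℚ)
    ((Algebra.leftMulMatrix (integralBasis K) (-α)).charpoly) (by
      rw [← Polynomial.natDegree_pos_iff_degree_pos, Matrix.charpoly_natDegree_eq_dim]
      exact hcard) (by
      rw [(Matrix.charpoly_monic _).leadingCoeff]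
      norm_num)
  obtain ⟨R, hR⟩ := eventually_atTop.1 (h.eventually (eventually_gt_atTop 0))
  obtain ⟨s0, hs0⟩ := exists_nat_ge R
  refine ⟨s0, fun t ht => ?_⟩
  have h1 := hR t (hs0.trans (by exact_mod_cast ht))
  rw [Matrix.eval_charpoly] at h1
  rw [Algebra.norm_eq_matrix_det (integralBasis K)]
  have key : Algebra.leftMulMatrix (integralBasis K) (α + (t : K)) =
      Matrix.scalar (Ix K) (t : ℚ) - Algebra.leftMulMatrix (integralBasis K) (-α) := by
    rw [map_neg, sub_neg_eq_add, map_add, add_comm]
    congr 1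
    have h2 : (t : K) = algebraMap ℚ K t := by simp
    rw [h2, AlgHom.commutes]
    rfl
  rw [key]
  exact h1

end Pool.Agent.R479.NF
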