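import Pool.Agent.TH204.HP.H5
import Pool.Agent.R479.NF.NForm
import Pool.Agent.R479.NF.Core

/-!
# Approximation of local elements by global elements
-/

set_option autoImplicit false

namespace Pool.Agent.R479.NF

open NumberField Module TensorProduct Filter

variable {K : Type} [Field K] [NumberField K]

lemma smooth_prod (T : Finset Nat.Primes) (N : ℕ) : Smooth T (∏ p ∈ T, (p : ℕ) ^ N) :=
  ⟨Finset.prod_ne_zero_iff.2 fun p _ => pow_ne_zero _ p.2.ne_zero,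
    fun p hp => Pool.Agent.TH204.HP.mem_of_dvd_prod T N p hp⟩

theorem apx (T : Finset Nat.Primes) (z : (p : Nat.Primes) → ℚ_[(p : ℕ)] ⊗[ℚ] K) (δ : ℝ) (hδ : 0 < δ) :
    ∃ (Z : 𝓞 K) (D : ℕ), Smooth T D ∧ 0 < Algebra.norm ℚ (Z : K) ∧ ∀ p ∈ T,
      ‖((Algebra.norm ℚ (Z : K) / (D : ℚ) ^ finrank ℚ K : ℚ) : ℚ_[(p : ℕ)]) - Algebra.norm ℚ_[(p : ℕ)] (z p)‖ < δ := by
  classical
  obtain ⟨x, hx⟩ : ∃ x : (p : Nat.Primes) → Ix K → ℚ_[(p : ℕ)], x = fun p j =>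
    (Algebra.TensorProduct.basis ℚ_[(p : ℕ)] (integralBasis K)).repr (z p) j := ⟨_, rfl⟩
  have hxz : ∀ p, Algebra.norm ℚ_[((p : Nat.Primes) : ℕ)] (z p) = P K ℚ_[(p : ℕ)] (x p) := by
    intro p
    rw [hx, norm_eq_P]
  have hone : ∀ p : Nat.Primes, (1 : ℝ) < ((p : ℕ) : ℝ) := fun p => by exact_mod_cast p.2.one_lt
  -- continuity
  have hcont : ∀ p : Nat.Primes, ∃ ε : ℝ, 0 < ε ∧ ∀ x' : Ix K → ℚ_[(p : ℕ)], (∀ j, ‖x' j - x p j‖ < ε) →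
      ‖P K ℚ_[(p : ℕ)] x' - P K ℚ_[(p : ℕ)] (x p)‖ < δ := by
    intro p
    obtain ⟨ε, hε, h⟩ := Metric.continuous_iff.1 (P_continuous (K := K) (p : ℕ)) (x p) δ hδ
    refine ⟨ε, hε, fun x' hx' => ?_⟩
    rw [← dist_eq_norm]
    apply h
    rw [dist_pi_lt_iff hε]
    intro j
    rw [dist_eq_norm]
    exact hx' j
  choose ε hε hεc using hcont
  have he : ∀ p : Nat.Primes, ∃ e : ℕ, (((p : ℕ) : ℝ) ^ e)⁻¹ < ε p := by
    intro p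
    obtain ⟨e, he⟩ := pow_unbounded_of_one_lt (ε p)⁻¹ (hone p)
    exact ⟨e, inv_lt_of_inv_lt₀ (hε p) he⟩
  choose e he using he
  have hN : ∀ (p : Nat.Primes) (j : Ix K), ∃ N : ℕ, ‖x p j‖ ≤ ((p : ℕ) : ℝ) ^ N := by
    intro p j
    obtain ⟨N, hN⟩ := pow_unbounded_of_one_lt ‖x p j‖ (hone p)
    exact ⟨N, hN.le⟩
  choose N0 hN0 using hN
  obtain ⟨N, hN⟩ : ∃ N, N = ∑ p ∈ T, ∑ j, N0 p j := ⟨_, rfl⟩
  obtain ⟨E, hE⟩ : ∃ E, E = N + ∑ p ∈ T, e p := ⟨_, rfl⟩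
  obtain ⟨D, hD⟩ : ∃ D, D = ∏ p ∈ T, (p : ℕ) ^ N := ⟨_, rfl⟩
  obtain ⟨M, hM⟩ : ∃ M, M = ∏ p ∈ T, (p : ℕ) ^ E := ⟨_, rfl⟩
  have hxN : ∀ p ∈ T, ∀ j, ‖x p j‖ ≤ ((p : ℕ) : ℝ) ^ N := by
    intro p hp j
    refine (hN0 p j).trans (pow_le_pow_right₀ (hone p).le ?_)
    rw [hN]
    exact (Finset.single_le_sum (f := fun j => N0 p j) (fun _ _ => Nat.zero_le _) (Finset.mem_univ j)).trans
      (Finset.single_le_sum (f := fun p => ∑ j, N0 p j) (fun _ _ => Nat.zero_le _) hp)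
  have hu := fun j : Ix K => Pool.Agent.TH204.HP.exists_u0 T N E D M (fun p => x p j) (fun p hp => hxN p hp j) hD hM
  choose u hu1 hu2 using hu
  obtain ⟨Z0, hZ0⟩ : ∃ Z0 : 𝓞 K, Z0 = ∑ j, (u j : ℤ) • RingOfIntegers.basis K j := ⟨_, rfl⟩
  obtain ⟨o, ho⟩ : ∃ o : Ix K → ℤ, (1 : 𝓞 K) = ∑ j, o j • RingOfIntegers.basis K j :=
    ⟨_, ((RingOfIntegers.basis K).sum_repr 1).symm⟩
  obtain ⟨s0, hs0⟩ := norm_pos (Z0 : K)
  have hM1 : 1 ≤ M := by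
    rw [hM]
    exact Nat.one_le_iff_ne_zero.2 (smooth_prod T E).1
  have hDs : Smooth T D := by rw [hD]; exact smooth_prod T N
  obtain ⟨v, hv⟩ : ∃ v : Ix K → ℤ, v = fun j => (u j : ℤ) + M * (s0 * o j) := ⟨_, rfl⟩
  have hZ : (∑ j, v j • RingOfIntegers.basis K j : 𝓞 K) = Z0 + ((M * s0 : ℕ) : 𝓞 K) := by
    have h1 : ((M * s0 : ℕ) : 𝓞 K) = ((M * s0 : ℕ) : ℤ) • (1 : 𝓞 K) := by simp
    rw [h1, ho, Finset.smul_sum, hZ0, ← Finset.sum_add_distrib]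
    refine Finset.sum_congr rfl fun j _ => ?_
    rw [hv, smul_smul, ← add_smul]
    congr 1
    push_cast
    ring
  refine ⟨∑ j, v j • RingOfIntegers.basis K j, D, hDs, ?_, ?_⟩
  · rw [hZ]
    have h1 := hs0 (M * s0) (Nat.le_mul_of_pos_left _ hM1)
    push_cast at h1 ⊢
    exact h1
  · intro p hp
    rw [hxz p]
    have hDp : (D : ℚ_[(p : ℕ)]) ≠ 0 := by exact_mod_cast hDs.1
    have h1 : ((Algebra.norm ℚ ((∑ j, v j • RingOfIntegers.basis K j : 𝓞 K) : K) / (D : ℚ) ^ finrank ℚ K : ℚ) : ℚ_[(p : ℕ)]) =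
        P K ℚ_[(p : ℕ)] (fun j => (D : ℚ_[(p : ℕ)])⁻¹ * (v j : ℚ_[(p : ℕ)])) := by
      rw [P_smul, P_int]
      push_cast
      rw [inv_pow, div_eq_mul_inv, mul_comm]
      rfl
    rw [h1]
    apply hεc p
    intro j
    have h2 := hu2 j (s0 * o j) p hp
    have hnD := Pool.Agent.TH204.HP.norm_D T N p hp
    rw [← hD] at hnD
    have h3 : (D : ℚ_[(p : ℕ)])⁻¹ * (v j : ℚ_[(p : ℕ)]) - x p j =
        (D : ℚ_[(p : ℕ)])⁻¹ * ((((u j : ℤ) + M * (s0 * o j) : ℤ) : ℚ_[(p : ℕ)]) - D * x p j) := by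
      rw [hv]
      field_simp
    rw [h3, norm_mul, norm_inv, hnD, inv_inv]
    have hp0 : (0 : ℝ) < ((p : ℕ) : ℝ) := by linarith [hone p]
    calc ((p : ℕ) : ℝ) ^ N * ‖(((u j : ℤ) + M * (s0 * o j) : ℤ) : ℚ_[(p : ℕ)]) - D * x p j‖
        ≤ ((p : ℕ) : ℝ) ^ N * (((p : ℕ) : ℝ) ^ E)⁻¹ := mul_le_mul_of_nonneg_left h2 (by positivity)
      _ = (((p : ℕ) : ℝ) ^ (∑ p ∈ T, e p))⁻¹ := by
          rw [hE, pow_add]
          field_simp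
      _ ≤ (((p : ℕ) : ℝ) ^ (e p))⁻¹ := by
          apply inv_anti₀ (by positivity)
          apply pow_le_pow_right₀ (hone p).le
          exact Finset.single_le_sum (f := fun p => e p) (fun _ _ => Nat.zero_le _) hp
      _ < ε p := he p

end Pool.Agent.R479.NF
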