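import Pool.Agent.R479.NF.Full
import Pool.Agent.Y155.HB.Spec
import Pool.Agent.Y972.HB.NR
import Pool.Agent.Y932.HB.Base
import Pool.Agent.Y945.HB.Fac
import Pool.Agent.Y420.HB.LocFin
import Pool.Agent.Y70.HB.Hen

/-!
# Rational points outside thin sets
-/

set_option autoImplicit false
set_option linter.unusedSectionVars false

namespace Pool.Agent.R479.NF

open NumberField Module TensorProduct Finset
open Pool.Agent.Y214.HB (Obs Kind NoRoot Dv evQ toK)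

section hensel

variable {p : ℕ} [hp : Fact p.Prime]

open Polynomial in
lemma hensel_pt {s : ℕ} (f : MvPolynomial (Fin s) ℤ) (a : Fin s → ℤ) (j : Fin s) (h0 : (p : ℤ) ∣ MvPolynomial.eval a f)
    (hj : ¬ (p : ℤ) ∣ MvPolynomial.eval a (MvPolynomial.pderiv j f)) :
    ∃ z : Fin s → ℚ_[p], MvPolynomial.aeval z f = 0 ∧ (∀ i, ‖z i‖ ≤ 1) ∧ ∀ i, ‖z i - (a i : ℚ_[p])‖ < 1 := by
  classical
  obtain ⟨F, hF⟩ : ∃ F : ℤ[X],
      F = MvPolynomial.aeval (Function.update (fun i => (C (a i) : ℤ[X])) j X) f := ⟨_, rfl⟩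
  have hev : ∀ (x : ℤ_[p]) (g : MvPolynomial (Fin s) ℤ),
      Polynomial.aeval x (MvPolynomial.aeval (Function.update (fun i => (C (a i) : ℤ[X])) j X) g) =
      MvPolynomial.aeval (Function.update (fun i => ((a i : ℤ) : ℤ_[p])) j x) g := by
    intro x g
    rw [MvPolynomial.comp_aeval_apply]
    congr 2
    funext i
    by_cases hij : i = j
    · rw [hij, Function.update_self, Function.update_self, Polynomial.aeval_X]
    · rw [Function.update_of_ne hij, Function.update_of_ne hij, Polynomial.aeval_C]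
      rfl
  have hupd : Function.update (fun i => ((a i : ℤ) : ℤ_[p])) j ((a j : ℤ) : ℤ_[p]) =
      fun i => ((a i : ℤ) : ℤ_[p]) := Function.update_eq_self j _
  have e1 : Polynomial.aeval ((a j : ℤ) : ℤ_[p]) F = ((MvPolynomial.eval a f : ℤ) : ℤ_[p]) := by
    rw [hF, hev, hupd, Pool.Agent.Y70.HB.aeval_cast]
  have e2 : Polynomial.aeval ((a j : ℤ) : ℤ_[p]) (derivative F) =
      ((MvPolynomial.eval a (MvPolynomial.pderiv j f) : ℤ) : ℤ_[p]) := by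
    rw [hF, Pool.Agent.Y70.HB.deriv_aeval, hev, hupd, Pool.Agent.Y70.HB.aeval_cast]
  have n1 : ‖Polynomial.aeval ((a j : ℤ) : ℤ_[p]) F‖ < 1 := by
    rw [e1]
    exact (PadicInt.norm_int_lt_one_iff_dvd _).2 h0
  have n2 : ‖Polynomial.aeval ((a j : ℤ) : ℤ_[p]) (derivative F)‖ = 1 := by
    rw [e2]
    refine le_antisymm (PadicInt.norm_le_one _) ?_
    by_contra h
    exact hj ((PadicInt.norm_int_lt_one_iff_dvd _).1 (not_le.1 h))
  obtain ⟨z0, hz1, hz2, -⟩ := hensels_lemma (F := F) (a := ((a j : ℤ) : ℤ_[p]))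
    (by rw [n2, one_pow]; exact n1)
  rw [n2] at hz2
  rw [hF, hev] at hz1
  have hcl : ∀ i, ‖((Function.update (fun i => ((a i : ℤ) : ℤ_[p])) j z0 i : ℤ_[p]) : ℚ_[p]) -
      (a i : ℚ_[p])‖ < 1 := by
    intro i
    by_cases hij : i = j
    · rw [hij, Function.update_self]
      have h1 : ((z0 : ℤ_[p]) : ℚ_[p]) - (a j : ℚ_[p]) =
          ((z0 - ((a j : ℤ) : ℤ_[p]) : ℤ_[p]) : ℚ_[p]) := by
        push_cast
        rfl
      rw [h1, ← PadicInt.norm_def]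
      exact hz2
    · rw [Function.update_of_ne hij]
      have h1 : (((a i : ℤ) : ℤ_[p]) : ℚ_[p]) = (a i : ℚ_[p]) := PadicInt.coe_intCast _
      rw [h1, sub_self, norm_zero]
      exact one_pos
  refine ⟨fun i => ((Function.update (fun i => ((a i : ℤ) : ℤ_[p])) j z0 i : ℤ_[p]) : ℚ_[p]),
    ?_, fun i => PadicInt.norm_le_one _, hcl⟩
  have h1 := MvPolynomial.comp_aeval_apply
      (Function.update (fun i => ((a i : ℤ) : ℤ_[p])) j z0) (PadicInt.Coe.ringHom.toIntAlgHom : ℤ_[p] →ₐ[ℤ] ℚ_[p]) f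
  rw [hz1, map_zero] at h1
  exact h1.symm

end hensel

section

variable (m : ℕ) [NeZero m] {L : Type} [Field L] [NumberField L] [IsCyclotomicExtension {m} ℚ L]

include m in
/-- units are norms at the primes which do not divide `m` -/
lemma unit_norm (K : IntermediateField ℚ L) (hh : (classNumber K).Coprime (finrank ℚ K)) (hs : Sgn K)
    {p : ℕ} [hp : Fact p.Prime] (hpm : ¬ p ∣ m) (u : ℚ_[p]) (hu : ‖u‖ = 1) : IsNp K p u := by
  obtain ⟨n, hn⟩ : ∃ n, n = finrank ℚ K := ⟨_, rfl⟩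
  have hn0 : n ≠ 0 := by rw [hn]; exact (finrank_pos (R := ℚ) (M := K)).ne'
  have hppos : (0 : ℝ) < p := by exact_mod_cast hp.out.pos
  have hp1 : (1 : ℝ) < p := by exact_mod_cast hp.out.one_lt
  have hnn : (0 : ℝ) < ‖((n : ℕ) : ℚ_[p])‖ ^ 2 := by
    have : ((n : ℕ) : ℚ_[p]) ≠ 0 := by exact_mod_cast hn0
    positivity
  obtain ⟨E, hE⟩ : ∃ E : ℕ, ((p : ℝ) ^ E)⁻¹ < ‖((n : ℕ) : ℚ_[p])‖ ^ 2 := by
    obtain ⟨E, hE⟩ := exists_pow_lt_of_lt_one hnn (inv_lt_one_of_one_lt₀ hp1)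
    exact ⟨E, by rwa [inv_pow] at hE⟩
  obtain ⟨v, hv⟩ : ∃ v : ℤ_[p], (v : ℚ_[p]) = u := ⟨⟨u, hu.le⟩, rfl⟩
  obtain ⟨u0, hu0⟩ : ∃ u0 : ℕ, ‖u - (u0 : ℚ_[p])‖ ≤ ((p : ℝ) ^ (E + 1))⁻¹ := by
    refine ⟨v.appr (E + 1), ?_⟩
    have h1 := PadicInt.appr_spec (E + 1) v
    rw [← PadicInt.norm_le_pow_iff_mem_span_pow] at h1
    rw [PadicInt.norm_def] at h1
    rw [zpow_neg, zpow_natCast] at h1
    rw [← hv]
    simpa using h1
  have hEE : ((p : ℝ) ^ (E + 1))⁻¹ < 1 := inv_lt_one_of_one_lt₀ (one_lt_pow₀ hp1 (by omega))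
  have hu0n : ‖(u0 : ℚ_[p])‖ = 1 := by
    have h1 : ‖(u0 : ℚ_[p]) - u‖ < ‖u‖ := by
      rw [norm_sub_rev, hu]
      exact hu0.trans_lt hEE
    rw [Pool.Agent.TH204.HP.norm_eq_of_near _ _ h1, hu]
  have hpu0 : ¬ p ∣ u0 := by
    intro hd
    have h1 : ‖((u0 : ℤ) : ℚ_[p])‖ < 1 := by
      rw [Padic.norm_intCast_lt_one_iff]
      exact_mod_cast hd
    rw [Int.cast_natCast, hu0n] at h1
    exact lt_irrefl _ h1
  have hco : (p ^ (E + 1)).Coprime m := Nat.Coprime.pow_left _ ((Nat.Prime.coprime_iff_not_dvd hp.out).2 hpm)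
  obtain ⟨c, hc1, hc2⟩ : ∃ c : ℕ, c ≡ u0 [MOD p ^ (E + 1)] ∧ c ≡ 1 [MOD m] :=
    ⟨_, (Nat.chineseRemainder hco u0 1).2⟩
  have hM : p ^ (E + 1) * m ≠ 0 := mul_ne_zero (pow_ne_zero _ hp.out.ne_zero) (NeZero.ne m)
  have : NeZero (p ^ (E + 1) * m) := ⟨hM⟩
  have hcc : c.Coprime (p ^ (E + 1) * m) := by
    apply Nat.Coprime.mul_right
    · apply Nat.Coprime.pow_right
      rw [Nat.coprime_comm, Nat.Prime.coprime_iff_not_dvd hp.out]
      intro hd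
      apply hpu0
      have h2 : c ≡ u0 [MOD p] := hc1.of_dvd (dvd_pow_self p (by omega))
      exact (h2.dvd_iff dvd_rfl).1 hd
    · have h2 := hc2.gcd_eq
      rw [Nat.gcd_one_left] at h2
      exact h2
  obtain ⟨q, hqm, hq, hqc⟩ := Nat.forall_exists_prime_gt_and_eq_mod ((ZMod.isUnit_iff_coprime _ _).2 hcc) m
  have hqc' : q ≡ c [MOD p ^ (E + 1) * m] := (ZMod.natCast_eq_natCast_iff _ _ _).1 hqc
  have hq1 : q ≡ u0 [MOD p ^ (E + 1)] := (hqc'.of_dvd (Dvd.intro _ rfl)).trans hc1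
  have hq2 : q ≡ 1 [MOD m] := (hqc'.of_dvd (Dvd.intro_left _ rfl)).trans hc2
  have hqnm : ¬ q ∣ m := fun h => absurd (Nat.le_of_dvd (Nat.pos_of_ne_zero (NeZero.ne m)) h) (not_le.2 hqm)
  obtain ⟨P, hP⟩ := exists_absNorm m (K := K) hq hqnm (good_congr m K (good_one m K) hq2.symm)
  have hPb : P ≠ ⊥ := by
    rintro rfl
    rw [Ideal.absNorm_bot] at hP
    exact hq.ne_zero hP.symm
  have hN := isN_absNorm (K := K) hh hs P hPb
  rw [hP] at hN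
  obtain ⟨y, hy⟩ := hN
  have hNp : IsNp K p (q : ℚ_[p]) := ⟨(1 : ℚ_[p]) ⊗ₜ y, by
    rw [norm_one_tmul, hy]
    simp⟩
  have hqu : ‖(u0 : ℚ_[p]) - (q : ℚ_[p])‖ ≤ ((p : ℝ) ^ (E + 1))⁻¹ := by
    have h1 : ((p ^ (E + 1) : ℕ) : ℤ) ∣ (u0 : ℤ) - (q : ℤ) := (Nat.modEq_iff_dvd).1 hq1
    have h2 : ‖(((u0 : ℤ) - (q : ℤ) : ℤ) : ℚ_[p])‖ ≤ (p : ℝ) ^ (-((E + 1 : ℕ) : ℤ)) := by
      rw [Padic.norm_int_le_pow_iff_dvd]
      exact_mod_cast h1
    rw [zpow_neg, zpow_natCast] at h2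
    simpa using h2
  have hq' : ‖u - (q : ℚ_[p])‖ ≤ ((p : ℝ) ^ (E + 1))⁻¹ := by
    have e : u - (q : ℚ_[p]) = (u - (u0 : ℚ_[p])) + ((u0 : ℚ_[p]) - (q : ℚ_[p])) := by ring
    rw [e]
    exact (Padic.nonarchimedean _ _).trans (max_le hu0 hqu)
  have hqn : ‖(q : ℚ_[p])‖ = 1 := by
    have h1 : ‖(q : ℚ_[p]) - u‖ < ‖u‖ := by
      rw [norm_sub_rev, hu]
      exact hq'.trans_lt hEE
    rw [Pool.Agent.TH204.HP.norm_eq_of_near _ _ h1, hu]
  obtain ⟨s, hs'⟩ := root_near n u (q : ℚ_[p]) (by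
      intro h0
      rw [h0, norm_zero] at hqn
      exact zero_ne_one hqn) (by
      rw [hqn, mul_one]
      refine hq'.trans_lt (lt_of_le_of_lt ?_ hE)
      exact inv_anti₀ (by positivity) (pow_le_pow_right₀ hp1.le (by omega)))
  rw [hs', hn]
  exact hNp.mul (isNp_pow s)

variable {r s : ℕ}

include m in
/-- local points in given residue classes -/
lemma loc_pt (K : Fin r → IntermediateField ℚ L) (hh : ∀ i, (classNumber (K i)).Coprime (finrank ℚ (K i)))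
    (hs : ∀ i, Sgn (K i)) (f : MvPolynomial (Fin s) ℤ) (c : Fin r → ℤ) {p : ℕ} [hp : Fact p.Prime] (hpm : ¬ p ∣ m)
    (hpc : ∀ i, ¬ (p : ℤ) ∣ c i) (a : Fin s → ℤ) (j : Fin s)
    (hj : ¬ (p : ℤ) ∣ MvPolynomial.eval a (MvPolynomial.pderiv j f)) (k : ℤ) :
    ∃ t : Fin s → ℚ_[p], (∀ i, ‖t i‖ ≤ 1) ∧ (∀ i, ‖t i - (a i : ℚ_[p])‖ < 1) ∧
      ((p : ℝ) ^ (∏ i, finrank ℚ (K i)))⁻¹ ≤ ‖MvPolynomial.aeval t f + (k : ℚ_[p])‖ ∧
      ∀ i, IsNp (K i) p ((c i : ℚ_[p]) * (MvPolynomial.aeval t f + (k : ℚ_[p]))) := by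
  have hp1 : (1 : ℝ) < p := by exact_mod_cast hp.out.one_lt
  have hcn : ∀ i, ‖((c i : ℤ) : ℚ_[p])‖ = 1 := by
    intro i
    refine le_antisymm (Padic.norm_int_le_one _) ?_
    by_contra h
    exact hpc i (Padic.norm_intCast_lt_one_iff.1 (not_le.1 h))
  obtain ⟨D, hD⟩ : ∃ D, D = ∏ i, finrank ℚ (K i) := ⟨_, rfl⟩
  have hD0 : D ≠ 0 := by
    rw [hD]
    exact prod_ne_zero_iff.2 fun i _ => (finrank_pos (R := ℚ) (M := K i)).ne'
  rw [← hD]
  by_cases hd : (p : ℤ) ∣ MvPolynomial.eval a f + k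
  · obtain ⟨z, hz1, hz2, hz3⟩ := hensel_pt (p := p) (f + MvPolynomial.C (k - (p : ℤ) ^ D)) a j (by
      rw [map_add, MvPolynomial.eval_C]
      have e : MvPolynomial.eval a f + (k - (p : ℤ) ^ D) = (MvPolynomial.eval a f + k) - (p : ℤ) ^ D := by ring
      rw [e]
      exact dvd_sub hd (dvd_pow_self _ hD0)) (by
      rw [map_add, MvPolynomial.pderiv_C, add_zero]
      exact hj)
    have hval : MvPolynomial.aeval z f + (k : ℚ_[p]) = (p : ℚ_[p]) ^ D := by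
      rw [map_add, MvPolynomial.aeval_C] at hz1
      simp only [eq_intCast, Int.cast_sub, Int.cast_pow, Int.cast_natCast] at hz1
      linear_combination hz1
    refine ⟨z, hz2, hz3, ?_, fun i => ?_⟩
    · rw [hval, norm_pow, Padic.norm_p, inv_pow]
    · rw [hval]
      obtain ⟨b, hb⟩ : finrank ℚ (K i) ∣ D := by
        rw [hD]
        exact dvd_prod_of_mem _ (mem_univ i)
      rw [hb, mul_comm (finrank ℚ (K i)) b, pow_mul]
      exact (unit_norm m (K i) (hh i) (hs i) hpm _ (hcn i)).mul (isNp_pow _)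
  · have hun : ‖((MvPolynomial.eval a f + k : ℤ) : ℚ_[p])‖ = 1 := by
      refine le_antisymm (Padic.norm_int_le_one _) ?_
      by_contra h
      exact hd (Padic.norm_intCast_lt_one_iff.1 (not_le.1 h))
    have hval : MvPolynomial.aeval (fun i => (a i : ℚ_[p])) f + (k : ℚ_[p]) = ((MvPolynomial.eval a f + k : ℤ) : ℚ_[p]) := by
      rw [Pool.Agent.Y70.HB.aeval_cast]
      push_cast
      rfl
    refine ⟨fun i => (a i : ℚ_[p]), fun i => Padic.norm_int_le_one _, fun i => by rw [sub_self, norm_zero]; exact one_pos, ?_, fun i => ?_⟩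
    · rw [hval, hun]
      exact inv_le_one_of_one_le₀ (one_le_pow₀ hp1.le)
    · rw [hval]
      apply unit_norm m (K i) (hh i) (hs i) hpm
      rw [norm_mul, hcn, hun, one_mul]

end

section obstruct

variable {n : ℕ}

lemma dv_nonempty {S : Set ℕ} (h : Dv S) : S.Nonempty := by
  by_contra hcon
  rw [Set.not_nonempty_iff_eq_empty] at hcon
  apply h
  rw [hcon]
  simp only [Set.indicator_empty]
  exact summable_zero

lemma kind_mul {G : MvPolynomial (Fin (n + 1)) ℤ} (hG : G ≠ 0) {Q : Polynomial (MvPolynomial (Fin (n + 1)) ℤ)} (hQ : Kind Q) :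
    Kind (Polynomial.C G * Q) := by
  rcases hQ with ⟨G', hG', rfl⟩ | ⟨h1, h2⟩
  · left
    exact ⟨G * G', mul_ne_zero hG hG', by rw [Polynomial.C_mul]⟩
  · right
    refine ⟨by rw [Polynomial.natDegree_C_mul hG]; exact h1, ?_⟩
    have e : toK (Polynomial.C G * Q) = Polynomial.C (algebraMap _ (FractionRing (MvPolynomial (Fin (n + 1)) ℤ)) G) * toK Q := by
      unfold toK
      rw [Polynomial.map_mul, Polynomial.map_C]
    rw [e]
    have hu : IsUnit (Polynomial.C (algebraMap _ (FractionRing (MvPolynomial (Fin (n + 1)) ℤ)) G)) := by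
      apply Polynomial.isUnit_C.2
      apply IsUnit.mk0
      intro h0
      exact hG ((map_eq_zero_iff _ (IsFractionRing.injective _ _)).1 h0)
    exact (irreducible_isUnit_mul hu).2 h2

lemma avoid_one (B : Finset ℕ) {Q : Polynomial (MvPolynomial (Fin (n + 1)) ℤ)} (hQ : Kind Q) {G : MvPolynomial (Fin (n + 1)) ℤ}
    (hG : G ≠ 0) : ∃ p : ℕ, p.Prime ∧ p ∉ B ∧ ∃ a : Fin (n + 1) → ℤ, Obs Q p a ∧ ¬ (p : ℤ) ∣ MvPolynomial.eval a G := by
  have h1 := Pool.Agent.Y932.HB.t_BASE Pool.Agent.Y155.HB.t_SPEC Pool.Agent.Y972.HB.t_NR n _ (kind_mul hG hQ)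
  have h2 := Pool.Agent.Y932.HB.dv_of (T := (B : Set ℕ)) (S := {p : ℕ | p ∉ B ∧ (p.Prime ∧ ∃ a : Fin (n + 1) → ℤ,
    (∃ i, ¬ (p : ℤ) ∣ a i) ∧ Obs (Polynomial.C G * Q) p a)}) (Finset.finite_toSet B) h1
    (fun p hp hpB => ⟨fun h => hpB h, hp⟩)
  obtain ⟨p, hpB, hp, a, -, hob1, hob2⟩ := dv_nonempty h2
  refine ⟨p, hp, hpB, a, ⟨fun hd => hob1 ?_, fun w hd => hob2 w ?_⟩, fun hd => hob1 ?_⟩
  · rw [Polynomial.leadingCoeff_mul, Polynomial.leadingCoeff_C, map_mul]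
    exact Dvd.dvd.mul_left hd _
  · rw [Polynomial.map_mul, Polynomial.map_C, Polynomial.eval_mul, Polynomial.eval_C]
    exact Dvd.dvd.mul_left hd _
  · rw [Polynomial.leadingCoeff_mul, Polynomial.leadingCoeff_C, map_mul]
    exact Dvd.dvd.mul_right hd _

lemma avoid_fin (B : Finset ℕ) {l : ℕ} (Q : Fin l → Polynomial (MvPolynomial (Fin (n + 1)) ℤ)) (hQ : ∀ i, Kind (Q i))
    {G : MvPolynomial (Fin (n + 1)) ℤ} (hG : G ≠ 0) (A : Finset (Fin l)) :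
    ∃ T' : Finset Nat.Primes, (∀ p ∈ T', (p : ℕ) ∉ B) ∧ ∃ a : Nat.Primes → Fin (n + 1) → ℤ,
      (∀ p ∈ T', ¬ ((p : ℕ) : ℤ) ∣ MvPolynomial.eval (a p) G) ∧
      ∀ x : Fin (n + 1) → ℚ, (∀ p ∈ T', ∀ i, ‖((x i : ℚ) : ℚ_[((p : Nat.Primes) : ℕ)]) - (a p i : ℚ_[(p : ℕ)])‖ < 1) →
        ∀ i ∈ A, ∀ w : ℚ, ((Q i).map (evQ x)).eval w ≠ 0 := by
  classical
  induction A using Finset.induction_on with
  | empty => exact ⟨∅, by simp, fun _ _ => 0, by simp, by simp⟩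
  | insert i A hi ih =>
    obtain ⟨T', hT', a, ha, hx⟩ := ih
    obtain ⟨p, hp, hpB, a0, hob, hG0⟩ := avoid_one (B ∪ T'.image (fun q : Nat.Primes => (q : ℕ))) (hQ i) hG
    obtain ⟨q0, rfl⟩ : ∃ q0 : Nat.Primes, (q0 : ℕ) = p := ⟨⟨p, hp⟩, rfl⟩
    rw [Finset.mem_union, not_or] at hpB
    have hne : ∀ q ∈ T', q ≠ q0 := by
      rintro q hq rfl
      exact hpB.2 (Finset.mem_image_of_mem (fun q : Nat.Primes => (q : ℕ)) hq)
    refine ⟨insert q0 T', ?_, Function.update a q0 a0, ?_, ?_⟩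
    · intro q hq
      rcases Finset.mem_insert.1 hq with rfl | hq
      · exact hpB.1
      · exact hT' q hq
    · intro q hq
      rcases Finset.mem_insert.1 hq with rfl | hq
      · rw [Function.update_self]
        exact hG0
      · rw [Function.update_of_ne (hne q hq)]
        exact ha q hq
    · intro x hxx i' hi' w
      rcases Finset.mem_insert.1 hi' with rfl | hi'
      · have : Fact (q0 : ℕ).Prime := ⟨q0.2⟩
        refine Pool.Agent.Y420.HB.t_LOC n (Q i') q0 a0 hob x (fun j => ?_) w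
        have h1 := hxx q0 (Finset.mem_insert_self _ _) j
        rw [Function.update_self] at h1
        exact h1
      · refine hx x (fun q hq j => ?_) i' hi' w
        have h1 := hxx q (Finset.mem_insert_of_mem hq) j
        rw [Function.update_of_ne (hne q hq)] at h1
        exact h1

lemma exists_pderiv {s : ℕ} (f : MvPolynomial (Fin s) ℤ) (hd : 1 ≤ f.totalDegree) : ∃ j, MvPolynomial.pderiv j f ≠ 0 := by
  classical
  by_contra hcon
  push Not at hcon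
  have h0 : f.totalDegree = 0 := by
    rw [MvPolynomial.totalDegree_eq_zero_iff]
    intro u hu j
    by_contra hj
    have h1 := MvPolynomial.coeff_pderiv (i := j) f (u - Finsupp.single j 1)
    rw [hcon j, MvPolynomial.coeff_zero] at h1
    have h2 : u - Finsupp.single j 1 + Finsupp.single j 1 = u := by
      apply tsub_add_cancel_of_le
      rw [Finsupp.single_le_iff]
      omega
    rw [h2] at h1
    have h3 : MvPolynomial.coeff u f ≠ 0 := MvPolynomial.mem_support_iff.1 hu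
    refine mul_ne_zero h3 ?_ h1.symm
    positivity
  omega

/-- a thin set is avoided by conditions at finitely many primes -/
theorem avoid (B : Finset ℕ) (P : Polynomial (MvPolynomial (Fin (n + 1)) ℤ)) (hP : NoRoot P)
    (f : MvPolynomial (Fin (n + 1)) ℤ) (hd : 1 ≤ f.totalDegree) :
    ∃ T' : Finset Nat.Primes, (∀ p ∈ T', (p : ℕ) ∉ B) ∧ ∃ (a : Nat.Primes → Fin (n + 1) → ℤ) (j : Fin (n + 1)),
      (∀ p ∈ T', ¬ ((p : ℕ) : ℤ) ∣ MvPolynomial.eval (a p) (MvPolynomial.pderiv j f)) ∧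
      ∀ x : Fin (n + 1) → ℚ, (∀ p ∈ T', ∀ i, ‖((x i : ℚ) : ℚ_[((p : Nat.Primes) : ℕ)]) - (a p i : ℚ_[(p : ℕ)])‖ < 1) →
        ∀ w : ℚ, (P.map (evQ x)).eval w ≠ 0 := by
  obtain ⟨j, hj⟩ := exists_pderiv f hd
  obtain ⟨l, Q, c, hcP, hQ⟩ := Pool.Agent.Y945.HB.t_FAC n P hP
  obtain ⟨T', hT', a, ha, hx⟩ := avoid_fin B Q hQ hj Finset.univ
  refine ⟨T', hT', a, j, ha, fun x hxx w h0 => ?_⟩
  have h1 := congrArg (fun R : Polynomial (MvPolynomial (Fin (n + 1)) ℤ) => (R.map (evQ x)).eval w) hcP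
  simp only [Polynomial.map_mul, Polynomial.eval_mul, h0, mul_zero, Polynomial.map_prod, Polynomial.eval_prod] at h1
  exact (Finset.prod_ne_zero_iff.2 fun i _ => hx x hxx i (Finset.mem_univ i) w) h1.symm

end obstruct

section main

variable (m : ℕ) [NeZero m] {L : Type} [Field L] [NumberField L] [IsCyclotomicExtension {m} ℚ L]
variable {r n : ℕ}

include m in
/-- adding primes -/
theorem thin_step (K : Fin r → IntermediateField ℚ L) (hh : ∀ i, (classNumber (K i)).Coprime (finrank ℚ (K i)))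
    (hs : ∀ i, Sgn (K i)) (f : MvPolynomial (Fin (n + 1)) ℤ) (hd : 2 ≤ f.totalDegree) (c : Fin r → ℤ) (hc : ∀ i, c i ≠ 0)
    (P : Polynomial (MvPolynomial (Fin (n + 1)) ℤ)) (hP : NoRoot P) (T : Finset Nat.Primes) (N : ℕ) :
    ∃ (T'' : Finset Nat.Primes) (N'' : ℕ), T ⊆ T'' ∧ ∀ (k : ℤ) (t : (p : Nat.Primes) → Fin (n + 1) → ℚ_[(p : ℕ)]),
      Lc K f c T N k t → ∃ t'' : (p : Nat.Primes) → Fin (n + 1) → ℚ_[(p : ℕ)], Lc K f c T'' N'' k t'' ∧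
        (Gl K f c T'' N'' k t'' → ∃ x : Fin (n + 1) → ℚ,
          (∀ p ∈ T, ∀ j, ‖((x j : ℚ) : ℚ_[(p : ℕ)]) - t p j‖ ≤ (((p : ℕ) : ℝ) ^ N)⁻¹) ∧
          MvPolynomial.aeval x f + (k : ℚ) ≠ 0 ∧ (∀ i, IsN (K i) ((c i : ℚ) * (MvPolynomial.aeval x f + (k : ℚ)))) ∧
          ∀ w : ℚ, (P.map (evQ x)).eval w ≠ 0) := by
  classical
  obtain ⟨B, hB⟩ : ∃ B : Finset ℕ, B = T.image (fun q : Nat.Primes => (q : ℕ)) ∪ m.primeFactors ∪
    Finset.univ.biUnion (fun i => (c i).natAbs.primeFactors) := ⟨_, rfl⟩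
  obtain ⟨T', hT', a, j, ha, hx⟩ := avoid B P hP f (by omega)
  obtain ⟨D, hD⟩ : ∃ D, D = ∏ i, finrank ℚ (K i) := ⟨_, rfl⟩
  have hD0 : D ≠ 0 := by
    rw [hD]
    exact prod_ne_zero_iff.2 fun i _ => (finrank_pos (R := ℚ) (M := K i)).ne'
  have hBT : ∀ p ∈ T', p ∉ T := by
    intro p hp hpT
    apply hT' p hp
    rw [hB]
    exact Finset.mem_union_left _ (Finset.mem_union_left _ (Finset.mem_image_of_mem (fun q : Nat.Primes => (q : ℕ)) hpT))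
  have hBm : ∀ p ∈ T', ¬ ((p : Nat.Primes) : ℕ) ∣ m := by
    intro p hp hpm
    apply hT' p hp
    rw [hB]
    exact Finset.mem_union_left _ (Finset.mem_union_right _ (Nat.mem_primeFactors.2 ⟨p.2, hpm, NeZero.ne m⟩))
  have hBc : ∀ p ∈ T', ∀ i, ¬ ((((p : Nat.Primes) : ℕ) : ℤ)) ∣ c i := by
    intro p hp i hpc
    apply hT' p hp
    rw [hB]
    refine Finset.mem_union_right _ (Finset.mem_biUnion.2 ⟨i, Finset.mem_univ i, Nat.mem_primeFactors.2 ⟨p.2, ?_, ?_⟩⟩)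
    · exact Int.natCast_dvd.1 hpc
    · exact Int.natAbs_ne_zero.2 (hc i)
  refine ⟨T ∪ T', N + D, Finset.subset_union_left, fun k t hloc => ?_⟩
  have hpt : ∀ p : Nat.Primes, ∃ t' : Fin (n + 1) → ℚ_[(p : ℕ)], p ∈ T' → (∀ i, ‖t' i‖ ≤ 1) ∧
      (∀ i, ‖t' i - (a p i : ℚ_[(p : ℕ)])‖ < 1) ∧
      ((((p : ℕ) : ℝ) ^ D))⁻¹ ≤ ‖MvPolynomial.aeval t' f + (k : ℚ_[(p : ℕ)])‖ ∧
      ∀ i, IsNp (K i) (p : ℕ) ((c i : ℚ_[(p : ℕ)]) * (MvPolynomial.aeval t' f + (k : ℚ_[(p : ℕ)]))) := by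
    intro p
    by_cases hp : p ∈ T'
    · have : Fact ((p : ℕ)).Prime := ⟨p.2⟩
      obtain ⟨t', h1, h2, h3, h4⟩ := loc_pt m K hh hs f c (p := (p : ℕ)) (hBm p hp) (hBc p hp) (a p) j (ha p hp) k
      rw [← hD] at h3
      exact ⟨t', fun _ => ⟨h1, h2, h3, h4⟩⟩
    · exact ⟨0, fun h => absurd h hp⟩
  choose t' ht' using hpt
  have hpow : ∀ (p : Nat.Primes) (a b : ℕ), a ≤ b → ((p : ℕ) : ℝ) ^ a ≤ ((p : ℕ) : ℝ) ^ b := by
    intro p a b hab
    exact pow_le_pow_right₀ (by exact_mod_cast p.2.one_lt.le) hab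
  have hinv : ∀ (p : Nat.Primes) (a b : ℕ), a ≤ b → (((p : ℕ) : ℝ) ^ b)⁻¹ ≤ (((p : ℕ) : ℝ) ^ a)⁻¹ := by
    intro p a b hab
    have : (0 : ℝ) < ((p : ℕ) : ℝ) := by exact_mod_cast p.2.pos
    exact inv_anti₀ (by positivity) (hpow p a b hab)
  refine ⟨fun p => if p ∈ T then t p else t' p, ?_, ?_⟩
  · intro p hp
    by_cases hpT : p ∈ T
    · simp only [if_pos hpT]
      obtain ⟨h1, h2, h3⟩ := hloc p hpT
      exact ⟨fun j => (h1 j).trans (hpow p _ _ (Nat.le_add_right _ _)), (hinv p _ _ (Nat.le_add_right _ _)).trans h2, h3⟩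
    · simp only [if_neg hpT]
      have hpT' : p ∈ T' := (Finset.mem_union.1 hp).resolve_left hpT
      obtain ⟨h1, -, h3, h4⟩ := ht' p hpT'
      refine ⟨fun j => (h1 j).trans (one_le_pow₀ (by exact_mod_cast p.2.one_lt.le)), (hinv p _ _ (Nat.le_add_left _ _)).trans h3, h4⟩
  · rintro ⟨x, hx1, hx2, hx3⟩
    refine ⟨x, fun p hp j => ?_, hx2, hx3, fun w => hx x (fun p hp i => ?_) w⟩
    · have h1 := hx1 p (Finset.mem_union_left _ hp) j
      simp only [if_pos hp] at h1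
      exact h1.trans (hinv p _ _ (Nat.le_add_right _ _))
    · have h1 := hx1 p (Finset.mem_union_right _ hp) i
      simp only [if_neg (hBT p hp)] at h1
      have h2 := (ht' p hp).2.1 i
      have e : ((x i : ℚ) : ℚ_[(p : ℕ)]) - (a p i : ℚ_[(p : ℕ)]) =
        (((x i : ℚ) : ℚ_[(p : ℕ)]) - t' p i) + (t' p i - (a p i : ℚ_[(p : ℕ)])) := by ring
      rw [e]
      refine (Padic.nonarchimedean _ _).trans_lt (max_lt (h1.trans_lt ?_) h2)
      apply inv_lt_one_of_one_lt₀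
      exact one_lt_pow₀ (by exact_mod_cast p.2.one_lt) (by omega)

include m in
theorem thinA (K : Fin r → IntermediateField ℚ L) (hh : ∀ i, (classNumber (K i)).Coprime (finrank ℚ (K i)))
    (hs : ∀ i, Sgn (K i)) (f : MvPolynomial (Fin (n + 1)) ℤ) (hd : 2 ≤ f.totalDegree) (c : Fin r → ℤ) (hc : ∀ i, c i ≠ 0) :
    ∃ T0 : Finset Nat.Primes, ∀ T : Finset Nat.Primes, T0 ⊆ T → ∀ (N U : ℕ) (P : Polynomial (MvPolynomial (Fin (n + 1)) ℤ)),
      NoRoot P → ∃ X0 : ℕ, ∀ X : ℕ, X0 ≤ X →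
      ∃ Bad : Finset ℤ, (#Bad : ℝ) ≤ X / Real.log X ^ U ∧ ∀ k : ℤ, |k| ≤ X → k ∉ Bad → Rc K f c k →
      ∀ t : (p : Nat.Primes) → Fin (n + 1) → ℚ_[(p : ℕ)], Lc K f c T N k t → ∃ x : Fin (n + 1) → ℚ,
          (∀ p ∈ T, ∀ j, ‖((x j : ℚ) : ℚ_[(p : ℕ)]) - t p j‖ ≤ (((p : ℕ) : ℝ) ^ N)⁻¹) ∧
          MvPolynomial.aeval x f + (k : ℚ) ≠ 0 ∧ (∀ i, IsN (K i) ((c i : ℚ) * (MvPolynomial.aeval x f + (k : ℚ)))) ∧
          ∀ w : ℚ, (P.map (evQ x)).eval w ≠ 0 := by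
  obtain ⟨T0, h⟩ := mainA m K hh hs f hd c hc
  refine ⟨T0, fun T hT N U P hP => ?_⟩
  obtain ⟨T'', N'', hTT, hstep⟩ := thin_step m K hh hs f hd c hc P hP T N
  obtain ⟨X0, h⟩ := h T'' (hT.trans hTT) N'' U
  refine ⟨X0, fun X hX => ?_⟩
  obtain ⟨Bad, hB1, hB2⟩ := h X hX
  refine ⟨Bad, hB1, fun k hk hkB hr t ht => ?_⟩
  obtain ⟨t'', h1, h2⟩ := hstep k t ht
  exact h2 (hB2 k hk hkB hr t'' h1)

include m in
theorem thinC (K : Fin r → IntermediateField ℚ L) (hh : ∀ i, (classNumber (K i)).Coprime (finrank ℚ (K i)))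
    (hs : ∀ i, Sgn (K i)) (f : MvPolynomial (Fin (n + 1)) ℤ) (hd : 2 ≤ f.totalDegree)
    (hcop : ∀ i, f.totalDegree.Coprime (finrank ℚ (K i)))
    (hsg : Odd f.totalDegree ∨ ∀ i, ∃ x : K i, Algebra.norm ℚ x = -1)
    (T : Finset Nat.Primes) (N U : ℕ) (P : Polynomial (MvPolynomial (Fin (n + 1)) ℤ)) (hP : NoRoot P) :
    ∃ X0 : ℕ, ∀ X : ℕ, X0 ≤ X →
      ∃ Bad : Finset ℤ, (#Bad : ℝ) ≤ X / Real.log X ^ U ∧ ∀ k : ℤ, |k| ≤ X → k ∉ Bad →
      ∀ t : (p : Nat.Primes) → Fin (n + 1) → ℚ_[(p : ℕ)], Lc K f (fun _ => 1) T N k t → ∃ x : Fin (n + 1) → ℚ,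
          (∀ p ∈ T, ∀ j, ‖((x j : ℚ) : ℚ_[(p : ℕ)]) - t p j‖ ≤ (((p : ℕ) : ℝ) ^ N)⁻¹) ∧
          MvPolynomial.aeval x f + (k : ℚ) ≠ 0 ∧
          (∀ i, IsN (K i) ((((fun _ => 1 : Fin r → ℤ) i : ℤ) : ℚ) * (MvPolynomial.aeval x f + (k : ℚ)))) ∧
          ∀ w : ℚ, (P.map (evQ x)).eval w ≠ 0 := by
  obtain ⟨T'', N'', hTT, hstep⟩ := thin_step m K hh hs f hd (fun _ => 1) (fun _ => one_ne_zero) P hP T N
  obtain ⟨X0, h⟩ := mainC m K hh hs f hd hcop hsg T'' N'' U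
  refine ⟨X0, fun X hX => ?_⟩
  obtain ⟨Bad, hB1, hB2⟩ := h X hX
  refine ⟨Bad, hB1, fun k hk hkB t ht => ?_⟩
  obtain ⟨t'', h1, h2⟩ := hstep k t ht
  exact h2 (hB2 k hk hkB t'' h1)

end main

end Pool.Agent.R479.NF
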