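import Pool.Agent.R479.NF.HP
import Pool.Agent.R479.NF.Thin

/-!
# The main theorem for one variable and a given set of primes
-/

set_option autoImplicit false
set_option linter.unusedSectionVars false

namespace Pool.Agent.R479.NF

open NumberField Module TensorProduct Finset Filter Polynomial
open Pool.Agent.TH204.HP (primes_upto lip2 BigT)

variable (m : ℕ) [NeZero m] {L : Type} [Field L] [NumberField L] [IsCyclotomicExtension {m} ℚ L]
variable {r : ℕ}

/-- the local conditions -/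
def LcU (K : Fin r → IntermediateField ℚ L) (g : ℤ[X]) (c : Fin r → ℤ) (T : Finset Nat.Primes) (N : ℕ) (k : ℤ)
    (t : (p : Nat.Primes) → ℚ_[(p : ℕ)]) : Prop :=
  ∀ p ∈ T, ‖t p‖ ≤ ((p : ℕ) : ℝ) ^ N ∧ (((p : ℕ) : ℝ) ^ N)⁻¹ ≤ ‖aeval (t p) g + (k : ℚ_[(p : ℕ)])‖ ∧
    ∀ i, IsNp (K i) (p : ℕ) ((c i : ℚ_[(p : ℕ)]) * (aeval (t p) g + (k : ℚ_[(p : ℕ)])))

/-- the rational point -/
def GlU (K : Fin r → IntermediateField ℚ L) (g : ℤ[X]) (c : Fin r → ℤ) (T : Finset Nat.Primes) (N : ℕ) (k : ℤ)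
    (t : (p : Nat.Primes) → ℚ_[(p : ℕ)]) : Prop :=
  ∃ x : ℚ, (∀ p ∈ T, ‖(x : ℚ_[(p : ℕ)]) - t p‖ ≤ (((p : ℕ) : ℝ) ^ N)⁻¹) ∧
    aeval x g + (k : ℚ) ≠ 0 ∧ ∀ i, IsN (K i) ((c i : ℚ) * (aeval x g + (k : ℚ)))

include m in
theorem mainU0 (K : Fin r → IntermediateField ℚ L) (hh : ∀ i, (classNumber (K i)).Coprime (finrank ℚ (K i)))
    (hs : ∀ i, Sgn (K i)) (f : ℤ[X]) (hd : 2 ≤ f.natDegree) (c : Fin r → ℤ) (hc : ∀ i, c i ≠ 0)
    (T : Finset Nat.Primes) (hTm : ∀ p : Nat.Primes, (p : ℕ) ∣ m → p ∈ T) (hTl : BigT f ∅ T)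
    (hTc : ∀ i, Smooth T (c i).natAbs) (N U : ℕ) : ∃ X0 : ℕ, ∀ X : ℕ, X0 ≤ X →
      ∃ Bad : Finset ℤ, (#Bad : ℝ) ≤ X / Real.log X ^ U ∧ ∀ k : ℤ, |k| ≤ X → k ∉ Bad →
      (∀ i, (∃ x : K i, Algebra.norm ℚ x = -1) ∨ 0 < c i) → (∃ ρ : ℝ, 0 < aeval ρ f + k) →
      ∀ t : (p : Nat.Primes) → ℚ_[(p : ℕ)], LcU K f c T N k t → GlU K f c T N k t := by
  classical
  obtain ⟨N', hN'⟩ : ∃ N', N' = N + m := ⟨_, rfl⟩
  obtain ⟨E, hE⟩ : ∃ E, E = (2 * f.natDegree + 3) * N' + 3 := ⟨_, rfl⟩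
  have hN'E : N' ≤ E := by
    rw [hE]
    nlinarith
  obtain ⟨X0, hX0⟩ := pv1 f hd T hTl E U
  refine ⟨X0, fun X hX => ?_⟩
  obtain ⟨Bad, hB1, hB2⟩ := hX0 X hX
  refine ⟨Bad, hB1, fun k hk hkB hcs hreal t ht => ?_⟩
  have hone : ∀ p : Nat.Primes, (1 : ℝ) < ((p : ℕ) : ℝ) := fun p => by exact_mod_cast p.2.one_lt
  obtain ⟨x, hx1, hx2⟩ := hB2 k hk hkB hreal t (by
    intro p hp
    obtain ⟨h1, h2, -⟩ := ht p hp
    have h0 : (0 : ℝ) < ((p : ℕ) : ℝ) := by linarith [hone p]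
    exact ⟨h1.trans (pow_le_pow_right₀ (hone p).le (by omega)),
      (inv_anti₀ (by positivity) (pow_le_pow_right₀ (hone p).le (by omega))).trans h2⟩)
  have key : ∀ i, IsN (K i) (((c i).natAbs : ℚ) * (aeval x f + (k : ℚ))) := by
    intro i
    refine isN_of_close m (K i) (hh i) (hs i) T hTm N' (by omega) (c i).natAbs (hTc i) _ hx2
      (fun p => aeval (t p) f + (k : ℚ_[(p : ℕ)])) ?_ ?_ ?_
    · intro p hp
      have h0 : (0 : ℝ) < ((p : ℕ) : ℝ) := by linarith [hone p]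
      exact (inv_anti₀ (by positivity) (pow_le_pow_right₀ (hone p).le (by omega))).trans (ht p hp).2.1
    · intro p hp
      have h0 : (0 : ℝ) < ((p : ℕ) : ℝ) := by linarith [hone p]
      have h1 := hx1 p hp
      rw [hE] at h1
      have h2 : ‖t p‖ ≤ ((p : ℕ) : ℝ) ^ N' := (ht p hp).1.trans (pow_le_pow_right₀ (hone p).le (by omega))
      have h3 : ‖(x : ℚ_[(p : ℕ)])‖ ≤ ((p : ℕ) : ℝ) ^ N' := by
        have e : (x : ℚ_[(p : ℕ)]) = ((x : ℚ_[(p : ℕ)]) - t p) + t p := by ring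
        rw [e]
        refine (Padic.nonarchimedean _ _).trans (max_le ?_ h2)
        exact h1.trans (le_trans (inv_le_one_of_one_le₀ (one_le_pow₀ (hone p).le)) (one_le_pow₀ (hone p).le))
      have h4 := lip2 f T N' p hp (x : ℚ_[(p : ℕ)]) (t p) h3 h2 h1
      have e : (((aeval x f + (k : ℚ) : ℚ)) : ℚ_[(p : ℕ)]) - (aeval (t p) f + (k : ℚ_[(p : ℕ)])) =
          aeval (x : ℚ_[(p : ℕ)]) f - aeval (t p) f := by
        have e2 : ((aeval x f : ℚ) : ℚ_[(p : ℕ)]) = aeval (x : ℚ_[(p : ℕ)]) f := by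
          have := aeval_algebraMap_apply ℚ_[(p : ℕ)] x f
          simp only [eq_ratCast] at this
          exact this.symm
        push_cast
        rw [e2]
        ring
      rw [e]
      exact h4
    · intro p hp
      have h1 := (ht p hp).2.2 i
      rcases lt_or_gt_of_ne (hc i) with hneg | hpos
      · have h2 : ∃ x : K i, Algebra.norm ℚ x = -1 := (hcs i).resolve_right (by omega)
        have h3 := h1.neg h2
        have h4 : (((c i).natAbs : ℕ) : ℚ_[(p : ℕ)]) = -(c i : ℚ_[(p : ℕ)]) := by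
          have : (((c i).natAbs : ℕ) : ℤ) = -(c i) := by
            rw [Int.natCast_natAbs, abs_of_neg hneg]
          have h5 : ((((c i).natAbs : ℕ) : ℤ) : ℚ_[(p : ℕ)]) = ((-(c i) : ℤ) : ℚ_[(p : ℕ)]) := by rw [this]
          push_cast at h5
          simpa using h5
        rw [h4, neg_mul]
        exact h3
      · have h4 : (((c i).natAbs : ℕ) : ℚ_[(p : ℕ)]) = (c i : ℚ_[(p : ℕ)]) := by
          have : (((c i).natAbs : ℕ) : ℤ) = (c i) := by
            rw [Int.natCast_natAbs, abs_of_pos hpos]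
          have h5 : ((((c i).natAbs : ℕ) : ℤ) : ℚ_[(p : ℕ)]) = ((c i : ℤ) : ℚ_[(p : ℕ)]) := by rw [this]
          simpa using h5
        rw [h4]
        exact h1
  refine ⟨x, fun p hp => (hx1 p hp).trans ?_, hx2.pos.ne', fun i => ?_⟩
  · have h0 : (0 : ℝ) < ((p : ℕ) : ℝ) := by linarith [hone p]
    exact inv_anti₀ (by positivity) (pow_le_pow_right₀ (hone p).le (by omega))
  rcases lt_or_gt_of_ne (hc i) with hneg | hpos
  · have h2 : IsN (K i) (-1) := (hcs i).resolve_right (by omega)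
    have h3 := h2.mul (key i)
    have h4 : (((c i).natAbs : ℕ) : ℚ) = -(c i : ℚ) := by
      have : (((c i).natAbs : ℕ) : ℤ) = -(c i) := by
        rw [Int.natCast_natAbs, abs_of_neg hneg]
      rw [← Int.cast_natCast (R := ℚ), this, Int.cast_neg]
    rw [h4] at h3
    have e : (-1 : ℚ) * (-(c i : ℚ) * (aeval x f + (k : ℚ))) = (c i : ℚ) * (aeval x f + (k : ℚ)) := by ring
    rwa [e] at h3
  · have h4 : (((c i).natAbs : ℕ) : ℚ) = (c i : ℚ) := by
      have : (((c i).natAbs : ℕ) : ℤ) = (c i) := by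
        rw [Int.natCast_natAbs, abs_of_pos hpos]
      rw [← Int.cast_natCast (R := ℚ), this]
    have := key i
    rwa [h4] at this

include m in
theorem mainU (K : Fin r → IntermediateField ℚ L) (hh : ∀ i, (classNumber (K i)).Coprime (finrank ℚ (K i)))
    (hs : ∀ i, Sgn (K i)) (f : ℤ[X]) (hd : 2 ≤ f.natDegree) (c : Fin r → ℤ) (hc : ∀ i, c i ≠ 0)
    (T : Finset Nat.Primes) (hTm : ∀ p : Nat.Primes, (p : ℕ) ∣ m → p ∈ T) (hTl : BigT f ∅ T)
    (hTc : ∀ i, Smooth T (c i).natAbs) (N U : ℕ) : ∃ X0 : ℕ, ∀ X : ℕ, X0 ≤ X →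
      ∃ Bad : Finset ℤ, (#Bad : ℝ) ≤ X / Real.log X ^ U ∧ ∀ k : ℤ, |k| ≤ X → k ∉ Bad →
      (∃ ρ : ℝ, aeval ρ f + (k : ℝ) ≠ 0 ∧ ∀ i, (∃ x : K i, Algebra.norm ℚ x = -1) ∨ 0 < (c i : ℝ) * (aeval ρ f + k)) →
      ∀ t : (p : Nat.Primes) → ℚ_[(p : ℕ)], LcU K f c T N k t → GlU K f c T N k t := by
  classical
  have hTl' : BigT (-f) ∅ T := by
    intro p hp
    apply hTl p
    rw [natDegree_neg, leadingCoeff_neg, dvd_neg] at hp
    exact hp
  obtain ⟨X1, h1⟩ := mainU0 m K hh hs f hd c hc T hTm hTl hTc N (U + 1)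
  obtain ⟨X2, h2⟩ := mainU0 m K hh hs (-f) (by rw [natDegree_neg]; exact hd) (fun i => -c i)
    (fun i => neg_ne_zero.2 (hc i)) T hTm hTl' (fun i => by rw [Int.natAbs_neg]; exact hTc i) N (U + 1)
  obtain ⟨X3, hX3⟩ := eventually_atTop.1 (Pool.Agent.TH204.WR.evt_log_ge 2)
  refine ⟨max (max X1 X2) X3, fun X hX => ?_⟩
  obtain ⟨B1, hB1, hC1⟩ := h1 X ((le_trans (le_max_left _ _) (le_max_left _ _)).trans hX)
  obtain ⟨B2, hB2, hC2⟩ := h2 X ((le_trans (le_max_right _ _) (le_max_left _ _)).trans hX)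
  have hL := hX3 X ((le_max_right _ _).trans hX)
  refine ⟨B1 ∪ B2.image (fun k => -k), ?_, ?_⟩
  · have h3 : #(B1 ∪ B2.image (fun k => -k)) ≤ #B1 + #B2 :=
      (card_union_le _ _).trans (Nat.add_le_add_left card_image_le _)
    have h4 : (#(B1 ∪ B2.image (fun k => -k)) : ℝ) ≤ (#B1 : ℝ) + #B2 := by exact_mod_cast h3
    refine h4.trans ?_
    have h5 : (X : ℝ) / Real.log X ^ U = Real.log X * (X / Real.log X ^ (U + 1)) := by
      have : Real.log X ≠ 0 := by linarith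
      rw [pow_succ]
      field_simp
    rw [h5]
    have h6 : 0 ≤ (X : ℝ) / Real.log X ^ (U + 1) := le_trans (Nat.cast_nonneg _) hB1
    nlinarith
  · rintro k hk hkB ⟨ρ, hρ1, hρ2⟩ t hloc
    rw [mem_union, not_or] at hkB
    rcases lt_or_gt_of_ne hρ1 with hneg' | hpos
    · have hkB2 : -k ∉ B2 := by
        intro h3
        exact hkB.2 (mem_image.2 ⟨-k, h3, neg_neg k⟩)
      obtain ⟨x, hx1, hx2, hx3⟩ := hC2 (-k) (by rw [abs_neg]; exact hk) hkB2 (fun i => by
          rcases hρ2 i with h | h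
          · exact Or.inl h
          · right
            have h6 : (c i : ℝ) < 0 := by
              by_contra hcon
              have := mul_nonpos_of_nonneg_of_nonpos (not_lt.1 hcon) hneg'.le
              linarith
            have h7 : c i < 0 := by exact_mod_cast h6
            linarith) ⟨ρ, by
          rw [map_neg]
          push_cast
          linarith⟩ t (by
          intro p hp
          obtain ⟨h3, h4, h5⟩ := hloc p hp
          have e : aeval (t p) (-f) + ((-k : ℤ) : ℚ_[(p : ℕ)]) = -(aeval (t p) f + (k : ℚ_[(p : ℕ)])) := by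
            rw [map_neg]
            push_cast
            ring
          refine ⟨h3, ?_, fun i => ?_⟩
          · rw [e, norm_neg]
            exact h4
          · have h6 := h5 i
            rw [e]
            have e2 : (((-c i : ℤ)) : ℚ_[(p : ℕ)]) * -(aeval (t p) f + (k : ℚ_[(p : ℕ)])) =
                (c i : ℚ_[(p : ℕ)]) * (aeval (t p) f + (k : ℚ_[(p : ℕ)])) := by
              push_cast
              ring
            rw [e2]
            exact h6)
      have e : aeval x (-f) + ((-k : ℤ) : ℚ) = -(aeval x f + (k : ℚ)) := by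
        rw [map_neg]
        push_cast
        ring
      refine ⟨x, hx1, ?_, fun i => ?_⟩
      · rw [e] at hx2
        exact fun h0 => hx2 (by rw [h0, neg_zero])
      · have h6 := hx3 i
        rw [e] at h6
        have e2 : ((-c i : ℤ) : ℚ) * -(aeval x f + (k : ℚ)) = (c i : ℚ) * (aeval x f + (k : ℚ)) := by
          push_cast
          ring
        rwa [e2] at h6
    · refine hC1 k hk hkB.1 (fun i => ?_) ⟨ρ, hpos⟩ t hloc
      rcases hρ2 i with h | h
      · exact Or.inl h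
      · right
        have h6 : (0 : ℝ) < c i := (mul_pos_iff_of_pos_right hpos).1 h
        exact_mod_cast h6

end Pool.Agent.R479.NF
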