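import Pool.Agent.R479.NF.Br1
import Pool.Agent.TH204.HP.H18

/-!
# Auxiliary lemmas for `N(z) = b t (f(t) + k)`
-/

set_option autoImplicit false
set_option linter.unusedSectionVars false

namespace Pool.Agent.R479.NF

open NumberField Module TensorProduct Finset Filter Polynomial
open Pool.Agent.TH204.HP (gcd_facts prod_split mem_of_dvd_prod eval_shift int_norm_gt)
open Pool.Agent.H771R2.Dens (cnt Per Big big_ap exists_exp_small per_exact)

variable (m : ℕ) [NeZero m] {L : Type} [Field L] [NumberField L] [IsCyclotomicExtension {m} ℚ L]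

include m in
/-- all numbers are norms at the primes which split completely -/
lemma split_norm (K : IntermediateField ℚ L) (hh : (classNumber K).Coprime (finrank ℚ K)) (hs : Sgn K)
    {l : ℕ} [hl : Fact l.Prime] (hlm : ¬ l ∣ m) (hl1 : l ≡ 1 [MOD m]) (x : ℚ_[l]) (hx : x ≠ 0) : IsNp K l x := by
  obtain ⟨P, hP⟩ := exists_absNorm m (K := K) hl.out hlm (good_congr m K (good_one m K) hl1.symm)
  have hPb : P ≠ ⊥ := by
    rintro rfl
    rw [Ideal.absNorm_bot] at hP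
    exact hl.out.ne_zero hP.symm
  have hN := isN_absNorm (K := K) hh hs P hPb
  rw [hP] at hN
  obtain ⟨y, hy⟩ := hN
  have hl0 : ((l : ℕ) : ℚ_[l]) ≠ 0 := by exact_mod_cast hl.out.ne_zero
  have hNp : IsNp K l (((l : ℕ) : ℚ_[l]) ^ x.valuation) := ⟨(1 : ℚ_[l]) ⊗ₜ (y ^ x.valuation), by
    rw [norm_one_tmul, nh_apply, map_zpow₀, ← nh_apply, hy]
    push_cast
    rfl⟩
  obtain ⟨u, hu⟩ : ∃ u : ℚ_[l], u = x * (((l : ℕ) : ℚ_[l]) ^ x.valuation)⁻¹ := ⟨_, rfl⟩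
  have hun : ‖u‖ = 1 := by
    have h1 := Padic.norm_eq_zpow_neg_valuation hx
    have hlr : ((l : ℕ) : ℝ) ≠ 0 := by exact_mod_cast hl.out.ne_zero
    rw [hu, norm_mul, norm_inv, norm_zpow, Padic.norm_p, h1, inv_zpow, inv_inv, ← zpow_add₀ hlr]
    simp
  have e : x = ((l : ℕ) : ℚ_[l]) ^ x.valuation * u := by
    rw [hu]
    field_simp
  rw [e]
  exact hNp.mul (unit_norm m K hh hs hlm u hun)

/-- the integer `c` -/
lemma exists_cr (m : ℕ) [NeZero m] (T : Finset Nat.Primes) (E B M u0 : ℕ) (hM : M = ∏ p ∈ T, (p : ℕ) ^ E) (hmM : m ∣ M)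
    (σ : ℤ) (hσ : σ = 1 ∨ σ = -1) (hu : ∀ p ∈ T, ¬ (((p : ℕ) ^ E : ℕ) : ℤ) ∣ (u0 : ℤ)) :
    ∃ a : ZMod m, IsUnit a ∧ ∀ q : Nat.Primes, q ∉ T → ((q : ℕ) : ZMod m) = a → ∀ j : ℕ, Nat.totient m ∣ j + 1 →
      ∃ (c : ℤ) (l : Nat.Primes) (c1 : ℤ), B < (l : ℕ) ∧ l ≠ q ∧ c ≠ 0 ∧ 0 < σ * c ∧ (M : ℤ) ∣ c - u0 ∧
        c = ((q : ℕ) : ℤ) ^ j * c1 ∧ ¬ ((q : ℕ) : ℤ) ∣ c1 ∧ (l : ℕ) ≡ 1 [MOD m] ∧
        ∀ p : Nat.Primes, ((p : ℕ) : ℤ) ∣ c → p ∈ T ∨ p = q ∨ p = l := by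
  have hM0 : M ≠ 0 := by rw [hM]; exact prod_ne_zero_iff.2 fun p _ => pow_ne_zero _ p.2.ne_zero
  obtain ⟨g, hg⟩ : ∃ g, g = Nat.gcd u0 M := ⟨_, rfl⟩
  have hgpos : 0 < g := by rw [hg]; exact Nat.gcd_pos_of_pos_right _ (Nat.pos_of_ne_zero hM0)
  have hgM : g ∣ M := by rw [hg]; exact Nat.gcd_dvd_right _ _
  obtain ⟨u1, hu1⟩ : g ∣ u0 := by rw [hg]; exact Nat.gcd_dvd_left _ _
  have hcop : Nat.Coprime u1 M := by
    rw [hM]
    apply Nat.Coprime.prod_right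
    intro p hp
    apply Nat.Coprime.pow_right
    rw [Nat.coprime_comm, Nat.Prime.coprime_iff_not_dvd p.2]
    intro hdiv
    obtain ⟨m', hm', -⟩ := prod_split T E p hp
    have h1 := (gcd_facts (u0 : ℤ) M p E m' p.2 (by rw [hM]; exact hm') hM0 (hu p hp)).2
    rw [Int.natAbs_natCast, ← hg] at h1
    apply h1
    rw [hu1]
    push_cast
    rw [Int.mul_ediv_cancel_left _ (by exact_mod_cast hgpos.ne')]
    exact_mod_cast hdiv
  haveI : NeZero M := ⟨hM0⟩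
  have hσσ : σ * σ = 1 := by rcases hσ with h | h <;> rw [h] <;> norm_num
  have hunit : ∀ M' : ℕ, M' ∣ M → IsUnit ((σ * (u1 : ℤ) : ℤ) : ZMod M') := by
    intro M' hM'
    have h1 : IsUnit ((u1 : ℕ) : ZMod M') := (ZMod.isUnit_iff_coprime u1 M').2 (hcop.coprime_dvd_right hM')
    push_cast
    refine IsUnit.mul ?_ (by exact_mod_cast h1)
    rcases hσ with h | h <;> rw [h]
    · simp
    · simp
  obtain ⟨a, ha⟩ := (hunit m hmM).exists_right_inv
  refine ⟨a, IsUnit.of_mul_eq_one_right _ ha, fun q hq hqa j hj => ?_⟩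
  have hqM : Nat.Coprime (q : ℕ) M := by
    rw [Nat.Prime.coprime_iff_not_dvd q.2, hM]
    exact fun h => hq (mem_of_dvd_prod T E q h)
  have hqu : IsUnit ((q : ℕ) : ZMod M) := (ZMod.isUnit_iff_coprime _ M).2 hqM
  obtain ⟨w, hw⟩ := (hqu.pow j).exists_right_inv
  have hwu : IsUnit w := IsUnit.of_mul_eq_one_right _ hw
  obtain ⟨l, hl, hlp, hlM⟩ := Nat.forall_exists_prime_gt_and_eq_mod ((hunit M dvd_rfl).mul hwu) (B + q)
  have hkey : (l : ZMod M) * ((q : ℕ) : ZMod M) ^ j = ((σ * (u1 : ℤ) : ℤ) : ZMod M) := by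
    rw [hlM, mul_assoc, mul_comm w, hw, mul_one]
  have hkeyZ : (M : ℤ) ∣ (l : ℤ) * ((q : ℕ) : ℤ) ^ j - σ * u1 := by
    rw [← ZMod.intCast_zmod_eq_zero_iff_dvd]
    push_cast
    push_cast at hkey
    rw [hkey, sub_self]
  have hqm : Nat.Coprime (q : ℕ) m := hqM.coprime_dvd_right hmM
  have hl1 : l ≡ 1 [MOD m] := by
    rw [← ZMod.natCast_eq_natCast_iff]
    have h1 : ((l : ℤ) * ((q : ℕ) : ℤ) ^ j - σ * u1 : ℤ) = ((0 : ℤ) : ZMod m) := by
      rw [Int.cast_zero, ZMod.intCast_zmod_eq_zero_iff_dvd]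
      exact (Int.natCast_dvd_natCast.2 hmM).trans hkeyZ
    have h2 : ((q : ℕ) : ZMod m) ^ (j + 1) = 1 := by
      obtain ⟨e, he⟩ := hj
      rw [he, pow_mul]
      have h3 : ((q : ℕ) : ZMod m) ^ Nat.totient m = 1 := by
        have := Nat.ModEq.pow_totient hqm
        rw [← ZMod.natCast_eq_natCast_iff] at this
        push_cast at this
        exact this
      rw [h3, one_pow]
    push_cast at h1 ha
    have h3 : (l : ZMod m) * ((q : ℕ) : ZMod m) ^ j = (σ : ZMod m) * u1 := by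
      linear_combination h1
    have h4 : (l : ZMod m) * ((q : ℕ) : ZMod m) ^ (j + 1) = (σ : ZMod m) * u1 * a := by
      rw [pow_succ, ← mul_assoc, h3, hqa]
    rw [h2, mul_one, ha] at h4
    rw [h4]
    simp
  have hlq : (q : ℕ) < l := by omega
  have hgq : ¬ ((q : ℕ) : ℤ) ∣ (g : ℤ) := by
    intro h
    have h2 : (q : ℕ) ∣ g := by exact_mod_cast h
    have h3 := (Nat.Prime.coprime_iff_not_dvd q.2).1 hqM
    exact h3 (h2.trans hgM)
  have hqp := Nat.prime_iff_prime_int.1 q.2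
  have hσd : ∀ p : Nat.Primes, ¬ ((p : ℕ) : ℤ) ∣ σ := by
    intro p h
    have hpp := Nat.prime_iff_prime_int.1 p.2
    have h4 : ((p : ℕ) : ℤ) ∣ 1 := by
      rcases hσ with h5 | h5 <;> rw [h5] at h
      · exact h
      · exact (dvd_neg).1 h
    exact hpp.not_dvd_one h4
  have hqpos : (0 : ℤ) < ((q : ℕ) : ℤ) := by exact_mod_cast q.2.pos
  refine ⟨((q : ℕ) : ℤ) ^ j * (σ * (g * l)), ⟨l, hlp⟩, σ * (g * l), by show B < l; omega, ?_, ?_, ?_, ?_, rfl, ?_, hl1, ?_⟩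
  · rintro rfl
    exact lt_irrefl _ hlq
  · have h1 : (g : ℤ) ≠ 0 := by exact_mod_cast hgpos.ne'
    have h2 : (l : ℤ) ≠ 0 := by exact_mod_cast hlp.ne_zero
    have h3 : σ ≠ 0 := by rcases hσ with h | h <;> rw [h] <;> norm_num
    exact mul_ne_zero (pow_ne_zero _ hqpos.ne') (mul_ne_zero h3 (mul_ne_zero h1 h2))
  · have h1 : (0 : ℤ) < g := by exact_mod_cast hgpos
    have h2 : (0 : ℤ) < l := by exact_mod_cast hlp.pos
    have e : σ * (((q : ℕ) : ℤ) ^ j * (σ * (g * l))) = (σ * σ) * (((q : ℕ) : ℤ) ^ j * (g * l)) := by ring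
    rw [e, hσσ, one_mul]
    positivity
  · have e : ((q : ℕ) : ℤ) ^ j * (σ * (g * l)) - (u0 : ℤ) = σ * g * ((l : ℤ) * ((q : ℕ) : ℤ) ^ j - σ * u1) := by
      rw [hu1]
      push_cast
      linear_combination ((g : ℤ) * u1) * hσσ
    rw [e]
    exact hkeyZ.mul_left _
  · intro h
    rcases hqp.dvd_or_dvd h with h | h
    · exact hσd q h
    · rcases hqp.dvd_or_dvd h with h | h
      · exact hgq h
      · have h2 : (q : ℕ) ∣ l := by exact_mod_cast h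
        have := (Nat.prime_dvd_prime_iff_eq q.2 hlp).1 h2
        omega
  · intro p hp
    have hpp := Nat.prime_iff_prime_int.1 p.2
    rcases hpp.dvd_or_dvd hp with h | h
    · right
      left
      have h2 : (p : ℕ) ∣ (q : ℕ) := by exact_mod_cast hpp.dvd_of_dvd_pow h
      exact Subtype.ext ((Nat.prime_dvd_prime_iff_eq p.2 q.2).1 h2)
    · rcases hpp.dvd_or_dvd h with h | h
      · exact absurd h (hσd p)
      · rcases hpp.dvd_or_dvd h with h1 | h1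
        · left
          have h2 : (p : ℕ) ∣ g := by exact_mod_cast h1
          have h3 : (p : ℕ) ∣ ∏ q ∈ T, (q : ℕ) ^ E := by rw [← hM]; exact h2.trans hgM
          exact mem_of_dvd_prod T E p h3
        · right
          right
          have h2 : (p : ℕ) ∣ l := by exact_mod_cast h1
          exact Subtype.ext ((Nat.prime_dvd_prime_iff_eq p.2 hlp).1 h2)

/-- almost all integers are exactly divisible by a prime of a finite set in the given residue class -/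
lemma class_set (m : ℕ) [NeZero m] (u : ZMod m) (hu : IsUnit u) (K : ℕ) (δ : ℝ) (hδ : 0 < δ) : ∃ F : Finset Nat.Primes,
    (∀ r ∈ F, K < (r : ℕ) ∧ ((r : ℕ) : ZMod m) = u) ∧
    Per (fun n => ∀ r ∈ F, ¬ ((r : ℕ) ∣ n ∧ ¬ (r : ℕ) ^ 2 ∣ n)) (∏ r ∈ F, (r : ℕ) ^ 2) δ := by
  classical
  obtain ⟨F0, hF0, hexp⟩ := exists_exp_small ((big_ap hu).large K) hδ
  refine ⟨F0.subtype Nat.Prime, ?_, ?_⟩
  · intro r hr
    obtain ⟨-, h1, h2⟩ := hF0 r (Finset.mem_subtype.1 hr)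
    exact ⟨h2, h1⟩
  · have h1 := Per.forall (F0.subtype Nat.Prime) (fun (r : Nat.Primes) n => ¬ ((r : ℕ) ∣ n ∧ ¬ (r : ℕ) ^ 2 ∣ n))
      (fun r => (r : ℕ) ^ 2) (fun r => Real.exp (-(1 / (2 * (((r : ℕ)) : ℝ)))))
      (fun r _ => per_exact r.2) (fun r _ => (Real.exp_pos _).le)
      (fun r _ r' _ h => ((Nat.coprime_primes r.2 r'.2).2 (fun h3 => h (Subtype.ext h3))).pow 2 2)
    obtain ⟨h2, h3, h4⟩ := h1
    refine ⟨h2, h3, h4.trans (mul_le_mul_of_nonneg_right ?_ (Nat.cast_nonneg _))⟩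
    refine le_trans (le_of_eq ?_) hexp
    rw [← Real.exp_sum, sum_neg_distrib]
    congr 1
    rw [neg_div, sum_div]
    congr 1
    have h5 : ∑ r ∈ F0.subtype Nat.Prime, 1 / (2 * (((r : ℕ)) : ℝ)) = ∑ r ∈ F0.filter Nat.Prime, 1 / (2 * (r : ℝ)) :=
      sum_subtype_eq_sum_filter (fun r : ℕ => 1 / (2 * (r : ℝ)))
    rw [h5, filter_true_of_mem (fun r hr => (hF0 r hr).1)]
    refine sum_congr rfl fun r _ => ?_
    rw [one_div, one_div, mul_inv, mul_comm, div_eq_mul_inv]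

lemma dvd_prod_pow (T : Finset Nat.Primes) (m E : ℕ) (hm0 : m ≠ 0) (hT : ∀ p : Nat.Primes, (p : ℕ) ∣ m → p ∈ T) (hE : m ≤ E) :
    m ∣ ∏ p ∈ T, (p : ℕ) ^ E := by
  rw [Nat.dvd_iff_prime_pow_dvd_dvd]
  intro p k hp hpk
  rcases Nat.eq_zero_or_pos k with rfl | hk
  · simp
  have hpT : (⟨p, hp⟩ : Nat.Primes) ∈ T := hT _ ((dvd_pow_self p hk.ne').trans hpk)
  have hkE : k ≤ E := by
    have h1 := Nat.le_of_dvd (Nat.pos_of_ne_zero hm0) hpk
    have h2 : k < p ^ k := Nat.lt_pow_self hp.one_lt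
    omega
  exact (pow_dvd_pow p hkE).trans (dvd_prod_of_mem (fun q : Nat.Primes => (q : ℕ) ^ E) hpT)

end Pool.Agent.R479.NF
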