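import Pool.Agent.R479.NF.Br2

/-!
# `N(z) = b t (f(t) + k)`: one residue class
-/

set_option autoImplicit false
set_option linter.unusedSectionVars false

namespace Pool.Agent.R479.NF

open NumberField Module TensorProduct Finset Filter Polynomial
open Pool.Agent.TH204.HP (BigT eval_shift int_norm_gt norm_eq_of_near norm_D aeval_int)

variable (m : ℕ) [NeZero m] {L : Type} [Field L] [NumberField L] [IsCyclotomicExtension {m} ℚ L]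
variable {r : ℕ}

/-- the local points -/
def WL (K : Fin r → IntermediateField ℚ L) (f : ℤ[X]) (b : Fin r → ℤ) (T : Finset Nat.Primes) (N : ℕ) (k : ℤ)
    (t : (p : Nat.Primes) → ℚ_[(p : ℕ)]) : Prop :=
  ∀ p ∈ T, ‖t p‖ ≤ ((p : ℕ) : ℝ) ^ N ∧ (((p : ℕ) : ℝ) ^ N)⁻¹ ≤ ‖t p‖ ∧
    (((p : ℕ) : ℝ) ^ N)⁻¹ ≤ ‖aeval (t p) f + (k : ℚ_[(p : ℕ)])‖ ∧
    ∀ i, IsNp (K i) (p : ℕ) ((b i : ℚ_[(p : ℕ)]) * (t p * (aeval (t p) f + (k : ℚ_[(p : ℕ)]))))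

/-- the real point -/
def WR (K : Fin r → IntermediateField ℚ L) (f : ℤ[X]) (b : Fin r → ℤ) (k : ℤ) (tr : ℝ) : Prop :=
  tr ≠ 0 ∧ aeval tr f + (k : ℝ) ≠ 0 ∧ ∀ i, (∃ x : K i, Algebra.norm ℚ x = -1) ∨
    0 < (b i : ℝ) * (tr * (aeval tr f + (k : ℝ)))

/-- the rational point -/
def WG (K : Fin r → IntermediateField ℚ L) (f : ℤ[X]) (b : Fin r → ℤ) (T : Finset Nat.Primes) (N : ℕ) (k : ℤ)
    (t : (p : Nat.Primes) → ℚ_[(p : ℕ)]) (tr : ℝ) : Prop :=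
  ∃ s : ℚ, 0 < (s : ℝ) * tr ∧ aeval s f + (k : ℚ) ≠ 0 ∧ (∀ p ∈ T, ‖(s : ℚ_[(p : ℕ)]) - t p‖ ≤ (((p : ℕ) : ℝ) ^ N)⁻¹) ∧
    ∀ i, IsN (K i) ((b i : ℚ) * (s * (aeval s f + (k : ℚ))))

lemma comp_aeval_pow {F : Type} [Field F] (f : ℤ[X]) (c : ℤ) (n : ℕ) (v : F) :
    aeval v (f.comp (C c * X ^ n)) = aeval ((c : F) * v ^ n) f := by
  rw [aeval_comp]
  simp

lemma pow_sub_bound {p : ℕ} [Fact p.Prime] (n N : ℕ) (x y : ℚ_[p]) (hx : ‖x‖ ≤ (p : ℝ) ^ N) (hy : ‖y‖ ≤ (p : ℝ) ^ N) :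
    ‖x ^ n - y ^ n‖ ≤ (p : ℝ) ^ (N * n) * ‖x - y‖ := by
  have hp1 : (1 : ℝ) ≤ p := by exact_mod_cast (Fact.out : p.Prime).one_lt.le
  rw [← (Commute.all x y).geom_sum₂_mul, norm_mul]
  apply mul_le_mul_of_nonneg_right _ (norm_nonneg _)
  apply IsUltrametricDist.norm_sum_le_of_forall_le_of_nonneg (by positivity)
  intro i hi
  rw [mem_range] at hi
  rw [norm_mul, norm_pow, norm_pow]
  calc ‖x‖ ^ i * ‖y‖ ^ (n - 1 - i) ≤ ((p : ℝ) ^ N) ^ i * ((p : ℝ) ^ N) ^ (n - 1 - i) :=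
        mul_le_mul (pow_le_pow_left₀ (norm_nonneg _) hx _) (pow_le_pow_left₀ (norm_nonneg _) hy _) (by positivity) (by positivity)
    _ = (p : ℝ) ^ (N * (i + (n - 1 - i))) := by rw [← pow_add, ← pow_mul]
    _ ≤ (p : ℝ) ^ (N * n) := pow_le_pow_right₀ hp1 (Nat.mul_le_mul_left _ (by omega))

/-- the exponent -/
noncomputable def ex (K : Fin r → IntermediateField ℚ L) : ℕ := 2 * ∏ i, finrank ℚ (K i)

lemma ex_ge (K : Fin r → IntermediateField ℚ L) : 2 ≤ ex K := by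
  unfold ex
  have : 0 < ∏ i, finrank ℚ (K i) := prod_pos fun i _ => finrank_pos (R := ℚ) (M := K i)
  omega

lemma ex_even (K : Fin r → IntermediateField ℚ L) : Even (ex K) := by
  unfold ex
  exact even_two_mul _

lemma ex_dvd (K : Fin r → IntermediateField ℚ L) (i : Fin r) : finrank ℚ (K i) ∣ ex K := by
  unfold ex
  exact (dvd_prod_of_mem (fun i => finrank ℚ (K i)) (mem_univ i)).mul_left 2

lemma isNp_ex (K : Fin r → IntermediateField ℚ L) (i : Fin r) {p : ℕ} [Fact p.Prime] (x : ℚ_[p]) : IsNp (K i) p (x ^ ex K) := by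
  obtain ⟨e, he⟩ := ex_dvd K i
  rw [he, mul_comm, pow_mul]
  exact isNp_pow _

lemma isN_ex (K : Fin r → IntermediateField ℚ L) (i : Fin r) (x : ℚ) : IsN (K i) (x ^ ex K) := by
  obtain ⟨e, he⟩ := ex_dvd K i
  rw [he, mul_comm, pow_mul]
  exact IsN.pow_finrank _

include m in
/-- the point at the prime `q` -/
lemma pt_q (K : Fin r → IntermediateField ℚ L) (hh : ∀ i, (classNumber (K i)).Coprime (finrank ℚ (K i)))
    (hs : ∀ i, Sgn (K i)) (f : ℤ[X]) (b : Fin r → ℤ) (q : Nat.Primes) (hqm : ¬ (q : ℕ) ∣ m)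
    (hqb : ∀ i, ¬ ((q : ℕ) : ℤ) ∣ b i) (j e : ℕ) (hj : 2 ≤ j) (hje : j + 1 = ex K * e) (c c1 : ℤ)
    (hc : c = ((q : ℕ) : ℤ) ^ j * c1) (hc1 : ¬ ((q : ℕ) : ℤ) ∣ c1) (k : ℤ)
    (h1 : ((q : ℕ) : ℤ) ∣ f.eval 0 + k) (h2 : ¬ ((q : ℕ) : ℤ) ^ 2 ∣ f.eval 0 + k) :
    ((((q : ℕ) : ℝ)))⁻¹ ≤ ‖aeval (c : ℚ_[(q : ℕ)]) f + (k : ℚ_[(q : ℕ)])‖ ∧
      ∀ i, IsNp (K i) (q : ℕ) ((b i * c : ℤ) * (aeval (c : ℚ_[(q : ℕ)]) f + (k : ℚ_[(q : ℕ)]))) := by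
  have hqp := Nat.prime_iff_prime_int.1 q.2
  obtain ⟨h, hh1⟩ := h1
  obtain ⟨g, hg⟩ := eval_shift f c
  obtain ⟨j', hj'⟩ : ∃ j', j = j' + 2 := ⟨j - 2, by omega⟩
  obtain ⟨w, hw⟩ : ∃ w, w = h + ((q : ℕ) : ℤ) * (((q : ℕ) : ℤ) ^ j' * c1 * g) := ⟨_, rfl⟩
  have hval : f.eval c + k = ((q : ℕ) : ℤ) * w := by
    rw [hg, hw, hc, hj']
    linear_combination hh1
  have hqw : ¬ ((q : ℕ) : ℤ) ∣ w := by
    intro h3
    apply h2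
    rw [hw] at h3
    have h4 : ((q : ℕ) : ℤ) ∣ h := (dvd_add_left (Dvd.intro _ rfl)).1 h3
    rw [hh1, sq]
    exact mul_dvd_mul_left _ h4
  have hwn : ‖(w : ℚ_[(q : ℕ)])‖ = 1 := by
    refine le_antisymm (Padic.norm_int_le_one _) ?_
    by_contra h
    exact hqw (Padic.norm_intCast_lt_one_iff.1 (not_le.1 h))
  have hft : aeval (c : ℚ_[(q : ℕ)]) f + (k : ℚ_[(q : ℕ)]) = ((((q : ℕ) : ℤ) * w : ℤ) : ℚ_[(q : ℕ)]) := by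
    rw [aeval_int, ← hval]
    push_cast
    ring
  constructor
  · rw [hft]
    push_cast
    rw [norm_mul, Padic.norm_p, hwn, mul_one]
  · intro i
    have hun : ‖((b i * c1 * w : ℤ) : ℚ_[(q : ℕ)])‖ = 1 := by
      refine le_antisymm (Padic.norm_int_le_one _) ?_
      by_contra h
      rcases hqp.dvd_or_dvd (Padic.norm_intCast_lt_one_iff.1 (not_le.1 h)) with h3 | h3
      · rcases hqp.dvd_or_dvd h3 with h3 | h3
        · exact hqb i h3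
        · exact hc1 h3
      · exact hqw h3
    have e1 : ((b i * c : ℤ) : ℚ_[(q : ℕ)]) * (aeval (c : ℚ_[(q : ℕ)]) f + (k : ℚ_[(q : ℕ)])) =
        ((b i * c1 * w : ℤ) : ℚ_[(q : ℕ)]) * ((((q : ℕ) : ℚ_[(q : ℕ)])) ^ e) ^ ex K := by
      have e2 : ((((q : ℕ) : ℚ_[(q : ℕ)])) ^ e) ^ ex K = (((q : ℕ) : ℚ_[(q : ℕ)])) ^ (j + 1) := by
        rw [← pow_mul, hje, mul_comm]
      rw [hft, e2, hc]
      push_cast
      ring
    rw [e1]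
    exact (unit_norm m (K i) (hh i) (hs i) hqm _ hun).mul (isNp_ex K i _)

include m in
/-- the point at the prime `l` -/
lemma pt_l (K : Fin r → IntermediateField ℚ L) (hh : ∀ i, (classNumber (K i)).Coprime (finrank ℚ (K i)))
    (hs : ∀ i, Sgn (K i)) (f : ℤ[X]) (hd : 1 ≤ f.natDegree) (b : Fin r → ℤ) (hb : ∀ i, b i ≠ 0) (l : Nat.Primes) (hlm : ¬ (l : ℕ) ∣ m)
    (hl1 : (l : ℕ) ≡ 1 [MOD m]) (hlf : ¬ ((l : ℕ) : ℤ) ∣ f.leadingCoeff) (c : ℤ) (hc : c ≠ 0) (k : ℤ) (v : ℚ_[(l : ℕ)])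
    (hv : v = (((l : ℕ) : ℚ_[(l : ℕ)]) ^ (c.natAbs + 1))⁻¹) :
    1 ≤ ‖aeval ((c : ℚ_[(l : ℕ)]) * v ^ ex K) f + (k : ℚ_[(l : ℕ)])‖ ∧
      ∀ i, IsNp (K i) (l : ℕ) ((b i * c : ℤ) * (aeval ((c : ℚ_[(l : ℕ)]) * v ^ ex K) f + (k : ℚ_[(l : ℕ)]))) := by
  have hp1 : (1 : ℝ) < ((l : ℕ) : ℝ) := by exact_mod_cast l.2.one_lt
  have hp0 : (0 : ℝ) < ((l : ℕ) : ℝ) := by linarith
  have hcn : (((l : ℕ) : ℝ) ^ c.natAbs)⁻¹ < ‖(c : ℚ_[(l : ℕ)])‖ := by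
    apply int_norm_gt l c c.natAbs
    intro h
    have h1 : (l : ℕ) ^ c.natAbs ∣ c.natAbs := by
      have := Int.natAbs_dvd_natAbs.2 h
      rwa [Int.natAbs_pow, Int.natAbs_natCast] at this
    have h2 := Nat.le_of_dvd (Int.natAbs_pos.2 hc) h1
    have h3 : c.natAbs < (l : ℕ) ^ c.natAbs := Nat.lt_pow_self l.2.one_lt
    omega
  have hvn : ‖v‖ = ((l : ℕ) : ℝ) ^ (c.natAbs + 1) := by
    rw [hv, norm_inv, norm_pow, Padic.norm_p, inv_pow, inv_inv]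
  have ht : ((l : ℕ) : ℝ) ^ 1 ≤ ‖(c : ℚ_[(l : ℕ)]) * v ^ ex K‖ := by
    rw [norm_mul, norm_pow, hvn]
    have h1 : ((l : ℕ) : ℝ) ^ (c.natAbs + 1) ≤ (((l : ℕ) : ℝ) ^ (c.natAbs + 1)) ^ ex K :=
      le_self_pow₀ (one_le_pow₀ hp1.le) (by have := ex_ge K; omega)
    calc ((l : ℕ) : ℝ) ^ 1 = (((l : ℕ) : ℝ) ^ c.natAbs)⁻¹ * ((l : ℕ) : ℝ) ^ (c.natAbs + 1) := by
          rw [pow_one, pow_succ]
          field_simp
      _ ≤ _ := mul_le_mul hcn.le h1 (by positivity) (norm_nonneg _)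
  have hlc : ‖((f.leadingCoeff : ℤ) : ℚ_[(l : ℕ)])‖ = 1 := by
    refine le_antisymm (Padic.norm_int_le_one _) ?_
    by_contra h
    exact hlf (Padic.norm_intCast_lt_one_iff.1 (not_le.1 h))
  obtain ⟨s, -, hs3⟩ := far_root 1 one_ne_zero f hd 1 (by
    rw [hlc]
    simp only [Nat.cast_one, norm_one, one_pow, mul_one, pow_one]
    exact hp1) k _ ht
  have h1 : 1 ≤ ‖aeval ((c : ℚ_[(l : ℕ)]) * v ^ ex K) f + (k : ℚ_[(l : ℕ)])‖ := by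
    rw [hs3, hlc, one_mul]
    apply one_le_pow₀
    rw [pow_one] at ht
    linarith
  refine ⟨h1, fun i => split_norm m (K i) (hh i) (hs i) hlm hl1 _ ?_⟩
  have h2 : aeval ((c : ℚ_[(l : ℕ)]) * v ^ ex K) f + (k : ℚ_[(l : ℕ)]) ≠ 0 := by
    intro h0
    rw [h0, norm_zero] at h1
    linarith
  exact mul_ne_zero (by exact_mod_cast mul_ne_zero (hb i) hc) h2

end Pool.Agent.R479.NF
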