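import Pool.Agent.R479.NF.Tor

/-!
# Weak approximation for cyclic fields
-/

set_option autoImplicit false
set_option linter.unusedSectionVars false

namespace Pool.Agent.R479.NF

open NumberField Module TensorProduct Finset Filter

section

variable {p : ℕ} [hp : Fact p.Prime]

lemma natCast_norm_gt (n : ℕ) (hn0 : n ≠ 0) : ((p : ℝ) ^ n)⁻¹ < ‖((n : ℕ) : ℚ_[p])‖ := by
  by_contra hcon
  rw [not_lt] at hcon
  have h8 : ‖((n : ℤ) : ℚ_[p])‖ ≤ (p : ℝ) ^ (-((n : ℕ) : ℤ)) := by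
    rw [zpow_neg, zpow_natCast]
    simpa using hcon
  have h9 := (Padic.norm_int_le_pow_iff_dvd (p := p) (n : ℤ) n).1 h8
  have h10 : p ^ n ∣ n := by exact_mod_cast h9
  have h11 := Nat.le_of_dvd (Nat.pos_of_ne_zero hn0) h10
  have h12 : n < p ^ n := Nat.lt_pow_self hp.out.one_lt
  omega

/-- an `n`-th root near `1` -/
lemma root_near' (n : ℕ) (e : ℚ_[p]) (he : ‖e‖ < ‖((n : ℕ) : ℚ_[p])‖ ^ 2) :
    ∃ s : ℚ_[p], s ^ n = 1 + e ∧ ‖s - 1‖ * ‖((n : ℕ) : ℚ_[p])‖ = ‖e‖ := by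
  have hn1 : ‖((n : ℕ) : ℚ_[p])‖ ≤ 1 := by
    have := Padic.norm_int_le_one (p := p) (n : ℤ)
    simpa using this
  have he2 : ‖e‖ < 1 := he.trans_le (pow_le_one₀ (norm_nonneg _) hn1)
  obtain ⟨e', he'⟩ : ∃ e' : ℤ_[p], (e' : ℚ_[p]) = e := ⟨⟨e, he2.le⟩, rfl⟩
  have hnn : ‖((n : ℕ) : ℤ_[p])‖ = ‖((n : ℕ) : ℚ_[p])‖ := by
    rw [PadicInt.norm_def]
    simp
  have he3 : ‖e'‖ < ‖((n : ℕ) : ℤ_[p])‖ ^ 2 := by
    rw [hnn, PadicInt.norm_def, he']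
    exact he
  have h := hensels_lemma (p := p) (R := ℤ_[p]) (F := Polynomial.X ^ n - Polynomial.C (1 + e')) (a := 1) (by
    simp only [map_sub, map_pow, Polynomial.aeval_X, Polynomial.aeval_C, Polynomial.derivative_X_pow,
      Polynomial.derivative_C, sub_zero, map_mul, map_natCast, Algebra.algebraMap_self, RingHom.id_apply, one_pow, mul_one]
    rw [show (1 : ℤ_[p]) - (1 + e') = -e' by ring, norm_neg]
    exact he3)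
  obtain ⟨z, hz, hz1, -⟩ := h
  simp only [map_sub, map_pow, Polynomial.aeval_X, Polynomial.aeval_C, Polynomial.derivative_X_pow,
      Polynomial.derivative_C, sub_zero, map_mul, map_natCast, Algebra.algebraMap_self, RingHom.id_apply, one_pow, mul_one] at hz hz1
  have hz' : z ^ n = 1 + e' := by linear_combination hz
  have h1 : ‖(∑ i ∈ range n, z ^ i) - ((n : ℕ) : ℤ_[p])‖ ≤ ‖z - 1‖ := by
    have e1 : (∑ i ∈ range n, z ^ i) - ((n : ℕ) : ℤ_[p]) = ∑ i ∈ range n, (z ^ i - 1) := by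
      rw [sum_sub_distrib, sum_const, card_range, nsmul_eq_mul, mul_one]
    rw [e1]
    apply IsUltrametricDist.norm_sum_le_of_forall_le_of_nonneg (norm_nonneg _)
    intro i _
    rw [← geom_sum_mul, norm_mul]
    exact mul_le_of_le_one_left (norm_nonneg _) (PadicInt.norm_le_one _)
  have h2 : ‖∑ i ∈ range n, z ^ i‖ = ‖((n : ℕ) : ℤ_[p])‖ := by
    have h3 : ‖(∑ i ∈ range n, z ^ i) - ((n : ℕ) : ℤ_[p])‖ < ‖((n : ℕ) : ℤ_[p])‖ := h1.trans_lt hz1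
    have h4 : ‖(((∑ i ∈ range n, z ^ i : ℤ_[p]) : ℚ_[p])) - ((n : ℕ) : ℚ_[p])‖ < ‖((n : ℕ) : ℚ_[p])‖ := by
      rw [hnn, PadicInt.norm_def] at h3
      simpa using h3
    have h5 := Pool.Agent.TH204.HP.norm_eq_of_near _ _ h4
    rw [hnn, PadicInt.norm_def]
    exact h5
  have h3 : ‖z - 1‖ * ‖((n : ℕ) : ℤ_[p])‖ = ‖e'‖ := by
    rw [← h2, ← norm_mul, mul_comm, geom_sum_mul, hz']
    congr 1
    ring
  refine ⟨z, ?_, ?_⟩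
  · have := congrArg (fun w : ℤ_[p] => (w : ℚ_[p])) hz'
    simpa [he'] using this
  · rw [hnn, PadicInt.norm_def, PadicInt.norm_def, he'] at h3
    simpa using h3

/-- Lipschitz bound -/
lemma mvlip {s : ℕ} (f : MvPolynomial (Fin s) ℤ) (N E : ℕ) (x t : Fin s → ℚ_[p]) (hx : ∀ j, ‖x j‖ ≤ (p : ℝ) ^ N)
    (ht : ∀ j, ‖t j‖ ≤ (p : ℝ) ^ N) (hxt : ∀ j, ‖x j - t j‖ ≤ ((p : ℝ) ^ E)⁻¹) :
    ‖MvPolynomial.aeval x f - MvPolynomial.aeval t f‖ ≤ (p : ℝ) ^ (2 * f.totalDegree * N) * ((p : ℝ) ^ E)⁻¹ := by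
  have hppos : (0 : ℝ) < p := by exact_mod_cast hp.out.pos
  have hp1 : (1 : ℝ) < p := by exact_mod_cast hp.out.one_lt
  obtain ⟨D, hD⟩ : ∃ D : ℕ, D = p ^ N := ⟨_, rfl⟩
  have hDn : ‖(D : ℚ_[p])‖ = ((p : ℝ) ^ N)⁻¹ := by
    rw [hD]
    push_cast
    rw [norm_pow, Padic.norm_p, inv_pow]
  have hb : ∀ y : Fin s → ℚ_[p], (∀ j, ‖y j‖ ≤ (p : ℝ) ^ N) → ∀ j, ‖(D : ℚ_[p]) * y j‖ ≤ 1 := by
    intro y hy j
    rw [norm_mul, hDn]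
    calc ((p : ℝ) ^ N)⁻¹ * ‖y j‖ ≤ ((p : ℝ) ^ N)⁻¹ * (p : ℝ) ^ N := mul_le_mul_of_nonneg_left (hy j) (by positivity)
      _ = 1 := inv_mul_cancel₀ (by positivity)
  have h1 := Pool.Agent.TH204.HP.lipM (Pool.Agent.TH204.HP.GM f D) (fun j => (D : ℚ_[p]) * x j) (fun j => (D : ℚ_[p]) * t j)
    (hb x hx) (hb t ht) E (by
      intro j
      rw [← mul_sub, norm_mul, hDn]
      refine le_trans (mul_le_of_le_one_left (norm_nonneg _) (inv_le_one_of_one_le₀ (one_le_pow₀ hp1.le))) (hxt j))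
  rw [Pool.Agent.TH204.HP.GM_scale, Pool.Agent.TH204.HP.GM_scale, ← mul_sub, norm_mul, norm_pow, hDn, inv_pow, ← pow_mul] at h1
  rw [mul_comm N (2 * f.totalDegree)] at h1
  rw [← div_le_iff₀' (by positivity)]
  rw [div_eq_inv_mul]
  exact h1

lemma cd_smul {K : Type} [Field K] [NumberField K] (a : ℚ_[p]) (z : Ap K p) (j : Ix K) :
    cd p (algebraMap ℚ_[p] (Ap K p) a * z) j = a * cd p z j := by
  rw [← Algebra.smul_def, map_smul]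
  rfl

end

variable (m : ℕ) [NeZero m] {L : Type} [Field L] [NumberField L] [IsCyclotomicExtension {m} ℚ L]
variable {r s : ℕ}

/-- the local points of level `N` -/
def LcD (K : Fin r → IntermediateField ℚ L) (f : MvPolynomial (Fin s) ℤ) (c : Fin r → ℤ) (T : Finset Nat.Primes) (N : ℕ) (k : ℤ)
    (t : (p : Nat.Primes) → Fin s → ℚ_[(p : ℕ)]) (z : (p : Nat.Primes) → (i : Fin r) → Ap (K i) (p : ℕ)) : Prop :=
  ∀ p ∈ T, (∀ j, ‖t p j‖ ≤ ((p : ℕ) : ℝ) ^ N) ∧ (((p : ℕ) : ℝ) ^ N)⁻¹ ≤ ‖MvPolynomial.aeval (t p) f + (k : ℚ_[(p : ℕ)])‖ ∧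
    ∀ i, Algebra.norm ℚ_[(p : ℕ)] (z p i) = (c i : ℚ_[(p : ℕ)]) * (MvPolynomial.aeval (t p) f + (k : ℚ_[(p : ℕ)])) ∧
      ∀ j, ‖cd (p : ℕ) (z p i) j‖ ≤ ((p : ℕ) : ℝ) ^ N

/-- the rational point near the local points -/
def GlD (K : Fin r → IntermediateField ℚ L) (f : MvPolynomial (Fin s) ℤ) (c : Fin r → ℤ) (T : Finset Nat.Primes) (N : ℕ) (k : ℤ)
    (t : (p : Nat.Primes) → Fin s → ℚ_[(p : ℕ)]) (z : (p : Nat.Primes) → (i : Fin r) → Ap (K i) (p : ℕ)) : Prop :=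
  ∃ (x : Fin s → ℚ) (y : (i : Fin r) → K i), MvPolynomial.aeval x f + (k : ℚ) ≠ 0 ∧
    (∀ i, Algebra.norm ℚ (y i) = (c i : ℚ) * (MvPolynomial.aeval x f + (k : ℚ))) ∧
    ∀ p ∈ T, (∀ j, ‖((x j : ℚ) : ℚ_[(p : ℕ)]) - t p j‖ ≤ (((p : ℕ) : ℝ) ^ N)⁻¹) ∧
      ∀ i j, ‖cd (p : ℕ) ((1 : ℚ_[(p : ℕ)]) ⊗ₜ[ℚ] (y i) : Ap (K i) (p : ℕ)) j - cd (p : ℕ) (z p i) j‖ ≤ (((p : ℕ) : ℝ) ^ N)⁻¹

/-- from approximation of `t` to approximation of all coordinates -/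
theorem glD_of_gl (K : Fin r → IntermediateField ℚ L) [∀ i, IsGalois ℚ (K i)] (hcyc : ∀ i, ∃ σ : K i ≃ₐ[ℚ] K i, Gen σ)
    (f : MvPolynomial (Fin s) ℤ) (c : Fin r → ℤ) (hc : ∀ i, c i ≠ 0) (T : Finset Nat.Primes) (N N' : ℕ)
    (hN' : N' = (2 * f.totalDegree + 1) * N + 2 * N + 2 * (∑ i, finrank ℚ (K i)) + 1) (k : ℤ)
    (t : (p : Nat.Primes) → Fin s → ℚ_[(p : ℕ)]) (z : (p : Nat.Primes) → (i : Fin r) → Ap (K i) (p : ℕ))
    (hloc : LcD K f c T N k t z) (hgl : Gl K f c T N' k t) : GlD K f c T N k t z := by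
  classical
  obtain ⟨x, hx1, hx2, hx3⟩ := hgl
  have hone : ∀ p : Nat.Primes, (1 : ℝ) < ((p : ℕ) : ℝ) := fun p => by exact_mod_cast p.2.one_lt
  have hNN : N ≤ N' := by
    rw [hN']
    exact le_trans (by omega : N ≤ 2 * N) (le_trans (Nat.le_add_left _ _) (le_trans (Nat.le_add_right _ _) (Nat.le_add_right _ _)))
  obtain ⟨B, hB⟩ : ∃ B, B = ∑ i, finrank ℚ (K i) := ⟨_, rfl⟩
  rw [← hB] at hN'
  -- the roots
  have hroot : ∀ i, ∀ p ∈ T, ∃ s : ℚ_[((p : Nat.Primes) : ℕ)],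
      s ^ finrank ℚ (K i) * ((c i : ℚ_[(p : ℕ)]) * (MvPolynomial.aeval (t p) f + (k : ℚ_[(p : ℕ)]))) =
        (((c i : ℚ) * (MvPolynomial.aeval x f + (k : ℚ)) : ℚ) : ℚ_[(p : ℕ)]) ∧
      ‖s - 1‖ ≤ (((p : ℕ) : ℝ) ^ (2 * N))⁻¹ := by
    intro i p hp
    have h1p := hone p
    have h0p : (0 : ℝ) < ((p : ℕ) : ℝ) := by linarith
    obtain ⟨h1, h2, -⟩ := hloc p hp
    have hcp : ((c i : ℤ) : ℚ_[(p : ℕ)]) ≠ 0 := by exact_mod_cast hc i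
    have hval : MvPolynomial.aeval (t p) f + (k : ℚ_[(p : ℕ)]) ≠ 0 := by
      intro h0
      rw [h0, norm_zero] at h2
      have : (0 : ℝ) < (((p : ℕ) : ℝ) ^ N)⁻¹ := by positivity
      linarith
    have hxn : ∀ j, ‖((x j : ℚ) : ℚ_[(p : ℕ)])‖ ≤ ((p : ℕ) : ℝ) ^ N := by
      intro j
      have e : ((x j : ℚ) : ℚ_[(p : ℕ)]) = (((x j : ℚ) : ℚ_[(p : ℕ)]) - t p j) + t p j := by ring
      rw [e]
      refine (Padic.nonarchimedean _ _).trans (max_le ?_ (h1 j))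
      exact (hx1 p hp j).trans (le_trans (inv_le_one_of_one_le₀ (one_le_pow₀ h1p.le)) (one_le_pow₀ h1p.le))
    have h3 := mvlip f N N' (fun j => ((x j : ℚ) : ℚ_[(p : ℕ)])) (t p) hxn h1 (hx1 p hp)
    obtain ⟨e, he⟩ : ∃ e : ℚ_[(p : ℕ)], e = (MvPolynomial.aeval (fun j => ((x j : ℚ) : ℚ_[(p : ℕ)])) f - MvPolynomial.aeval (t p) f) /
      (MvPolynomial.aeval (t p) f + (k : ℚ_[(p : ℕ)])) := ⟨_, rfl⟩
    have hen : ‖e‖ ≤ (((p : ℕ) : ℝ) ^ (2 * N + 2 * B + 1))⁻¹ := by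
      have hvn : 0 < ‖MvPolynomial.aeval (t p) f + (k : ℚ_[(p : ℕ)])‖ := norm_pos_iff.2 hval
      rw [he, norm_div, div_le_iff₀ hvn]
      refine h3.trans ?_
      have h4 : ((p : ℕ) : ℝ) ^ (2 * f.totalDegree * N) * (((p : ℕ) : ℝ) ^ N')⁻¹ =
          (((p : ℕ) : ℝ) ^ (2 * N + 2 * B + 1))⁻¹ * (((p : ℕ) : ℝ) ^ N)⁻¹ := by
        have h5 : N' = 2 * f.totalDegree * N + ((2 * N + 2 * B + 1) + N) := by rw [hN']; ring
        rw [h5, pow_add _ (2 * f.totalDegree * N), pow_add _ (2 * N + 2 * B + 1) N]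
        field_simp
      rw [h4]
      exact mul_le_mul_of_nonneg_left h2 (by positivity)
    obtain ⟨n, hn⟩ : ∃ n, n = finrank ℚ (K i) := ⟨_, rfl⟩
    have hn0 : n ≠ 0 := by rw [hn]; exact (finrank_pos (R := ℚ) (M := K i)).ne'
    have hnB : n ≤ B := by
      rw [hn, hB]
      exact single_le_sum (f := fun i => finrank ℚ (K i)) (fun _ _ => Nat.zero_le _) (mem_univ i)
    have hnn : (((p : ℕ) : ℝ) ^ B)⁻¹ < ‖((n : ℕ) : ℚ_[(p : ℕ)])‖ :=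
      (inv_anti₀ (by positivity) (pow_le_pow_right₀ h1p.le hnB)).trans_lt (natCast_norm_gt n hn0)
    have hBpos : (0 : ℝ) < (((p : ℕ) : ℝ) ^ B)⁻¹ := by positivity
    have hlt : ‖e‖ < ‖((n : ℕ) : ℚ_[(p : ℕ)])‖ ^ 2 := by
      calc ‖e‖ ≤ (((p : ℕ) : ℝ) ^ (2 * N + 2 * B + 1))⁻¹ := hen
        _ ≤ ((((p : ℕ) : ℝ) ^ B)⁻¹) ^ 2 := by
            rw [inv_pow, ← pow_mul]
            apply inv_anti₀ (by positivity)
            apply pow_le_pow_right₀ h1p.le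
            omega
        _ < ‖((n : ℕ) : ℚ_[(p : ℕ)])‖ ^ 2 := pow_lt_pow_left₀ hnn hBpos.le (by norm_num)
    obtain ⟨s, hs1, hs2⟩ := root_near' n e hlt
    refine ⟨s, ?_, ?_⟩
    · rw [← hn, hs1, he]
      have h5 : (((c i : ℚ) * (MvPolynomial.aeval x f + (k : ℚ)) : ℚ) : ℚ_[(p : ℕ)]) =
          (c i : ℚ_[(p : ℕ)]) * (MvPolynomial.aeval (fun j => ((x j : ℚ) : ℚ_[(p : ℕ)])) f + (k : ℚ_[(p : ℕ)])) := by
        rw [← Pool.Agent.TH204.HP.cast_aeval]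
        push_cast
        ring
      rw [h5]
      field_simp
      ring
    · have hnpos : 0 < ‖((n : ℕ) : ℚ_[(p : ℕ)])‖ := hBpos.trans hnn
      have h6 : ‖s - 1‖ = ‖e‖ / ‖((n : ℕ) : ℚ_[(p : ℕ)])‖ := by
        rw [eq_div_iff hnpos.ne']
        exact hs2
      rw [h6, div_le_iff₀ hnpos]
      calc ‖e‖ ≤ (((p : ℕ) : ℝ) ^ (2 * N + 2 * B + 1))⁻¹ := hen
        _ ≤ (((p : ℕ) : ℝ) ^ (2 * N + B))⁻¹ := by
            apply inv_anti₀ (by positivity)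
            apply pow_le_pow_right₀ h1p.le
            omega
        _ = (((p : ℕ) : ℝ) ^ (2 * N))⁻¹ * (((p : ℕ) : ℝ) ^ B)⁻¹ := by rw [pow_add, mul_inv]
        _ ≤ (((p : ℕ) : ℝ) ^ (2 * N))⁻¹ * ‖((n : ℕ) : ℚ_[(p : ℕ)])‖ := mul_le_mul_of_nonneg_left hnn.le (by positivity)
  obtain ⟨δ, hδ, hδp⟩ := exists_small T (fun p => (((p : ℕ) : ℝ) ^ N)⁻¹) (by
    intro p _
    have := hone p
    positivity)
  have hy : ∀ i, ∃ y : K i, Algebra.norm ℚ y = (c i : ℚ) * (MvPolynomial.aeval x f + (k : ℚ)) ∧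
      ∀ p ∈ T, ∀ j, ‖cd (p : ℕ) ((1 : ℚ_[((p : Nat.Primes) : ℕ)]) ⊗ₜ[ℚ] y : Ap (K i) (p : ℕ)) j - cd (p : ℕ) (z p i) j‖ ≤ (((p : ℕ) : ℝ) ^ N)⁻¹ := by
    intro i
    obtain ⟨σ, hσ⟩ := hcyc i
    obtain ⟨w, hw⟩ := hx3 i
    have ha : (c i : ℚ) * (MvPolynomial.aeval x f + (k : ℚ)) ≠ 0 := mul_ne_zero (by exact_mod_cast hc i) hx2
    have hs : ∀ p : Nat.Primes, ∃ s : ℚ_[(p : ℕ)], p ∈ T →
      s ^ finrank ℚ (K i) * ((c i : ℚ_[(p : ℕ)]) * (MvPolynomial.aeval (t p) f + (k : ℚ_[(p : ℕ)]))) =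
        (((c i : ℚ) * (MvPolynomial.aeval x f + (k : ℚ)) : ℚ) : ℚ_[(p : ℕ)]) ∧
      ‖s - 1‖ ≤ (((p : ℕ) : ℝ) ^ (2 * N))⁻¹ := by
      intro p
      by_cases hp : p ∈ T
      · obtain ⟨s, hs⟩ := hroot i p hp
        exact ⟨s, fun _ => hs⟩
      · exact ⟨0, fun h => absurd h hp⟩
    choose s hs using hs
    obtain ⟨y, hy1, hy2⟩ := wa_norm hσ T _ ha w hw (fun p => algebraMap ℚ_[(p : ℕ)] (Ap (K i) (p : ℕ)) (s p) * z p i) (by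
      intro p hp
      rw [map_mul, Algebra.norm_algebraMap_of_basis (Algebra.TensorProduct.basis ℚ_[(p : ℕ)] (integralBasis (K i))),
        ← Module.finrank_eq_card_basis (integralBasis (K i)), ((hloc p hp).2.2 i).1]
      exact (hs p hp).1) δ hδ
    refine ⟨y, hy1, fun p hp j => ?_⟩
    have h1p := hone p
    have h0p : (0 : ℝ) < ((p : ℕ) : ℝ) := by linarith
    have h1 := (hy2 p hp j).le.trans (hδp p hp)
    have h2 : ‖cd (p : ℕ) (algebraMap ℚ_[(p : ℕ)] (Ap (K i) (p : ℕ)) (s p) * z p i) j - cd (p : ℕ) (z p i) j‖ ≤ (((p : ℕ) : ℝ) ^ N)⁻¹ := by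
      rw [cd_smul]
      have e : s p * cd (p : ℕ) (z p i) j - cd (p : ℕ) (z p i) j = (s p - 1) * cd (p : ℕ) (z p i) j := by ring
      rw [e, norm_mul]
      calc ‖s p - 1‖ * ‖cd (p : ℕ) (z p i) j‖ ≤ (((p : ℕ) : ℝ) ^ (2 * N))⁻¹ * ((p : ℕ) : ℝ) ^ N :=
            mul_le_mul (hs p hp).2 (((hloc p hp).2.2 i).2 j) (norm_nonneg _) (by positivity)
        _ = (((p : ℕ) : ℝ) ^ N)⁻¹ := by
            rw [pow_mul', pow_two]
            field_simp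
    have e : cd (p : ℕ) ((1 : ℚ_[(p : ℕ)]) ⊗ₜ[ℚ] y : Ap (K i) (p : ℕ)) j - cd (p : ℕ) (z p i) j =
        (cd (p : ℕ) ((1 : ℚ_[(p : ℕ)]) ⊗ₜ[ℚ] y : Ap (K i) (p : ℕ)) j -
          cd (p : ℕ) (algebraMap ℚ_[(p : ℕ)] (Ap (K i) (p : ℕ)) (s p) * z p i) j) +
        (cd (p : ℕ) (algebraMap ℚ_[(p : ℕ)] (Ap (K i) (p : ℕ)) (s p) * z p i) j - cd (p : ℕ) (z p i) j) := by ring
    rw [e]
    exact (Padic.nonarchimedean _ _).trans (max_le h1 h2)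
  choose y hy1 hy2 using hy
  refine ⟨x, y, hx2, hy1, fun p hp => ⟨fun j => (hx1 p hp j).trans ?_, fun i j => hy2 i p hp j⟩⟩
  have h1p := hone p
  have h0p : (0 : ℝ) < ((p : ℕ) : ℝ) := by linarith
  exact inv_anti₀ (by positivity) (pow_le_pow_right₀ h1p.le hNN)

include m in
theorem mainD (K : Fin r → IntermediateField ℚ L) [∀ i, IsGalois ℚ (K i)] (hcyc : ∀ i, ∃ σ : K i ≃ₐ[ℚ] K i, Gen σ)
    (hh : ∀ i, (classNumber (K i)).Coprime (finrank ℚ (K i)))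
    (hs : ∀ i, Sgn (K i)) (f : MvPolynomial (Fin s) ℤ) (hd : 2 ≤ f.totalDegree) (c : Fin r → ℤ) (hc : ∀ i, c i ≠ 0) :
    ∃ T0 : Finset Nat.Primes, ∀ T : Finset Nat.Primes, T0 ⊆ T → ∀ N U : ℕ, ∃ X0 : ℕ, ∀ X : ℕ, X0 ≤ X →
      ∃ Bad : Finset ℤ, (#Bad : ℝ) ≤ X / Real.log X ^ U ∧ ∀ k : ℤ, |k| ≤ X → k ∉ Bad → Rc K f c k →
      ∀ t z, LcD K f c T N k t z → GlD K f c T N k t z := by
  obtain ⟨T0, h⟩ := mainA m K hh hs f hd c hc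
  refine ⟨T0, fun T hT N U => ?_⟩
  obtain ⟨N', hN'⟩ : ∃ N', N' = (2 * f.totalDegree + 1) * N + 2 * N + 2 * (∑ i, finrank ℚ (K i)) + 1 := ⟨_, rfl⟩
  obtain ⟨X0, h⟩ := h T hT N' U
  refine ⟨X0, fun X hX => ?_⟩
  obtain ⟨Bad, hB1, hB2⟩ := h X hX
  refine ⟨Bad, hB1, fun k hk hkB hr t z hloc => ?_⟩
  refine glD_of_gl K hcyc f c hc T N N' hN' k t z hloc (hB2 k hk hkB hr t ?_)
  intro p hp
  obtain ⟨h1, h2, h3⟩ := hloc p hp
  have h1p : (1 : ℝ) < ((p : ℕ) : ℝ) := by exact_mod_cast p.2.one_lt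
  have h0p : (0 : ℝ) < ((p : ℕ) : ℝ) := by linarith
  have hNN : N ≤ N' := by
    rw [hN']
    exact le_trans (by omega : N ≤ 2 * N) (le_trans (Nat.le_add_left _ _) (le_trans (Nat.le_add_right _ _) (Nat.le_add_right _ _)))
  exact ⟨fun j => (h1 j).trans (pow_le_pow_right₀ h1p.le hNN),
    (inv_anti₀ (by positivity) (pow_le_pow_right₀ h1p.le hNN)).trans h2, fun i => ⟨z p i, (h3 i).1⟩⟩

end Pool.Agent.R479.NF
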