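import Pool.Agent.R479.NF.Br3
import Pool.Agent.R479.NF.Wa

/-!
# `N(z) = b t (f(t) + k)`: one residue class, continued
-/

set_option autoImplicit false
set_option linter.unusedSectionVars false

namespace Pool.Agent.R479.NF

open NumberField Module TensorProduct Finset Filter Polynomial
open Pool.Agent.TH204.HP (BigT eval_shift int_norm_gt norm_eq_of_near norm_D aeval_int)

variable (m : ℕ) [NeZero m] {L : Type} [Field L] [NumberField L] [IsCyclotomicExtension {m} ℚ L]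
variable {r : ℕ}

include m in
/-- the theorem for one residue class, one sign and one auxiliary prime -/
theorem idx (K : Fin r → IntermediateField ℚ L) (hh : ∀ i, (classNumber (K i)).Coprime (finrank ℚ (K i)))
    (hs : ∀ i, Sgn (K i)) (f : ℤ[X]) (hd : 1 ≤ f.natDegree) (b : Fin r → ℤ) (hb : ∀ i, b i ≠ 0)
    (T : Finset Nat.Primes)
    (hT : ∀ p : Nat.Primes, ((p : ℕ) ≤ ex K * f.natDegree ∨ ((p : ℕ) : ℤ) ∣ f.leadingCoeff ∨ (p : ℕ) ∣ m ∨
      ∃ i, ((p : ℕ) : ℤ) ∣ b i) → p ∈ T)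
    (N U E D2 M u0 : ℕ) (hD2 : D2 = ∏ p ∈ T, (p : ℕ) ^ (ex K * N)) (hM : M = ∏ p ∈ T, (p : ℕ) ^ E)
    (hE : E = (ex K * N + N) + 2 * ex K + 1 + m) (σ : ℤ) (hσ : σ = 1 ∨ σ = -1)
    (hu : ∀ p ∈ T, ¬ (((p : ℕ) ^ E : ℕ) : ℤ) ∣ (u0 : ℤ)) :
    ∃ a : ZMod m, IsUnit a ∧ ∀ q : Nat.Primes, q ∉ T → ((q : ℕ) : ZMod m) = a →
      ∃ X1 : ℕ, ∀ X : ℕ, X1 ≤ X → ∃ Bad : Finset ℤ, (#Bad : ℝ) ≤ X / Real.log X ^ U ∧ ∀ k : ℤ, |k| ≤ X → k ∉ Bad →
        ((q : ℕ) : ℤ) ∣ f.eval 0 + k → ¬ ((q : ℕ) : ℤ) ^ 2 ∣ f.eval 0 + k →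
        ∀ (t : (p : Nat.Primes) → ℚ_[(p : ℕ)]) (tr : ℝ), WL K f b T N k t → WR K f b k tr → 0 < (σ : ℝ) * tr →
        (∀ w : ℤ, ∀ p ∈ T, ‖(((u0 : ℤ) + M * w : ℤ) : ℚ_[(p : ℕ)]) - D2 * t p‖ ≤ (((p : ℕ) : ℝ) ^ E)⁻¹) →
        WG K f b T N k t tr := by
  classical
  obtain ⟨n, hn⟩ : ∃ n, n = ex K := ⟨_, rfl⟩
  have hn2 : 2 ≤ n := by rw [hn]; exact ex_ge K
  have hneven : Even n := by rw [hn]; exact ex_even K
  have hf0 : f.leadingCoeff ≠ 0 := by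
    rw [Ne, leadingCoeff_eq_zero]
    rintro rfl
    simp at hd
  have hm0 : m ≠ 0 := NeZero.ne m
  have hone : ∀ p : Nat.Primes, (1 : ℝ) < ((p : ℕ) : ℝ) := fun p => by exact_mod_cast p.2.one_lt
  obtain ⟨a, ha, hA⟩ := exists_cr m T E (∑ p ∈ T, (p : ℕ)) M u0 hM (by
    rw [hM]
    exact dvd_prod_pow T m E hm0 (fun p hp => hT p (Or.inr (Or.inr (Or.inl hp)))) (by omega)) σ hσ hu
  refine ⟨a, ha, fun q hqT hqa => ?_⟩
  have hφ : 0 < Nat.totient m := Nat.totient_pos.2 (Nat.pos_of_ne_zero hm0)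
  obtain ⟨e, he⟩ : ∃ e, e = 2 * Nat.totient m := ⟨_, rfl⟩
  obtain ⟨j, hj⟩ : ∃ j, j + 1 = n * e := ⟨n * e - 1, by
    have : 1 ≤ n * e := Nat.one_le_iff_ne_zero.2 (mul_ne_zero (by omega) (by omega))
    omega⟩
  have hj2 : 2 ≤ j := by
    have h1 : 2 * 2 ≤ n * e := Nat.mul_le_mul hn2 (by omega)
    omega
  obtain ⟨c, l, c1, hlB, hlq, hc0, hσc, hMc, hcq, hc1, hl1, hcT⟩ := hA q hqT hqa j (by
    rw [hj, he]
    exact Dvd.intro_left (n * 2) (by ring))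
  have hlT : l ∉ T := by
    intro h
    have := single_le_sum (f := fun p : Nat.Primes => (p : ℕ)) (fun _ _ => Nat.zero_le _) h
    omega
  have hnotl : ¬ ((l : ℕ) ≤ ex K * f.natDegree ∨ ((l : ℕ) : ℤ) ∣ f.leadingCoeff ∨ (l : ℕ) ∣ m ∨
      ∃ i, ((l : ℕ) : ℤ) ∣ b i) := fun h => hlT (hT l h)
  have hnotq : ¬ ((q : ℕ) ≤ ex K * f.natDegree ∨ ((q : ℕ) : ℤ) ∣ f.leadingCoeff ∨ (q : ℕ) ∣ m ∨
      ∃ i, ((q : ℕ) : ℤ) ∣ b i) := fun h => hqT (hT q h)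
  rw [not_or, not_or, not_or] at hnotl hnotq
  obtain ⟨hla, hlb, hlc, hld⟩ := hnotl
  obtain ⟨hqa', hqb, hqc, hqd⟩ := hnotq
  obtain ⟨T2, hT2⟩ : ∃ T2 : Finset Nat.Primes, T2 = insert l (insert q T) := ⟨_, rfl⟩
  have hTT2 : T ⊆ T2 := by
    rw [hT2]
    exact (subset_insert _ _).trans (subset_insert _ _)
  have hcT2 : ∀ p : Nat.Primes, ((p : ℕ) : ℤ) ∣ c → p ∈ T2 := by
    intro p hp
    rw [hT2, mem_insert, mem_insert]
    rcases hcT p hp with h | h | h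
    · exact Or.inr (Or.inr h)
    · exact Or.inr (Or.inl h)
    · exact Or.inl h
  obtain ⟨g, hg⟩ : ∃ g : ℤ[X], g = f.comp (C c * X ^ n) := ⟨_, rfl⟩
  have hgd : g.natDegree = n * f.natDegree := by
    rw [hg, natDegree_comp, natDegree_C_mul_X_pow n c hc0, mul_comm]
  have hgl : g.leadingCoeff = f.leadingCoeff * c ^ f.natDegree := by
    rw [hg, leadingCoeff_comp (by rw [natDegree_C_mul_X_pow n c hc0]; omega), leadingCoeff_C_mul_X_pow]
  have hgv : ∀ (F : Type) [Field F] (v : F), aeval v g = aeval ((c : F) * v ^ n) f := by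
    intro F _ v
    rw [hg, comp_aeval_pow]
  have hBT : BigT g ∅ T2 := by
    intro p hp
    rw [hgd, hgl] at hp
    have hpp := Nat.prime_iff_prime_int.1 p.2
    rcases hp with h | h | ⟨z, hz, -⟩
    · rw [hn] at h
      exact hTT2 (hT p (Or.inl h))
    · rcases hpp.dvd_or_dvd h with h | h
      · exact hTT2 (hT p (Or.inr (Or.inl h)))
      · exact hcT2 p (hpp.dvd_of_dvd_pow h)
    · exact absurd hz (Finset.notMem_empty z)
  have hbc : ∀ i, b i * c ≠ 0 := fun i => mul_ne_zero (hb i) hc0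
  have hTc : ∀ i, Smooth T2 (b i * c).natAbs := by
    intro i
    refine ⟨Int.natAbs_ne_zero.2 (hbc i), fun p hp => ?_⟩
    have hpp := Nat.prime_iff_prime_int.1 p.2
    rcases hpp.dvd_or_dvd (Int.natCast_dvd.2 hp) with h | h
    · exact hTT2 (hT p (Or.inr (Or.inr (Or.inr ⟨i, h⟩))))
    · exact hcT2 p h
  obtain ⟨N1, hN1⟩ : ∃ N1, N1 = N * n + N + c.natAbs + 1 := ⟨_, rfl⟩
  obtain ⟨X1, hX1⟩ := mainU m K hh hs g (by
    rw [hgd]
    exact le_trans hn2 (Nat.le_mul_of_pos_right _ (by omega))) (fun i => b i * c) hbc T2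
    (fun p hp => hTT2 (hT p (Or.inr (Or.inr (Or.inl hp))))) hBT hTc N1 U
  refine ⟨X1, fun X hX => ?_⟩
  obtain ⟨Bad, hB1, hB2⟩ := hX1 X hX
  refine ⟨Bad, hB1, fun k hk hkB hq1 hq2 t tr hloc hre hσt hu0 => ?_⟩
  obtain ⟨D, hD⟩ : ∃ D, D = ∏ p ∈ T, (p : ℕ) ^ N := ⟨_, rfl⟩
  have hDD : D2 = D ^ n := by
    rw [hD2, hD, ← prod_pow]
    apply prod_congr rfl
    intro p _
    rw [← pow_mul, hn, mul_comm]
  have hD0 : D ≠ 0 := by rw [hD]; exact prod_ne_zero_iff.2 fun p _ => pow_ne_zero _ p.2.ne_zero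
  have hDF : ∀ p : Nat.Primes, (D : ℚ_[(p : ℕ)]) ≠ 0 := fun p => by exact_mod_cast hD0
  have hDn : ∀ p ∈ T, ‖(D : ℚ_[(p : ℕ)])‖ = (((p : ℕ) : ℝ) ^ N)⁻¹ := by
    intro p hp
    rw [hD]
    exact norm_D T N p hp
  have hctr : 0 < (c : ℝ) * tr := by
    have h1 : (0 : ℝ) < (σ : ℝ) * c := by exact_mod_cast hσc
    have h2 : (σ : ℝ) * σ = 1 := by rcases hσ with h | h <;> rw [h] <;> norm_num
    have h3 := mul_pos h1 hσt
    have e : (σ : ℝ) * c * (σ * tr) = (σ * σ) * (c * tr) := by ring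
    rw [e, h2, one_mul] at h3
    exact h3
  -- the roots
  have hroot : ∀ p : Nat.Primes, ∃ v : ℚ_[(p : ℕ)], p ∈ T → (c : ℚ_[(p : ℕ)]) * v ^ n = t p ∧ ‖v‖ = ((p : ℕ) : ℝ) ^ N := by
    intro p
    by_cases hp : p ∈ T
    · have h1p := hone p
      have h0p : (0 : ℝ) < ((p : ℕ) : ℝ) := by linarith
      have hcw : ‖(D2 : ℚ_[(p : ℕ)]) * t p - (c : ℚ_[(p : ℕ)])‖ ≤ (((p : ℕ) : ℝ) ^ E)⁻¹ := by
        obtain ⟨w, hw⟩ := hMc
        have h1 := hu0 w p hp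
        have e : (u0 : ℤ) + (M : ℤ) * w = c := by linarith
        rw [e] at h1
        rw [norm_sub_rev]
        exact h1
      have hwn : (((p : ℕ) : ℝ) ^ (ex K * N + N))⁻¹ ≤ ‖(D2 : ℚ_[(p : ℕ)]) * t p‖ := by
        rw [norm_mul, hD2, norm_D T (ex K * N) p hp, pow_add, mul_inv]
        exact mul_le_mul_of_nonneg_left (hloc p hp).2.1 (by positivity)
      have hElt : (((p : ℕ) : ℝ) ^ E)⁻¹ < ‖(D2 : ℚ_[(p : ℕ)]) * t p‖ := by
        refine lt_of_lt_of_le ?_ hwn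
        apply inv_strictAnti₀ (by positivity)
        exact pow_lt_pow_right₀ h1p (by omega)
      have hcn : ‖(c : ℚ_[(p : ℕ)])‖ = ‖(D2 : ℚ_[(p : ℕ)]) * t p‖ := by
        apply norm_eq_of_near
        rw [norm_sub_rev]
        exact hcw.trans_lt hElt
      have hcF : (c : ℚ_[(p : ℕ)]) ≠ 0 := by exact_mod_cast hc0
      have hnn : (((p : ℕ) : ℝ) ^ n)⁻¹ < ‖((n : ℕ) : ℚ_[(p : ℕ)])‖ := natCast_norm_gt n (by omega)
      have hlt : ‖(D2 : ℚ_[(p : ℕ)]) * t p - (c : ℚ_[(p : ℕ)])‖ < ‖((n : ℕ) : ℚ_[(p : ℕ)])‖ ^ 2 * ‖(c : ℚ_[(p : ℕ)])‖ := by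
        rw [hcn]
        calc ‖(D2 : ℚ_[(p : ℕ)]) * t p - (c : ℚ_[(p : ℕ)])‖ ≤ (((p : ℕ) : ℝ) ^ E)⁻¹ := hcw
          _ ≤ (((p : ℕ) : ℝ) ^ (2 * n + (ex K * N + N)))⁻¹ := by
              apply inv_anti₀ (by positivity)
              apply pow_le_pow_right₀ h1p.le
              omega
          _ = ((((p : ℕ) : ℝ) ^ n)⁻¹) ^ 2 * (((p : ℕ) : ℝ) ^ (ex K * N + N))⁻¹ := by
              rw [pow_add, mul_inv, pow_mul', inv_pow]
          _ < ‖((n : ℕ) : ℚ_[(p : ℕ)])‖ ^ 2 * ‖(D2 : ℚ_[(p : ℕ)]) * t p‖ :=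
              mul_lt_mul (pow_lt_pow_left₀ hnn (by positivity) (by norm_num)) hwn (by positivity) (by positivity)
      obtain ⟨s, hs⟩ := root_near n _ _ hcF hlt
      have hsn : ‖s‖ = 1 := by
        have h3 := hcn
        rw [hs, norm_mul, norm_pow] at h3
        have h4 : ‖s‖ ^ n = 1 := by
          have h5 : ‖(c : ℚ_[(p : ℕ)])‖ * ‖s‖ ^ n = ‖(c : ℚ_[(p : ℕ)])‖ * 1 := by rw [← h3, mul_one]
          exact mul_left_cancel₀ (norm_ne_zero_iff.2 hcF) h5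
        exact (pow_eq_one_iff_of_nonneg (norm_nonneg s) (by omega)).1 h4
      refine ⟨s * (D : ℚ_[(p : ℕ)])⁻¹, fun _ => ⟨?_, ?_⟩⟩
      · rw [mul_pow, ← mul_assoc, ← hs, hDD]
        have h6 : ((D : ℚ_[(p : ℕ)]) ^ n) ≠ 0 := pow_ne_zero _ (hDF p)
        push_cast
        rw [inv_pow, mul_comm ((D : ℚ_[(p : ℕ)]) ^ n) (t p), mul_assoc, mul_inv_cancel₀ h6, mul_one]
      · rw [norm_mul, hsn, one_mul, norm_inv, hDn p hp, inv_inv]
    · exact ⟨0, fun h => absurd h hp⟩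
  choose v hv using hroot
  obtain ⟨vl, hvl⟩ : ∃ vl : ℚ_[(l : ℕ)], vl = (((l : ℕ) : ℚ_[(l : ℕ)]) ^ (c.natAbs + 1))⁻¹ := ⟨_, rfl⟩
  have hvln : ‖vl‖ = ((l : ℕ) : ℝ) ^ (c.natAbs + 1) := by
    rw [hvl, norm_inv, norm_pow, Padic.norm_p, inv_pow, inv_inv]
  -- the family
  have hfam : ∀ p : Nat.Primes, ∃ v' : ℚ_[(p : ℕ)], (p ∈ T → v' = v p) ∧ (p = l → ‖v'‖ = ((l : ℕ) : ℝ) ^ (c.natAbs + 1)) ∧
      (p ∈ T2 → ‖v'‖ ≤ ((p : ℕ) : ℝ) ^ N1 ∧ (((p : ℕ) : ℝ) ^ N1)⁻¹ ≤ ‖aeval v' g + (k : ℚ_[(p : ℕ)])‖ ∧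
        ∀ i, IsNp (K i) (p : ℕ) ((b i * c : ℤ) * (aeval v' g + (k : ℚ_[(p : ℕ)])))) := by
    intro p
    have h1p := hone p
    have h0p : (0 : ℝ) < ((p : ℕ) : ℝ) := by linarith
    by_cases hp : p ∈ T
    · refine ⟨v p, fun _ => rfl, fun h => absurd (h ▸ hp) hlT, fun _ => ⟨?_, ?_, fun i => ?_⟩⟩
      · rw [(hv p hp).2]
        exact pow_le_pow_right₀ h1p.le (by omega)
      · rw [hgv, (hv p hp).1]
        exact (inv_anti₀ (by positivity) (pow_le_pow_right₀ h1p.le (by omega))).trans (hloc p hp).2.2.1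
      · rw [hgv, (hv p hp).1]
        have hv0 : v p ≠ 0 := by
          intro h0
          have h2 := (hv p hp).2
          rw [h0, norm_zero] at h2
          have : (0 : ℝ) < ((p : ℕ) : ℝ) ^ N := by positivity
          linarith
        have h2 := (hloc p hp).2.2.2 i
        have e2 : ((b i * c : ℤ) : ℚ_[(p : ℕ)]) * (aeval (t p) f + (k : ℚ_[(p : ℕ)])) =
            ((b i : ℚ_[(p : ℕ)]) * (t p * (aeval (t p) f + (k : ℚ_[(p : ℕ)])))) * ((v p)⁻¹) ^ n := by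
          have h3 : (c : ℚ_[(p : ℕ)]) = t p * ((v p)⁻¹) ^ n := by
            rw [← (hv p hp).1, mul_assoc, ← mul_pow, mul_inv_cancel₀ hv0, one_pow, mul_one]
          push_cast
          rw [h3]
          ring
        rw [e2, hn]
        exact h2.mul (isNp_ex K i _)
    · by_cases hp2 : p = l
      · subst hp2
        obtain ⟨h3, h4⟩ := pt_l m K hh hs f hd b hb p hlc hl1 hlb c hc0 k vl hvl
        rw [← hn] at h3 h4
        refine ⟨vl, fun h => absurd h hp, fun _ => hvln, fun _ => ⟨?_, ?_, fun i => ?_⟩⟩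
        · rw [hvln]
          exact pow_le_pow_right₀ h1p.le (by omega)
        · rw [hgv]
          exact (inv_le_one_of_one_le₀ (one_le_pow₀ h1p.le)).trans h3
        · rw [hgv]
          exact h4 i
      · by_cases hp3 : p = q
        · subst hp3
          obtain ⟨h3, h4⟩ := pt_q m K hh hs f b p hqc (fun i h => hqd ⟨i, h⟩) j e hj2 (by rw [hj, hn]) c c1 hcq hc1 k hq1 hq2
          refine ⟨1, fun h => absurd h hp, fun h => absurd h hp2, fun _ => ⟨?_, ?_, fun i => ?_⟩⟩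
          · rw [norm_one]
            exact one_le_pow₀ h1p.le
          · rw [hgv, one_pow, mul_one]
            refine le_trans ?_ h3
            exact inv_anti₀ h0p (le_self_pow₀ h1p.le (by omega))
          · rw [hgv, one_pow, mul_one]
            exact h4 i
        · refine ⟨0, fun h => absurd h hp, fun h => absurd h hp2, fun h => ?_⟩
          rw [hT2, mem_insert, mem_insert] at h
          rcases h with h | h | h
          · exact absurd h hp2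
          · exact absurd h hp3
          · exact absurd h hp
  choose v' hv1 hv2 hv3 using hfam
  -- the real place
  obtain ⟨htr0, hfr0, hsg⟩ := hre
  have hcr : (c : ℝ) ≠ 0 := by exact_mod_cast hc0
  obtain ⟨ρ, hρ⟩ : ∃ ρ : ℝ, (c : ℝ) * ρ ^ n = tr := by
    have hq : 0 ≤ tr / c := by
      have : tr / c = (c * tr) / (c : ℝ) ^ 2 := by field_simp
      rw [this]
      positivity
    refine ⟨(tr / c) ^ ((n : ℝ)⁻¹), ?_⟩
    rw [Real.rpow_inv_natCast_pow hq (by omega)]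
    field_simp
  obtain ⟨x, hx1, hx2, hx3⟩ := hB2 k hk hkB ⟨ρ, by
      rw [hgv, hρ]
      exact hfr0, fun i => by
      rw [hgv, hρ]
      rcases hsg i with h | h
      · exact Or.inl h
      · right
        have h4 := mul_pos h hctr
        have e2 : (b i : ℝ) * (tr * (aeval tr f + (k : ℝ))) * (c * tr) = (((b i * c : ℤ) : ℝ) * (aeval tr f + (k : ℝ))) * tr ^ 2 := by
          push_cast
          ring
        rw [e2] at h4
        exact (mul_pos_iff_of_pos_right (by positivity)).1 h4⟩ v' (fun p hp => hv3 p hp)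
  -- the rational point
  obtain ⟨S, hS⟩ : ∃ S : ℚ, S = (c : ℚ) * x ^ n := ⟨_, rfl⟩
  rw [hgv, ← hS] at hx2
  have hx0 : x ≠ 0 := by
    rintro rfl
    have h1 := hx1 l (by rw [hT2]; exact mem_insert_self _ _)
    rw [Rat.cast_zero, zero_sub, norm_neg, hv2 l rfl] at h1
    have h1l := hone l
    have h2 : (1 : ℝ) < ((l : ℕ) : ℝ) ^ (c.natAbs + 1) := one_lt_pow₀ h1l (by omega)
    have h3 : (((l : ℕ) : ℝ) ^ N1)⁻¹ ≤ 1 := inv_le_one_of_one_le₀ (one_le_pow₀ h1l.le)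
    linarith
  refine ⟨S, ?_, hx2, fun p hp => ?_, fun i => ?_⟩
  · rw [hS]
    push_cast
    have h1 : (0 : ℝ) < (x : ℝ) ^ n := hneven.pow_pos (by exact_mod_cast hx0)
    have h2 := mul_pos hctr h1
    linarith
  · have h1p := hone p
    have h0p : (0 : ℝ) < ((p : ℕ) : ℝ) := by linarith
    have h1 := hx1 p (hTT2 hp)
    rw [hv1 p hp] at h1
    have h2 : ‖v p‖ ≤ ((p : ℕ) : ℝ) ^ N := (hv p hp).2.le
    have h3 : ‖(x : ℚ_[(p : ℕ)])‖ ≤ ((p : ℕ) : ℝ) ^ N := by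
      have e2 : (x : ℚ_[(p : ℕ)]) = ((x : ℚ_[(p : ℕ)]) - v p) + v p := by ring
      rw [e2]
      refine (Padic.nonarchimedean _ _).trans (max_le ?_ h2)
      exact h1.trans (le_trans (inv_le_one_of_one_le₀ (one_le_pow₀ h1p.le)) (one_le_pow₀ h1p.le))
    have h4 := pow_sub_bound n N (x : ℚ_[(p : ℕ)]) (v p) h3 h2
    have e2 : (S : ℚ_[(p : ℕ)]) - t p = (c : ℚ_[(p : ℕ)]) * ((x : ℚ_[(p : ℕ)]) ^ n - v p ^ n) := by
      rw [← (hv p hp).1, hS]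
      push_cast
      ring
    rw [e2, norm_mul]
    calc ‖(c : ℚ_[(p : ℕ)])‖ * ‖(x : ℚ_[(p : ℕ)]) ^ n - v p ^ n‖
        ≤ 1 * (((p : ℕ) : ℝ) ^ (N * n) * (((p : ℕ) : ℝ) ^ N1)⁻¹) :=
          mul_le_mul (Padic.norm_int_le_one _) (h4.trans (mul_le_mul_of_nonneg_left h1 (by positivity))) (norm_nonneg _) (by norm_num)
      _ ≤ 1 * (((p : ℕ) : ℝ) ^ (N * n) * (((p : ℕ) : ℝ) ^ (N * n + N))⁻¹) := by
          apply mul_le_mul_of_nonneg_left _ (by norm_num)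
          apply mul_le_mul_of_nonneg_left _ (by positivity)
          exact inv_anti₀ (by positivity) (pow_le_pow_right₀ h1p.le (by omega))
      _ = (((p : ℕ) : ℝ) ^ N)⁻¹ := by
          rw [pow_add]
          field_simp
  · have h1 := hx3 i
    rw [hgv, ← hS] at h1
    have e2 : (b i : ℚ) * (S * (aeval S f + (k : ℚ))) = (((b i * c : ℤ) : ℚ) * (aeval S f + (k : ℚ))) * x ^ n := by
      have h5 := hS
      push_cast
      linear_combination ((b i : ℚ) * (aeval S f + (k : ℚ))) * h5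
    rw [e2, hn]
    exact h1.mul (isN_ex K i x)

end Pool.Agent.R479.NF
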