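import Pool.Agent.R479.NF.Br4

/-!
# `N(z) = b t (f(t) + k)`: the theorem for large sets of primes
-/

set_option autoImplicit false
set_option linter.unusedSectionVars false

namespace Pool.Agent.R479.NF

open NumberField Module TensorProduct Finset Filter Polynomial
open Pool.Agent.TH204.HP (BigT eval_shift int_norm_gt norm_eq_of_near norm_D aeval_int count_exact exists_u0)

variable (m : ℕ) [NeZero m] {L : Type} [Field L] [NumberField L] [IsCyclotomicExtension {m} ℚ L]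
variable {r : ℕ}

include m in
open Classical in
/-- the theorem for one residue class and one sign -/
theorem cls (K : Fin r → IntermediateField ℚ L) (hh : ∀ i, (classNumber (K i)).Coprime (finrank ℚ (K i)))
    (hs : ∀ i, Sgn (K i)) (f : ℤ[X]) (hd : 1 ≤ f.natDegree) (b : Fin r → ℤ) (hb : ∀ i, b i ≠ 0)
    (T : Finset Nat.Primes)
    (hT : ∀ p : Nat.Primes, ((p : ℕ) ≤ ex K * f.natDegree ∨ ((p : ℕ) : ℤ) ∣ f.leadingCoeff ∨ (p : ℕ) ∣ m ∨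
      ∃ i, ((p : ℕ) : ℤ) ∣ b i) → p ∈ T)
    (N E D2 M u0 : ℕ) (hD2 : D2 = ∏ p ∈ T, (p : ℕ) ^ (ex K * N)) (hM : M = ∏ p ∈ T, (p : ℕ) ^ E)
    (hE : E = (ex K * N + N) + 2 * ex K + 1 + m) (σ : ℤ) (hσ : σ = 1 ∨ σ = -1)
    (hu : ∀ p ∈ T, ¬ (((p : ℕ) ^ E : ℕ) : ℤ) ∣ (u0 : ℤ)) (δ : ℝ) (hδ : 0 < δ) :
    ∃ X1 : ℕ, ∀ X : ℕ, X1 ≤ X → ∃ Bad : Finset ℤ, (#Bad : ℝ) ≤ 4 * δ * X ∧ ∀ k : ℤ, |k| ≤ X → k ∉ Bad →
        ∀ (t : (p : Nat.Primes) → ℚ_[(p : ℕ)]) (tr : ℝ), WL K f b T N k t → WR K f b k tr → 0 < (σ : ℝ) * tr →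
        (∀ w : ℤ, ∀ p ∈ T, ‖(((u0 : ℤ) + M * w : ℤ) : ℚ_[(p : ℕ)]) - D2 * t p‖ ≤ (((p : ℕ) : ℝ) ^ E)⁻¹) →
        WG K f b T N k t tr := by
  obtain ⟨a, ha, hA⟩ := idx m K hh hs f hd b hb T hT N 1 E D2 M u0 hD2 hM hE σ hσ hu
  obtain ⟨F, hF1, hF2⟩ := class_set m a ha (∑ p ∈ T, (p : ℕ)) δ hδ
  obtain ⟨R, hR⟩ : ∃ R, R = ∏ r ∈ F, (r : ℕ) ^ 2 := ⟨_, rfl⟩
  rw [← hR] at hF2
  have hq : ∀ q : Nat.Primes, ∃ X1 : ℕ, q ∈ F → ∀ X : ℕ, X1 ≤ X → ∃ Bad : Finset ℤ, (#Bad : ℝ) ≤ X / Real.log X ^ 1 ∧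
        ∀ k : ℤ, |k| ≤ X → k ∉ Bad →
        ((q : ℕ) : ℤ) ∣ f.eval 0 + k → ¬ ((q : ℕ) : ℤ) ^ 2 ∣ f.eval 0 + k →
        ∀ (t : (p : Nat.Primes) → ℚ_[(p : ℕ)]) (tr : ℝ), WL K f b T N k t → WR K f b k tr → 0 < (σ : ℝ) * tr →
        (∀ w : ℤ, ∀ p ∈ T, ‖(((u0 : ℤ) + M * w : ℤ) : ℚ_[(p : ℕ)]) - D2 * t p‖ ≤ (((p : ℕ) : ℝ) ^ E)⁻¹) →
        WG K f b T N k t tr := by
    intro q
    by_cases hq : q ∈ F
    · obtain ⟨h1, h2⟩ := hF1 q hq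
      obtain ⟨X1, h3⟩ := hA q (by
        intro h
        have := single_le_sum (f := fun p : Nat.Primes => (p : ℕ)) (fun _ _ => Nat.zero_le _) h
        omega) h2
      exact ⟨X1, fun _ => h3⟩
    · exact ⟨0, fun h => absurd h hq⟩
  choose X1 hX1 using hq
  obtain ⟨X2, hX2⟩ := exists_nat_ge ((δ * (1 + R) + R) / δ)
  obtain ⟨X3, hX3⟩ := eventually_atTop.1 (Pool.Agent.TH204.WR.evt_log_ge (#F / δ + 1))
  refine ⟨max (max (∑ q ∈ F, X1 q) X2) X3, fun X hX => ?_⟩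
  have hXa : ∀ q ∈ F, X1 q ≤ X := fun q hq =>
    (single_le_sum (f := X1) (fun _ _ => Nat.zero_le _) hq).trans ((le_trans (le_max_left _ _) (le_max_left _ _)).trans hX)
  have hXb : X2 ≤ X := (le_trans (le_max_right _ _) (le_max_left _ _)).trans hX
  have hL := hX3 X ((le_max_right _ _).trans hX)
  have hbad : ∀ q : Nat.Primes, ∃ Bad : Finset ℤ, q ∈ F → (#Bad : ℝ) ≤ X / Real.log X ^ 1 ∧
        ∀ k : ℤ, |k| ≤ X → k ∉ Bad →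
        ((q : ℕ) : ℤ) ∣ f.eval 0 + k → ¬ ((q : ℕ) : ℤ) ^ 2 ∣ f.eval 0 + k →
        ∀ (t : (p : Nat.Primes) → ℚ_[(p : ℕ)]) (tr : ℝ), WL K f b T N k t → WR K f b k tr → 0 < (σ : ℝ) * tr →
        (∀ w : ℤ, ∀ p ∈ T, ‖(((u0 : ℤ) + M * w : ℤ) : ℚ_[(p : ℕ)]) - D2 * t p‖ ≤ (((p : ℕ) : ℝ) ^ E)⁻¹) →
        WG K f b T N k t tr := by
    intro q
    by_cases hq : q ∈ F
    · obtain ⟨B, hB⟩ := hX1 q hq X (hXa q hq)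
      exact ⟨B, fun _ => hB⟩
    · exact ⟨∅, fun h => absurd h hq⟩
  choose B hB using hbad
  have hX0 : (0 : ℝ) ≤ X := Nat.cast_nonneg _
  refine ⟨((Icc (-(X : ℤ)) X).filter (fun k => ∀ r ∈ F, ¬ (((r : ℕ) : ℤ) ∣ f.eval 0 + k ∧ ¬ ((r : ℕ) : ℤ) ^ 2 ∣ f.eval 0 + k))) ∪
    F.biUnion B, ?_, ?_⟩
  · have h1 := count_exact F (f.eval 0) δ R hR hδ.le hF2 X
    have h2 : (#(((Icc (-(X : ℤ)) X).filter (fun k => ∀ r ∈ F, ¬ (((r : ℕ) : ℤ) ∣ f.eval 0 + k ∧ ¬ ((r : ℕ) : ℤ) ^ 2 ∣ f.eval 0 + k))) ∪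
      F.biUnion B) : ℝ) ≤ (#((Icc (-(X : ℤ)) X).filter (fun k => ∀ r ∈ F, ¬ (((r : ℕ) : ℤ) ∣ f.eval 0 + k ∧ ¬ ((r : ℕ) : ℤ) ^ 2 ∣ f.eval 0 + k))) : ℝ) +
        ∑ q ∈ F, (#(B q) : ℝ) := by
      exact_mod_cast (card_union_le _ _).trans (Nat.add_le_add_left card_biUnion_le _)
    refine h2.trans ?_
    have h3 : ∑ q ∈ F, (#(B q) : ℝ) ≤ #F * (X / Real.log X ^ 1) := by
      rw [← nsmul_eq_mul, ← sum_const]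
      exact sum_le_sum fun q hq => (hB q hq).1
    have hLpos : 0 < Real.log X := lt_of_lt_of_le (by positivity) hL
    have h4 : (#F : ℝ) * (X / Real.log X ^ 1) ≤ δ * X := by
      rw [pow_one, ← mul_div_assoc, div_le_iff₀ hLpos]
      have h5 : (#F : ℝ) ≤ δ * Real.log X := by
        have h6 : (#F : ℝ) / δ ≤ Real.log X := by linarith
        rw [div_le_iff₀ hδ] at h6
        linarith
      nlinarith
    have h5 : δ * (1 + R) + R ≤ δ * X := by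
      have h6 : (δ * (1 + R) + R) / δ ≤ X := hX2.trans (by exact_mod_cast hXb)
      rw [div_le_iff₀ hδ] at h6
      linarith
    nlinarith
  · intro k hk hkB t tr h1 h2 h3 h4
    rw [mem_union, not_or] at hkB
    obtain ⟨hk1, hk2⟩ := hkB
    rw [mem_filter, not_and] at hk1
    have hk3 := hk1 (mem_Icc.2 (abs_le.1 hk))
    push Not at hk3
    obtain ⟨q, hq, hq1, hq2⟩ := hk3
    rw [mem_biUnion] at hk2
    push Not at hk2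
    exact (hB q hq).2 k hk (hk2 q hq) hq1 hq2 t tr h1 h2 h3 h4

include m in
open Classical in
theorem brT (K : Fin r → IntermediateField ℚ L) (hh : ∀ i, (classNumber (K i)).Coprime (finrank ℚ (K i)))
    (hs : ∀ i, Sgn (K i)) (f : ℤ[X]) (hd : 1 ≤ f.natDegree) (b : Fin r → ℤ) (hb : ∀ i, b i ≠ 0)
    (T : Finset Nat.Primes)
    (hT : ∀ p : Nat.Primes, ((p : ℕ) ≤ ex K * f.natDegree ∨ ((p : ℕ) : ℤ) ∣ f.leadingCoeff ∨ (p : ℕ) ∣ m ∨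
      ∃ i, ((p : ℕ) : ℤ) ∣ b i) → p ∈ T) (N : ℕ) (ε : ℝ) (hε : 0 < ε) :
    ∃ X0 : ℕ, ∀ X : ℕ, X0 ≤ X → ∃ Bad : Finset ℤ, (#Bad : ℝ) ≤ ε * X ∧ ∀ k : ℤ, |k| ≤ X → k ∉ Bad →
        ∀ (t : (p : Nat.Primes) → ℚ_[(p : ℕ)]) (tr : ℝ), WL K f b T N k t → WR K f b k tr → WG K f b T N k t tr := by
  obtain ⟨D2, hD2⟩ : ∃ D2, D2 = ∏ p ∈ T, (p : ℕ) ^ (ex K * N) := ⟨_, rfl⟩
  obtain ⟨E, hE⟩ : ∃ E, E = (ex K * N + N) + 2 * ex K + 1 + m := ⟨_, rfl⟩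
  obtain ⟨M, hM⟩ : ∃ M, M = ∏ p ∈ T, (p : ℕ) ^ E := ⟨_, rfl⟩
  obtain ⟨I, hI⟩ : ∃ I : Finset (ℕ × ℤ), I = range M ×ˢ ({1, -1} : Finset ℤ) := ⟨_, rfl⟩
  obtain ⟨δ, hδ⟩ : ∃ δ : ℝ, δ = ε / (4 * (#I + 1)) := ⟨_, rfl⟩
  have hδ0 : 0 < δ := by rw [hδ]; positivity
  have hone : ∀ p : Nat.Primes, (1 : ℝ) < ((p : ℕ) : ℝ) := fun p => by exact_mod_cast p.2.one_lt
  have hcls : ∀ i : ℕ × ℤ, ∃ X1 : ℕ, (i.2 = 1 ∨ i.2 = -1) → (∀ p ∈ T, ¬ (((p : ℕ) ^ E : ℕ) : ℤ) ∣ (i.1 : ℤ)) →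
      ∀ X : ℕ, X1 ≤ X → ∃ Bad : Finset ℤ, (#Bad : ℝ) ≤ 4 * δ * X ∧ ∀ k : ℤ, |k| ≤ X → k ∉ Bad →
        ∀ (t : (p : Nat.Primes) → ℚ_[(p : ℕ)]) (tr : ℝ), WL K f b T N k t → WR K f b k tr → 0 < (i.2 : ℝ) * tr →
        (∀ w : ℤ, ∀ p ∈ T, ‖(((i.1 : ℤ) + M * w : ℤ) : ℚ_[(p : ℕ)]) - D2 * t p‖ ≤ (((p : ℕ) : ℝ) ^ E)⁻¹) →
        WG K f b T N k t tr := by
    intro i
    by_cases hi : (i.2 = 1 ∨ i.2 = -1) ∧ (∀ p ∈ T, ¬ (((p : ℕ) ^ E : ℕ) : ℤ) ∣ (i.1 : ℤ))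
    · obtain ⟨X1, h1⟩ := cls m K hh hs f hd b hb T hT N E D2 M i.1 hD2 hM hE i.2 hi.1 hi.2 δ hδ0
      exact ⟨X1, fun _ _ => h1⟩
    · exact ⟨0, fun h1 h2 => absurd ⟨h1, h2⟩ hi⟩
  choose X1 hX1 using hcls
  refine ⟨∑ i ∈ I, X1 i, fun X hX => ?_⟩
  have hXa : ∀ i ∈ I, X1 i ≤ X := fun i hi => (single_le_sum (fun _ _ => Nat.zero_le _) hi).trans hX
  have hX0 : (0 : ℝ) ≤ X := Nat.cast_nonneg _
  have hbad : ∀ i : ℕ × ℤ, ∃ Bad : Finset ℤ, (#Bad : ℝ) ≤ 4 * δ * X ∧ (i ∈ I → (i.2 = 1 ∨ i.2 = -1) →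
      (∀ p ∈ T, ¬ (((p : ℕ) ^ E : ℕ) : ℤ) ∣ (i.1 : ℤ)) → ∀ k : ℤ, |k| ≤ X → k ∉ Bad →
        ∀ (t : (p : Nat.Primes) → ℚ_[(p : ℕ)]) (tr : ℝ), WL K f b T N k t → WR K f b k tr → 0 < (i.2 : ℝ) * tr →
        (∀ w : ℤ, ∀ p ∈ T, ‖(((i.1 : ℤ) + M * w : ℤ) : ℚ_[(p : ℕ)]) - D2 * t p‖ ≤ (((p : ℕ) : ℝ) ^ E)⁻¹) →
        WG K f b T N k t tr) := by
    intro i
    by_cases hi : i ∈ I ∧ (i.2 = 1 ∨ i.2 = -1) ∧ (∀ p ∈ T, ¬ (((p : ℕ) ^ E : ℕ) : ℤ) ∣ (i.1 : ℤ))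
    · obtain ⟨B, hB1, hB2⟩ := hX1 i hi.2.1 hi.2.2 X (hXa i hi.1)
      exact ⟨B, hB1, fun _ _ _ => hB2⟩
    · refine ⟨∅, ?_, fun h1 h2 h3 => absurd ⟨h1, h2, h3⟩ hi⟩
      rw [card_empty, Nat.cast_zero]
      positivity
  choose B hB1 hB2 using hbad
  refine ⟨I.biUnion B, ?_, fun k hk hkB t tr hloc hre => ?_⟩
  · have h1 : (#(I.biUnion B) : ℝ) ≤ ∑ i ∈ I, (#(B i) : ℝ) := by exact_mod_cast card_biUnion_le
    refine h1.trans ((sum_le_sum fun i _ => hB1 i).trans ?_)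
    rw [sum_const, nsmul_eq_mul, hδ]
    have e : (#I : ℝ) * (4 * (ε / (4 * (#I + 1))) * X) = (ε * X) * (#I / (#I + 1)) := by
      field_simp
    rw [e]
    apply mul_le_of_le_one_right (by positivity)
    rw [div_le_one (by positivity)]
    linarith
  · rw [mem_biUnion] at hkB
    push Not at hkB
    have hex : 1 ≤ ex K := by have := ex_ge K; omega
    obtain ⟨u0, hu0M, hu0⟩ := exists_u0 T (ex K * N) E D2 M t (fun p hp => ((hloc p hp).1).trans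
      (pow_le_pow_right₀ (hone p).le (Nat.le_mul_of_pos_left _ hex))) hD2 hM
    have hu : ∀ p ∈ T, ¬ (((p : ℕ) ^ E : ℕ) : ℤ) ∣ (u0 : ℤ) := by
      intro p hp hdiv
      have h1p := hone p
      have h0p : (0 : ℝ) < ((p : ℕ) : ℝ) := by linarith
      have hwn : (((p : ℕ) : ℝ) ^ (ex K * N + N))⁻¹ ≤ ‖(D2 : ℚ_[(p : ℕ)]) * t p‖ := by
        rw [norm_mul, hD2, norm_D T (ex K * N) p hp, pow_add, mul_inv]
        exact mul_le_mul_of_nonneg_left (hloc p hp).2.1 (by positivity)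
      have hElt : (((p : ℕ) : ℝ) ^ E)⁻¹ < ‖(D2 : ℚ_[(p : ℕ)]) * t p‖ := by
        refine lt_of_lt_of_le ?_ hwn
        apply inv_strictAnti₀ (by positivity)
        exact pow_lt_pow_right₀ h1p (by omega)
      have h1 := (Padic.norm_int_le_pow_iff_dvd (p := (p : ℕ)) (u0 : ℤ) E).2 (by exact_mod_cast hdiv)
      rw [zpow_neg, zpow_natCast] at h1
      have h2 := hu0 0 p hp
      rw [mul_zero, add_zero] at h2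
      have h3 := norm_eq_of_near _ _ (h2.trans_lt hElt)
      rw [h3] at h1
      exact absurd h1 (not_le.2 hElt)
    obtain ⟨σ, hσ, hσt⟩ : ∃ σ : ℤ, (σ = 1 ∨ σ = -1) ∧ 0 < (σ : ℝ) * tr := by
      rcases lt_or_gt_of_ne hre.1 with h | h
      · exact ⟨-1, Or.inr rfl, by push_cast; linarith⟩
      · exact ⟨1, Or.inl rfl, by push_cast; linarith⟩
    have hiI : (u0, σ) ∈ I := by
      rw [hI, mem_product, mem_insert, mem_singleton]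
      exact ⟨mem_range.2 hu0M, hσ⟩
    exact hB2 (u0, σ) hiI hσ hu k hk (hkB (u0, σ) hiI) t tr hloc hre hσt hu0

end Pool.Agent.R479.NF
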