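import Pool.Agent.R479.NF.Br5

/-!
# `N(z) = b t (f(t) + k)`: all finite sets of primes, all coordinates
-/

set_option autoImplicit false
set_option linter.unusedSectionVars false

namespace Pool.Agent.R479.NF

open NumberField Module TensorProduct Finset Filter Polynomial
open Pool.Agent.TH204.HP (BigT eval_shift int_norm_gt norm_eq_of_near norm_D aeval_int count_pow primes_upto lip2)

/-- weak approximation for the elements of given norm, from close norms -/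
lemma wa_one {K : Type} [Field K] [NumberField K] [IsGalois ℚ K] {σ : K ≃ₐ[ℚ] K} (hσ : Gen σ) (T : Finset Nat.Primes) (N B : ℕ)
    (hB : finrank ℚ K ≤ B) (a : ℚ) (ha : a ≠ 0) (hN : IsN K a) (A : (p : Nat.Primes) → ℚ_[(p : ℕ)])
    (z : (p : Nat.Primes) → Ap K (p : ℕ))
    (hz : ∀ p ∈ T, Algebra.norm ℚ_[((p : Nat.Primes) : ℕ)] (z p) = A p ∧ A p ≠ 0 ∧ ∀ j, ‖cd (p : ℕ) (z p) j‖ ≤ ((p : ℕ) : ℝ) ^ N)
    (hcl : ∀ p ∈ T, ‖(a : ℚ_[((p : Nat.Primes) : ℕ)]) - A p‖ ≤ (((p : ℕ) : ℝ) ^ (2 * N + 2 * B + 1))⁻¹ * ‖A p‖) :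
    ∃ y : K, Algebra.norm ℚ y = a ∧ ∀ p ∈ T, ∀ j,
      ‖cd (p : ℕ) ((1 : ℚ_[((p : Nat.Primes) : ℕ)]) ⊗ₜ[ℚ] y : Ap K (p : ℕ)) j - cd (p : ℕ) (z p) j‖ ≤ (((p : ℕ) : ℝ) ^ N)⁻¹ := by
  classical
  have hone : ∀ p : Nat.Primes, (1 : ℝ) < ((p : ℕ) : ℝ) := fun p => by exact_mod_cast p.2.one_lt
  obtain ⟨n, hn⟩ : ∃ n, n = finrank ℚ K := ⟨_, rfl⟩
  have hn0 : n ≠ 0 := by rw [hn]; exact (finrank_pos (R := ℚ) (M := K)).ne'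
  rw [← hn] at hB
  have hs : ∀ p : Nat.Primes, ∃ s : ℚ_[(p : ℕ)], p ∈ T → s ^ n * A p = (a : ℚ_[(p : ℕ)]) ∧ ‖s - 1‖ ≤ (((p : ℕ) : ℝ) ^ (2 * N))⁻¹ := by
    intro p
    by_cases hp : p ∈ T
    · have h1p := hone p
      have h0p : (0 : ℝ) < ((p : ℕ) : ℝ) := by linarith
      obtain ⟨-, hA, -⟩ := hz p hp
      have hAn : 0 < ‖A p‖ := norm_pos_iff.2 hA
      obtain ⟨e, he⟩ : ∃ e : ℚ_[(p : ℕ)], e = ((a : ℚ_[(p : ℕ)]) - A p) / A p := ⟨_, rfl⟩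
      have hen : ‖e‖ ≤ (((p : ℕ) : ℝ) ^ (2 * N + 2 * B + 1))⁻¹ := by
        rw [he, norm_div, div_le_iff₀ hAn]
        exact hcl p hp
      have hnn : (((p : ℕ) : ℝ) ^ B)⁻¹ < ‖((n : ℕ) : ℚ_[(p : ℕ)])‖ :=
        (inv_anti₀ (by positivity) (pow_le_pow_right₀ h1p.le hB)).trans_lt (natCast_norm_gt n hn0)
      have hBpos : (0 : ℝ) < (((p : ℕ) : ℝ) ^ B)⁻¹ := by positivity
      have hlt : ‖e‖ < ‖((n : ℕ) : ℚ_[(p : ℕ)])‖ ^ 2 := by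
        calc ‖e‖ ≤ (((p : ℕ) : ℝ) ^ (2 * N + 2 * B + 1))⁻¹ := hen
          _ ≤ ((((p : ℕ) : ℝ) ^ B)⁻¹) ^ 2 := by
              rw [inv_pow, ← pow_mul]
              apply inv_anti₀ (by positivity)
              apply pow_le_pow_right₀ h1p.le
              omega
          _ < ‖((n : ℕ) : ℚ_[(p : ℕ)])‖ ^ 2 := pow_lt_pow_left₀ hnn hBpos.le (by norm_num)
      obtain ⟨s, hs1, hs2⟩ := root_near' n e hlt
      refine ⟨s, fun _ => ⟨?_, ?_⟩⟩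
      · rw [hs1, he]
        field_simp
        ring
      · have hnpos : 0 < ‖((n : ℕ) : ℚ_[(p : ℕ)])‖ := hBpos.trans hnn
        have h6 : ‖s - 1‖ = ‖e‖ / ‖((n : ℕ) : ℚ_[(p : ℕ)])‖ := by
          rw [eq_div_iff hnpos.ne']
          exact hs2
        rw [h6, div_le_iff₀ hnpos]
        calc ‖e‖ ≤ (((p : ℕ) : ℝ) ^ (2 * N + 2 * B + 1))⁻¹ := hen
          _ ≤ (((p : ℕ) : ℝ) ^ (2 * N + B))⁻¹ := by
              apply inv_anti₀ (by positivity)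
              apply pow_le_pow_right₀ h1p.le
              omega
          _ = (((p : ℕ) : ℝ) ^ (2 * N))⁻¹ * (((p : ℕ) : ℝ) ^ B)⁻¹ := by rw [pow_add, mul_inv]
          _ ≤ (((p : ℕ) : ℝ) ^ (2 * N))⁻¹ * ‖((n : ℕ) : ℚ_[(p : ℕ)])‖ := mul_le_mul_of_nonneg_left hnn.le (by positivity)
    · exact ⟨0, fun h => absurd h hp⟩
  choose s hs using hs
  obtain ⟨δ, hδ, hδp⟩ := exists_small T (fun p => (((p : ℕ) : ℝ) ^ N)⁻¹) (by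
    intro p _
    have := hone p
    positivity)
  obtain ⟨w, hw⟩ := hN
  obtain ⟨y, hy1, hy2⟩ := wa_norm hσ T a ha w hw (fun p => algebraMap ℚ_[(p : ℕ)] (Ap K (p : ℕ)) (s p) * z p) (by
    intro p hp
    rw [map_mul, Algebra.norm_algebraMap_of_basis (Algebra.TensorProduct.basis ℚ_[(p : ℕ)] (integralBasis K)),
      ← Module.finrank_eq_card_basis (integralBasis K), (hz p hp).1, ← hn]
    exact (hs p hp).1) δ hδ
  refine ⟨y, hy1, fun p hp j => ?_⟩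
  have h1p := hone p
  have h0p : (0 : ℝ) < ((p : ℕ) : ℝ) := by linarith
  have h1 := (hy2 p hp j).le.trans (hδp p hp)
  have h2 : ‖cd (p : ℕ) (algebraMap ℚ_[(p : ℕ)] (Ap K (p : ℕ)) (s p) * z p) j - cd (p : ℕ) (z p) j‖ ≤ (((p : ℕ) : ℝ) ^ N)⁻¹ := by
    rw [cd_smul]
    have e : s p * cd (p : ℕ) (z p) j - cd (p : ℕ) (z p) j = (s p - 1) * cd (p : ℕ) (z p) j := by ring
    rw [e, norm_mul]
    calc ‖s p - 1‖ * ‖cd (p : ℕ) (z p) j‖ ≤ (((p : ℕ) : ℝ) ^ (2 * N))⁻¹ * ((p : ℕ) : ℝ) ^ N :=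
          mul_le_mul (hs p hp).2 ((hz p hp).2.2 j) (norm_nonneg _) (by positivity)
      _ = (((p : ℕ) : ℝ) ^ N)⁻¹ := by
          rw [pow_mul', pow_two]
          field_simp
  have e : cd (p : ℕ) ((1 : ℚ_[(p : ℕ)]) ⊗ₜ[ℚ] y : Ap K (p : ℕ)) j - cd (p : ℕ) (z p) j =
      (cd (p : ℕ) ((1 : ℚ_[(p : ℕ)]) ⊗ₜ[ℚ] y : Ap K (p : ℕ)) j -
        cd (p : ℕ) (algebraMap ℚ_[(p : ℕ)] (Ap K (p : ℕ)) (s p) * z p) j) +
      (cd (p : ℕ) (algebraMap ℚ_[(p : ℕ)] (Ap K (p : ℕ)) (s p) * z p) j - cd (p : ℕ) (z p) j) := by ring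
  rw [e]
  exact (Padic.nonarchimedean _ _).trans (max_le h1 h2)

variable (m : ℕ) [NeZero m] {L : Type} [Field L] [NumberField L] [IsCyclotomicExtension {m} ℚ L]
variable {r : ℕ}

/-- a point at an arbitrary prime -/
lemma pt_b (K : Fin r → IntermediateField ℚ L) (f : ℤ[X]) (b k : ℤ) (p : Nat.Primes) (M nb : ℕ)
    (hbn : ¬ ((p : ℕ) : ℤ) ^ nb ∣ b) (h : ¬ ((p : ℕ) : ℤ) ^ M ∣ f.eval 0 + k) :
    ∃ t : ℚ_[(p : ℕ)], ‖t‖ ≤ 1 ∧ (((p : ℕ) : ℝ) ^ ((nb + M + 3) * ex K))⁻¹ ≤ ‖t‖ ∧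
      (((p : ℕ) : ℝ) ^ ((nb + M + 3) * ex K))⁻¹ ≤ ‖aeval t f + (k : ℚ_[(p : ℕ)])‖ ∧
      ∀ i, IsNp (K i) (p : ℕ) ((b : ℚ_[(p : ℕ)]) * (t * (aeval t f + (k : ℚ_[(p : ℕ)])))) := by
  have hp1 : (1 : ℝ) < ((p : ℕ) : ℝ) := by exact_mod_cast p.2.one_lt
  have hp0 : (0 : ℝ) < ((p : ℕ) : ℝ) := by linarith
  obtain ⟨n, hn⟩ : ∃ n, n = ex K := ⟨_, rfl⟩
  have hn2 : 2 ≤ n := by rw [hn]; exact ex_ge K
  rw [← hn]
  obtain ⟨n', hn'⟩ : ∃ n', n = n' + 2 := ⟨n - 2, by omega⟩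
  obtain ⟨c0, hc0⟩ : ∃ c0, c0 = f.eval 0 + k := ⟨_, rfl⟩
  rw [← hc0] at h
  obtain ⟨τ, hτ⟩ : ∃ τ : ℤ, τ = (b * c0) ^ (n' + 1) * ((p : ℕ) : ℤ) ^ (3 * n) := ⟨_, rfl⟩
  obtain ⟨g, hg⟩ := eval_shift f τ
  obtain ⟨e, he⟩ : ∃ e : ℤ, e = b ^ (n' + 1) * c0 ^ n' * ((p : ℕ) : ℤ) ^ (3 * n) * g := ⟨_, rfl⟩
  have hval : f.eval τ + k = c0 * (1 + e) := by
    rw [hg, hτ, he, mul_pow]
    linear_combination -hc0
  have hbg := int_norm_gt p b nb hbn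
  have hcg := int_norm_gt p c0 M h
  have hb1 := Padic.norm_int_le_one (p := (p : ℕ)) b
  have hc1 := Padic.norm_int_le_one (p := (p : ℕ)) c0
  have hp3 : (((p : ℕ) : ℝ) ^ (3 * n))⁻¹ < ‖((n : ℕ) : ℚ_[(p : ℕ)])‖ ^ 2 := by
    have hnn : (((p : ℕ) : ℝ) ^ n)⁻¹ < ‖((n : ℕ) : ℚ_[(p : ℕ)])‖ := natCast_norm_gt n (by omega)
    calc (((p : ℕ) : ℝ) ^ (3 * n))⁻¹ ≤ ((((p : ℕ) : ℝ) ^ n)⁻¹) ^ 2 := by
          rw [inv_pow, ← pow_mul]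
          apply inv_anti₀ (by positivity)
          apply pow_le_pow_right₀ hp1.le
          omega
      _ < _ := pow_lt_pow_left₀ hnn (by positivity) (by norm_num)
  have hen : ‖(e : ℚ_[(p : ℕ)])‖ < ‖((n : ℕ) : ℚ_[(p : ℕ)])‖ ^ 2 := by
    refine lt_of_le_of_lt ?_ hp3
    rw [he]
    push_cast
    rw [norm_mul, norm_mul, norm_mul, norm_pow, norm_pow, norm_pow, Padic.norm_p, inv_pow]
    have h4 := Padic.norm_int_le_one (p := (p : ℕ)) g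
    have h5 : ‖(b : ℚ_[(p : ℕ)])‖ ^ (n' + 1) * ‖(c0 : ℚ_[(p : ℕ)])‖ ^ n' ≤ 1 :=
      mul_le_one₀ (pow_le_one₀ (norm_nonneg _) hb1) (by positivity) (pow_le_one₀ (norm_nonneg _) hc1)
    calc ‖(b : ℚ_[(p : ℕ)])‖ ^ (n' + 1) * ‖(c0 : ℚ_[(p : ℕ)])‖ ^ n' * (((p : ℕ) : ℝ) ^ (3 * n))⁻¹ * ‖(g : ℚ_[(p : ℕ)])‖
        ≤ 1 * (((p : ℕ) : ℝ) ^ (3 * n))⁻¹ * 1 :=
          mul_le_mul (mul_le_mul_of_nonneg_right h5 (by positivity)) h4 (norm_nonneg _) (by positivity)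
      _ = _ := by ring
  obtain ⟨s, hs⟩ := root_near n (1 + (e : ℚ_[(p : ℕ)])) 1 one_ne_zero (by
    rw [add_sub_cancel_left, norm_one, mul_one]
    exact hen)
  rw [one_mul] at hs
  have hn1 : ‖((n : ℕ) : ℚ_[(p : ℕ)])‖ ^ 2 ≤ 1 := by
    apply pow_le_one₀ (norm_nonneg _)
    have := Padic.norm_int_le_one (p := (p : ℕ)) (n : ℤ)
    simpa using this
  have h1e : ‖1 + (e : ℚ_[(p : ℕ)])‖ = 1 := by
    have h6 := norm_eq_of_near (p := (p : ℕ)) (1 + (e : ℚ_[(p : ℕ)])) 1 (by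
      rw [add_sub_cancel_left, norm_one]
      exact hen.trans_le hn1)
    rw [h6, norm_one]
  have hft : aeval (τ : ℚ_[(p : ℕ)]) f + (k : ℚ_[(p : ℕ)]) = (c0 : ℚ_[(p : ℕ)]) * (1 + (e : ℚ_[(p : ℕ)])) := by
    rw [aeval_int]
    have h7 : ((f.eval τ + k : ℤ) : ℚ_[(p : ℕ)]) = ((c0 * (1 + e) : ℤ) : ℚ_[(p : ℕ)]) := by rw [hval]
    push_cast at h7
    exact h7
  have hbM : (((p : ℕ) : ℝ) ^ (nb + M))⁻¹ ≤ ‖((b * c0 : ℤ) : ℚ_[(p : ℕ)])‖ := by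
    push_cast
    rw [norm_mul, pow_add, mul_inv]
    exact mul_le_mul hbg.le hcg.le (by positivity) (norm_nonneg _)
  refine ⟨(τ : ℚ_[(p : ℕ)]), Padic.norm_int_le_one _, ?_, ?_, fun i => ?_⟩
  · rw [hτ]
    push_cast at hbM ⊢
    rw [norm_mul, norm_pow, norm_pow, Padic.norm_p, inv_pow]
    calc (((p : ℕ) : ℝ) ^ ((nb + M + 3) * n))⁻¹ ≤ (((p : ℕ) : ℝ) ^ ((nb + M) * (n' + 1) + 3 * n))⁻¹ := by
          apply inv_anti₀ (by positivity)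
          apply pow_le_pow_right₀ hp1.le
          rw [hn']
          nlinarith
      _ = ((((p : ℕ) : ℝ) ^ (nb + M))⁻¹) ^ (n' + 1) * (((p : ℕ) : ℝ) ^ (3 * n))⁻¹ := by
          rw [pow_add, mul_inv, pow_mul, inv_pow]
      _ ≤ _ := mul_le_mul_of_nonneg_right (pow_le_pow_left₀ (by positivity) hbM _) (by positivity)
  · rw [hft, norm_mul, h1e, mul_one]
    refine le_trans ?_ hcg.le
    apply inv_anti₀ (by positivity)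
    apply pow_le_pow_right₀ hp1.le
    nlinarith
  · have e1 : (b : ℚ_[(p : ℕ)]) * ((τ : ℚ_[(p : ℕ)]) * (aeval (τ : ℚ_[(p : ℕ)]) f + (k : ℚ_[(p : ℕ)]))) =
        ((b : ℚ_[(p : ℕ)]) * c0 * ((p : ℕ) : ℚ_[(p : ℕ)]) ^ 3 * s) ^ ex K := by
      rw [hft, hs, ← hn, mul_pow, mul_pow, ← pow_mul, hτ]
      push_cast
      have h8 : ((b : ℚ_[(p : ℕ)]) * c0) ^ n = ((b : ℚ_[(p : ℕ)]) * c0) ^ (n' + 1) * ((b : ℚ_[(p : ℕ)]) * c0) := by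
        rw [hn', ← pow_succ]
      rw [h8]
      ring
    rw [e1]
    exact isNp_ex K i _

lemma WL.mono {K : Fin r → IntermediateField ℚ L} {f : ℤ[X]} {b : Fin r → ℤ} {T : Finset Nat.Primes} {N N' : ℕ} {k : ℤ}
    {t : (p : Nat.Primes) → ℚ_[(p : ℕ)]} (h : WL K f b T N k t) (hN : N ≤ N') : WL K f b T N' k t := by
  intro p hp
  obtain ⟨h1, h2, h3, h4⟩ := h p hp
  have hp1 : (1 : ℝ) < ((p : ℕ) : ℝ) := by exact_mod_cast p.2.one_lt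
  have hp0 : (0 : ℝ) < ((p : ℕ) : ℝ) := by linarith
  have h5 : ((p : ℕ) : ℝ) ^ N ≤ ((p : ℕ) : ℝ) ^ N' := pow_le_pow_right₀ hp1.le hN
  have h6 : (((p : ℕ) : ℝ) ^ N')⁻¹ ≤ (((p : ℕ) : ℝ) ^ N)⁻¹ := inv_anti₀ (by positivity) h5
  exact ⟨h1.trans h5, h6.trans h2, h6.trans h3, h4⟩

include m in
open Classical in
/-- any finite set of primes, common `b` -/
theorem brAny (K : Fin r → IntermediateField ℚ L) (hh : ∀ i, (classNumber (K i)).Coprime (finrank ℚ (K i)))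
    (hs : ∀ i, Sgn (K i)) (f : ℤ[X]) (hd : 1 ≤ f.natDegree) (b : ℤ) (hb : b ≠ 0)
    (T : Finset Nat.Primes) (N : ℕ) (ε : ℝ) (hε : 0 < ε) :
    ∃ X0 : ℕ, ∀ X : ℕ, X0 ≤ X → ∃ Bad : Finset ℤ, (#Bad : ℝ) ≤ ε * X ∧ ∀ k : ℤ, |k| ≤ X → k ∉ Bad →
        ∀ (t : (p : Nat.Primes) → ℚ_[(p : ℕ)]) (tr : ℝ), WL K f (fun _ => b) T N k t → WR K f (fun _ => b) k tr →
          WG K f (fun _ => b) T N k t tr := by
  have hm0 : 0 < m := Nat.pos_of_ne_zero (NeZero.ne m)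
  have hf0 : f.leadingCoeff ≠ 0 := by
    rw [Ne, leadingCoeff_eq_zero]
    rintro rfl
    simp at hd
  obtain ⟨T0, hT0⟩ := primes_upto (ex K * f.natDegree + f.leadingCoeff.natAbs + m + b.natAbs)
  obtain ⟨T1, hT1⟩ : ∃ T1 : Finset Nat.Primes, T1 = T ∪ T0 := ⟨_, rfl⟩
  have hT : ∀ p : Nat.Primes, ((p : ℕ) ≤ ex K * f.natDegree ∨ ((p : ℕ) : ℤ) ∣ f.leadingCoeff ∨ (p : ℕ) ∣ m ∨
      ∃ _ : Fin r, ((p : ℕ) : ℤ) ∣ b) → p ∈ T1 := by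
    intro p hp
    rw [hT1]
    apply mem_union_right
    apply hT0
    rcases hp with h | h | h | ⟨-, h⟩
    · omega
    · have := Nat.le_of_dvd (Int.natAbs_pos.2 hf0) (Int.natCast_dvd.1 h)
      omega
    · have := Nat.le_of_dvd hm0 h
      omega
    · have := Nat.le_of_dvd (Int.natAbs_pos.2 hb) (Int.natCast_dvd.1 h)
      omega
  obtain ⟨M0, hM0⟩ : ∃ M0 : ℕ, (#T1 : ℝ) * (2 / 2 ^ M0) ≤ ε / 4 := by
    obtain ⟨M0, hM0⟩ := exists_pow_lt_of_lt_one (y := (1 / 2 : ℝ)) (x := ε / (8 * (#T1 + 1))) (by positivity) (by norm_num)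
    refine ⟨M0, ?_⟩
    rw [lt_div_iff₀ (by positivity)] at hM0
    have e : (#T1 : ℝ) * (2 / 2 ^ M0) = (1 / 2) ^ M0 * (8 * #T1) / 4 := by
      rw [one_div, inv_pow]
      field_simp
      ring
    rw [e]
    have h1 : (1 / 2 : ℝ) ^ M0 * (8 * #T1) ≤ (1 / 2) ^ M0 * (8 * (#T1 + 1)) :=
      mul_le_mul_of_nonneg_left (by linarith) (by positivity)
    linarith
  obtain ⟨nb, hnb⟩ : ∃ nb, nb = b.natAbs := ⟨_, rfl⟩
  have hbn : ∀ p : Nat.Primes, ¬ ((p : ℕ) : ℤ) ^ nb ∣ b := by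
    intro p h
    have h1 : (p : ℕ) ^ nb ∣ b.natAbs := by
      have := Int.natAbs_dvd_natAbs.2 h
      rwa [Int.natAbs_pow, Int.natAbs_natCast] at this
    have h2 := Nat.le_of_dvd (Int.natAbs_pos.2 hb) h1
    have h3 : nb < (p : ℕ) ^ nb := Nat.lt_pow_self p.2.one_lt
    omega
  obtain ⟨N', hN'⟩ : ∃ N', N' = N + (nb + M0 + 3) * ex K := ⟨_, rfl⟩
  obtain ⟨X0, h⟩ := brT m K hh hs f hd (fun _ => b) (fun _ => hb) T1 hT N' (ε / 2) (by positivity)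
  obtain ⟨X2, hX2⟩ := exists_nat_ge ((#T1 : ℝ) / (ε / 4))
  refine ⟨max X0 X2, fun X hX => ?_⟩
  obtain ⟨Bad, hB1, hB2⟩ := h X ((le_max_left _ _).trans hX)
  have hXb : (X2 : ℝ) ≤ X := by exact_mod_cast (le_max_right _ _).trans hX
  have hX0 : (0 : ℝ) ≤ X := Nat.cast_nonneg _
  refine ⟨Bad ∪ ((Icc (-(X : ℤ)) X).filter (fun k => ∃ p ∈ T1, ((p : ℕ) : ℤ) ^ M0 ∣ f.eval 0 + k)), ?_, ?_⟩
  · have h1 := count_pow T1 (f.eval 0) M0 X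
    have h2 : (#(Bad ∪ ((Icc (-(X : ℤ)) X).filter (fun k => ∃ p ∈ T1, ((p : ℕ) : ℤ) ^ M0 ∣ f.eval 0 + k))) : ℝ) ≤
        (#Bad : ℝ) + (#((Icc (-(X : ℤ)) X).filter (fun k => ∃ p ∈ T1, ((p : ℕ) : ℤ) ^ M0 ∣ f.eval 0 + k)) : ℝ) := by
      exact_mod_cast card_union_le _ _
    refine h2.trans ?_
    have h3 : (#T1 : ℝ) * (2 * X / 2 ^ M0 + 1) ≤ ε / 4 * X + ε / 4 * X := by
      have e : (#T1 : ℝ) * (2 * X / 2 ^ M0 + 1) = (#T1 : ℝ) * (2 / 2 ^ M0) * X + #T1 := by ring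
      rw [e]
      apply add_le_add (mul_le_mul_of_nonneg_right hM0 hX0)
      have h4 := hX2.trans hXb
      rw [div_le_iff₀ (by positivity)] at h4
      linarith
    linarith
  · intro k hk hkB t tr hloc hre
    rw [mem_union, not_or] at hkB
    obtain ⟨hk1, hk2⟩ := hkB
    rw [mem_filter, not_and] at hk2
    have hk3 := hk2 (mem_Icc.2 (abs_le.1 hk))
    push Not at hk3
    have hext : ∀ p : Nat.Primes, ∃ t' : ℚ_[(p : ℕ)], (p ∈ T → t' = t p) ∧ (p ∈ T1 → ‖t'‖ ≤ ((p : ℕ) : ℝ) ^ N' ∧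
        (((p : ℕ) : ℝ) ^ N')⁻¹ ≤ ‖t'‖ ∧ (((p : ℕ) : ℝ) ^ N')⁻¹ ≤ ‖aeval t' f + (k : ℚ_[(p : ℕ)])‖ ∧
        ∀ i, IsNp (K i) (p : ℕ) ((b : ℚ_[(p : ℕ)]) * (t' * (aeval t' f + (k : ℚ_[(p : ℕ)]))))) := by
      intro p
      have hp1 : (1 : ℝ) < ((p : ℕ) : ℝ) := by exact_mod_cast p.2.one_lt
      have hp0 : (0 : ℝ) < ((p : ℕ) : ℝ) := by linarith
      by_cases hp : p ∈ T
      · exact ⟨t p, fun _ => rfl, fun _ => (hloc.mono (N' := N') (by omega)) p hp⟩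
      · by_cases hp2 : p ∈ T1
        · obtain ⟨t', h1, h2, h3, h4⟩ := pt_b K f b k p M0 nb (hbn p) (hk3 p hp2)
          have h5 : (((p : ℕ) : ℝ) ^ N')⁻¹ ≤ (((p : ℕ) : ℝ) ^ ((nb + M0 + 3) * ex K))⁻¹ :=
            inv_anti₀ (by positivity) (pow_le_pow_right₀ hp1.le (by omega))
          exact ⟨t', fun h => absurd h hp, fun _ => ⟨h1.trans (one_le_pow₀ hp1.le), h5.trans h2, h5.trans h3, h4⟩⟩
        · exact ⟨0, fun h => absurd h hp, fun h => absurd h hp2⟩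
    choose t' ht1 ht2 using hext
    obtain ⟨s, h1, h2, h3, h4⟩ := hB2 k hk hk1 t' tr (fun p hp => ht2 p hp) hre
    refine ⟨s, h1, h2, fun p hp => ?_, h4⟩
    have hp1 : (1 : ℝ) < ((p : ℕ) : ℝ) := by exact_mod_cast p.2.one_lt
    have hp0 : (0 : ℝ) < ((p : ℕ) : ℝ) := by linarith
    have h5 := h3 p (by rw [hT1]; exact mem_union_left _ hp)
    rw [ht1 p hp] at h5
    exact h5.trans (inv_anti₀ (by positivity) (pow_le_pow_right₀ hp1.le (by omega)))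

end Pool.Agent.R479.NF
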