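import Pool.Agent.R479.NF.Br6

/-!
# `N(z) = b t (f(t) + k)`: all coordinates
-/

set_option autoImplicit false
set_option linter.unusedSectionVars false

namespace Pool.Agent.R479.NF

open NumberField Module TensorProduct Finset Filter Polynomial
open Pool.Agent.TH204.HP (lip2)

variable {L : Type} [Field L] [NumberField L] {r : ℕ}

/-- the local points with all coordinates -/
def WLD (K : Fin r → IntermediateField ℚ L) (f : ℤ[X]) (b : Fin r → ℤ) (T : Finset Nat.Primes) (N : ℕ) (k : ℤ)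
    (t : (p : Nat.Primes) → ℚ_[(p : ℕ)]) (z : (p : Nat.Primes) → (i : Fin r) → Ap (K i) (p : ℕ)) : Prop :=
  ∀ p ∈ T, ‖t p‖ ≤ ((p : ℕ) : ℝ) ^ N ∧ (((p : ℕ) : ℝ) ^ N)⁻¹ ≤ ‖t p‖ ∧
    (((p : ℕ) : ℝ) ^ N)⁻¹ ≤ ‖aeval (t p) f + (k : ℚ_[(p : ℕ)])‖ ∧
    ∀ i, Algebra.norm ℚ_[(p : ℕ)] (z p i) = (b i : ℚ_[(p : ℕ)]) * (t p * (aeval (t p) f + (k : ℚ_[(p : ℕ)]))) ∧
      ∀ j, ‖cd (p : ℕ) (z p i) j‖ ≤ ((p : ℕ) : ℝ) ^ N

/-- the rational point with all coordinates -/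
def WGD (K : Fin r → IntermediateField ℚ L) (f : ℤ[X]) (b : Fin r → ℤ) (T : Finset Nat.Primes) (N : ℕ) (k : ℤ)
    (t : (p : Nat.Primes) → ℚ_[(p : ℕ)]) (z : (p : Nat.Primes) → (i : Fin r) → Ap (K i) (p : ℕ)) (tr : ℝ) : Prop :=
  ∃ (s : ℚ) (y : (i : Fin r) → K i), 0 < (s : ℝ) * tr ∧ aeval s f + (k : ℚ) ≠ 0 ∧
    (∀ i, Algebra.norm ℚ (y i) = (b i : ℚ) * (s * (aeval s f + (k : ℚ)))) ∧
    ∀ p ∈ T, ‖(s : ℚ_[(p : ℕ)]) - t p‖ ≤ (((p : ℕ) : ℝ) ^ N)⁻¹ ∧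
      ∀ i, IsGalois ℚ (K i) → (∃ σ : K i ≃ₐ[ℚ] K i, Gen σ) → ∀ j,
        ‖cd (p : ℕ) ((1 : ℚ_[(p : ℕ)]) ⊗ₜ[ℚ] (y i) : Ap (K i) (p : ℕ)) j - cd (p : ℕ) (z p i) j‖ ≤ (((p : ℕ) : ℝ) ^ N)⁻¹

theorem wd_of (K : Fin r → IntermediateField ℚ L) (f : ℤ[X]) (b : Fin r → ℤ) (hb : ∀ i, b i ≠ 0) (T : Finset Nat.Primes)
    (N E : ℕ) (hE : E = (2 * (f.natDegree + 1) + 3) * (2 * N + 2 * ∑ i, finrank ℚ (K i)) + 3) (k : ℤ)
    (t : (p : Nat.Primes) → ℚ_[(p : ℕ)]) (z : (p : Nat.Primes) → (i : Fin r) → Ap (K i) (p : ℕ)) (tr : ℝ)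
    (hloc : WLD K f b T N k t z) (hg : WG K f b T E k t tr) : WGD K f b T N k t z tr := by
  classical
  obtain ⟨s, hs1, hs2, hs3, hs4⟩ := hg
  obtain ⟨B, hB⟩ : ∃ B, B = ∑ i, finrank ℚ (K i) := ⟨_, rfl⟩
  rw [← hB] at hE
  obtain ⟨N3, hN3⟩ : ∃ N3, N3 = 2 * N + 2 * B := ⟨_, rfl⟩
  rw [← hN3] at hE
  have hone : ∀ p : Nat.Primes, (1 : ℝ) < ((p : ℕ) : ℝ) := fun p => by exact_mod_cast p.2.one_lt
  have hNE : N ≤ E := by
    rw [hE]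
    nlinarith
  obtain ⟨h, hh⟩ : ∃ h : ℤ[X], h = Polynomial.X * (f + C k) := ⟨_, rfl⟩
  have hhd : h.natDegree ≤ f.natDegree + 1 := by
    rw [hh, add_comm f.natDegree 1]
    refine natDegree_mul_le.trans (add_le_add natDegree_X_le ?_)
    rw [natDegree_add_C]
  have hhv : ∀ (F : Type) [Field F] (w : F), aeval w h = w * (aeval w f + (k : F)) := by
    intro F _ w
    rw [hh, map_mul, aeval_X, map_add, aeval_C, algebraMap_int_eq, eq_intCast]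
  have hs0 : s ≠ 0 := by
    rintro rfl
    simp at hs1
  have hlip : ∀ p ∈ T, ‖(s : ℚ_[((p : Nat.Primes) : ℕ)]) * (aeval (s : ℚ_[(p : ℕ)]) f + (k : ℚ_[(p : ℕ)])) -
      t p * (aeval (t p) f + (k : ℚ_[(p : ℕ)]))‖ ≤ (((p : ℕ) : ℝ) ^ (3 * N3 + 3))⁻¹ := by
    intro p hp
    have h1p := hone p
    have h0p : (0 : ℝ) < ((p : ℕ) : ℝ) := by linarith
    have ht : ‖t p‖ ≤ ((p : ℕ) : ℝ) ^ N3 := (hloc p hp).1.trans (pow_le_pow_right₀ h1p.le (by omega))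
    have hst := hs3 p hp
    have hs : ‖(s : ℚ_[(p : ℕ)])‖ ≤ ((p : ℕ) : ℝ) ^ N3 := by
      have e : (s : ℚ_[(p : ℕ)]) = ((s : ℚ_[(p : ℕ)]) - t p) + t p := by ring
      rw [e]
      refine (Padic.nonarchimedean _ _).trans (max_le ?_ ht)
      exact hst.trans (le_trans (inv_le_one_of_one_le₀ (one_le_pow₀ h1p.le)) (one_le_pow₀ h1p.le))
    have h5 := lip2 h T N3 p hp (s : ℚ_[(p : ℕ)]) (t p) hs ht (by
      refine hst.trans (inv_anti₀ (by positivity) (pow_le_pow_right₀ h1p.le ?_))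
      rw [hE]
      have : (2 * h.natDegree + 3) * N3 ≤ (2 * (f.natDegree + 1) + 3) * N3 := Nat.mul_le_mul_right _ (by omega)
      omega)
    rw [hhv, hhv] at h5
    exact h5
  have hy : ∀ i, ∃ y : K i, Algebra.norm ℚ y = (b i : ℚ) * (s * (aeval s f + (k : ℚ))) ∧
      ∀ p ∈ T, IsGalois ℚ (K i) → (∃ σ : K i ≃ₐ[ℚ] K i, Gen σ) → ∀ j,
        ‖cd (p : ℕ) ((1 : ℚ_[((p : Nat.Primes) : ℕ)]) ⊗ₜ[ℚ] y : Ap (K i) (p : ℕ)) j - cd (p : ℕ) (z p i) j‖ ≤ (((p : ℕ) : ℝ) ^ N)⁻¹ := by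
    intro i
    by_cases hc : IsGalois ℚ (K i) ∧ ∃ σ : K i ≃ₐ[ℚ] K i, Gen σ
    · obtain ⟨hgal, σ, hσ⟩ := hc
      have ha : (b i : ℚ) * (s * (aeval s f + (k : ℚ))) ≠ 0 := mul_ne_zero (by exact_mod_cast hb i) (mul_ne_zero hs0 hs2)
      obtain ⟨y, hy1, hy2⟩ := wa_one hσ T N B (by
        rw [hB]
        exact single_le_sum (f := fun i => finrank ℚ (K i)) (fun _ _ => Nat.zero_le _) (mem_univ i)) _ ha (hs4 i)
        (fun p => (b i : ℚ_[(p : ℕ)]) * (t p * (aeval (t p) f + (k : ℚ_[(p : ℕ)])))) (fun p => z p i) (by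
          intro p hp
          obtain ⟨h1, h2, h3, h4⟩ := hloc p hp
          have h1p := hone p
          have h0p : (0 : ℝ) < ((p : ℕ) : ℝ) := by linarith
          have hpN : (0 : ℝ) < (((p : ℕ) : ℝ) ^ N)⁻¹ := by positivity
          refine ⟨(h4 i).1, mul_ne_zero (by exact_mod_cast hb i) (mul_ne_zero ?_ ?_), (h4 i).2⟩
          · exact norm_pos_iff.1 (hpN.trans_le h2)
          · exact norm_pos_iff.1 (hpN.trans_le h3)) (by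
          intro p hp
          obtain ⟨h1, h2, h3, h4⟩ := hloc p hp
          have h1p := hone p
          have h0p : (0 : ℝ) < ((p : ℕ) : ℝ) := by linarith
          have hpN : (0 : ℝ) < (((p : ℕ) : ℝ) ^ N)⁻¹ := by positivity
          have e2 : ((aeval s f : ℚ) : ℚ_[(p : ℕ)]) = aeval (s : ℚ_[(p : ℕ)]) f := by
            have := aeval_algebraMap_apply ℚ_[(p : ℕ)] s f
            simp only [eq_ratCast] at this
            exact this.symm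
          have e : (((b i : ℚ) * (s * (aeval s f + (k : ℚ))) : ℚ) : ℚ_[(p : ℕ)]) -
              (b i : ℚ_[(p : ℕ)]) * (t p * (aeval (t p) f + (k : ℚ_[(p : ℕ)]))) =
              (b i : ℚ_[(p : ℕ)]) * ((s : ℚ_[(p : ℕ)]) * (aeval (s : ℚ_[(p : ℕ)]) f + (k : ℚ_[(p : ℕ)])) -
                t p * (aeval (t p) f + (k : ℚ_[(p : ℕ)]))) := by
            rw [← e2]
            push_cast
            ring
          rw [e, norm_mul, norm_mul, mul_left_comm]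
          apply mul_le_mul_of_nonneg_left _ (norm_nonneg _)
          refine (hlip p hp).trans ?_
          rw [norm_mul]
          calc (((p : ℕ) : ℝ) ^ (3 * N3 + 3))⁻¹ ≤ (((p : ℕ) : ℝ) ^ ((2 * N + 2 * B + 1) + (N + N)))⁻¹ := by
                apply inv_anti₀ (by positivity)
                apply pow_le_pow_right₀ h1p.le
                omega
            _ = (((p : ℕ) : ℝ) ^ (2 * N + 2 * B + 1))⁻¹ * ((((p : ℕ) : ℝ) ^ N)⁻¹ * (((p : ℕ) : ℝ) ^ N)⁻¹) := by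
                rw [pow_add _ (2 * N + 2 * B + 1), pow_add _ N N, mul_inv, mul_inv]
            _ ≤ _ := mul_le_mul_of_nonneg_left (mul_le_mul h2 h3 hpN.le (norm_nonneg _)) (by positivity))
      exact ⟨y, hy1, fun p hp _ _ j => hy2 p hp j⟩
    · obtain ⟨y, hy⟩ := hs4 i
      exact ⟨y, hy, fun p _ h1 h2 => absurd ⟨h1, h2⟩ hc⟩
  choose y hy1 hy2 using hy
  refine ⟨s, y, hs1, hs2, hy1, fun p hp => ⟨(hs3 p hp).trans ?_, fun i h1 h2 j => hy2 i p hp h1 h2 j⟩⟩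
  have h1p := hone p
  have h0p : (0 : ℝ) < ((p : ℕ) : ℝ) := by linarith
  exact inv_anti₀ (by positivity) (pow_le_pow_right₀ h1p.le hNE)

lemma wl_of_wld {K : Fin r → IntermediateField ℚ L} {f : ℤ[X]} {b : Fin r → ℤ} {T : Finset Nat.Primes} {N N' : ℕ} {k : ℤ}
    {t : (p : Nat.Primes) → ℚ_[(p : ℕ)]} {z : (p : Nat.Primes) → (i : Fin r) → Ap (K i) (p : ℕ)}
    (h : WLD K f b T N k t z) (hN : N ≤ N') : WL K f b T N' k t := by
  intro p hp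
  obtain ⟨h1, h2, h3, h4⟩ := h p hp
  have hp1 : (1 : ℝ) < ((p : ℕ) : ℝ) := by exact_mod_cast p.2.one_lt
  have hp0 : (0 : ℝ) < ((p : ℕ) : ℝ) := by linarith
  have h5 : ((p : ℕ) : ℝ) ^ N ≤ ((p : ℕ) : ℝ) ^ N' := pow_le_pow_right₀ hp1.le hN
  have h6 : (((p : ℕ) : ℝ) ^ N')⁻¹ ≤ (((p : ℕ) : ℝ) ^ N)⁻¹ := inv_anti₀ (by positivity) h5
  exact ⟨h1.trans h5, h6.trans h2, h6.trans h3, fun i => ⟨z p i, (h4 i).1⟩⟩

end Pool.Agent.R479.NF
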