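import Mathlib

/-!
# Norms of ideals are norms of elements if the class number is prime to the degree
-/

set_option autoImplicit false

namespace Pool.Agent.R479.NF

open NumberField Module

variable (K : Type) [Field K] [NumberField K]

/-- the norm as a homomorphism of monoids with zero -/
noncomputable def nh : K →*₀ ℚ :=
  { (Algebra.norm ℚ : K →* ℚ) with map_zero' := Algebra.norm_zero }

lemma nh_apply (x : K) : Algebra.norm ℚ x = nh K x := rfl

/-- the norm group in positive rational numbers -/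
def IsN (a : ℚ) : Prop := ∃ x : K, Algebra.norm ℚ x = a

variable {K}

lemma IsN.mul {a b : ℚ} (ha : IsN K a) (hb : IsN K b) : IsN K (a * b) := by
  obtain ⟨x, hx⟩ := ha
  obtain ⟨y, hy⟩ := hb
  exact ⟨x * y, by rw [map_mul, hx, hy]⟩

lemma IsN.inv {a : ℚ} (ha : IsN K a) : IsN K a⁻¹ := by
  obtain ⟨x, hx⟩ := ha
  exact ⟨x⁻¹, by rw [nh_apply, map_inv₀, ← nh_apply, hx]⟩

lemma IsN.div {a b : ℚ} (ha : IsN K a) (hb : IsN K b) : IsN K (a / b) := by
  rw [div_eq_mul_inv]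
  exact ha.mul hb.inv

lemma IsN.pow_finrank (a : ℚ) : IsN K (a ^ finrank ℚ K) :=
  ⟨algebraMap ℚ K a, by rw [Algebra.norm_algebraMap]⟩

/-- the sign condition -/
def Sgn (K : Type) [Field K] [NumberField K] : Prop :=
  (∃ x : K, Algebra.norm ℚ x = -1) ∨ ∀ x : K, 0 ≤ Algebra.norm ℚ x

lemma IsN.abs (hs : Sgn K) {a : ℚ} (ha : IsN K a) : IsN K |a| := by
  rcases hs with ⟨x, hx⟩ | h
  · rcases abs_cases a with ⟨h1, _⟩ | ⟨h1, _⟩
    · rwa [h1]
    · rw [h1]
      have := ha.mul ⟨x, hx⟩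
      rwa [mul_neg_one] at this
  · obtain ⟨y, hy⟩ := ha
    have := h y
    rw [hy] at this
    rw [abs_of_nonneg this]
    exact ⟨y, hy⟩

theorem isN_absNorm (hh : (classNumber K).Coprime (finrank ℚ K)) (hs : Sgn K) (I : Ideal (𝓞 K)) (hI : I ≠ ⊥) :
    IsN K (Ideal.absNorm I : ℚ) := by
  obtain ⟨h, hhd⟩ : ∃ h, h = classNumber K := ⟨_, rfl⟩
  rw [← hhd] at hh
  have hI' : I ∈ nonZeroDivisors (Ideal (𝓞 K)) := mem_nonZeroDivisors_of_ne_zero hI
  have h1 : ClassGroup.mk0 (⟨I, hI'⟩ ^ h) = 1 := by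
    rw [map_pow, hhd]
    exact pow_card_eq_one
  rw [ClassGroup.mk0_eq_one_iff] at h1
  obtain ⟨⟨α, hα⟩⟩ := h1
  have hα' : I ^ h = Ideal.span {α} := by
    rw [← Ideal.submodule_span_eq] 
    exact hα
  have h2 := congrArg Ideal.absNorm hα'
  rw [map_pow, Ideal.absNorm_span_singleton] at h2
  have hy : IsN K ((Ideal.absNorm I : ℚ) ^ h) := by
    have h3 : IsN K (Algebra.norm ℚ (α : K)) := ⟨α, rfl⟩
    have h4 := h3.abs hs
    have h5 : |Algebra.norm ℚ (α : K)| = (Ideal.absNorm I : ℚ) ^ h := by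
      rw [← Algebra.coe_norm_int]
      have : ((Ideal.absNorm I ^ h : ℕ) : ℚ) = (((Algebra.norm ℤ α).natAbs : ℕ) : ℚ) := by rw [h2]
      rw [Nat.cast_natAbs] at this
      push_cast at this
      rw [this]
    rwa [h5] at h4
  obtain ⟨y, hy⟩ := hy
  obtain ⟨a, b, hab⟩ : ∃ a b : ℤ, a * h + b * finrank ℚ K = 1 := Nat.isCoprime_iff_coprime.2 hh
  have hc : (Ideal.absNorm I : ℚ) ≠ 0 := by
    have := Ideal.absNorm_ne_zero_of_nonZeroDivisors ⟨I, hI'⟩
    exact_mod_cast this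
  refine ⟨y ^ a * (algebraMap ℚ K (Ideal.absNorm I : ℚ)) ^ b, ?_⟩
  rw [nh_apply, map_mul, map_zpow₀, map_zpow₀, ← nh_apply, ← nh_apply, hy, Algebra.norm_algebraMap, ← zpow_natCast, ← zpow_natCast, ← zpow_mul, ← zpow_mul,
    ← zpow_add₀ hc]
  have : (h : ℤ) * a + (finrank ℚ K : ℤ) * b = 1 := by linarith
  rw [this, zpow_one]

end Pool.Agent.R479.NF
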