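import Pool.Agent.R479.NF.Frob
import Pool.Agent.R479.NF.Nrm

/-!
# The norms of integral ideals
-/

set_option autoImplicit false

namespace Pool.Agent.R479.NF

open NumberField Module

variable (m : ℕ) [NeZero m] {L : Type} [Field L] [NumberField L] [IsCyclotomicExtension {m} ℚ L]
  (K : IntermediateField ℚ L)

/-- only primes of `T` divide the number -/
def Smooth (T : Finset Nat.Primes) (c : ℕ) : Prop := c ≠ 0 ∧ ∀ p : Nat.Primes, (p : ℕ) ∣ c → p ∈ T

/-- no prime of `T` divides the number -/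
def Rough (T : Finset Nat.Primes) (c : ℕ) : Prop := c ≠ 0 ∧ ∀ p : Nat.Primes, (p : ℕ) ∣ c → p ∉ T

lemma Smooth.one (T : Finset Nat.Primes) : Smooth T 1 :=
  ⟨one_ne_zero, fun p hp => absurd (Nat.dvd_one.1 hp) p.2.one_lt.ne'⟩

lemma Rough.one (T : Finset Nat.Primes) : Rough T 1 :=
  ⟨one_ne_zero, fun p hp => absurd (Nat.dvd_one.1 hp) p.2.one_lt.ne'⟩

lemma Smooth.mul {T : Finset Nat.Primes} {a b : ℕ} (ha : Smooth T a) (hb : Smooth T b) : Smooth T (a * b) :=
  ⟨mul_ne_zero ha.1 hb.1, fun p hp => ((p.2.dvd_mul).1 hp).elim (ha.2 p) (hb.2 p)⟩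

lemma Rough.mul {T : Finset Nat.Primes} {a b : ℕ} (ha : Rough T a) (hb : Rough T b) : Rough T (a * b) :=
  ⟨mul_ne_zero ha.1 hb.1, fun p hp => ((p.2.dvd_mul).1 hp).elim (ha.2 p) (hb.2 p)⟩

lemma Smooth.pow {T : Finset Nat.Primes} {a : ℕ} (ha : Smooth T a) (n : ℕ) : Smooth T (a ^ n) :=
  ⟨pow_ne_zero _ ha.1, fun p hp => ha.2 p (p.2.dvd_of_dvd_pow hp)⟩

lemma Rough.pow {T : Finset Nat.Primes} {a : ℕ} (ha : Rough T a) (n : ℕ) : Rough T (a ^ n) :=
  ⟨pow_ne_zero _ ha.1, fun p hp => ha.2 p (p.2.dvd_of_dvd_pow hp)⟩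

theorem factor (hh : (classNumber K).Coprime (finrank ℚ K)) (hs : Sgn K) (T : Finset Nat.Primes)
    (hT : ∀ p : Nat.Primes, (p : ℕ) ∣ m → p ∈ T) (I : Ideal (𝓞 K)) (hI : I ≠ 0) :
    ∃ c r : ℕ, Smooth T c ∧ Rough T r ∧ Ideal.absNorm I = c * r ∧ Good m K r ∧ IsN K (r : ℚ) := by
  induction I using UniqueFactorizationMonoid.induction_on_prime with
  | h₁ => exact absurd rfl hI
  | h₂ I h =>
    rw [Ideal.isUnit_iff] at h
    refine ⟨1, 1, Smooth.one T, Rough.one T, by rw [h, Ideal.absNorm_top], good_one m K, ⟨1, by simp⟩⟩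
  | h₃ I P hI0 hP ih =>
    obtain ⟨c, r, hc, hr, hcr, hg, hn⟩ := ih hI0
    have hP0 : P ≠ ⊥ := hP.ne_zero
    have hPp : P.IsPrime := Ideal.isPrime_of_prime hP
    have hPm : P.IsMaximal := hPp.isMaximal hP0
    have : Finite (𝓞 K ⧸ P) := Ring.HasFiniteQuotients.finiteQuotient hP0
    let _ : Field (𝓞 K ⧸ P) := Ideal.Quotient.field _
    have := Fintype.ofFinite (𝓞 K ⧸ P)
    have hcard : Ideal.absNorm P = Fintype.card (𝓞 K ⧸ P) := by
      rw [Ideal.absNorm_apply, Submodule.cardQuot_apply, Nat.card_eq_fintype_card]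
    have hpp : IsPrimePow (Ideal.absNorm P) := by
      rw [hcard]
      exact FiniteField.isPrimePow_card _
    obtain ⟨p, k, hp, hk, hpk⟩ := hpp
    have hp' : p.Prime := hp.nat_prime
    have hne : Ideal.absNorm P ≠ 0 := by rw [← hpk]; exact pow_ne_zero _ hp'.ne_zero
    have hq : ∀ q : Nat.Primes, (q : ℕ) ∣ Ideal.absNorm P → (q : ℕ) = p := by
      intro q hq
      rw [← hpk] at hq
      exact (Nat.prime_dvd_prime_iff_eq q.2 hp').1 (q.2.dvd_of_dvd_pow hq)
    by_cases hpT : (⟨p, hp'⟩ : Nat.Primes) ∈ T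
    · refine ⟨Ideal.absNorm P * c, r, Smooth.mul ⟨hne, fun q h => ?_⟩ hc, hr, by rw [map_mul, hcr, mul_assoc], hg, hn⟩
      have : q = ⟨p, hp'⟩ := Subtype.ext (hq q h)
      rw [this]
      exact hpT
    · refine ⟨c, Ideal.absNorm P * r, hc, Rough.mul ⟨hne, fun q h => ?_⟩ hr, by rw [map_mul, hcr]; ring, ?_, ?_⟩
      · have : q = ⟨p, hp'⟩ := Subtype.ext (hq q h)
        rw [this]
        exact hpT
      · refine good_mul m K (good_absNorm m K P hP0 ?_) hg
        intro hmP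
        apply hpT
        apply hT
        have h1 : Ideal.absNorm P ∣ Ideal.absNorm (Ideal.span {((m : ℕ) : 𝓞 K)}) := by
          apply Ideal.absNorm_dvd_absNorm_of_le
          rw [Ideal.span_singleton_le_iff_mem]
          exact hmP
        have h2 : Ideal.absNorm (Ideal.span {((m : ℕ) : 𝓞 K)}) = m ^ finrank ℚ K := by
          rw [Ideal.absNorm_span_singleton]
          have h3 : ((m : ℕ) : 𝓞 K) = algebraMap ℤ (𝓞 K) (m : ℤ) := by simp
          rw [h3, Algebra.norm_algebraMap, RingOfIntegers.rank]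
          simp
        rw [h2, ← hpk] at h1
        exact hp'.dvd_of_dvd_pow ((dvd_pow_self p hk.ne').trans h1)
      · push_cast
        exact (isN_absNorm hh hs P hP0).mul hn

end Pool.Agent.R479.NF
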