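import Pool.Agent.TH204.HP.H14

/-!
# Far away points with values in the `n`-th powers
(the proofs follow Pool/Agent/TH204/HP)
-/

set_option autoImplicit false
set_option linter.unusedVariables false

namespace Pool.Agent.R479.NF

open Finset Polynomial Filter Topology
open Pool.Agent.TH204.HP

variable {p : ℕ} [hp : Fact p.Prime]

/-- a number near `1` is an `n`-th power -/
lemma root_near_one (n : ℕ) (e : ℤ_[p]) (he : ‖e‖ < ‖((n : ℕ) : ℤ_[p])‖ ^ 2) : ∃ z : ℤ_[p], z ^ n = 1 + e := by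
  have h := hensels_lemma (p := p) (R := ℤ_[p]) (F := X ^ n - C (1 + e)) (a := 1) (by
    simp only [map_sub, map_pow, aeval_X, aeval_C, derivative_sub, derivative_X_pow, derivative_C, sub_zero,
      map_mul, map_natCast, Algebra.algebraMap_self, RingHom.id_apply, one_pow, mul_one]
    rw [show (1 : ℤ_[p]) - (1 + e) = -e by ring, norm_neg]
    exact he)
  obtain ⟨z, hz, -⟩ := h
  refine ⟨z, ?_⟩
  simp only [map_sub, map_pow, aeval_X, aeval_C, Algebra.algebraMap_self, RingHom.id_apply] at hz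
  linear_combination hz

/-- numbers near `y` differ from `y` by an `n`-th power -/
lemma root_near (n : ℕ) (x y : ℚ_[p]) (hy : y ≠ 0) (h : ‖x - y‖ < ‖((n : ℕ) : ℚ_[p])‖ ^ 2 * ‖y‖) :
    ∃ s : ℚ_[p], x = y * s ^ n := by
  obtain ⟨e, he⟩ : ∃ e, e = (x - y) / y := ⟨_, rfl⟩
  have hyn : 0 < ‖y‖ := norm_pos_iff.2 hy
  have he1 : ‖e‖ < ‖((n : ℕ) : ℚ_[p])‖ ^ 2 := by
    rw [he, norm_div, div_lt_iff₀ hyn]
    exact h
  have hn1 : ‖((n : ℕ) : ℚ_[p])‖ ^ 2 ≤ 1 := by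
    apply pow_le_one₀ (norm_nonneg _)
    have := Padic.norm_int_le_one (p := p) (n : ℤ)
    simpa using this
  have he2 : ‖e‖ < 1 := he1.trans_le hn1
  obtain ⟨e', he'⟩ : ∃ e' : ℤ_[p], (e' : ℚ_[p]) = e := ⟨⟨e, he2.le⟩, rfl⟩
  have he3 : ‖e'‖ < ‖((n : ℕ) : ℤ_[p])‖ ^ 2 := by
    have h2 : ‖((n : ℕ) : ℤ_[p])‖ = ‖((n : ℕ) : ℚ_[p])‖ := by
      rw [PadicInt.norm_def]
      simp
    rw [h2, PadicInt.norm_def, he']
    exact he1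
  obtain ⟨z, hz⟩ := root_near_one n _ he3
  have hz' : (z : ℚ_[p]) ^ n = 1 + e := by
    have := congrArg (fun w : ℤ_[p] => (w : ℚ_[p])) hz
    simpa [he'] using this
  refine ⟨z, ?_⟩
  rw [hz', he]
  field_simp
  ring

lemma far_root (n : ℕ) (hn0 : n ≠ 0) (f : ℤ[X]) (hd : 1 ≤ f.natDegree) (N0 : ℕ)
    (h0 : 1 < (p : ℝ) ^ N0 * (‖((n : ℕ) : ℚ_[p])‖ ^ 2 * ‖((f.leadingCoeff : ℤ) : ℚ_[p])‖))
    (k : ℤ) (t : ℚ_[p]) (ht : (p : ℝ) ^ N0 ≤ ‖t‖) :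
    ∃ s : ℚ_[p], aeval t f + (k : ℚ_[p]) = ((f.leadingCoeff : ℤ) : ℚ_[p]) * t ^ f.natDegree * s ^ n ∧
      ‖aeval t f + (k : ℚ_[p])‖ = ‖((f.leadingCoeff : ℤ) : ℚ_[p])‖ * ‖t‖ ^ f.natDegree := by
  have hn1 : ‖((n : ℕ) : ℚ_[p])‖ ^ 2 ≤ 1 := by
    apply pow_le_one₀ (norm_nonneg _)
    have := Padic.norm_int_le_one (p := p) (n : ℤ)
    simpa using this
  have ht1 : 1 ≤ ‖t‖ := le_trans (one_le_pow₀ one_lt_p.le) ht
  have ht0 : 0 < ‖t‖ := by linarith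
  have hlc : f.leadingCoeff ≠ 0 := by
    rw [Ne, leadingCoeff_eq_zero]
    rintro rfl
    simp at hd
  have hlc' : ((f.leadingCoeff : ℤ) : ℚ_[p]) ≠ 0 := by exact_mod_cast hlc
  have hln : 0 < ‖((f.leadingCoeff : ℤ) : ℚ_[p])‖ := norm_pos_iff.2 hlc'
  obtain ⟨d, hdd⟩ : ∃ d, f.natDegree = d + 1 := ⟨f.natDegree - 1, by omega⟩
  have e : aeval t f = aeval t f.eraseLead + ((f.leadingCoeff : ℤ) : ℚ_[p]) * t ^ f.natDegree := by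
    conv_lhs => rw [← eraseLead_add_C_mul_X_pow f]
    rw [map_add, map_mul, aeval_C, map_pow, aeval_X, algebraMap_int_eq, eq_intCast]
  have h1 : ‖aeval t f.eraseLead‖ ≤ ‖t‖ ^ d := aeval_norm_le _ _ (by
    have := eraseLead_natDegree_le f
    omega) t ht1
  have h2 : ‖(aeval t f + (k : ℚ_[p])) - ((f.leadingCoeff : ℤ) : ℚ_[p]) * t ^ f.natDegree‖ ≤ ‖t‖ ^ d := by
    rw [e]
    have e2 : aeval t f.eraseLead + ((f.leadingCoeff : ℤ) : ℚ_[p]) * t ^ f.natDegree + (k : ℚ_[p]) -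
        ((f.leadingCoeff : ℤ) : ℚ_[p]) * t ^ f.natDegree = aeval t f.eraseLead + (k : ℚ_[p]) := by ring
    rw [e2]
    refine (Padic.nonarchimedean _ _).trans (max_le h1 ?_)
    exact (Padic.norm_int_le_one k).trans (one_le_pow₀ ht1)
  have h3 : ‖((f.leadingCoeff : ℤ) : ℚ_[p]) * t ^ f.natDegree‖ = ‖((f.leadingCoeff : ℤ) : ℚ_[p])‖ * ‖t‖ ^ f.natDegree := by
    rw [norm_mul, norm_pow]
  have h4 : ‖t‖ ^ d < ‖((n : ℕ) : ℚ_[p])‖ ^ 2 * (‖((f.leadingCoeff : ℤ) : ℚ_[p])‖ * ‖t‖ ^ f.natDegree) := by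
    rw [hdd, pow_succ]
    have h5 : 1 < ‖t‖ * (‖((n : ℕ) : ℚ_[p])‖ ^ 2 * ‖((f.leadingCoeff : ℤ) : ℚ_[p])‖) :=
      h0.trans_le (mul_le_mul_of_nonneg_right ht (by positivity))
    calc ‖t‖ ^ d = ‖t‖ ^ d * 1 := (mul_one _).symm
      _ < ‖t‖ ^ d * (‖t‖ * (‖((n : ℕ) : ℚ_[p])‖ ^ 2 * ‖((f.leadingCoeff : ℤ) : ℚ_[p])‖)) :=
          mul_lt_mul_of_pos_left h5 (by positivity)
      _ = _ := by ring
  have h5 := h2.trans_lt h4
  rw [← h3] at h5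
  obtain ⟨s, hs2⟩ := root_near n _ _ (mul_ne_zero hlc' (pow_ne_zero _ (norm_pos_iff.1 ht0))) h5
  refine ⟨s, hs2, ?_⟩
  rw [← h3]
  apply norm_eq_of_near
  refine h5.trans_le ?_
  exact mul_le_of_le_one_left (norm_nonneg _) hn1

/-- far away points for a degree prime to `n` -/
lemma far_pt_n {m : ℕ} (f : MvPolynomial (Fin m) ℤ) (hd : 1 ≤ f.totalDegree) (n : ℕ) (hn0 : n ≠ 0)
    (hcop : f.totalDegree.Coprime n) (p : ℕ) [hp : Fact p.Prime] :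
    ∃ N1 : ℕ, ∀ k : ℤ, ∃ (t : Fin m → ℚ_[p]) (x : ℚ_[p]), (∀ j, ‖t j‖ ≤ (p : ℝ) ^ N1) ∧
      ((p : ℝ) ^ N1)⁻¹ ≤ ‖MvPolynomial.aeval t f + (k : ℚ_[p])‖ ∧ MvPolynomial.aeval t f + (k : ℚ_[p]) = x ^ n := by
  obtain ⟨β, hβ⟩ := exists_lead f hd
  obtain ⟨g, hg⟩ : ∃ g : ℤ[X], g = FU f 1 β (fun _ => 0) := ⟨_, rfl⟩
  have hgd : g.natDegree = f.totalDegree := by rw [hg]; exact FU_natDegree f 1 one_ne_zero β _ hβ
  have hgl : g.leadingCoeff = lead f β := by rw [hg, FU_lead f 1 one_ne_zero β _ hβ]; simp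
  have hgv : ∀ σ : ℚ_[p], aeval σ g = MvPolynomial.aeval (fun j => (β j : ℚ_[p]) * σ) f := by
    intro σ
    rw [hg, FU_aeval]
    have h := GM_scale f 1 (fun j => (β j : ℚ_[p]) * σ)
    simp only [Nat.cast_one, one_mul, one_pow] at h
    simp only [Int.cast_zero, zero_add]
    exact h
  obtain ⟨a, ha⟩ : ∃ a : ℚ_[p], a = ((g.leadingCoeff : ℤ) : ℚ_[p]) := ⟨_, rfl⟩
  have ha0 : a ≠ 0 := by rw [ha, hgl]; exact_mod_cast hβ
  have han : 0 < ‖a‖ := norm_pos_iff.2 ha0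
  have ha1 : ‖a‖ ≤ 1 := by rw [ha]; exact Padic.norm_int_le_one _
  have hnn : 0 < ‖((n : ℕ) : ℚ_[p])‖ := norm_pos_iff.2 (by exact_mod_cast hn0)
  have hppos : (0 : ℝ) < (p : ℝ) := p_pos
  have hp1 : (1 : ℝ) < (p : ℝ) := one_lt_p
  -- `1 + d e = n q`
  obtain ⟨e, q, heq⟩ : ∃ e q : ℕ, 1 + f.totalDegree * e = n * q := by
    have h1 : IsCoprime (f.totalDegree : ℤ) (n : ℤ) := Nat.isCoprime_iff_coprime.2 hcop
    obtain ⟨u, v, huv⟩ := h1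
    -- `u d + v n = 1`, so `1 - u d = v n`; choose `e = - u + n w`
    obtain ⟨w, hw⟩ : ∃ w : ℕ, u ≤ n * w := ⟨u.natAbs, by
      have h2 : u ≤ (u.natAbs : ℤ) := Int.le_natAbs
      have h3 : (1 : ℤ) ≤ n := by exact_mod_cast Nat.one_le_iff_ne_zero.2 hn0
      nlinarith [Int.natCast_nonneg u.natAbs]⟩
    obtain ⟨e, he⟩ : ∃ e : ℕ, (e : ℤ) = n * w - u := ⟨(n * w - u).toNat, by
      rw [Int.toNat_of_nonneg]; linarith⟩
    have hq : (n : ℤ) * (v + f.totalDegree * w) = 1 + f.totalDegree * e := by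
      rw [he]
      linear_combination huv
    have hpos : 0 ≤ v + f.totalDegree * w := by
      by_contra hcon
      have h3 : (1 : ℤ) ≤ n := by exact_mod_cast Nat.one_le_iff_ne_zero.2 hn0
      have h4 : (n : ℤ) * (v + f.totalDegree * w) < 0 := mul_neg_of_pos_of_neg (by linarith) (by linarith)
      rw [hq] at h4
      have h5 : (0 : ℤ) ≤ f.totalDegree * e := by positivity
      linarith
    obtain ⟨q, hq'⟩ : ∃ q : ℕ, (q : ℤ) = v + f.totalDegree * w := ⟨_, Int.toNat_of_nonneg hpos⟩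
    refine ⟨e, q, ?_⟩
    rw [← hq'] at hq
    exact_mod_cast hq.symm
  obtain ⟨N0, hN0⟩ := exists_pow_gt (p := p) (‖((n : ℕ) : ℚ_[p])‖ ^ 2 * ‖a‖)⁻¹
  have h0 : 1 < (p : ℝ) ^ N0 * (‖((n : ℕ) : ℚ_[p])‖ ^ 2 * ‖a‖) := by
    rw [inv_lt_iff_one_lt_mul₀ (by positivity)] at hN0
    exact hN0
  obtain ⟨N1, hN1⟩ := exists_pow_gt (p := p) ((p : ℝ) ^ N0 / ‖a‖ ^ e)
  obtain ⟨w, hw⟩ : ∃ w : ℚ_[p], w = ((p : ℚ_[p]) ^ N1)⁻¹ := ⟨_, rfl⟩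
  have hwn : ‖w‖ = (p : ℝ) ^ N1 := by
    rw [hw, norm_inv, norm_pow, Padic.norm_p, inv_pow, inv_inv]
  obtain ⟨σ, hσ⟩ : ∃ σ : ℚ_[p], σ = a ^ e * w ^ n := ⟨_, rfl⟩
  have hσ1 : (p : ℝ) ^ N0 ≤ ‖σ‖ := by
    rw [hσ, norm_mul, norm_pow, norm_pow, hwn]
    rw [div_lt_iff₀ (by positivity)] at hN1
    have h1 : (p : ℝ) ^ N1 ≤ ((p : ℝ) ^ N1) ^ n := le_self_pow₀ (one_le_pow₀ hp1.le) hn0
    calc (p : ℝ) ^ N0 ≤ (p : ℝ) ^ N1 * ‖a‖ ^ e := hN1.le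
      _ ≤ ((p : ℝ) ^ N1) ^ n * ‖a‖ ^ e := mul_le_mul_of_nonneg_right h1 (by positivity)
      _ = _ := mul_comm _ _
  have hσ2 : ‖σ‖ ≤ (p : ℝ) ^ (n * N1) := by
    rw [hσ, norm_mul, norm_pow, norm_pow, hwn, ← pow_mul, mul_comm N1 n]
    exact mul_le_of_le_one_left (by positivity) (pow_le_one₀ (norm_nonneg _) ha1)
  refine ⟨n * N1 + N0, fun k => ?_⟩
  obtain ⟨s, hs2, hs3⟩ := far_root n hn0 g (by omega) N0 (by rw [← ha]; exact h0) k σ hσ1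
  rw [← ha] at hs2 hs3
  refine ⟨fun j => (β j : ℚ_[p]) * σ, a ^ q * w ^ f.totalDegree * s, ?_, ?_, ?_⟩
  · intro j
    rw [norm_mul]
    calc ‖(β j : ℚ_[p])‖ * ‖σ‖ ≤ 1 * (p : ℝ) ^ (n * N1) :=
          mul_le_mul (Padic.norm_int_le_one _) hσ2 (norm_nonneg _) (by norm_num)
      _ = (p : ℝ) ^ (n * N1) := one_mul _
      _ ≤ _ := pow_le_pow_right₀ hp1.le (by omega)
  · rw [← hgv, hs3]
    have h1 : ((p : ℝ) ^ N0)⁻¹ ≤ ‖a‖ := by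
      rw [inv_le_iff_one_le_mul₀ (by positivity)]
      have hn1 : ‖((n : ℕ) : ℚ_[p])‖ ^ 2 ≤ 1 := by
        apply pow_le_one₀ (norm_nonneg _)
        have := Padic.norm_int_le_one (p := p) (n : ℤ)
        simpa using this
      have h2 : (p : ℝ) ^ N0 * (‖((n : ℕ) : ℚ_[p])‖ ^ 2 * ‖a‖) ≤ (p : ℝ) ^ N0 * ‖a‖ :=
        mul_le_mul_of_nonneg_left (mul_le_of_le_one_left han.le hn1) (by positivity)
      rw [mul_comm]
      linarith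
    have h2 : ((p : ℝ) ^ (n * N1 + N0))⁻¹ ≤ ((p : ℝ) ^ N0)⁻¹ :=
      inv_anti₀ (by positivity) (pow_le_pow_right₀ hp1.le (by omega))
    have h3 : 1 ≤ ‖σ‖ ^ g.natDegree := one_le_pow₀ (le_trans (one_le_pow₀ hp1.le) hσ1)
    calc ((p : ℝ) ^ (n * N1 + N0))⁻¹ ≤ ‖a‖ := h2.trans h1
      _ ≤ _ := le_mul_of_one_le_right han.le h3
  · rw [← hgv, hs2, hgd, hσ]
    have e1 : a * (a ^ e * w ^ n) ^ f.totalDegree * s ^ n = a ^ (1 + f.totalDegree * e) * (w ^ f.totalDegree) ^ n * s ^ n := by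
      rw [pow_add, pow_one, mul_pow, ← pow_mul, ← pow_mul, ← pow_mul]
      ring
    rw [e1, heq]
    ring

end Pool.Agent.R479.NF
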