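import Mathlib

/-!
# Norms of ideals and prime numbers which are norms, for subfields of cyclotomic fields
-/

set_option autoImplicit false

namespace Pool.Agent.R479.NF

open NumberField

variable (m : ℕ) [NeZero m] {L : Type} [Field L] [NumberField L] [IsCyclotomicExtension {m} ℚ L]
  (K : IntermediateField ℚ L)

/-- a primitive root of unity -/
noncomputable def zt (L : Type) [Field L] [NumberField L] [IsCyclotomicExtension {m} ℚ L] : L :=
  IsCyclotomicExtension.zeta m ℚ L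

lemma zt_spec : IsPrimitiveRoot (zt m L) m := IsCyclotomicExtension.zeta_spec m ℚ L

/-- The residue class of `r` modulo `m` belongs to the Galois group over `K`. -/
def Good (r : ℕ) : Prop := ∃ τ : L ≃ₐ[K] L, τ (zt m L) = zt m L ^ r

lemma good_one : Good m K 1 := ⟨AlgEquiv.refl, by simp⟩

lemma good_mul {r s : ℕ} (hr : Good m K r) (hs : Good m K s) : Good m K (r * s) := by
  obtain ⟨τ, hτ⟩ := hr
  obtain ⟨σ, hσ⟩ := hs
  refine ⟨σ.trans τ, ?_⟩
  rw [AlgEquiv.trans_apply, hσ, map_pow, hτ, ← pow_mul]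

lemma pow_congr {r s : ℕ} (h : r ≡ s [MOD m]) : zt m L ^ r = zt m L ^ s := by
  have h1 := (zt_spec m (L := L)).pow_eq_one
  rw [← Nat.mod_add_div r m, ← Nat.mod_add_div s m, pow_add, pow_mul, pow_add, pow_mul, h1, one_pow, one_pow, h]

lemma good_congr {r s : ℕ} (hr : Good m K r) (h : r ≡ s [MOD m]) : Good m K s := by
  obtain ⟨τ, hτ⟩ := hr
  exact ⟨τ, by rw [hτ, pow_congr m h]⟩

lemma good_div {r s : ℕ} (hrs : Good m K (s * r)) (hr : Good m K r) : Good m K s := by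
  obtain ⟨τ, hτ⟩ := hrs
  obtain ⟨σ, hσ⟩ := hr
  refine ⟨τ.trans σ.symm, ?_⟩
  rw [AlgEquiv.trans_apply, hτ]
  apply σ.injective
  rw [AlgEquiv.apply_symm_apply, map_pow, hσ, ← pow_mul, mul_comm]

/-- automorphisms are determined by the value at the root of unity -/
lemma aut_ext (σ τ : L ≃ₐ[ℚ] L) (h : σ (zt m L) = τ (zt m L)) : σ = τ := by
  have h1 := (zt_spec m (L := L)).powerBasis ℚ
  have h2 : (σ : L →ₐ[ℚ] L) = τ := by
    apply ((zt_spec m (L := L)).powerBasis ℚ).algHom_ext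
    simpa using h
  ext x
  exact DFunLike.congr_fun h2 x

/-- the root of unity as an integer -/
noncomputable def zi (L : Type) [Field L] [NumberField L] [IsCyclotomicExtension {m} ℚ L] : 𝓞 L :=
  (zt_spec m (L := L)).toInteger

lemma zi_pow : zi m L ^ m = 1 := by
  have h := (zt_spec m (L := L)).toInteger_isPrimitiveRoot
  exact h.pow_eq_one

/-- The norm of a prime ideal of `K` which does not divide `m`. -/
theorem good_absNorm (P : Ideal (𝓞 K)) [P.IsMaximal] (hP0 : P ≠ ⊥) (hm : ((m : ℕ) : 𝓞 K) ∉ P) :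
    Good m K (Ideal.absNorm P) := by
  obtain ⟨Q, hQ, hQl⟩ := Ideal.exists_maximal_ideal_liesOver_of_isIntegral (S := 𝓞 L) P
  have hunder : Q.under (𝓞 K) = P := (hQl.over).symm
  have hQ0 : Q ≠ ⊥ := by
    rintro rfl
    apply hP0
    rw [← hunder]
    exact Ideal.under_bot _ _
  have hmQ : ((m : ℕ) : 𝓞 L) ∉ Q := by
    intro h
    apply hm
    rw [← hunder, Ideal.under_def, Ideal.mem_comap, map_natCast]
    exact h
  have : Finite (𝓞 L ⧸ Q) := Ring.HasFiniteQuotients.finiteQuotient hQ0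
  have : IsGalois ℚ L := IsCyclotomicExtension.isGalois {m} ℚ L
  obtain ⟨σ, hσ⟩ := IsArithFrobAt.exists_of_isInvariant (𝓞 K) Gal(L/K) Q
  have h1 := hσ.apply_of_pow_eq_one (zi_pow m (L := L)) hmQ
  rw [hunder] at h1
  refine ⟨σ, ?_⟩
  have h2 := congrArg (fun x : 𝓞 L => (x : L)) h1
  rw [Ideal.absNorm_apply, Submodule.cardQuot_apply]
  rw [RingOfIntegers.coe_eq_algebraMap, RingOfIntegers.coe_eq_algebraMap, map_pow] at h2
  exact h2

/-- A prime number in the class of the Galois group over `K` is the norm of a prime ideal. -/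
theorem exists_absNorm {p : ℕ} (hp : p.Prime) (hpm : ¬ p ∣ m) (hg : Good m K p) :
    ∃ P : Ideal (𝓞 K), Ideal.absNorm P = p := by
  have : Fact p.Prime := ⟨hp⟩
  have : IsGalois ℚ L := IsCyclotomicExtension.isGalois {m} ℚ L
  have hmax : (Ideal.span {(p : ℤ)}).IsMaximal := by
    apply PrincipalIdealRing.isMaximal_of_irreducible
    exact (Nat.prime_iff_prime_int.1 hp).irreducible
  obtain ⟨Q, hQ, hQl⟩ := Ideal.exists_maximal_ideal_liesOver_of_isIntegral (S := 𝓞 L)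
    (Ideal.span {(p : ℤ)})
  have hunder : Q.under ℤ = Ideal.span {(p : ℤ)} := (hQl.over).symm
  have hmem : ((p : ℕ) : 𝓞 L) ∈ Q := by
    have h1 : (p : ℤ) ∈ Q.under ℤ := by
      rw [hunder]
      exact Ideal.mem_span_singleton_self _
    rw [Ideal.under_def, Ideal.mem_comap] at h1
    simpa using h1
  have hQ0 : Q ≠ ⊥ := by
    rintro rfl
    rw [Ideal.mem_bot] at hmem
    exact hp.ne_zero (by exact_mod_cast hmem)
  have hmQ : ((m : ℕ) : 𝓞 L) ∉ Q := by
    intro h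
    obtain ⟨a, b, hab⟩ : ∃ a b : ℤ, a * m + b * p = 1 := by
      have h1 : Nat.Coprime m p := ((Nat.Prime.coprime_iff_not_dvd hp).2 hpm).symm
      have h2 := (Nat.isCoprime_iff_coprime.2 h1)
      exact h2
    apply hQ.ne_top
    rw [Ideal.eq_top_iff_one]
    have h3 : (1 : 𝓞 L) = (a : 𝓞 L) * (m : ℕ) + (b : 𝓞 L) * (p : ℕ) := by exact_mod_cast hab.symm
    rw [h3]
    exact Q.add_mem (Q.mul_mem_left _ h) (Q.mul_mem_left _ hmem)
  have : Finite (𝓞 L ⧸ Q) := Ring.HasFiniteQuotients.finiteQuotient hQ0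
  obtain ⟨σ, hσ⟩ := IsArithFrobAt.exists_of_isInvariant ℤ Gal(L/ℚ) Q
  have h2 : Nat.card (ℤ ⧸ Ideal.span {(p : ℤ)}) = p := by
    rw [Int.card_ideal_quot]
  have h1 := hσ.apply_of_pow_eq_one (zi_pow m (L := L)) hmQ
  rw [hunder, h2] at h1
  obtain ⟨τ, hτ⟩ := hg
  have h3 : σ = τ.restrictScalars ℚ := by
    apply aut_ext m
    have h2 := congrArg (fun x : 𝓞 L => (x : L)) h1
    rw [AlgEquiv.restrictScalars_apply, hτ]
    rw [RingOfIntegers.coe_eq_algebraMap, RingOfIntegers.coe_eq_algebraMap, map_pow] at h2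
    exact h2
  -- the prime ideal of `K`
  refine ⟨Q.under (𝓞 K), ?_⟩
  have hPmax : (Q.under (𝓞 K)).IsMaximal := inferInstance
  have hP0 : Q.under (𝓞 K) ≠ ⊥ := by
    intro h
    have h4 : ((p : ℕ) : 𝓞 K) ∈ Q.under (𝓞 K) := by
      rw [Ideal.under_def, Ideal.mem_comap, map_natCast]
      exact hmem
    rw [h, Ideal.mem_bot] at h4
    exact hp.ne_zero (by exact_mod_cast h4)
  have : Finite (𝓞 K ⧸ Q.under (𝓞 K)) := Ring.HasFiniteQuotients.finiteQuotient hP0
  let _ : Field (𝓞 K ⧸ Q.under (𝓞 K)) := Ideal.Quotient.field _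
  have hpow : ∀ x : 𝓞 K ⧸ Q.under (𝓞 K), x ^ p = x := by
    intro x
    obtain ⟨x, rfl⟩ := Ideal.Quotient.mk_surjective x
    rw [← map_pow, Ideal.Quotient.eq, Ideal.under_def, Ideal.mem_comap, map_sub, map_pow]
    have h4 := hσ (algebraMap (𝓞 K) (𝓞 L) x)
    rw [hunder, h2] at h4
    have h5 : (MulSemiringAction.toAlgHom ℤ (𝓞 L) σ) (algebraMap (𝓞 K) (𝓞 L) x) = algebraMap (𝓞 K) (𝓞 L) x := by
      apply RingOfIntegers.ext
      rw [h3]
      exact τ.commutes (x : K)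
    rw [h5] at h4
    rw [← neg_sub]
    exact Q.neg_mem h4
  rw [Ideal.absNorm_apply, Submodule.cardQuot_apply]
  have hchar : CharP (𝓞 K ⧸ Q.under (𝓞 K)) p := by
    rw [CharP.charP_iff_prime_eq_zero hp, ← map_natCast (Ideal.Quotient.mk (Q.under (𝓞 K))),
      Ideal.Quotient.eq_zero_iff_mem, Ideal.under_def, Ideal.mem_comap, map_natCast]
    exact hmem
  have := Fintype.ofFinite (𝓞 K ⧸ Q.under (𝓞 K))
  obtain ⟨n, -, hn⟩ := FiniteField.card (𝓞 K ⧸ Q.under (𝓞 K)) p
  have hle : Nat.card (𝓞 K ⧸ Q.under (𝓞 K)) ≤ p := by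
    have h4 := FiniteField.X_pow_card_sub_X_natDegree_eq (𝓞 K ⧸ Q.under (𝓞 K)) hp.one_lt
    rw [← h4, Nat.card_eq_fintype_card, ← Finset.card_univ]
    have h5 : (Polynomial.X ^ p - Polynomial.X : Polynomial (𝓞 K ⧸ Q.under (𝓞 K))) ≠ 0 :=
      FiniteField.X_pow_card_sub_X_ne_zero _ hp.one_lt
    apply Polynomial.card_le_degree_of_subset_roots
    intro x _
    rw [Polynomial.mem_roots h5]
    simp [hpow x]
  rw [Nat.card_eq_fintype_card, hn] at hle ⊢
  have h6 : (n : ℕ) = 1 := by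
    have h7 := (Nat.pow_le_pow_iff_right hp.one_lt).1 (hle.trans (pow_one p).symm.le)
    have := n.pos
    omega
  rw [h6, pow_one]

end Pool.Agent.R479.NF
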