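import Pool.Agent.R479.NF.Main
import Pool.Agent.R479.NF.Far

/-!
# The theorems for several variables
-/

set_option autoImplicit false
set_option linter.unusedSectionVars false

namespace Pool.Agent.R479.NF

open NumberField Module TensorProduct Finset Filter
open Pool.Agent.TH204.HP (lead exists_dir primes_upto lead_neg exists_lead)

variable (m : ℕ) [NeZero m] {L : Type} [Field L] [NumberField L] [IsCyclotomicExtension {m} ℚ L]
variable {r s : ℕ}

/-- the condition at the real place -/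
def Rc (K : Fin r → IntermediateField ℚ L) (f : MvPolynomial (Fin s) ℤ) (c : Fin r → ℤ) (k : ℤ) : Prop :=
  ∃ σ : ℤ, (σ = 1 ∨ σ = -1) ∧ (∀ i, (∃ x : K i, Algebra.norm ℚ x = -1) ∨ 0 < σ * c i) ∧
    (0 < σ * k ∨ ∃ v : Fin s → ℤ, 0 < σ * lead f v)

lemma lead_negf (f : MvPolynomial (Fin s) ℤ) (v : Fin s → ℤ) : lead (-f) v = -lead f v := by
  unfold lead
  rw [MvPolynomial.support_neg, MvPolynomial.totalDegree_neg, ← sum_neg_distrib]
  apply sum_congr rfl
  intro μ _
  split_ifs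
  · rw [MvPolynomial.coeff_neg]
    ring
  · simp

include m in
theorem mainA (K : Fin r → IntermediateField ℚ L) (hh : ∀ i, (classNumber (K i)).Coprime (finrank ℚ (K i)))
    (hs : ∀ i, Sgn (K i)) (f : MvPolynomial (Fin s) ℤ) (hd : 2 ≤ f.totalDegree) (c : Fin r → ℤ) (hc : ∀ i, c i ≠ 0) :
    ∃ T0 : Finset Nat.Primes, ∀ T : Finset Nat.Primes, T0 ⊆ T → ∀ N U : ℕ, ∃ X0 : ℕ, ∀ X : ℕ, X0 ≤ X →
      ∃ Bad : Finset ℤ, (#Bad : ℝ) ≤ X / Real.log X ^ U ∧ ∀ k : ℤ, |k| ≤ X → k ∉ Bad → Rc K f c k →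
      ∀ t : (p : Nat.Primes) → Fin s → ℚ_[(p : ℕ)], Lc K f c T N k t → Gl K f c T N k t := by
  classical
  obtain ⟨T1, h1⟩ := mainPos m K hh hs f hd c hc
  obtain ⟨T2, h2⟩ := mainPos m K hh hs (-f) (by rw [MvPolynomial.totalDegree_neg]; exact hd) (fun i => -c i)
    (fun i => neg_ne_zero.2 (hc i))
  refine ⟨T1 ∪ T2, fun T hT N U => ?_⟩
  obtain ⟨X1, h1⟩ := h1 T (subset_union_left.trans hT) N (U + 1)
  obtain ⟨X2, h2⟩ := h2 T (subset_union_right.trans hT) N (U + 1)
  obtain ⟨X3, hX3⟩ := eventually_atTop.1 (Pool.Agent.TH204.WR.evt_log_ge 2)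
  refine ⟨max (max X1 X2) X3, fun X hX => ?_⟩
  obtain ⟨B1, hB1, hC1⟩ := h1 X ((le_trans (le_max_left _ _) (le_max_left _ _)).trans hX)
  obtain ⟨B2, hB2, hC2⟩ := h2 X ((le_trans (le_max_right _ _) (le_max_left _ _)).trans hX)
  have hL := hX3 X ((le_max_right _ _).trans hX)
  refine ⟨B1 ∪ B2.image (fun k => -k), ?_, ?_⟩
  · have h3 : #(B1 ∪ B2.image (fun k => -k)) ≤ #B1 + #B2 :=
      (card_union_le _ _).trans (Nat.add_le_add_left card_image_le _)
    have h4 : (#(B1 ∪ B2.image (fun k => -k)) : ℝ) ≤ (#B1 : ℝ) + #B2 := by exact_mod_cast h3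
    refine h4.trans ?_
    have h5 : (X : ℝ) / Real.log X ^ U = Real.log X * (X / Real.log X ^ (U + 1)) := by
      have : Real.log X ≠ 0 := by linarith
      rw [pow_succ]
      field_simp
    rw [h5]
    have h6 : 0 ≤ (X : ℝ) / Real.log X ^ (U + 1) := le_trans (Nat.cast_nonneg _) hB1
    nlinarith
  · rintro k hk hkB ⟨σ, hσ | hσ, hr1, hr2⟩ t hloc
    · subst hσ
      rw [mem_union, not_or] at hkB
      refine hC1 k hk hkB.1 (fun i => ?_) ?_ t hloc
      · simpa using hr1 i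
      · simpa using hr2
    · subst hσ
      rw [mem_union, not_or] at hkB
      have hkB2 : -k ∉ B2 := by
        intro h3
        exact hkB.2 (mem_image.2 ⟨-k, h3, neg_neg k⟩)
      obtain ⟨x, hx1, hx2, hx3⟩ := hC2 (-k) (by rw [abs_neg]; exact hk) hkB2 (fun i => by
          have := hr1 i
          rwa [neg_one_mul] at this) (by
          rcases hr2 with h | ⟨v, h⟩
          · left
            rwa [neg_one_mul] at h
          · right
            refine ⟨v, ?_⟩
            rw [lead_negf]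
            rwa [neg_one_mul] at h) t (by
          intro p hp
          obtain ⟨h3, h4, h5⟩ := hloc p hp
          have e : MvPolynomial.aeval (t p) (-f) + ((-k : ℤ) : ℚ_[(p : ℕ)]) = -(MvPolynomial.aeval (t p) f + (k : ℚ_[(p : ℕ)])) := by
            rw [map_neg]
            push_cast
            ring
          refine ⟨h3, ?_, fun i => ?_⟩
          · rw [e, norm_neg]
            exact h4
          · have h6 := h5 i
            rw [e]
            have e2 : (((-c i : ℤ)) : ℚ_[(p : ℕ)]) * -(MvPolynomial.aeval (t p) f + (k : ℚ_[(p : ℕ)])) =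
                (c i : ℚ_[(p : ℕ)]) * (MvPolynomial.aeval (t p) f + (k : ℚ_[(p : ℕ)])) := by
              push_cast
              ring
            rw [e2]
            exact h6)
      have e : MvPolynomial.aeval x (-f) + ((-k : ℤ) : ℚ) = -(MvPolynomial.aeval x f + (k : ℚ)) := by
        rw [map_neg]
        push_cast
        ring
      refine ⟨x, hx1, ?_, fun i => ?_⟩
      · rw [e] at hx2
        exact fun h0 => hx2 (by rw [h0, neg_zero])
      · have h6 := hx3 i
        rw [e] at h6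
        have e2 : ((-c i : ℤ) : ℚ) * -(MvPolynomial.aeval x f + (k : ℚ)) = (c i : ℚ) * (MvPolynomial.aeval x f + (k : ℚ)) := by
          push_cast
          ring
        rwa [e2] at h6

lemma isNp_pow {K : Type} [Field K] [NumberField K] {p : ℕ} [Fact p.Prime] (x : ℚ_[p]) :
    IsNp K p (x ^ finrank ℚ K) := by
  refine ⟨algebraMap ℚ_[p] _ x, ?_⟩
  rw [Algebra.norm_algebraMap_of_basis (Algebra.TensorProduct.basis ℚ_[p] (integralBasis K)),
    Module.finrank_eq_card_basis (integralBasis K)]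

lemma IsNp.mul {K : Type} [Field K] [NumberField K] {p : ℕ} [Fact p.Prime] {a b : ℚ_[p]} (ha : IsNp K p a)
    (hb : IsNp K p b) : IsNp K p (a * b) := by
  obtain ⟨x, hx⟩ := ha
  obtain ⟨y, hy⟩ := hb
  exact ⟨x * y, by rw [map_mul, hx, hy]⟩

include m in
/-- degrees prime to the degree of the polynomial: any finite set of primes, no condition -/
theorem mainC (K : Fin r → IntermediateField ℚ L) (hh : ∀ i, (classNumber (K i)).Coprime (finrank ℚ (K i)))
    (hs : ∀ i, Sgn (K i)) (f : MvPolynomial (Fin s) ℤ) (hd : 2 ≤ f.totalDegree)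
    (hcop : ∀ i, f.totalDegree.Coprime (finrank ℚ (K i)))
    (hsg : Odd f.totalDegree ∨ ∀ i, ∃ x : K i, Algebra.norm ℚ x = -1)
    (T : Finset Nat.Primes) (N U : ℕ) :
    ∃ X0 : ℕ, ∀ X : ℕ, X0 ≤ X →
      ∃ Bad : Finset ℤ, (#Bad : ℝ) ≤ X / Real.log X ^ U ∧ ∀ k : ℤ, |k| ≤ X → k ∉ Bad →
      ∀ t : (p : Nat.Primes) → Fin s → ℚ_[(p : ℕ)], Lc K f (fun _ => 1) T N k t → Gl K f (fun _ => 1) T N k t := by
  classical
  obtain ⟨T0, h⟩ := mainA m K hh hs f hd (fun _ => 1) (fun _ => one_ne_zero)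
  obtain ⟨n, hn⟩ : ∃ n, n = ∏ i, finrank ℚ (K i) := ⟨_, rfl⟩
  have hn0 : n ≠ 0 := by
    rw [hn]
    exact prod_ne_zero_iff.2 fun i _ => (finrank_pos (R := ℚ) (M := K i)).ne'
  have hcop' : f.totalDegree.Coprime n := by
    rw [hn]
    exact Nat.Coprime.prod_right fun i _ => hcop i
  have hfar := fun p : Nat.Primes => far_pt_n f (by omega) n hn0 hcop' (p : ℕ)
  choose N1 hN1 using hfar
  obtain ⟨T1, hT1⟩ : ∃ T1 : Finset Nat.Primes, T1 = T ∪ T0 := ⟨_, rfl⟩
  obtain ⟨N', hN'⟩ : ∃ N', N' = N + ∑ p ∈ T1, N1 p := ⟨_, rfl⟩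
  obtain ⟨X0, h2⟩ := h T1 (by rw [hT1]; exact subset_union_right) N' U
  refine ⟨X0, fun X hX => ?_⟩
  obtain ⟨Bad, hB1, hB2⟩ := h2 X hX
  refine ⟨Bad, hB1, fun k hk hkB t hloc => ?_⟩
  have hone : ∀ p : Nat.Primes, (1 : ℝ) < ((p : ℕ) : ℝ) := fun p => by exact_mod_cast p.2.one_lt
  have hr : Rc K f (fun _ : Fin r => 1) k := by
    obtain ⟨β, hβ⟩ := exists_lead f (by omega)
    rcases hsg with ho | hsg
    · refine ⟨1, Or.inl rfl, fun i => Or.inr (by norm_num), Or.inr ?_⟩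
      rcases lt_or_gt_of_ne hβ with hl | hl
      · refine ⟨fun j => -β j, ?_⟩
        rw [lead_neg f ho]
        linarith
      · exact ⟨β, by linarith⟩
    · rcases lt_or_gt_of_ne hβ with hl | hl
      · exact ⟨-1, Or.inr rfl, fun i => Or.inl (hsg i), Or.inr ⟨β, by linarith⟩⟩
      · exact ⟨1, Or.inl rfl, fun i => Or.inl (hsg i), Or.inr ⟨β, by linarith⟩⟩
  have ht' : ∀ p : Nat.Primes, ∃ t' : Fin s → ℚ_[(p : ℕ)], (p ∈ T → t' = t p) ∧ (p ∈ T1 → (∀ j, ‖t' j‖ ≤ ((p : ℕ) : ℝ) ^ N') ∧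
      (((p : ℕ) : ℝ) ^ N')⁻¹ ≤ ‖MvPolynomial.aeval t' f + (k : ℚ_[(p : ℕ)])‖ ∧
      ∀ i, IsNp (K i) (p : ℕ) (((1 : ℤ) : ℚ_[(p : ℕ)]) * (MvPolynomial.aeval t' f + k))) := by
    intro p
    have hppos : (0 : ℝ) < ((p : ℕ) : ℝ) := by linarith [hone p]
    by_cases hp : p ∈ T
    · obtain ⟨h3, h4, h5⟩ := hloc p hp
      exact ⟨t p, fun _ => rfl, fun _ => ⟨fun j => (h3 j).trans (pow_le_pow_right₀ (hone p).le (by omega)),
        (inv_anti₀ (by positivity) (pow_le_pow_right₀ (hone p).le (by omega))).trans h4, h5⟩⟩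
    · by_cases hp2 : p ∈ T1
      · obtain ⟨t', x, h3, h4, h5⟩ := hN1 p k
        have hle : N1 p ≤ N' := by
          rw [hN']
          have := single_le_sum (f := N1) (fun _ _ => Nat.zero_le _) hp2
          omega
        refine ⟨t', fun h => absurd h hp, fun _ => ⟨fun j => (h3 j).trans (pow_le_pow_right₀ (hone p).le hle),
          (inv_anti₀ (by positivity) (pow_le_pow_right₀ (hone p).le hle)).trans h4, fun i => ?_⟩⟩
        rw [Int.cast_one, one_mul, h5]
        obtain ⟨q, hq⟩ : finrank ℚ (K i) ∣ n := by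
          rw [hn]
          exact dvd_prod_of_mem (fun i => finrank ℚ (K i)) (mem_univ i)
        rw [hq, mul_comm, pow_mul]
        exact isNp_pow _
      · exact ⟨0, fun h => absurd h hp, fun h => absurd h hp2⟩
  choose t' ht' ht'2 using ht'
  obtain ⟨x, hx1, hx2, hx3⟩ := hB2 k hk hkB hr t' (fun p hp => ht'2 p hp)
  refine ⟨x, fun p hp j => ?_, hx2, hx3⟩
  have hppos : (0 : ℝ) < ((p : ℕ) : ℝ) := by linarith [hone p]
  have h3 := hx1 p (by rw [hT1]; exact mem_union_left _ hp) j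
  rw [ht' p hp] at h3
  exact h3.trans (inv_anti₀ (by positivity) (pow_le_pow_right₀ (hone p).le (by omega)))

end Pool.Agent.R479.NF

namespace Pool.Agent.R479.NF

open NumberField Module TensorProduct

lemma norm_one_tmul_rat {K : Type} [Field K] [NumberField K] (a : K) :
    Algebra.norm ℚ ((1 : ℚ) ⊗ₜ[ℚ] a) = Algebra.norm ℚ a := by
  rw [Algebra.norm_eq_matrix_det (Algebra.TensorProduct.basis ℚ (integralBasis K)), leftMul_one_tmul]
  have h7 : (Algebra.leftMulMatrix (integralBasis K) a).map (algebraMap ℚ ℚ) =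
      Algebra.leftMulMatrix (integralBasis K) a := by
    ext a b
    simp
  rw [h7, ← Algebra.norm_eq_matrix_det]

end Pool.Agent.R479.NF
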