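import Pool.Agent.R479.NF.Full
import Pool.Agent.R479.NF.Dens

/-!
# The Hasse principle for one variable
-/

set_option autoImplicit false
set_option linter.unusedSectionVars false

namespace Pool.Agent.R479.NF

open NumberField Module TensorProduct Finset Filter Polynomial
open Pool.Agent.TH204.HP (primes_upto lip2 BigT)

variable (m : ℕ) [NeZero m] {L : Type} [Field L] [NumberField L] [IsCyclotomicExtension {m} ℚ L]
variable {r : ℕ}

/-- a point of the variety over the field `F` -/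
def Pt (K : Fin r → IntermediateField ℚ L) (f : ℤ[X]) (c : Fin r → ℤ) (k : ℤ) (F : Type) [Field F] [Algebra ℚ F] : Prop :=
  ∃ t : F, aeval t f + (k : F) ≠ 0 ∧ ∀ i, ∃ z : F ⊗[ℚ] (K i), Algebra.norm F z = (c i : F) * (aeval t f + (k : F))

/-- the condition at the real place for positive values -/
def Rp (K : Fin r → IntermediateField ℚ L) (f : ℤ[X]) (c : Fin r → ℤ) (k : ℤ) : Prop :=
  (∀ i, (∃ x : K i, Algebra.norm ℚ x = -1) ∨ 0 < c i) ∧ ∃ ρ : ℝ, 0 < aeval ρ f + (k : ℝ)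

lemma real_nonneg {K : Type} [Field K] [NumberField K] (h : ∀ x : K, 0 ≤ Algebra.norm ℚ x) (z : ℝ ⊗[ℚ] K) :
    0 ≤ Algebra.norm ℝ z := by
  rw [norm_eq_P]
  obtain ⟨x, hx⟩ : ∃ x : Ix K → ℝ, x = fun j => (Algebra.TensorProduct.basis ℝ (integralBasis K)).repr z j := ⟨_, rfl⟩
  rw [← hx]
  have hcont : Continuous (P K ℝ) := by
    unfold P
    fun_prop
  have hdense : DenseRange (fun q : Ix K → ℚ => fun j => (q j : ℝ)) :=
    DenseRange.piMap (fun _ => Rat.denseRange_cast)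
  have hclosed : IsClosed {x : Ix K → ℝ | 0 ≤ P K ℝ x} := isClosed_le continuous_const hcont
  refine hdense.induction_on (p := fun x => 0 ≤ P K ℝ x) x hclosed (fun q => ?_)
  -- a rational vector
  have h1 : P K ℝ (fun j => (q j : ℝ)) = ((Algebra.norm ℚ (∑ j, q j • integralBasis K j) : ℚ) : ℝ) := by
    rw [P, Algebra.norm_eq_matrix_det (integralBasis K), map_sum]
    have h2 : ((Matrix.det (∑ j, Algebra.leftMulMatrix (integralBasis K) (q j • integralBasis K j)) : ℚ) : ℝ) =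
        algebraMap ℚ ℝ (Matrix.det (∑ j, Algebra.leftMulMatrix (integralBasis K) (q j • integralBasis K j))) := rfl
    rw [h2, RingHom.map_det, map_sum]
    congr 1
    refine Finset.sum_congr rfl fun j _ => ?_
    rw [map_smul]
    ext a b
    simp [Mt, Matrix.map_apply, Matrix.smul_apply]
  rw [h1]
  exact_mod_cast h _

include m in
theorem main1 (K : Fin r → IntermediateField ℚ L) (hh : ∀ i, (classNumber (K i)).Coprime (finrank ℚ (K i)))
    (hs : ∀ i, Sgn (K i)) (f : ℤ[X]) (hd : 2 ≤ f.natDegree) (c : Fin r → ℤ) (hc : ∀ i, c i ≠ 0) :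
    ∃ T : Finset Nat.Primes, ∀ N U : ℕ, ∃ X0 : ℕ, ∀ X : ℕ, X0 ≤ X →
      ∃ Bad : Finset ℤ, (#Bad : ℝ) ≤ X / Real.log X ^ U ∧ ∀ k : ℤ, |k| ≤ X → k ∉ Bad →
      (∀ i, (∃ x : K i, Algebra.norm ℚ x = -1) ∨ 0 < c i) → (∃ ρ : ℝ, 0 < aeval ρ f + k) →
      (∀ p ∈ T, ∃ t : ℚ_[((p : Nat.Primes) : ℕ)], ‖t‖ ≤ ((p : ℕ) : ℝ) ^ N ∧ (((p : ℕ) : ℝ) ^ N)⁻¹ ≤ ‖aeval t f + (k : ℚ_[(p : ℕ)])‖ ∧
        ∀ i, IsNp (K i) (p : ℕ) ((c i : ℚ_[(p : ℕ)]) * (aeval t f + (k : ℚ_[(p : ℕ)])))) →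
      ∃ x : ℚ, aeval x f + (k : ℚ) ≠ 0 ∧ ∀ i, IsN (K i) ((c i : ℚ) * (aeval x f + (k : ℚ))) := by
  classical
  obtain ⟨T, hT0⟩ := primes_upto (f.natDegree + f.leadingCoeff.natAbs + m + ∑ i, (c i).natAbs)
  refine ⟨T, fun N U => ?_⟩
  have hm0 : 0 < m := Nat.pos_of_ne_zero (NeZero.ne m)
  have hlc : f.leadingCoeff ≠ 0 := by
    rw [Ne, leadingCoeff_eq_zero]
    rintro rfl
    simp at hd
  have hTm : ∀ p : Nat.Primes, (p : ℕ) ∣ m → p ∈ T := by
    intro p hp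
    apply hT0
    have := Nat.le_of_dvd hm0 hp
    omega
  have hTl : BigT f ∅ T := by
    intro p hp
    apply hT0
    rcases hp with h | h | ⟨z, hz, -⟩
    · omega
    · have := Nat.le_of_dvd (Int.natAbs_pos.2 hlc) (Int.natCast_dvd.1 h)
      omega
    · exact absurd hz (Finset.notMem_empty z)
  have hTc : ∀ i, Smooth T (c i).natAbs := by
    intro i
    refine ⟨Int.natAbs_ne_zero.2 (hc i), fun p hp => ?_⟩
    apply hT0
    have h1 := Nat.le_of_dvd (Int.natAbs_pos.2 (hc i)) hp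
    have h2 : (c i).natAbs ≤ ∑ i, (c i).natAbs := single_le_sum (f := fun i => (c i).natAbs) (fun _ _ => Nat.zero_le _) (mem_univ i)
    omega
  obtain ⟨N', hN'⟩ : ∃ N', N' = N + m := ⟨_, rfl⟩
  obtain ⟨E, hE⟩ : ∃ E, E = (2 * f.natDegree + 3) * N' + 3 := ⟨_, rfl⟩
  have hN'E : N' ≤ E := by
    rw [hE]
    nlinarith
  obtain ⟨X0, hX0⟩ := pv1 f hd T hTl E U
  refine ⟨X0, fun X hX => ?_⟩
  obtain ⟨Bad, hB1, hB2⟩ := hX0 X hX
  refine ⟨Bad, hB1, fun k hk hkB hcs hreal hloc => ?_⟩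
  have hone : ∀ p : Nat.Primes, (1 : ℝ) < ((p : ℕ) : ℝ) := fun p => by exact_mod_cast p.2.one_lt
  have ht : ∀ p : Nat.Primes, ∃ t : ℚ_[(p : ℕ)], p ∈ T → ‖t‖ ≤ ((p : ℕ) : ℝ) ^ N ∧ (((p : ℕ) : ℝ) ^ N)⁻¹ ≤ ‖aeval t f + (k : ℚ_[(p : ℕ)])‖ ∧
        ∀ i, IsNp (K i) (p : ℕ) ((c i : ℚ_[(p : ℕ)]) * (aeval t f + (k : ℚ_[(p : ℕ)]))) := by
    intro p
    by_cases hp : p ∈ T
    · obtain ⟨t, ht⟩ := hloc p hp
      exact ⟨t, fun _ => ht⟩
    · exact ⟨0, fun h => absurd h hp⟩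
  choose t ht using ht
  obtain ⟨x, hx1, hx2⟩ := hB2 k hk hkB hreal t (by
    intro p hp
    obtain ⟨h1, h2, -⟩ := ht p hp
    have h0 : (0 : ℝ) < ((p : ℕ) : ℝ) := by linarith [hone p]
    exact ⟨h1.trans (pow_le_pow_right₀ (hone p).le (by omega)),
      (inv_anti₀ (by positivity) (pow_le_pow_right₀ (hone p).le (by omega))).trans h2⟩)
  have key : ∀ i, IsN (K i) (((c i).natAbs : ℚ) * (aeval x f + (k : ℚ))) := by
    intro i
    refine isN_of_close m (K i) (hh i) (hs i) T hTm N' (by omega) (c i).natAbs (hTc i) _ hx2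
      (fun p => aeval (t p) f + (k : ℚ_[(p : ℕ)])) ?_ ?_ ?_
    · intro p hp
      have h0 : (0 : ℝ) < ((p : ℕ) : ℝ) := by linarith [hone p]
      exact (inv_anti₀ (by positivity) (pow_le_pow_right₀ (hone p).le (by omega))).trans (ht p hp).2.1
    · intro p hp
      have h0 : (0 : ℝ) < ((p : ℕ) : ℝ) := by linarith [hone p]
      have h1 := hx1 p hp
      rw [hE] at h1
      have h2 : ‖t p‖ ≤ ((p : ℕ) : ℝ) ^ N' := (ht p hp).1.trans (pow_le_pow_right₀ (hone p).le (by omega))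
      have h3 : ‖(x : ℚ_[(p : ℕ)])‖ ≤ ((p : ℕ) : ℝ) ^ N' := by
        have e : (x : ℚ_[(p : ℕ)]) = ((x : ℚ_[(p : ℕ)]) - t p) + t p := by ring
        rw [e]
        refine (Padic.nonarchimedean _ _).trans (max_le ?_ h2)
        exact h1.trans (le_trans (inv_le_one_of_one_le₀ (one_le_pow₀ (hone p).le)) (one_le_pow₀ (hone p).le))
      have h4 := lip2 f T N' p hp (x : ℚ_[(p : ℕ)]) (t p) h3 h2 h1
      have e : (((aeval x f + (k : ℚ) : ℚ)) : ℚ_[(p : ℕ)]) - (aeval (t p) f + (k : ℚ_[(p : ℕ)])) =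
          aeval (x : ℚ_[(p : ℕ)]) f - aeval (t p) f := by
        have e2 : ((aeval x f : ℚ) : ℚ_[(p : ℕ)]) = aeval (x : ℚ_[(p : ℕ)]) f := by
          have := aeval_algebraMap_apply ℚ_[(p : ℕ)] x f
          simp only [eq_ratCast] at this
          exact this.symm
        push_cast
        rw [e2]
        ring
      rw [e]
      exact h4
    · intro p hp
      have h1 := (ht p hp).2.2 i
      rcases lt_or_gt_of_ne (hc i) with hneg | hpos
      · have h2 : ∃ x : K i, Algebra.norm ℚ x = -1 := (hcs i).resolve_right (by omega)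
        have h3 := h1.neg h2
        have h4 : (((c i).natAbs : ℕ) : ℚ_[(p : ℕ)]) = -(c i : ℚ_[(p : ℕ)]) := by
          have : (((c i).natAbs : ℕ) : ℤ) = -(c i) := by
            rw [Int.natCast_natAbs, abs_of_neg hneg]
          have h5 : ((((c i).natAbs : ℕ) : ℤ) : ℚ_[(p : ℕ)]) = ((-(c i) : ℤ) : ℚ_[(p : ℕ)]) := by rw [this]
          push_cast at h5
          simpa using h5
        rw [h4, neg_mul]
        exact h3
      · have h4 : (((c i).natAbs : ℕ) : ℚ_[(p : ℕ)]) = (c i : ℚ_[(p : ℕ)]) := by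
          have : (((c i).natAbs : ℕ) : ℤ) = (c i) := by
            rw [Int.natCast_natAbs, abs_of_pos hpos]
          have h5 : ((((c i).natAbs : ℕ) : ℤ) : ℚ_[(p : ℕ)]) = ((c i : ℤ) : ℚ_[(p : ℕ)]) := by rw [this]
          simpa using h5
        rw [h4]
        exact h1
  refine ⟨x, hx2.pos.ne', fun i => ?_⟩
  rcases lt_or_gt_of_ne (hc i) with hneg | hpos
  · have h2 : IsN (K i) (-1) := (hcs i).resolve_right (by omega)
    have h3 := h2.mul (key i)
    have h4 : (((c i).natAbs : ℕ) : ℚ) = -(c i : ℚ) := by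
      have : (((c i).natAbs : ℕ) : ℤ) = -(c i) := by
        rw [Int.natCast_natAbs, abs_of_neg hneg]
      rw [← Int.cast_natCast (R := ℚ), this, Int.cast_neg]
    rw [h4] at h3
    have e : (-1 : ℚ) * (-(c i : ℚ) * (aeval x f + (k : ℚ))) = (c i : ℚ) * (aeval x f + (k : ℚ)) := by ring
    rwa [e] at h3
  · have h4 : (((c i).natAbs : ℕ) : ℚ) = (c i : ℚ) := by
      have : (((c i).natAbs : ℕ) : ℤ) = (c i) := by
        rw [Int.natCast_natAbs, abs_of_pos hpos]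
      rw [← Int.cast_natCast (R := ℚ), this]
    have := key i
    rwa [h4] at this

include m in
open Classical in
/-- both signs -/
theorem mainB0 (K : Fin r → IntermediateField ℚ L) (hh : ∀ i, (classNumber (K i)).Coprime (finrank ℚ (K i)))
    (hs : ∀ i, Sgn (K i)) (f : ℤ[X]) (hd : 2 ≤ f.natDegree) (c : Fin r → ℤ) (hc : ∀ i, c i ≠ 0) (η : ℝ) (hη : 0 < η) :
    ∃ X0 : ℕ, ∀ X : ℕ, X0 ≤ X →
      (#{k ∈ Icc (-(X : ℤ)) X | Rp K f c k ∧
        (∀ p : Nat.Primes, Pt K f c k ℚ_[(p : ℕ)]) ∧ ¬ Pt K f c k ℚ} : ℝ) ≤ η * X := by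
  obtain ⟨T, hT⟩ := main1 m K hh hs f hd c hc
  obtain ⟨n, hn⟩ : ∃ n, n = ∏ i, finrank ℚ (K i) := ⟨_, rfl⟩
  have hn0 : n ≠ 0 := by
    rw [hn]
    exact prod_ne_zero_iff.2 fun i _ => (finrank_pos (R := ℚ) (M := K i)).ne'
  obtain ⟨S, hS⟩ : ∃ S : (p : Nat.Primes) → ℚ_[(p : ℕ)] → Prop, S = fun (p : Nat.Primes) (b : ℚ_[(p : ℕ)]) => ∀ i, IsNp (K i) (p : ℕ) ((c i : ℚ_[(p : ℕ)]) * b) := ⟨_, rfl⟩
  have hSn : ∀ p : Nat.Primes, ∀ b s : ℚ_[(p : ℕ)], S p b → s ≠ 0 → S p (b * s ^ n) := by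
    intro p b s hb _
    rw [hS] at hb ⊢
    intro i
    obtain ⟨q, hq⟩ : finrank ℚ (K i) ∣ n := by
      rw [hn]
      exact dvd_prod_of_mem (fun i => finrank ℚ (K i)) (mem_univ i)
    rw [← mul_assoc]
    refine (hb i).mul ?_
    rw [hq, mul_comm, pow_mul]
    exact isNp_pow _
  obtain ⟨η', hη'⟩ : ∃ η', η' = η / (2 * (#T + 1)) := ⟨_, rfl⟩
  have hη'0 : 0 < η' := by rw [hη']; positivity
  have hdens := fun p : Nat.Primes => densS (p : ℕ) n hn0 (S p) (hSn p) f (by omega) η' hη'0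
  choose N0 X1 hdens using hdens
  obtain ⟨N, hN⟩ : ∃ N, N = ∑ p ∈ T, N0 p := ⟨_, rfl⟩
  obtain ⟨X2, hX2⟩ := hT N 1
  obtain ⟨X3, hX3⟩ := eventually_atTop.1 (Pool.Agent.TH204.WR.evt_log_ge (2 / η))
  refine ⟨max (max (∑ p ∈ T, X1 p) X2) X3, fun X hX => ?_⟩
  obtain ⟨Bad, hB1, hB2⟩ := hX2 X ((le_trans (le_max_right _ _) (le_max_left _ _)).trans hX)
  have hL := hX3 X ((le_max_right _ _).trans hX)
  have hXa : ∀ p ∈ T, X1 p ≤ X := fun p hp =>
    (single_le_sum (f := X1) (fun _ _ => Nat.zero_le _) hp).trans ((le_trans (le_max_left _ _) (le_max_left _ _)).trans hX)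
  have hX0 : (0 : ℝ) ≤ X := Nat.cast_nonneg _
  have hsub : {k ∈ Icc (-(X : ℤ)) X | Rp K f c k ∧
        (∀ p : Nat.Primes, Pt K f c k ℚ_[(p : ℕ)]) ∧ ¬ Pt K f c k ℚ} ⊆
      Bad ∪ T.biUnion (fun p => (Icc (-(X : ℤ)) X).filter (fun k => ElsS f (S p) k ∧ ¬ LocS f (S p) (N0 p) k)) := by
    intro k hk
    rw [mem_filter] at hk
    obtain ⟨hkX, ⟨h1, h2⟩, h3, h4⟩ := hk
    by_contra hcon
    rw [mem_union, not_or] at hcon
    apply h4
    obtain ⟨x, hx1, hx2⟩ := hB2 k (abs_le.2 (mem_Icc.1 hkX)) hcon.1 h1 h2 (by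
      intro p hp
      have h5 : LocS f (S p) (N0 p) k := by
        by_contra h6
        apply hcon.2
        rw [mem_biUnion]
        refine ⟨p, hp, mem_filter.2 ⟨hkX, ?_, h6⟩⟩
        obtain ⟨t, ht1, ht2⟩ := h3 p
        refine ⟨t, ht1, ?_⟩
        rw [hS]
        exact ht2
      have h6 : LocS f (S p) N k := h5.mono (by
        rw [hN]
        exact single_le_sum (f := N0) (fun _ _ => Nat.zero_le _) hp)
      obtain ⟨t, ht1, ht2, ht3⟩ := h6
      refine ⟨t, ht1, ht2, ?_⟩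
      rw [hS] at ht3
      exact ht3)
    refine ⟨x, hx1, fun i => ?_⟩
    obtain ⟨z, hz⟩ := hx2 i
    refine ⟨(1 : ℚ) ⊗ₜ[ℚ] z, ?_⟩
    rw [Algebra.norm_eq_matrix_det (Algebra.TensorProduct.basis ℚ (integralBasis (K i))), leftMul_one_tmul]
    have h7 : (Algebra.leftMulMatrix (integralBasis (K i)) z).map (algebraMap ℚ ℚ) =
        Algebra.leftMulMatrix (integralBasis (K i)) z := by
      ext a b
      simp
    rw [h7, ← Algebra.norm_eq_matrix_det, hz]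
  have h1 := (card_le_card hsub).trans ((card_union_le _ _).trans (Nat.add_le_add_left card_biUnion_le _))
  have h2 : (#{k ∈ Icc (-(X : ℤ)) X | Rp K f c k ∧
        (∀ p : Nat.Primes, Pt K f c k ℚ_[(p : ℕ)]) ∧ ¬ Pt K f c k ℚ} : ℝ) ≤
      (#Bad : ℝ) + ∑ p ∈ T, (#((Icc (-(X : ℤ)) X).filter (fun k => ElsS f (S p) k ∧ ¬ LocS f (S p) (N0 p) k)) : ℝ) := by
    exact_mod_cast h1
  refine h2.trans ?_
  have h3 : ∑ p ∈ T, (#((Icc (-(X : ℤ)) X).filter (fun k => ElsS f (S p) k ∧ ¬ LocS f (S p) (N0 p) k)) : ℝ) ≤ #T * (η' * X) := by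
    rw [← nsmul_eq_mul, ← sum_const]
    exact sum_le_sum fun p hp => hdens p X (hXa p hp)
  have h4 : (#T : ℝ) * (η' * X) ≤ η / 2 * X := by
    have e : (#T : ℝ) * (η' * X) = (η / 2 * X) * (#T / (#T + 1)) := by
      rw [hη']
      field_simp
    rw [e]
    apply mul_le_of_le_one_right (by positivity)
    rw [div_le_one (by positivity)]
    linarith
  have hLpos : 0 < Real.log X := lt_of_lt_of_le (by positivity) hL
  have h5 : (X : ℝ) / Real.log X ^ 1 ≤ η / 2 * X := by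
    rw [pow_one, div_le_iff₀ hLpos]
    rw [div_le_iff₀ hη] at hL
    nlinarith
  linarith

include m in
open Classical in
theorem mainB (K : Fin r → IntermediateField ℚ L) (hh : ∀ i, (classNumber (K i)).Coprime (finrank ℚ (K i)))
    (hs : ∀ i, Sgn (K i)) (f : ℤ[X]) (hd : 2 ≤ f.natDegree) (c : Fin r → ℤ) (hc : ∀ i, c i ≠ 0) (η : ℝ) (hη : 0 < η) :
    ∃ X0 : ℕ, ∀ X : ℕ, X0 ≤ X →
      (#{k ∈ Icc (-(X : ℤ)) X | Pt K f c k ℝ ∧ (∀ p : Nat.Primes, Pt K f c k ℚ_[(p : ℕ)]) ∧ ¬ Pt K f c k ℚ} : ℝ) ≤ η * X := by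
  obtain ⟨X1, h1⟩ := mainB0 m K hh hs f hd c hc (η / 2) (by positivity)
  obtain ⟨X2, h2⟩ := mainB0 m K hh hs (-f) (by rw [natDegree_neg]; exact hd) (fun i => -c i)
    (fun i => neg_ne_zero.2 (hc i)) (η / 2) (by positivity)
  refine ⟨max X1 X2, fun X hX => ?_⟩
  have h1 := h1 X ((le_max_left _ _).trans hX)
  have h2 := h2 X ((le_max_right _ _).trans hX)
  have hneg : ∀ (F : Type) [Field F] [Algebra ℚ F] (k : ℤ), Pt K (-f) (fun i => -c i) (-k) F ↔ Pt K f c k F := by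
    intro F _ _ k
    unfold Pt
    apply exists_congr
    intro t
    have e : aeval t (-f) + ((-k : ℤ) : F) = -(aeval t f + (k : F)) := by
      rw [map_neg]
      push_cast
      ring
    rw [e]
    apply and_congr
    · rw [neg_ne_zero]
    · apply forall_congr'
      intro i
      have e2 : ((-c i : ℤ) : F) * -(aeval t f + (k : F)) = (c i : F) * (aeval t f + (k : F)) := by
        push_cast
        ring
      rw [e2]
  have hsub : {k ∈ Icc (-(X : ℤ)) X | Pt K f c k ℝ ∧ (∀ p : Nat.Primes, Pt K f c k ℚ_[(p : ℕ)]) ∧ ¬ Pt K f c k ℚ} ⊆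
      {k ∈ Icc (-(X : ℤ)) X | Rp K f c k ∧
        (∀ p : Nat.Primes, Pt K f c k ℚ_[(p : ℕ)]) ∧ ¬ Pt K f c k ℚ} ∪
      ({k ∈ Icc (-(X : ℤ)) X | Rp K (-f) (fun i => -c i) k ∧
        (∀ p : Nat.Primes, Pt K (-f) (fun i => -c i) k ℚ_[(p : ℕ)]) ∧ ¬ Pt K (-f) (fun i => -c i) k ℚ}).image (fun k => -k) := by
    intro k hk
    rw [mem_filter] at hk
    obtain ⟨hkX, ⟨t, ht1, ht2⟩, h4, h5⟩ := hk
    have hsgn : ∀ i, (∃ x : K i, Algebra.norm ℚ x = -1) ∨ 0 < (c i : ℝ) * (aeval t f + (k : ℝ)) := by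
      intro i
      rcases hs i with h | h
      · exact Or.inl h
      · right
        obtain ⟨z, hz⟩ := ht2 i
        have h6 := real_nonneg h z
        rw [hz] at h6
        exact lt_of_le_of_ne h6 (mul_ne_zero (by exact_mod_cast hc i) ht1).symm
    rw [mem_union]
    rcases lt_or_gt_of_ne ht1 with hneg' | hpos
    · right
      rw [mem_image]
      refine ⟨-k, ?_, neg_neg k⟩
      rw [mem_filter]
      refine ⟨?_, ⟨fun i => ?_, t, ?_⟩, fun p => (hneg _ k).2 (h4 p), fun h => h5 ((hneg _ k).1 h)⟩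
      · rw [mem_Icc] at hkX ⊢
        constructor <;> linarith [hkX.1, hkX.2]
      · rcases hsgn i with h | h
        · exact Or.inl h
        · right
          have h6 : (c i : ℝ) < 0 := by
            by_contra hcon
            have := mul_nonpos_of_nonneg_of_nonpos (not_lt.1 hcon) hneg'.le
            linarith
          have h7 : c i < 0 := by exact_mod_cast h6
          linarith
      · rw [map_neg]
        push_cast
        linarith
    · left
      rw [mem_filter]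
      refine ⟨hkX, ⟨fun i => ?_, t, hpos⟩, h4, h5⟩
      rcases hsgn i with h | h
      · exact Or.inl h
      · right
        have h6 : (0 : ℝ) < c i := (mul_pos_iff_of_pos_right hpos).1 h
        exact_mod_cast h6
  have h3 := (card_le_card hsub).trans ((card_union_le _ _).trans (Nat.add_le_add_left card_image_le _))
  have h4 : (#{k ∈ Icc (-(X : ℤ)) X | Pt K f c k ℝ ∧ (∀ p : Nat.Primes, Pt K f c k ℚ_[(p : ℕ)]) ∧ ¬ Pt K f c k ℚ} : ℝ) ≤
      (#{k ∈ Icc (-(X : ℤ)) X | Rp K f c k ∧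
        (∀ p : Nat.Primes, Pt K f c k ℚ_[(p : ℕ)]) ∧ ¬ Pt K f c k ℚ} : ℝ) +
      (#{k ∈ Icc (-(X : ℤ)) X | Rp K (-f) (fun i => -c i) k ∧
        (∀ p : Nat.Primes, Pt K (-f) (fun i => -c i) k ℚ_[(p : ℕ)]) ∧ ¬ Pt K (-f) (fun i => -c i) k ℚ} : ℝ) := by
    exact_mod_cast h3
  linarith

end Pool.Agent.R479.NF
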