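import Pool.Agent.R479.NF.Full

/-!
# Hilbert 90 for `ℚ_p ⊗ K`, and weak approximation for norm one elements, for cyclic fields `K`
-/

set_option autoImplicit false
set_option linter.unusedSectionVars false

namespace Pool.Agent.R479.NF

open NumberField Module TensorProduct Finset Filter

/-- The identity behind Hilbert 90. -/
lemma h90 {A : Type} [CommRing A] (s : A →+* A) (n : ℕ) (u b : A) (hs : s^[n] b = b) :
    u * s (∑ i ∈ range n, (∏ j ∈ range i, s^[j] u) * s^[i] b) =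
      ∑ i ∈ range n, (∏ j ∈ range i, s^[j] u) * s^[i] b + ((∏ j ∈ range n, s^[j] u) - 1) * b := by
  rw [map_sum, mul_sum]
  have h1 : ∀ i ∈ range n, u * s ((∏ j ∈ range i, s^[j] u) * s^[i] b) = (∏ j ∈ range (i + 1), s^[j] u) * s^[i + 1] b := by
    intro i _
    rw [map_mul, map_prod, prod_range_succ', Function.iterate_zero, id_eq, ← mul_assoc, mul_comm u]
    simp only [Function.iterate_succ', Function.comp_apply]
  rw [sum_congr rfl h1]
  have h2 := sum_range_succ (fun i => (∏ j ∈ range i, s^[j] u) * s^[i] b) n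
  rw [sum_range_succ'] at h2
  simp only [range_zero, prod_empty, one_mul, Function.iterate_zero, id_eq, hs] at h2
  linear_combination h2

section

variable {K : Type} [Field K] [NumberField K] (p : ℕ) [Fact p.Prime]

/-- the algebra -/
abbrev Ap (K : Type) [Field K] [NumberField K] (p : ℕ) [Fact p.Prime] : Type := ℚ_[p] ⊗[ℚ] K

noncomputable instance topA : TopologicalSpace (Ap K p) := moduleTopology ℚ_[p] _

instance modA : IsModuleTopology ℚ_[p] (Ap K p) := ⟨rfl⟩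

instance ringA : IsTopologicalRing (Ap K p) := IsModuleTopology.isTopologicalRing ℚ_[p] _

/-- the coordinates -/
noncomputable def cd : Ap K p ≃ₗ[ℚ_[p]] (Ix K → ℚ_[p]) := (Algebra.TensorProduct.basis ℚ_[p] (integralBasis K)).equivFun

lemma cd_cont : Continuous (cd (K := K) p) := IsModuleTopology.continuous_of_linearMap (cd (K := K) p).toLinearMap

lemma cd_symm_cont : Continuous (cd (K := K) p).symm :=
  IsModuleTopology.continuous_of_linearMap (cd (K := K) p).symm.toLinearMap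

instance t2A : T2Space (Ap K p) := T2Space.of_injective_continuous (cd (K := K) p).injective (cd_cont p)

lemma dense_K : DenseRange (fun x : K => ((1 : ℚ_[p]) ⊗ₜ[ℚ] x : Ap K p)) := by
  have h1 : DenseRange (fun q : Ix K → ℚ => fun j => ((q j : ℚ) : ℚ_[p])) :=
    DenseRange.piMap (fun _ => Padic.denseRange_ratCast p)
  have h2 : DenseRange (cd (K := K) p).symm := (cd (K := K) p).symm.surjective.denseRange
  have h3 := h2.comp h1 (cd_symm_cont p)
  refine h3.mono ?_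
  rintro _ ⟨q, rfl⟩
  refine ⟨∑ j, q j • integralBasis K j, ?_⟩
  simp only [Function.comp_apply]
  rw [LinearEquiv.eq_symm_apply]
  funext i
  rw [cd, Basis.equivFun_apply, Algebra.TensorProduct.basis_repr_tmul]
  simp [Finsupp.single_apply]

lemma norm_cont : Continuous (fun a : Ap K p => Algebra.norm ℚ_[p] a) := by
  have h : (fun a : Ap K p => Algebra.norm ℚ_[p] a) = fun a => P K ℚ_[p] (cd p a) := by
    funext a
    exact norm_eq_P ℚ_[p] a
  rw [h]
  exact (P_continuous p).comp (cd_cont p)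

variable (σ : K ≃ₐ[ℚ] K)

/-- the automorphism of the algebra -/
noncomputable def sA : Ap K p →ₐ[ℚ_[p]] Ap K p := Algebra.TensorProduct.map (AlgHom.id ℚ_[p] ℚ_[p]) (σ : K →ₐ[ℚ] K)

lemma sA_cont : Continuous (sA p σ) := IsModuleTopology.continuous_of_linearMap (sA p σ).toLinearMap

lemma sA_tmul (a : ℚ_[p]) (x : K) : sA p σ (a ⊗ₜ[ℚ] x) = a ⊗ₜ[ℚ] σ x := by
  simp [sA]

lemma sA_iter (j : ℕ) (x : K) : (sA p σ)^[j] ((1 : ℚ_[p]) ⊗ₜ[ℚ] x) = (1 : ℚ_[p]) ⊗ₜ[ℚ] (σ^[j] x) := by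
  induction j with
  | zero => rfl
  | succ j ih => rw [Function.iterate_succ_apply', ih, sA_tmul, Function.iterate_succ_apply']

/-- `σ` generates the Galois group -/
def Gen (σ : K ≃ₐ[ℚ] K) : Prop := ∀ τ : K ≃ₐ[ℚ] K, τ ∈ Subgroup.zpowers σ

lemma bij [IsGalois ℚ K] {σ : K ≃ₐ[ℚ] K} (hσ : Gen σ) : Function.Bijective (fun j : Fin (finrank ℚ K) => σ ^ (j : ℕ)) := by
  have hcard : Fintype.card (K ≃ₐ[ℚ] K) = finrank ℚ K := by
    rw [← Nat.card_eq_fintype_card]
    exact IsGalois.card_aut_eq_finrank ℚ K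
  have hord : orderOf σ = finrank ℚ K := by
    rw [orderOf_eq_card_of_forall_mem_zpowers hσ, Nat.card_eq_fintype_card, hcard]
  rw [Fintype.bijective_iff_injective_and_card]
  refine ⟨fun i j h => ?_, by rw [Fintype.card_fin, hcard]⟩
  apply Fin.ext
  exact pow_injOn_Iio_orderOf (by rw [hord]; exact i.2) (by rw [hord]; exact j.2) h

lemma iter_eq (j : ℕ) (x : K) : σ^[j] x = (σ ^ j) x := by
  rw [AlgEquiv.coe_pow]

lemma norm_prod_K [IsGalois ℚ K] {σ : K ≃ₐ[ℚ] K} (hσ : Gen σ) (x : K) :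
    ∏ j ∈ range (finrank ℚ K), σ^[j] x = algebraMap ℚ K (Algebra.norm ℚ x) := by
  rw [Algebra.norm_eq_prod_automorphisms, prod_range]
  rw [← (bij hσ).prod_comp (fun τ : K ≃ₐ[ℚ] K => τ x)]
  exact Finset.prod_congr rfl fun i _ => iter_eq _ _ _

lemma iter_n [IsGalois ℚ K] {σ : K ≃ₐ[ℚ] K} (hσ : Gen σ) (x : K) : σ^[finrank ℚ K] x = x := by
  have hord : orderOf σ = finrank ℚ K := by
    rw [orderOf_eq_card_of_forall_mem_zpowers hσ]
    exact IsGalois.card_aut_eq_finrank ℚ K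
  rw [iter_eq, ← hord, pow_orderOf_eq_one]
  rfl

lemma sA_iter_cont (j : ℕ) : Continuous ((sA p σ)^[j]) := (sA_cont p σ).iterate j

lemma norm_prod_A [IsGalois ℚ K] {σ : K ≃ₐ[ℚ] K} (hσ : Gen σ) (a : Ap K p) :
    ∏ j ∈ range (finrank ℚ K), (sA p σ)^[j] a = algebraMap ℚ_[p] (Ap K p) (Algebra.norm ℚ_[p] a) := by
  have h1 : Continuous (fun a : Ap K p => ∏ j ∈ range (finrank ℚ K), (sA p σ)^[j] a) :=
    continuous_finsetProd _ fun j _ => sA_iter_cont p σ j
  have h2 : Continuous (fun a : Ap K p => algebraMap ℚ_[p] (Ap K p) (Algebra.norm ℚ_[p] a)) := by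
    have : Continuous (algebraMap ℚ_[p] (Ap K p)) := continuous_algebraMap _ _
    exact this.comp (norm_cont p)
  refine (dense_K (K := K) p).induction_on (p := fun a => ∏ j ∈ range (finrank ℚ K), (sA p σ)^[j] a =
    algebraMap ℚ_[p] (Ap K p) (Algebra.norm ℚ_[p] a)) a (isClosed_eq h1 h2) (fun x => ?_)
  simp only [sA_iter]
  have h3 : ∏ j ∈ range (finrank ℚ K), ((1 : ℚ_[p]) ⊗ₜ[ℚ] (σ^[j] x) : Ap K p) =
      (1 : ℚ_[p]) ⊗ₜ[ℚ] (∏ j ∈ range (finrank ℚ K), σ^[j] x) := by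
    have h4 := map_prod (Algebra.TensorProduct.includeRight : K →ₐ[ℚ] Ap K p) (fun j => σ^[j] x) (range (finrank ℚ K))
    simp only [Algebra.TensorProduct.includeRight_apply] at h4
    exact h4.symm
  rw [h3, norm_prod_K hσ, norm_one_tmul]
  have h5 : ((1 : ℚ_[p]) ⊗ₜ[ℚ] (algebraMap ℚ K (Algebra.norm ℚ x)) : Ap K p) =
      ((algebraMap ℚ ℚ_[p] (Algebra.norm ℚ x)) ⊗ₜ[ℚ] (1 : K)) := by
    rw [Algebra.algebraMap_eq_smul_one, Algebra.algebraMap_eq_smul_one, TensorProduct.tmul_smul, TensorProduct.smul_tmul']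
  rw [h5]
  rfl

/-- the twisted sum -/
noncomputable def yy (θ : K) (u : Ap K p) : Ap K p :=
  ∑ i ∈ range (finrank ℚ K), (∏ j ∈ range i, (sA p σ)^[j] u) * (sA p σ)^[i] ((1 : ℚ_[p]) ⊗ₜ[ℚ] θ)

lemma yy_cont (θ : K) : Continuous (yy p σ θ) :=
  continuous_finsetSum _ fun _ _ => (continuous_finsetProd _ fun j _ => sA_iter_cont p σ j).mul continuous_const

lemma yy_eq [IsGalois ℚ K] {σ : K ≃ₐ[ℚ] K} (hσ : Gen σ) (θ : K) (u : Ap K p) (hu : Algebra.norm ℚ_[p] u = 1) :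
    u * sA p σ (yy p σ θ u) = yy p σ θ u := by
  have h := h90 (sA p σ : Ap K p →+* Ap K p) (finrank ℚ K) u ((1 : ℚ_[p]) ⊗ₜ[ℚ] θ) (by
    have := sA_iter p σ (finrank ℚ K) θ
    rw [iter_n hσ] at this
    exact this)
  have h2 := norm_prod_A p hσ u
  rw [hu, map_one] at h2
  have h3 : ∏ j ∈ range (finrank ℚ K), (⇑(sA p σ : Ap K p →+* Ap K p))^[j] u = 1 := h2
  rw [h3, sub_self, zero_mul, add_zero] at h
  exact h

/-- the projection to `K` defined by a linear functional -/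
noncomputable def prj (φ : ℚ_[p] →ₗ[ℚ] ℚ) : Ap K p →ₗ[ℚ] K :=
  (TensorProduct.lid ℚ K).toLinearMap ∘ₗ (LinearMap.rTensor K φ)

lemma prj_tmul (φ : ℚ_[p] →ₗ[ℚ] ℚ) (a : ℚ_[p]) (x : K) : prj p φ (a ⊗ₜ[ℚ] x) = φ a • x := by
  simp [prj]

lemma prj_mul (φ : ℚ_[p] →ₗ[ℚ] ℚ) (a : Ap K p) (x : K) : prj p φ (a * ((1 : ℚ_[p]) ⊗ₜ[ℚ] x)) = prj p φ a * x := by
  induction a using TensorProduct.induction_on with
  | zero => simp
  | tmul a y =>
    rw [Algebra.TensorProduct.tmul_mul_tmul, mul_one, prj_tmul, prj_tmul, smul_mul_assoc]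
  | add a b ha hb => rw [add_mul, map_add, ha, hb, map_add, add_mul]

/-- the twisted sum is linear in `θ` -/
noncomputable def yl (u : Ap K p) : K →ₗ[ℚ] Ap K p :=
  ∑ i ∈ range (finrank ℚ K), (LinearMap.mulLeft ℚ (∏ j ∈ range i, (sA p σ)^[j] u)) ∘ₗ
    ((Algebra.TensorProduct.includeRight : K →ₐ[ℚ] Ap K p).toLinearMap ∘ₗ ((σ ^ i : K ≃ₐ[ℚ] K).toLinearMap))

lemma yl_apply (u : Ap K p) (θ : K) : yl p σ u θ = yy p σ θ u := by
  rw [yl, yy, LinearMap.sum_apply]
  refine Finset.sum_congr rfl fun i _ => ?_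
  rw [sA_iter, iter_eq]
  rfl

lemma yl_ne [IsGalois ℚ K] {σ : K ≃ₐ[ℚ] K} (hσ : Gen σ) (u : Ap K p) : LinearMap.ker (yl p σ u) ≠ ⊤ := by
  intro htop
  obtain ⟨φ, hφ⟩ : ∃ φ : Module.Dual ℚ ℚ_[p], φ 1 ≠ 0 := by
    by_contra hcon
    push Not at hcon
    exact one_ne_zero ((Module.forall_dual_apply_eq_zero_iff ℚ (1 : ℚ_[p])).1 hcon)
  -- the coefficients
  have hind : LinearIndependent K (fun τ : (K →* K) => (τ : K → K)) := linearIndependent_monoidHom K K
  have hinj : Function.Injective (fun i : Fin (finrank ℚ K) => (((σ ^ (i : ℕ) : K ≃ₐ[ℚ] K) : K →* K))) := by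
    intro i j h
    apply (bij hσ).1
    apply AlgEquiv.ext
    intro x
    exact DFunLike.congr_fun h x
  have hind2 := hind.comp _ hinj
  rw [Fintype.linearIndependent_iff] at hind2
  have hpos : 0 < finrank ℚ K := finrank_pos
  have h1 := hind2 (fun i => prj p φ (∏ j ∈ range (i : ℕ), (sA p σ)^[j] u)) (by
    funext θ
    have h2 : yl p σ u θ = 0 := by
      rw [← LinearMap.mem_ker, htop]
      exact Submodule.mem_top
    rw [yl_apply, yy] at h2
    have h3 := congrArg (prj p φ) h2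
    rw [map_sum, map_zero, sum_range] at h3
    rw [Finset.sum_apply, Pi.zero_apply, ← h3]
    refine Finset.sum_congr rfl fun i _ => ?_
    rw [sA_iter, prj_mul, iter_eq]
    rfl) ⟨0, hpos⟩
  simp only [range_zero, prod_empty] at h1
  rw [show (1 : Ap K p) = (1 : ℚ_[p]) ⊗ₜ[ℚ] (1 : K) from rfl, prj_tmul] at h1
  rw [smul_eq_zero] at h1
  rcases h1 with h1 | h1
  · exact hφ h1
  · exact one_ne_zero h1

instance redA : IsReduced (Ap K p) := by
  have h1 : Algebra.FormallyUnramified ℚ K := Algebra.FormallyUnramified.of_isSeparable ℚ K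
  have h2 : Algebra.FormallyUnramified ℚ_[p] (Ap K p) := Algebra.FormallyUnramified.base_change ℚ_[p]
  exact Algebra.FormallyUnramified.isReduced_of_field ℚ_[p] (Ap K p)

/-- a nonzero twisted sum is invertible -/
lemma yy_norm [IsGalois ℚ K] {σ : K ≃ₐ[ℚ] K} (hσ : Gen σ) (θ : K) (u : Ap K p) (hu : Algebra.norm ℚ_[p] u = 1)
    (hy : yy p σ θ u ≠ 0) : Algebra.norm ℚ_[p] (yy p σ θ u) ≠ 0 := by
  intro h0
  obtain ⟨y, hyd⟩ : ∃ y, y = yy p σ θ u := ⟨_, rfl⟩
  have h1 : u * sA p σ y = y := by rw [hyd]; exact yy_eq p hσ θ u hu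
  rw [← hyd] at h0 hy
  -- all conjugates of `y` divide `y`
  have h2 : ∀ j, ∃ v : Ap K p, y = v * (sA p σ)^[j] y := by
    intro j
    induction j with
    | zero => exact ⟨1, by simp⟩
    | succ j ih =>
      obtain ⟨v, hv⟩ := ih
      have h3 := congrArg ((sA p σ)^[j]) h1
      have h4 : (sA p σ)^[j] (u * sA p σ y) = (sA p σ)^[j] u * (sA p σ)^[j] (sA p σ y) := by
        simp
      rw [h4, ← Function.iterate_succ_apply] at h3
      exact ⟨v * (sA p σ)^[j] u, by rw [mul_assoc, h3, ← hv]⟩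
  choose v hv using h2
  have h5 : y ^ (finrank ℚ K) = 0 := by
    have h6 := norm_prod_A p hσ y
    rw [h0, map_zero] at h6
    calc y ^ (finrank ℚ K) = ∏ j ∈ range (finrank ℚ K), y := by rw [prod_const, card_range]
      _ = ∏ j ∈ range (finrank ℚ K), (v j * (sA p σ)^[j] y) := Finset.prod_congr rfl fun j _ => hv j
      _ = (∏ j ∈ range (finrank ℚ K), v j) * ∏ j ∈ range (finrank ℚ K), (sA p σ)^[j] y := prod_mul_distrib
      _ = 0 := by rw [h6, mul_zero]
  exact hy (pow_eq_zero_iff (finrank_pos (R := ℚ) (M := K)).ne' |>.1 h5)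

end

end Pool.Agent.R479.NF
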