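import Pool.Agent.R479.NF.Val
import Pool.Agent.TH204.HP.H14

/-!
# Norm forms and shifted polynomials: the main theorem
-/

set_option autoImplicit false
set_option linter.unusedSectionVars false

namespace Pool.Agent.R479.NF

open NumberField Module TensorProduct Finset
open Pool.Agent.TH204.HP (lead exists_dir primes_upto)

lemma exists_small (T : Finset Nat.Primes) (δ : Nat.Primes → ℝ) (hδ : ∀ p ∈ T, 0 < δ p) : ∃ ε : ℝ, 0 < ε ∧ ∀ p ∈ T, ε ≤ δ p := by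
  classical
  induction T using Finset.induction_on with
  | empty => exact ⟨1, one_pos, by simp⟩
  | insert p T _ ih =>
    obtain ⟨ε, hε, h⟩ := ih (fun q hq => hδ q (mem_insert_of_mem hq))
    refine ⟨min ε (δ p), lt_min hε (hδ p (mem_insert_self _ _)), fun q hq => ?_⟩
    rcases mem_insert.1 hq with rfl | hq
    · exact min_le_right _ _
    · exact (min_le_left _ _).trans (h q hq)

/-- being a norm from the algebra `K ⊗ ℚ_p` -/
def IsNp (K : Type) [Field K] [NumberField K] (p : ℕ) [Fact p.Prime] (a : ℚ_[p]) : Prop :=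
  ∃ z : ℚ_[p] ⊗[ℚ] K, Algebra.norm ℚ_[p] z = a

lemma norm_one_tmul {K : Type} [Field K] [NumberField K] (p : ℕ) [Fact p.Prime] (a : K) :
    Algebra.norm ℚ_[p] ((1 : ℚ_[p]) ⊗ₜ[ℚ] a) = ((Algebra.norm ℚ a : ℚ) : ℚ_[p]) := by
  rw [Algebra.norm_eq_matrix_det (Algebra.TensorProduct.basis ℚ_[p] (integralBasis K)), leftMul_one_tmul,
    Algebra.norm_eq_matrix_det (integralBasis K), ← RingHom.mapMatrix_apply, ← RingHom.map_det]
  rfl

lemma IsNp.neg {K : Type} [Field K] [NumberField K] {p : ℕ} [Fact p.Prime] {a : ℚ_[p]}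
    (h1 : ∃ x : K, Algebra.norm ℚ x = -1) (h : IsNp K p a) : IsNp K p (-a) := by
  obtain ⟨x, hx⟩ := h1
  obtain ⟨z, hz⟩ := h
  refine ⟨((1 : ℚ_[p]) ⊗ₜ[ℚ] x) * z, ?_⟩
  rw [map_mul, norm_one_tmul, hx, hz]
  push_cast
  ring

variable (m : ℕ) [NeZero m] {L : Type} [Field L] [NumberField L] [IsCyclotomicExtension {m} ℚ L]

/-- a prime value up to `T` which is close to local norms is a norm -/
lemma isN_of_close (K : IntermediateField ℚ L) (hh : (classNumber K).Coprime (finrank ℚ K)) (hs : Sgn K)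
    (T : Finset Nat.Primes) (hT : ∀ p : Nat.Primes, (p : ℕ) ∣ m → p ∈ T) (N : ℕ) (hN : m ≤ N) (c : ℕ)
    (hc : Smooth T c) (a : ℚ) (ha : PrimeVal T a) (y : (p : Nat.Primes) → ℚ_[(p : ℕ)])
    (hy : ∀ p ∈ T, (((p : ℕ) : ℝ) ^ N)⁻¹ ≤ ‖y p‖) (hcl : ∀ p ∈ T, ‖(a : ℚ_[(p : ℕ)]) - y p‖ ≤ (((p : ℕ) : ℝ) ^ (3 * N + 3))⁻¹)
    (hn : ∀ p ∈ T, IsNp K (p : ℕ) ((c : ℚ_[(p : ℕ)]) * y p)) : IsN K ((c : ℚ) * a) := by
  classical
  have hone : ∀ p : Nat.Primes, (1 : ℝ) < ((p : ℕ) : ℝ) := fun p => by exact_mod_cast p.2.one_lt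
  have hz : ∀ p : Nat.Primes, ∃ z : ℚ_[(p : ℕ)] ⊗[ℚ] K, p ∈ T → Algebra.norm ℚ_[(p : ℕ)] z = (c : ℚ_[(p : ℕ)]) * y p := by
    intro p
    by_cases hp : p ∈ T
    · obtain ⟨z, hz⟩ := hn p hp
      exact ⟨z, fun _ => hz⟩
    · exact ⟨0, fun h => absurd h hp⟩
  choose z hz using hz
  have hc0 : ∀ p : Nat.Primes, (0 : ℝ) < ‖(c : ℚ_[(p : ℕ)])‖ := by
    intro p
    rw [norm_pos_iff]
    exact_mod_cast hc.1
  have hy0 : ∀ p ∈ T, (0 : ℝ) < ‖y p‖ := by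
    intro p hp
    refine lt_of_lt_of_le ?_ (hy p hp)
    have := hone p
    positivity
  obtain ⟨δ, hδ, hδp⟩ := exists_small T (fun p => ‖(c : ℚ_[(p : ℕ)])‖ * ‖y p‖ * (((p : ℕ) : ℝ) ^ (N + 1))⁻¹) (by
    intro p hp
    have h1 := hone p
    have h2 := hc0 p
    have h3 := hy0 p hp
    positivity)
  obtain ⟨Z, D, hD, hZ, happ⟩ := apx T z δ hδ
  refine core m K hh hs T hT ((c : ℚ) * a) (ha.mul_smooth hc) Z D hD hZ ?_
  obtain ⟨ν, hν⟩ : ∃ ν : ℚ, ν = Algebra.norm ℚ (Z : K) / (D : ℚ) ^ finrank ℚ K := ⟨_, rfl⟩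
  rw [← hν] at happ ⊢
  intro p hp
  have h1 := hone p
  have h0 : (0 : ℝ) < ((p : ℕ) : ℝ) := by linarith
  have hcp := hc0 p
  have hyp := hy0 p hp
  obtain ⟨B, hB⟩ : ∃ B : ℝ, B = ‖(c : ℚ_[(p : ℕ)])‖ * ‖y p‖ * (((p : ℕ) : ℝ) ^ (N + 1))⁻¹ := ⟨_, rfl⟩
  have h2 : ‖(ν : ℚ_[(p : ℕ)]) - c * y p‖ < B := by
    have := happ p hp
    rw [hz p hp] at this
    rw [hB]
    exact this.trans_le (hδp p hp)
  have hinv : (((p : ℕ) : ℝ) ^ (N + 1))⁻¹ < 1 := inv_lt_one_of_one_lt₀ (one_lt_pow₀ h1 (by omega))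
  have hBlt : B < ‖(c : ℚ_[(p : ℕ)]) * y p‖ := by
    rw [hB, norm_mul]
    exact mul_lt_of_lt_one_right (by positivity) hinv
  have h3 : ‖(ν : ℚ_[(p : ℕ)])‖ = ‖(c : ℚ_[(p : ℕ)]) * y p‖ :=
    Pool.Agent.TH204.HP.norm_eq_of_near _ _ (h2.trans hBlt)
  have h4 : ‖(c : ℚ_[(p : ℕ)]) * a - c * y p‖ ≤ B := by
    rw [← mul_sub, norm_mul, hB, mul_assoc]
    apply mul_le_mul_of_nonneg_left _ (norm_nonneg _)
    refine (hcl p hp).trans ?_
    calc (((p : ℕ) : ℝ) ^ (3 * N + 3))⁻¹ ≤ (((p : ℕ) : ℝ) ^ (N + (N + 1)))⁻¹ := by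
          apply inv_anti₀ (by positivity)
          exact pow_le_pow_right₀ h1.le (by omega)
      _ = (((p : ℕ) : ℝ) ^ N)⁻¹ * (((p : ℕ) : ℝ) ^ (N + 1))⁻¹ := by rw [pow_add, mul_inv]
      _ ≤ ‖y p‖ * (((p : ℕ) : ℝ) ^ (N + 1))⁻¹ := mul_le_mul_of_nonneg_right (hy p hp) (by positivity)
  have h5 : ‖(c : ℚ_[(p : ℕ)]) * a - ν‖ ≤ B := by
    have e : (c : ℚ_[(p : ℕ)]) * a - ν = ((c : ℚ_[(p : ℕ)]) * a - c * y p) + (-((ν : ℚ_[(p : ℕ)]) - c * y p)) := by ring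
    rw [e]
    refine (Padic.nonarchimedean _ _).trans (max_le h4 ?_)
    rw [norm_neg]
    exact h2.le
  have hν0 : ‖(ν : ℚ_[(p : ℕ)])‖ ≠ 0 := by
    rw [h3, norm_mul]
    positivity
  have hνq : (ν : ℚ_[(p : ℕ)]) ≠ 0 := norm_ne_zero_iff.1 hν0
  have h6 : ‖(((c : ℚ) * a / ν - 1 : ℚ) : ℚ_[(p : ℕ)])‖ ≤ (((p : ℕ) : ℝ) ^ (N + 1))⁻¹ := by
    have e : (((c : ℚ) * a / ν - 1 : ℚ) : ℚ_[(p : ℕ)]) = ((c : ℚ_[(p : ℕ)]) * a - ν) / ν := by
      push_cast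
      field_simp
    rw [e, norm_div, h3, div_le_iff₀ (by rw [norm_mul]; positivity), norm_mul]
    rw [hB] at h5
    linarith
  have h7 : (((p : ℕ) : ℝ) ^ (N + 1))⁻¹ < ‖((m : ℕ) : ℚ_[(p : ℕ)])‖ := by
    by_contra hcon
    rw [not_lt] at hcon
    have h8 : ‖((m : ℤ) : ℚ_[(p : ℕ)])‖ ≤ ((p : ℕ) : ℝ) ^ (-((N + 1 : ℕ) : ℤ)) := by
      rw [zpow_neg, zpow_natCast]
      simpa using hcon
    have h9 := (Padic.norm_int_le_pow_iff_dvd (p := (p : ℕ)) (m : ℤ) (N + 1)).1 h8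
    have h10 : (p : ℕ) ^ (N + 1) ∣ m := by exact_mod_cast h9
    have h11 := Nat.le_of_dvd (Nat.pos_of_ne_zero (NeZero.ne m)) h10
    have h12 : N + 1 < (p : ℕ) ^ (N + 1) := Nat.lt_pow_self p.2.one_lt
    omega
  exact ⟨h6.trans_lt hinv, h6.trans h7.le⟩

variable {r s : ℕ}

/-- the local conditions -/
def Lc (K : Fin r → IntermediateField ℚ L) (f : MvPolynomial (Fin s) ℤ) (c : Fin r → ℤ) (T : Finset Nat.Primes) (N : ℕ) (k : ℤ)
    (t : (p : Nat.Primes) → Fin s → ℚ_[(p : ℕ)]) : Prop :=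
  ∀ p ∈ T, (∀ j, ‖t p j‖ ≤ ((p : ℕ) : ℝ) ^ N) ∧ (((p : ℕ) : ℝ) ^ N)⁻¹ ≤ ‖MvPolynomial.aeval (t p) f + (k : ℚ_[(p : ℕ)])‖ ∧
    ∀ i, IsNp (K i) (p : ℕ) ((c i : ℚ_[(p : ℕ)]) * (MvPolynomial.aeval (t p) f + (k : ℚ_[(p : ℕ)])))

/-- the rational point -/
def Gl (K : Fin r → IntermediateField ℚ L) (f : MvPolynomial (Fin s) ℤ) (c : Fin r → ℤ) (T : Finset Nat.Primes) (N : ℕ) (k : ℤ)
    (t : (p : Nat.Primes) → Fin s → ℚ_[(p : ℕ)]) : Prop :=
  ∃ x : Fin s → ℚ, (∀ p ∈ T, ∀ j, ‖((x j : ℚ) : ℚ_[(p : ℕ)]) - t p j‖ ≤ (((p : ℕ) : ℝ) ^ N)⁻¹) ∧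
    MvPolynomial.aeval x f + (k : ℚ) ≠ 0 ∧ ∀ i, IsN (K i) ((c i : ℚ) * (MvPolynomial.aeval x f + (k : ℚ)))

include m in
theorem mainPos (K : Fin r → IntermediateField ℚ L) (hh : ∀ i, (classNumber (K i)).Coprime (finrank ℚ (K i)))
    (hs : ∀ i, Sgn (K i)) (f : MvPolynomial (Fin s) ℤ) (hd : 2 ≤ f.totalDegree) (c : Fin r → ℤ) (hc : ∀ i, c i ≠ 0) :
    ∃ T0 : Finset Nat.Primes, ∀ T : Finset Nat.Primes, T0 ⊆ T → ∀ N U : ℕ, ∃ X0 : ℕ, ∀ X : ℕ, X0 ≤ X →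
      ∃ Bad : Finset ℤ, (#Bad : ℝ) ≤ X / Real.log X ^ U ∧ ∀ k : ℤ, |k| ≤ X → k ∉ Bad →
      (∀ i, (∃ x : K i, Algebra.norm ℚ x = -1) ∨ 0 < c i) → (0 < k ∨ ∃ v : Fin s → ℤ, 0 < lead f v) →
      ∀ t : (p : Nat.Primes) → Fin s → ℚ_[(p : ℕ)], Lc K f c T N k t → Gl K f c T N k t := by
  classical
  obtain ⟨β, hβ, hβ'⟩ := exists_dir f (by omega) 1
  simp only [one_mul] at hβ'
  obtain ⟨T0, hT0⟩ := primes_upto (f.totalDegree + (lead f β).natAbs + m + ∑ i, (c i).natAbs)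
  refine ⟨T0, fun T hT N U => ?_⟩
  have hm0 : 0 < m := Nat.pos_of_ne_zero (NeZero.ne m)
  have hTm : ∀ p : Nat.Primes, (p : ℕ) ∣ m → p ∈ T := by
    intro p hp
    apply hT
    apply hT0
    have := Nat.le_of_dvd hm0 hp
    omega
  have hTl : ∀ p : Nat.Primes, (p : ℕ) ≤ f.totalDegree ∨ ((p : ℕ) : ℤ) ∣ lead f β → p ∈ T := by
    intro p hp
    apply hT
    apply hT0
    rcases hp with h | h
    · omega
    · have := Nat.le_of_dvd (Int.natAbs_pos.2 hβ) (Int.natCast_dvd.1 h)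
      omega
  have hTc : ∀ i, Smooth T (c i).natAbs := by
    intro i
    refine ⟨Int.natAbs_ne_zero.2 (hc i), fun p hp => ?_⟩
    apply hT
    apply hT0
    have h1 := Nat.le_of_dvd (Int.natAbs_pos.2 (hc i)) hp
    have h2 : (c i).natAbs ≤ ∑ i, (c i).natAbs := single_le_sum (f := fun i => (c i).natAbs) (fun _ _ => Nat.zero_le _) (mem_univ i)
    omega
  obtain ⟨X0, hX0⟩ := pvM f hd β hβ T hTl (N + m) U
  refine ⟨X0, fun X hX => ?_⟩
  obtain ⟨Bad, hB1, hB2⟩ := hX0 X hX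
  refine ⟨Bad, hB1, fun k hk hkB hcs hreal t hloc => ?_⟩
  have hone : ∀ p : Nat.Primes, (1 : ℝ) < ((p : ℕ) : ℝ) := fun p => by exact_mod_cast p.2.one_lt
  obtain ⟨x, hx1, hx2⟩ := hB2 k hk hkB (by
    rcases hreal with h | h
    · exact Or.inr h
    · exact Or.inl (hβ' h)) t (by
    intro p hp
    obtain ⟨h1, h2, -⟩ := hloc p hp
    have h0 : (0 : ℝ) < ((p : ℕ) : ℝ) := by linarith [hone p]
    exact ⟨fun j => (h1 j).trans (pow_le_pow_right₀ (hone p).le (by omega)),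
      (inv_anti₀ (by positivity) (pow_le_pow_right₀ (hone p).le (by omega))).trans h2⟩)
  refine ⟨x, fun p hp j => ((hx1 p hp).1 j).trans ?_, hx2.pos.ne', fun i => ?_⟩
  · have h0 : (0 : ℝ) < ((p : ℕ) : ℝ) := by linarith [hone p]
    exact inv_anti₀ (by positivity) (pow_le_pow_right₀ (hone p).le (by omega))
  · have key : IsN (K i) (((c i).natAbs : ℚ) * (MvPolynomial.aeval x f + (k : ℚ))) := by
      refine isN_of_close m (K i) (hh i) (hs i) T hTm (N + m) (by omega) (c i).natAbs (hTc i) _ hx2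
        (fun p => MvPolynomial.aeval (t p) f + (k : ℚ_[(p : ℕ)])) ?_ ?_ ?_
      · intro p hp
        have h0 : (0 : ℝ) < ((p : ℕ) : ℝ) := by linarith [hone p]
        exact (inv_anti₀ (by positivity) (pow_le_pow_right₀ (hone p).le (by omega))).trans (hloc p hp).2.1
      · intro p hp
        have h1 := (hx1 p hp).2
        have e : (((MvPolynomial.aeval x f + (k : ℚ) : ℚ)) : ℚ_[(p : ℕ)]) - (MvPolynomial.aeval (t p) f + (k : ℚ_[(p : ℕ)])) =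
            ((MvPolynomial.aeval x f : ℚ) : ℚ_[(p : ℕ)]) - MvPolynomial.aeval (t p) f := by
          push_cast
          ring
        rw [e]
        exact h1
      · intro p hp
        have h1 := (hloc p hp).2.2 i
        rcases lt_or_gt_of_ne (hc i) with hneg | hpos
        · have h2 : ∃ x : K i, Algebra.norm ℚ x = -1 := (hcs i).resolve_right (by omega)
          have h3 := h1.neg h2
          have h4 : (((c i).natAbs : ℕ) : ℚ_[(p : ℕ)]) = -(c i : ℚ_[(p : ℕ)]) := by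
            have : (((c i).natAbs : ℕ) : ℤ) = -(c i) := by
              rw [Int.natCast_natAbs, abs_of_neg hneg]
            have h5 : ((((c i).natAbs : ℕ) : ℤ) : ℚ_[(p : ℕ)]) = ((-(c i) : ℤ) : ℚ_[(p : ℕ)]) := by rw [this]
            push_cast at h5
            simpa using h5
          rw [h4, neg_mul]
          exact h3
        · have h4 : (((c i).natAbs : ℕ) : ℚ_[(p : ℕ)]) = (c i : ℚ_[(p : ℕ)]) := by
            have : (((c i).natAbs : ℕ) : ℤ) = (c i) := by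
              rw [Int.natCast_natAbs, abs_of_pos hpos]
            have h5 : ((((c i).natAbs : ℕ) : ℤ) : ℚ_[(p : ℕ)]) = ((c i : ℤ) : ℚ_[(p : ℕ)]) := by rw [this]
            simpa using h5
          rw [h4]
          exact h1
    rcases lt_or_gt_of_ne (hc i) with hneg | hpos
    · have h2 : IsN (K i) (-1) := (hcs i).resolve_right (by omega)
      have h3 := h2.mul key
      have h4 : (((c i).natAbs : ℕ) : ℚ) = -(c i : ℚ) := by
        have : (((c i).natAbs : ℕ) : ℤ) = -(c i) := by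
          rw [Int.natCast_natAbs, abs_of_neg hneg]
        rw [← Int.cast_natCast (R := ℚ), this, Int.cast_neg]
      rw [h4] at h3
      have e : (-1 : ℚ) * (-(c i : ℚ) * (MvPolynomial.aeval x f + (k : ℚ))) = (c i : ℚ) * (MvPolynomial.aeval x f + (k : ℚ)) := by ring
      rwa [e] at h3
    · have h4 : (((c i).natAbs : ℕ) : ℚ) = (c i : ℚ) := by
        have : (((c i).natAbs : ℕ) : ℤ) = (c i) := by
          rw [Int.natCast_natAbs, abs_of_pos hpos]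
        rw [← Int.cast_natCast (R := ℚ), this]
      rwa [h4] at key

end Pool.Agent.R479.NF
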