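import Pool.Agent.Y714.RC.B2

/-!
# Auxiliary lemmas for several shifts
(from Pool/Agent/Y714/RC/B3, F1, F2, F3)
-/

set_option autoImplicit false
set_option linter.unusedVariables false

namespace Pool.Agent.R479.NF

open Finset Polynomial
open Pool.Agent.TH204.HP
open Pool.Agent.H373R2.T7 (roots_le)
open Pool.Agent.Y714.RC (PP real_lip)

/-- no fixed divisor -/
lemma no_fixed {s : ℕ} (F : Fin s → ℤ[X]) (κ : Fin s → ℤ) (hF : ∀ j, 1 ≤ (F j).natDegree) (p : ℕ) (hp : p.Prime) (h1 : ∑ j, (F j).natDegree < p)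
    (h2 : ∀ j, ¬ (p : ℤ) ∣ (F j).leadingCoeff) : ∃ n : ℤ, ∀ j, ¬ (p : ℤ) ∣ (F j).eval n + κ j := by
  classical
  by_contra hcon
  push Not at hcon
  have hsub : range p ⊆ univ.biUnion (fun j => (range p).filter (fun r : ℕ => (p : ℤ) ∣ (F j + C (κ j)).eval (r : ℤ))) := by
    intro n hn
    obtain ⟨j, hj⟩ := hcon (n : ℤ)
    rw [mem_biUnion]
    exact ⟨j, mem_univ _, mem_filter.2 ⟨hn, by rw [eval_add, eval_C]; exact hj⟩⟩
  have h3 : ∀ j ∈ (univ : Finset (Fin s)), #((range p).filter (fun r : ℕ => (p : ℤ) ∣ (F j + C (κ j)).eval (r : ℤ))) ≤ (F j).natDegree := by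
    intro j _
    apply roots_le _ p hp (F j).natDegree
    · rw [natDegree_add_C]
    · rw [coeff_add, coeff_C, if_neg (by have := hF j; omega), add_zero]
      exact h2 j
  have h4 := (card_le_card hsub).trans (card_biUnion_le.trans (sum_le_sum h3))
  rw [card_range] at h4
  omega

/-- the polynomials with the variable multiplied by a sign -/
noncomputable def sf {s : ℕ} (σ : ℤ) (f : Fin s → ℤ[X]) (j : Fin s) : ℤ[X] := (f j).comp (C σ * X)

lemma sf_deg {s : ℕ} (σ : ℤ) (hσ : σ ≠ 0) (f : Fin s → ℤ[X]) (j : Fin s) : (sf σ f j).natDegree = (f j).natDegree := by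
  unfold sf
  rw [natDegree_comp, natDegree_C_mul_X _ hσ, mul_one]

lemma sf_lead {s : ℕ} (σ : ℤ) (hσ : σ ≠ 0) (f : Fin s → ℤ[X]) (j : Fin s) :
    (sf σ f j).leadingCoeff = (f j).leadingCoeff * σ ^ (f j).natDegree := by
  unfold sf
  rw [leadingCoeff_comp (by rw [natDegree_C_mul_X _ hσ]; exact one_ne_zero), leadingCoeff_C_mul_X]

lemma sf_PP {s : ℕ} (σ : ℤ) (f : Fin s → ℤ[X]) (k : Fin s → ℤ) (j : Fin s) {F : Type} [Field F] (v : F) :
    PP (sf σ f) k j v = PP f k j ((σ : F) * v) := by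
  unfold PP sf
  rw [aeval_comp]
  simp

/-- real points near the given one -/
lemma real_close {s : ℕ} (f : Fin s → ℤ[X]) (hf : ∀ j, 1 ≤ (f j).natDegree) (B : ℕ) (hB : 1 ≤ B) :
    ∃ B1 : ℕ, 2 * B + 1 ≤ B1 ∧ ∀ X : ℕ, 1 ≤ X → ∀ (k : Fin s → ℤ) (tr x : ℝ), |tr| ≤ B * X →
      (∀ j, (X : ℝ) ^ (f j).natDegree ≤ B * |PP f k j tr|) → B1 * |x - tr| ≤ 2 * X →
      ∀ j, PP f k j tr ≠ 0 ∧ |PP f k j x / PP f k j tr - 1| ≤ 1 / (2 * B * 2 ^ s) := by
  choose Kl hKl using fun j => real_lip (f j)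
  obtain ⟨dm, hdm⟩ : ∃ dm, dm = ∑ j, (f j).natDegree := ⟨_, rfl⟩
  obtain ⟨K1, hK1⟩ : ∃ K1, K1 = ∑ j, Kl j := ⟨_, rfl⟩
  obtain ⟨B1, hB1⟩ : ∃ B1, B1 = 4 * K1 * (B + 2) ^ dm * B ^ 2 * 2 ^ s + 2 * B + 1 := ⟨_, rfl⟩
  refine ⟨B1, by omega, fun X hX k tr x htr hP hx j => ?_⟩
  have hXr : (1 : ℝ) ≤ X := by exact_mod_cast hX
  have hBr : (1 : ℝ) ≤ B := by exact_mod_cast hB
  have hB1r : (1 : ℝ) ≤ B1 := by
    have : 1 ≤ B1 := by omega
    exact_mod_cast this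
  have hPj := hP j
  have hP0 : PP f k j tr ≠ 0 := by
    intro h
    rw [h, abs_zero, mul_zero] at hPj
    have : (0 : ℝ) < (X : ℝ) ^ (f j).natDegree := by positivity
    linarith
  refine ⟨hP0, ?_⟩
  have hPa : 0 < |PP f k j tr| := abs_pos.2 hP0
  have hxt : |x - tr| ≤ 2 * X := by
    have h1 : |x - tr| ≤ B1 * |x - tr| := le_mul_of_one_le_left (abs_nonneg _) hB1r
    exact h1.trans hx
  have hR1 : |tr| ≤ (B + 2) * X := htr.trans (by nlinarith)
  have hR2 : |x| ≤ (B + 2) * X := by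
    calc |x| = |(x - tr) + tr| := by ring_nf
      _ ≤ |x - tr| + |tr| := abs_add_le _ _
      _ ≤ 2 * X + B * X := add_le_add hxt htr
      _ = _ := by ring
  have h1 := hKl j ((B + 2) * X) x tr (by nlinarith) hR2 hR1
  have h2 : PP f k j x - PP f k j tr = aeval x (f j) - aeval tr (f j) := by
    unfold PP
    ring
  rw [← h2] at h1
  obtain ⟨d, hd⟩ : ∃ d, (f j).natDegree = d + 1 := ⟨(f j).natDegree - 1, by have := hf j; omega⟩
  have hKj : (Kl j : ℝ) ≤ K1 := by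
    have : Kl j ≤ K1 := by rw [hK1]; exact single_le_sum (f := Kl) (fun _ _ => Nat.zero_le _) (mem_univ j)
    exact_mod_cast this
  have hdd : ((B : ℝ) + 2) ^ d ≤ (B + 2) ^ dm := by
    apply pow_le_pow_right₀ (by linarith)
    have h3 : (f j).natDegree ≤ dm := by
      rw [hdm]
      exact single_le_sum (f := fun j => (f j).natDegree) (fun _ _ => Nat.zero_le _) (mem_univ j)
    omega
  rw [hd] at h1 hPj
  rw [Nat.add_sub_cancel] at h1
  have e : PP f k j x / PP f k j tr - 1 = (PP f k j x - PP f k j tr) / PP f k j tr := by field_simp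
  rw [e, abs_div, div_le_div_iff₀ hPa (by positivity), one_mul]
  -- the main inequality
  have h3 : |PP f k j x - PP f k j tr| ≤ K1 * (B + 2) ^ dm * (X ^ d * |x - tr|) := by
    calc |PP f k j x - PP f k j tr| ≤ Kl j * ((B + 2) * X) ^ d * |x - tr| := h1
      _ = Kl j * (B + 2) ^ d * (X ^ d * |x - tr|) := by rw [mul_pow]; ring
      _ ≤ _ := by gcongr
  have h4 : 4 * (K1 : ℝ) * (B + 2) ^ dm * B ^ 2 * 2 ^ s ≤ B1 := by
    rw [hB1]
    push_cast
    linarith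
  obtain ⟨w, hw⟩ : ∃ w : ℝ, w = X ^ d * |x - tr| := ⟨_, rfl⟩
  have hw0 : 0 ≤ w := by rw [hw]; positivity
  rw [← hw] at h3
  have h5 : B1 * w ≤ 2 * X ^ (d + 1) := by
    rw [hw]
    calc (B1 : ℝ) * (X ^ d * |x - tr|) = X ^ d * (B1 * |x - tr|) := by ring
      _ ≤ X ^ d * (2 * X) := mul_le_mul_of_nonneg_left hx (by positivity)
      _ = _ := by ring
  have h6 : 4 * (K1 : ℝ) * (B + 2) ^ dm * B ^ 2 * 2 ^ s * w ≤ B1 * w := mul_le_mul_of_nonneg_right h4 hw0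
  have h7 : 2 * (B * ((K1 * (B + 2) ^ dm * w) * (2 * B * 2 ^ s))) ≤ 2 * (B * |PP f k j tr|) := by
    calc 2 * (B * ((K1 * (B + 2) ^ dm * w) * (2 * B * 2 ^ s))) = 4 * (K1 : ℝ) * (B + 2) ^ dm * B ^ 2 * 2 ^ s * w := by ring
      _ ≤ 2 * (X : ℝ) ^ (d + 1) := h6.trans h5
      _ ≤ 2 * (B * |PP f k j tr|) := by linarith
  have h8 : (K1 * (B + 2) ^ dm * w) * (2 * B * 2 ^ s) ≤ |PP f k j tr| := by
    have h9 := le_of_mul_le_mul_left h7 (by norm_num : (0 : ℝ) < 2)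
    exact le_of_mul_le_mul_left h9 (by linarith)
  calc |PP f k j x - PP f k j tr| * (2 * B * 2 ^ s) ≤ (K1 * (B + 2) ^ dm * w) * (2 * B * 2 ^ s) := by
        apply mul_le_mul_of_nonneg_right h3
        positivity
    _ ≤ _ := h8

/-- the box of shifts -/
noncomputable def box {s : ℕ} (g : Fin s → ℤ[X]) (B Y : ℕ) : Finset (Fin s → ℤ) :=
  Fintype.piFinset fun j => Icc (-((B * Y ^ (g j).natDegree : ℕ) : ℤ)) ((B * Y ^ (g j).natDegree : ℕ) : ℤ)

lemma box_card {s : ℕ} (f : Fin s → ℤ[X]) (B X : ℕ) (hB : 1 ≤ B) : (∏ j, (X : ℝ) ^ (f j).natDegree) ≤ #(box f B X) := by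
  unfold box
  rw [Fintype.card_piFinset]
  push_cast
  apply prod_le_prod (fun j _ => by positivity)
  intro j _
  rw [Int.card_Icc]
  have h1 : X ^ (f j).natDegree ≤ (((B * X ^ (f j).natDegree : ℕ) : ℤ) + 1 - -((B * X ^ (f j).natDegree : ℕ) : ℤ)).toNat := by
    have h2 : X ^ (f j).natDegree ≤ B * X ^ (f j).natDegree := Nat.le_mul_of_pos_left _ hB
    omega
  exact_mod_cast h1

end Pool.Agent.R479.NF
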