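import Pool.Agent.R479.NF.Sv0
import Pool.Agent.R479.NF.Br7

/-!
# Simultaneous prime values of several shifted polynomials
(the proof follows Pool/Agent/Y714/RC/B3)
-/

set_option autoImplicit false
set_option linter.unusedVariables false

namespace Pool.Agent.R479.NF

open Finset Polynomial
open Pool.Agent.TH204.HP
open Pool.Agent.H373R2.T7 (ev_L')
open Pool.Agent.Y714.PV
open Pool.Agent.Y714.RC (PP real_lip scale_choice)

/-- the local data of level `N` at the primes of `T` and the real data of level `B` at the scale `Y` -/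
structure DtS {s : ℕ} (g : Fin s → ℤ[X]) (T : Finset Nat.Primes)
    (N B Y : ℕ) (k : Fin s → ℤ) (v : (p : Nat.Primes) → ℚ_[(p : ℕ)]) (vr : ℝ) : Prop where
  v1 : ∀ p ∈ T, ‖v p‖ ≤ ((p : ℕ) : ℝ) ^ N
  v2 : ∀ p ∈ T, ∀ j, (((p : ℕ) : ℝ) ^ N)⁻¹ ≤ ‖PP g k j (v p)‖
  r1 : (Y : ℝ) ≤ B * vr
  r2 : vr ≤ B * Y
  r3 : ∀ j, (Y : ℝ) ^ (g j).natDegree ≤ B * |PP g k j vr|

/-- the rational point over the base -/
def SlS {s : ℕ} (g : Fin s → ℤ[X]) (T : Finset Nat.Primes)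
    (N B Y : ℕ) (k : Fin s → ℤ) (v : (p : Nat.Primes) → ℚ_[(p : ℕ)]) (vr : ℝ) : Prop :=
  ∃ q : ℚ, (∀ p ∈ T, ‖((q : ℚ) : ℚ_[(p : ℕ)]) - v p‖ ≤ (((p : ℕ) : ℝ) ^ N)⁻¹) ∧ |(q : ℝ) - vr| * B ≤ Y ∧
    (∀ j, 0 < PP g k j (q : ℝ) * PP g k j vr) ∧ ∀ j, PrimeVal T |PP g k j q|

set_option maxHeartbeats 4000000 in
theorem pvS {s : ℕ} (g : Fin s → ℤ[X]) (hg : ∀ j, 1 ≤ (g j).natDegree) (T : Finset Nat.Primes)
    (hT2 : ∀ p : Nat.Primes, (p : ℕ) ≤ ∑ j, (g j).natDegree → p ∈ T)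
    (hT3 : ∀ p : Nat.Primes, (∃ j, ((p : ℕ) : ℤ) ∣ (g j).leadingCoeff) → p ∈ T) (N B U : ℕ) (hB : 1 ≤ B) :
    ∃ Y0 : ℕ, ∀ Y : ℕ, Y0 ≤ Y → ∃ Bad : Finset (Fin s → ℤ), (#Bad : ℝ) ≤ (∏ j, (Y : ℝ) ^ (g j).natDegree) / Real.log Y ^ U ∧
      ∀ k : Fin s → ℤ, (∀ j, |k j| ≤ ((B * Y ^ (g j).natDegree : ℕ) : ℤ)) → k ∉ Bad →
      ∀ (v : (p : Nat.Primes) → ℚ_[(p : ℕ)]) (vr : ℝ), DtS g T N B Y k v vr → SlS g T N B Y k v vr := by
  classical
  obtain ⟨dm, hdm⟩ : ∃ dm, dm = ∑ j, (g j).natDegree := ⟨_, rfl⟩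
  have hgdm : ∀ j, (g j).natDegree ≤ dm := fun j => by
    rw [hdm]
    exact single_le_sum (f := fun j => (g j).natDegree) (fun _ _ => Nat.zero_le _) (mem_univ j)
  obtain ⟨E0, hE0⟩ : ∃ E0, E0 = (2 * dm + 2) * N + 3 := ⟨_, rfl⟩
  have hE0j : ∀ j, (2 * (g j).natDegree + 1) * N + 3 ≤ E0 := by
    intro j
    rw [hE0]
    have h1 := hgdm j
    have h2 : (2 * (g j).natDegree + 1) * N ≤ (2 * dm + 2) * N := Nat.mul_le_mul_right _ (by omega)
    omega
  obtain ⟨D, hD⟩ : ∃ D, D = ∏ p ∈ T, (p : ℕ) ^ N := ⟨_, rfl⟩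
  obtain ⟨M, hM⟩ : ∃ M, M = ∏ p ∈ T, (p : ℕ) ^ E0 := ⟨_, rfl⟩
  have hD0 : D ≠ 0 := by rw [hD]; exact prod_ne_zero_iff.2 fun p _ => pow_ne_zero _ p.2.ne_zero
  have hM0 : M ≠ 0 := by rw [hM]; exact prod_ne_zero_iff.2 fun p _ => pow_ne_zero _ p.2.ne_zero
  have hD1 : 1 ≤ D := Nat.pos_of_ne_zero hD0
  have hM1 : 1 ≤ M := Nat.pos_of_ne_zero hM0
  have hGd : ∀ j, (GG (g j) D).natDegree = (g j).natDegree := fun j => GG_natDegree (g j) D hD0
  -- the polynomials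
  have hF : ∀ (i : ℕ × (Fin s → ℕ)) (j : Fin s), ∃ F : ℤ[X], i.2 j ∣ M → F.natDegree = (g j).natDegree ∧
      (i.2 j : ℤ) * F.leadingCoeff = (GG (g j) D).leadingCoeff * (M : ℤ) ^ (g j).natDegree ∧
      (∀ x : ℤ, (i.2 j : ℤ) * F.eval x = (GG (g j) D).eval ((i.1 : ℤ) + M * x) - (GG (g j) D).eval (i.1 : ℤ)) ∧
      (∀ (x : ℤ) (p : ℕ), i.2 j * p ∣ M → (p : ℤ) ∣ F.eval x) := by
    intro i j
    by_cases h : i.2 j ∣ M
    · obtain ⟨F, h1, h2, h3, h4⟩ := exists_F (GG (g j) D) (by rw [hGd]; exact hg j) M hM0 (i.1 : ℤ) (i.2 j) h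
      rw [hGd] at h1 h2
      exact ⟨F, fun _ => ⟨h1, h2, h3, h4⟩⟩
    · exact ⟨0, fun h' => absurd h' h⟩
  choose F hF using hF
  obtain ⟨I, hI⟩ : ∃ I : Finset (ℕ × (Fin s → ℕ)), I = range M ×ˢ Fintype.piFinset (fun _ => M.divisors) := ⟨_, rfl⟩
  have hIm : ∀ i ∈ I, ∀ j, i.2 j ∣ M := fun i hi j => by
    rw [hI, mem_product, Fintype.mem_piFinset] at hi
    exact Nat.dvd_of_mem_divisors (hi.2 j)
  -- the constants
  choose Kl hKl using fun j => real_lip (g j)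
  obtain ⟨K1, hK1⟩ : ∃ K1, K1 = ∑ j, Kl j := ⟨_, rfl⟩
  obtain ⟨B', hB'⟩ : ∃ B', B' = K1 * (2 * B) ^ dm * B + B + 1 := ⟨_, rfl⟩
  have hB'1 : 1 ≤ B' := by rw [hB']; omega
  have hB'B : B ≤ B' := by rw [hB']; omega
  obtain ⟨Q, hQ⟩ : ∃ Q, Q = 8 * M * B' := ⟨_, rfl⟩
  have hQ1 : 8 ≤ Q := by rw [hQ]; nlinarith [Nat.mul_le_mul hM1 hB'1]
  obtain ⟨H, hH⟩ : ∃ H, H = 4 * B * B' := ⟨_, rfl⟩
  have hH2 : 2 ≤ H := by rw [hH]; nlinarith [Nat.mul_le_mul hB hB'1]
  obtain ⟨L0, hL0⟩ : ∃ L0, L0 = 2 * D * B * Q + 2 := ⟨_, rfl⟩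
  obtain ⟨Kc, hKc⟩ : ∃ Kc : ℕ, Kc = ∑ u ∈ range M, ∑ j, ((GG (g j) D).eval (u : ℤ)).natAbs := ⟨_, rfl⟩
  obtain ⟨B1, hB1⟩ : ∃ B1 : ℕ, B1 = Kc + D ^ (2 * dm) * B * (2 * Q) ^ dm + 1 := ⟨_, rfl⟩
  have hB11 : 1 ≤ B1 := by rw [hB1]; omega
  have hex : ∀ i : ℕ × (Fin s → ℕ), ∃ N0 : ℕ, i ∈ I → ∀ x : ℕ, N0 ≤ x → ∃ Bad : Finset (Fin s → ℤ),
      (#Bad : ℝ) ≤ (∏ j, (x : ℝ) ^ (F i j).natDegree) / Real.log x ^ (U + 1) ∧
      ∀ κ : Fin s → ℤ, (∀ j, |κ j| ≤ ((B1 * x ^ (F i j).natDegree : ℕ) : ℤ)) → κ ∉ Bad →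
      (∀ p : ℕ, p.Prime → ∃ n : ℤ, ∀ j, ¬ (p : ℤ) ∣ (F i j).eval n + κ j) →
      ∀ ε : Fin s → ℤ, (∀ j, ε j = 1 ∨ ε j = -1) →
      (∀ n : ℕ, n ≤ x → H * x ≤ H * n + x → ∀ j, 0 < ε j * ((F i j).eval (n : ℤ) + κ j)) →
      ∃ n : ℕ, n ≤ x ∧ H * x ≤ H * n + x ∧ ∀ j, ((F i j).eval (n : ℤ) + κ j).natAbs.Prime := by
    intro i
    by_cases hi : i ∈ I
    · obtain ⟨N0, h0⟩ := exists_primes (F i) (fun j => by rw [(hF i j (hIm i hi j)).1]; exact hg j) B1 H (U + 1) hB11 hH2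
      exact ⟨N0, fun _ => h0⟩
    · exact ⟨0, fun h => absurd h hi⟩
  choose N0 hN0 using hex
  obtain ⟨Y1, hY1⟩ := ev_L' (((#I : ℕ) : ℝ) * L0 * (L0 : ℝ) ^ dm * 2 ^ (U + 1) + 1)
  refine ⟨max Y1 (max (Q * (∑ i ∈ I, N0 i + 1)) (4 * Q ^ 2 + 16 * M * B' + 2 * Q)), fun Y hY => ?_⟩
  have hYa := hY1 Y ((le_max_left _ _).trans hY)
  have hYb : Q * (∑ i ∈ I, N0 i + 1) ≤ Y := (le_trans (le_max_left _ _) (le_max_right _ _)).trans hY
  have hYc : 4 * Q ^ 2 + 16 * M * B' + 2 * Q ≤ Y := (le_trans (le_max_right _ _) (le_max_right _ _)).trans hY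
  clear hY1 hY
  obtain ⟨L, hLd⟩ : ∃ L, L = Real.log Y := ⟨_, rfl⟩
  rw [← hLd] at hYa ⊢
  have hY256 : 256 ≤ Y := by nlinarith
  have hYr : (256 : ℝ) ≤ Y := by exact_mod_cast hY256
  have hY0 : (0 : ℝ) < Y := by linarith
  have hLpos : 1 ≤ L := by
    have : 0 ≤ ((#I : ℕ) : ℝ) * L0 * (L0 : ℝ) ^ dm * 2 ^ (U + 1) := by positivity
    linarith
  have hLp : 0 < L := by linarith
  obtain ⟨y, hy⟩ : ∃ y, y = Y / Q := ⟨_, rfl⟩
  have hy1 : Q * y ≤ Y := by rw [hy]; exact Nat.mul_div_le _ _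
  have hy2 : Y < Q * (y + 1) := by rw [hy]; exact Nat.lt_mul_div_succ _ (by omega)
  have hyN : ∑ i ∈ I, N0 i + 1 ≤ y := by
    rw [hy]
    exact (Nat.le_div_iff_mul_le (by omega)).2 (by rw [mul_comm]; exact hYb)
  have hy0 : 1 ≤ y := by omega
  have hy3 : Y ≤ 2 * Q * y := by nlinarith
  have hyr : (1 : ℝ) ≤ y := by exact_mod_cast hy0
  have hylog : L / 2 ≤ Real.log y := by
    have h1 : √(Y : ℝ) ≤ y := by
      have h2 : (Y : ℝ) ≤ 2 * Q * y := by exact_mod_cast hy3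
      have h3 : (2 * (Q : ℝ)) ^ 2 ≤ Y := by
        have : 4 * Q ^ 2 ≤ Y := by omega
        have h4 : (4 : ℝ) * Q ^ 2 ≤ Y := by exact_mod_cast this
        nlinarith
      rw [Real.sqrt_le_left (by linarith)]
      have hQ0 : (0 : ℝ) < Q := by exact_mod_cast (by omega : 0 < Q)
      -- Y^2 ≤ (2Qy)^2 ≤ Y * y^2
      have h5 : (Y : ℝ) * Y ≤ Y * y ^ 2 := by
        calc (Y : ℝ) * Y ≤ (2 * Q * y) * (2 * Q * y) := mul_le_mul h2 h2 hY0.le (by positivity)
          _ = (2 * Q) ^ 2 * y ^ 2 := by ring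
          _ ≤ Y * y ^ 2 := mul_le_mul_of_nonneg_right h3 (by positivity)
      exact le_of_mul_le_mul_left h5 hY0
    have h2 := Real.log_le_log (Real.sqrt_pos.2 hY0) h1
    rw [Real.log_sqrt hY0.le, ← hLd] at h2
    exact h2
  have hbad : ∀ (i : ℕ × (Fin s → ℕ)) (l : ℕ), ∃ Bad : Finset (Fin s → ℤ), i ∈ I → l ∈ Icc 1 L0 →
      (#Bad : ℝ) ≤ (∏ j, ((l * y : ℕ) : ℝ) ^ (F i j).natDegree) / Real.log ((l * y : ℕ) : ℝ) ^ (U + 1) ∧
      ∀ κ : Fin s → ℤ, (∀ j, |κ j| ≤ ((B1 * (l * y) ^ (F i j).natDegree : ℕ) : ℤ)) → κ ∉ Bad →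
      (∀ p : ℕ, p.Prime → ∃ n : ℤ, ∀ j, ¬ (p : ℤ) ∣ (F i j).eval n + κ j) →
      ∀ ε : Fin s → ℤ, (∀ j, ε j = 1 ∨ ε j = -1) →
      (∀ n : ℕ, n ≤ l * y → H * (l * y) ≤ H * n + l * y → ∀ j, 0 < ε j * ((F i j).eval (n : ℤ) + κ j)) →
      ∃ n : ℕ, n ≤ l * y ∧ H * (l * y) ≤ H * n + l * y ∧ ∀ j, ((F i j).eval (n : ℤ) + κ j).natAbs.Prime := by
    intro i l
    by_cases hi : i ∈ I
    · by_cases hl : l ∈ Icc 1 L0
      · have h1 : N0 i ≤ l * y := by
          calc N0 i ≤ ∑ i ∈ I, N0 i := single_le_sum (f := N0) (fun _ _ => Nat.zero_le _) hi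
            _ ≤ y := by omega
            _ ≤ l * y := Nat.le_mul_of_pos_left _ (mem_Icc.1 hl).1
        obtain ⟨Bd, hBd⟩ := hN0 i hi (l * y) h1
        exact ⟨Bd, fun _ _ => hBd⟩
      · exact ⟨∅, fun _ h => absurd h hl⟩
    · exact ⟨∅, fun h => absurd h hi⟩
  choose BB hBB using hbad
  obtain ⟨vv, hvv⟩ : ∃ vv : ℕ → (Fin s → ℤ) → Fin s → ℤ, vv = fun u k j =>
    (GG (g j) D).eval ((u : ℕ) : ℤ) + (D : ℤ) ^ (2 * (g j).natDegree) * k j := ⟨_, rfl⟩
  have hvinj : ∀ u k k', vv u k = vv u k' → k = k' := by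
    intro u k k' h
    funext j
    have h0 := congrFun h j
    rw [hvv] at h0
    have h1 : (D : ℤ) ^ (2 * (g j).natDegree) * k j = (D : ℤ) ^ (2 * (g j).natDegree) * k' j := by simpa using h0
    exact mul_left_cancel₀ (pow_ne_zero _ (by exact_mod_cast hD0)) h1
  obtain ⟨Box, hBox⟩ : ∃ Box : Finset (Fin s → ℤ), Box = Fintype.piFinset (fun j =>
    Icc (-((B * Y ^ (g j).natDegree : ℕ) : ℤ)) ((B * Y ^ (g j).natDegree : ℕ) : ℤ)) := ⟨_, rfl⟩
  refine ⟨Box.filter (fun k => ∃ i ∈ I, ∃ l ∈ Icc 1 L0, (∀ j, (i.2 j : ℤ) ∣ vv i.1 k j) ∧ (fun j => vv i.1 k j / (i.2 j : ℤ)) ∈ BB i l), ?_, ?_⟩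
  · -- the number of exceptions
    have h1 : Box.filter (fun k => ∃ i ∈ I, ∃ l ∈ Icc 1 L0, (∀ j, (i.2 j : ℤ) ∣ vv i.1 k j) ∧ (fun j => vv i.1 k j / (i.2 j : ℤ)) ∈ BB i l) ⊆
        (I ×ˢ Icc 1 L0).biUnion (fun q => Box.filter (fun k => (∀ j, (q.1.2 j : ℤ) ∣ vv q.1.1 k j) ∧ (fun j => vv q.1.1 k j / (q.1.2 j : ℤ)) ∈ BB q.1 q.2)) := by
      intro k hk
      rw [mem_filter] at hk
      obtain ⟨i, hi, l, hl, h2⟩ := hk.2
      rw [mem_biUnion]
      exact ⟨(i, l), mem_product.2 ⟨hi, hl⟩, mem_filter.2 ⟨hk.1, h2⟩⟩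
    have h2 : ∀ q ∈ I ×ˢ Icc 1 L0, #(Box.filter (fun k => (∀ j, (q.1.2 j : ℤ) ∣ vv q.1.1 k j) ∧ (fun j => vv q.1.1 k j / (q.1.2 j : ℤ)) ∈ BB q.1 q.2)) ≤ #(BB q.1 q.2) := by
      intro q hq
      apply card_le_card_of_injOn (fun k j => vv q.1.1 k j / (q.1.2 j : ℤ))
      · intro k hk
        rw [mem_coe, mem_filter] at hk
        exact hk.2.2
      · intro k hk k' hk' h
        rw [mem_coe, mem_filter] at hk hk'
        simp only at h
        apply hvinj q.1.1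
        funext j
        have h3 := congrFun h j
        rw [← Int.ediv_mul_cancel (hk.2.1 j), ← Int.ediv_mul_cancel (hk'.2.1 j), h3]
    have h3 := (card_le_card h1).trans (card_biUnion_le.trans (sum_le_sum h2))
    have h3r : (#(Box.filter (fun k => ∃ i ∈ I, ∃ l ∈ Icc 1 L0, (∀ j, (i.2 j : ℤ) ∣ vv i.1 k j) ∧ (fun j => vv i.1 k j / (i.2 j : ℤ)) ∈ BB i l)) : ℝ) ≤
        ∑ q ∈ I ×ˢ Icc 1 L0, (#(BB q.1 q.2) : ℝ) := by exact_mod_cast h3
    refine h3r.trans ?_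
    have hpr : 0 ≤ ∏ j, (Y : ℝ) ^ (g j).natDegree := prod_nonneg fun i _ => by positivity
    have h4 : ∀ q ∈ I ×ˢ Icc 1 L0, (#(BB q.1 q.2) : ℝ) ≤ ((L0 : ℝ) ^ dm * ∏ j, (Y : ℝ) ^ (g j).natDegree) / (L / 2) ^ (U + 1) := by
      intro q hq
      rw [mem_product] at hq
      refine ((hBB q.1 q.2 hq.1 hq.2).1).trans ?_
      have hq2 := mem_Icc.1 hq.2
      have h5 : ∏ j, (((q.2 * y : ℕ) : ℝ)) ^ (F q.1 j).natDegree ≤ (L0 : ℝ) ^ dm * ∏ j, (Y : ℝ) ^ (g j).natDegree := by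
        rw [hdm, ← prod_pow_eq_pow_sum, ← prod_mul_distrib]
        apply prod_le_prod (fun _ _ => by positivity)
        intro j _
        rw [(hF q.1 j (hIm q.1 hq.1 j)).1, ← mul_pow]
        apply pow_le_pow_left₀ (Nat.cast_nonneg _)
        have h6 : q.2 * y ≤ L0 * Y := Nat.mul_le_mul hq2.2 (by nlinarith)
        exact_mod_cast h6
      have h6 : (L / 2) ^ (U + 1) ≤ Real.log ((q.2 * y : ℕ) : ℝ) ^ (U + 1) := by
        apply pow_le_pow_left₀ (by positivity)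
        refine hylog.trans ?_
        apply Real.log_le_log (by linarith)
        have : y ≤ q.2 * y := Nat.le_mul_of_pos_left _ hq2.1
        exact_mod_cast this
      exact div_le_div₀ (by positivity) h5 (by positivity) h6
    refine (sum_le_sum h4).trans ?_
    rw [sum_const, nsmul_eq_mul, card_product, Nat.card_Icc, Nat.add_sub_cancel]
    push_cast
    have e : ((#I : ℕ) : ℝ) * L0 * ((L0 : ℝ) ^ dm * (∏ j, (Y : ℝ) ^ (g j).natDegree) / (L / 2) ^ (U + 1)) =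
        (((#I : ℕ) : ℝ) * L0 * (L0 : ℝ) ^ dm * 2 ^ (U + 1)) / L * ((∏ j, (Y : ℝ) ^ (g j).natDegree) / L ^ U) := by
      rw [div_pow, pow_succ L U]
      field_simp
    rw [e]
    have h5 : (((#I : ℕ) : ℝ) * L0 * (L0 : ℝ) ^ dm * 2 ^ (U + 1)) / L ≤ 1 := by
      rw [div_le_one hLp]
      linarith
    calc _ ≤ 1 * ((∏ j, (Y : ℝ) ^ (g j).natDegree) / L ^ U) := mul_le_mul_of_nonneg_right h5 (by positivity)
      _ = _ := one_mul _
  · intro k hk hkB v vr hdat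
    obtain ⟨u0, hu0M, hu0⟩ := exists_u0 T N E0 D M v hdat.v1 hD hM
    obtain ⟨V0, hV0⟩ : ∃ V0 : Fin s → ℤ, V0 = vv u0 k := ⟨_, rfl⟩
    have hV0e : ∀ j, V0 j = (GG (g j) D).eval (u0 : ℤ) + (D : ℤ) ^ (2 * (g j).natDegree) * k j := by
      intro j
      rw [hV0, hvv]
    obtain ⟨c0, hc0⟩ : ∃ c0 : Fin s → ℕ, c0 = fun j => Nat.gcd (V0 j).natAbs M := ⟨_, rfl⟩
    have hc0j : ∀ j, c0 j = Nat.gcd (V0 j).natAbs M := fun j => by rw [hc0]
    have hc0M : ∀ j, c0 j ∣ M := fun j => by rw [hc0j]; exact Nat.gcd_dvd_right _ _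
    have hc0v : ∀ j, (c0 j : ℤ) ∣ V0 j := fun j => by rw [hc0j]; exact Int.natCast_dvd.2 (Nat.gcd_dvd_left _ _)
    have hc00 : ∀ j, c0 j ≠ 0 := fun j => by
      rw [hc0j]
      exact (Nat.gcd_pos_of_pos_right _ (Nat.pos_of_ne_zero hM0)).ne'
    have hiI : (u0, c0) ∈ I := by
      rw [hI, mem_product, Fintype.mem_piFinset]
      exact ⟨mem_range.2 hu0M, fun j => Nat.mem_divisors.2 ⟨hc0M j, hM0⟩⟩
    have hFj := fun j => hF (u0, c0) j (hc0M j)
    simp only at hFj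
    -- the scale
    obtain ⟨l, hl, hscale⟩ := scale_choice D M B B' Y hD1 hM1 hB hB'1 (by rw [← hQ]; omega) u0 hu0M vr hdat.r1 hdat.r2
    rw [← hQ, ← hL0] at hl
    rw [← hQ, ← hy, ← hH] at hscale
    have hl1 := mem_Icc.1 hl
    have hkN : (fun j => V0 j / (c0 j : ℤ)) ∉ BB (u0, c0) l := by
      intro h
      apply hkB
      rw [mem_filter, hBox, Fintype.mem_piFinset]
      refine ⟨fun j => mem_Icc.2 (abs_le.1 (hk j)), (u0, c0), hiI, l, hl, ?_, ?_⟩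
      · intro j
        simp only
        rw [← hV0]
        exact hc0v j
      · simp only
        rw [← hV0]
        exact h
    have hc0pos : ∀ j, (0 : ℤ) < c0 j := fun j => by exact_mod_cast Nat.pos_of_ne_zero (hc00 j)
    obtain ⟨κ, hκ⟩ : ∃ κ : Fin s → ℤ, κ = fun j => V0 j / (c0 j : ℤ) := ⟨_, rfl⟩
    have hκc : ∀ j, (c0 j : ℤ) * κ j = V0 j := fun j => by
      rw [hκ]
      exact Int.mul_ediv_cancel' (hc0v j)
    have hkh : ∀ j, |κ j| ≤ ((B1 * (l * y) ^ (F (u0, c0) j).natDegree : ℕ) : ℤ) := by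
      intro j
      rw [(hFj j).1]
      have h1 : |κ j| ≤ |V0 j| := by
        rw [← hκc j, abs_mul, abs_of_pos (hc0pos j)]
        exact le_mul_of_one_le_left (abs_nonneg _) (by have := hc0pos j; linarith)
      have h2 : |V0 j| ≤ |(GG (g j) D).eval (u0 : ℤ)| + (D : ℤ) ^ (2 * (g j).natDegree) * |k j| := by
        rw [hV0e]
        refine (abs_add_le _ _).trans ?_
        rw [abs_mul, abs_of_nonneg (show 0 ≤ (D : ℤ) ^ (2 * (g j).natDegree) by positivity)]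
      have h3 : |(GG (g j) D).eval (u0 : ℤ)| ≤ ((Kc : ℕ) : ℤ) := by
        have h4 : ((GG (g j) D).eval (u0 : ℤ)).natAbs ≤ Kc := by
          rw [hKc]
          calc ((GG (g j) D).eval (u0 : ℤ)).natAbs ≤ ∑ j, ((GG (g j) D).eval (u0 : ℤ)).natAbs :=
                single_le_sum (f := fun j => ((GG (g j) D).eval (u0 : ℤ)).natAbs) (fun _ _ => Nat.zero_le _) (mem_univ j)
            _ ≤ _ := single_le_sum (f := fun u : ℕ => ∑ j, ((GG (g j) D).eval (u : ℤ)).natAbs) (fun _ _ => Nat.zero_le _) (mem_range.2 hu0M)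
        have h5 : (((GG (g j) D).eval (u0 : ℤ)).natAbs : ℤ) ≤ ((Kc : ℕ) : ℤ) := by exact_mod_cast h4
        rwa [Int.natCast_natAbs] at h5
      have hd1 : (g j).natDegree ≤ dm := hgdm j
      have h4 : D ^ (2 * (g j).natDegree) ≤ D ^ (2 * dm) := Nat.pow_le_pow_right hD1 (by omega)
      have h5 : Y ^ (g j).natDegree ≤ (2 * Q) ^ dm * (l * y) ^ (g j).natDegree := by
        calc Y ^ (g j).natDegree ≤ (2 * Q * y) ^ (g j).natDegree := Nat.pow_le_pow_left hy3 _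
          _ = (2 * Q) ^ (g j).natDegree * y ^ (g j).natDegree := mul_pow _ _ _
          _ ≤ (2 * Q) ^ dm * (l * y) ^ (g j).natDegree := by
              apply Nat.mul_le_mul
              · exact Nat.pow_le_pow_right (by omega) hd1
              · exact Nat.pow_le_pow_left (Nat.le_mul_of_pos_left _ hl1.1) _
      have h6 : 1 ≤ (l * y) ^ (g j).natDegree := Nat.one_le_pow _ _ (Nat.mul_pos hl1.1 hy0)
      have h7 : Kc + D ^ (2 * (g j).natDegree) * (B * Y ^ (g j).natDegree) ≤ B1 * (l * y) ^ (g j).natDegree := by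
        rw [hB1]
        calc Kc + D ^ (2 * (g j).natDegree) * (B * Y ^ (g j).natDegree)
            ≤ Kc * (l * y) ^ (g j).natDegree + D ^ (2 * dm) * (B * ((2 * Q) ^ dm * (l * y) ^ (g j).natDegree)) := by
              apply Nat.add_le_add
              · exact Nat.le_mul_of_pos_right _ h6
              · exact Nat.mul_le_mul h4 (Nat.mul_le_mul_left _ h5)
          _ = (Kc + D ^ (2 * dm) * B * (2 * Q) ^ dm) * (l * y) ^ (g j).natDegree := by ring
          _ ≤ _ := Nat.mul_le_mul_right _ (by omega)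
      have h8 : ((Kc + D ^ (2 * (g j).natDegree) * (B * Y ^ (g j).natDegree) : ℕ) : ℤ) ≤ ((B1 * (l * y) ^ (g j).natDegree : ℕ) : ℤ) := by
        exact_mod_cast h7
      have h9 : (D : ℤ) ^ (2 * (g j).natDegree) * |k j| ≤ (D : ℤ) ^ (2 * (g j).natDegree) * ((B * Y ^ (g j).natDegree : ℕ) : ℤ) :=
        mul_le_mul_of_nonneg_left (hk j) (by positivity)
      have h10 : ((Kc + D ^ (2 * (g j).natDegree) * (B * Y ^ (g j).natDegree) : ℕ) : ℤ) =
          ((Kc : ℕ) : ℤ) + (D : ℤ) ^ (2 * (g j).natDegree) * ((B * Y ^ (g j).natDegree : ℕ) : ℤ) := by push_cast; ring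
      linarith
    -- no fixed divisor
    have hnf : ∀ p : ℕ, p.Prime → ∃ n : ℤ, ∀ j, ¬ (p : ℤ) ∣ (F (u0, c0) j).eval n + κ j := by
      intro p hp
      by_cases hpT : (⟨p, hp⟩ : Nat.Primes) ∈ T
      · refine ⟨0, fun j => ?_⟩
        have h1 := val_near (g j) T N E0 (hE0j j) (k j) v ⟨p, hp⟩ hpT (hdat.v2 _ hpT j) (hdat.v1 _ hpT) (u0 : ℤ) D hD (by
          have := hu0 0 ⟨p, hp⟩ hpT
          simpa using this)
        rw [← hV0e] at h1
        obtain ⟨m, hm, -⟩ := prod_split T E0 ⟨p, hp⟩ hpT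
        obtain ⟨h2, h3⟩ := gcd_facts (V0 j) M p E0 m hp (by rw [hM]; exact hm) hM0 h1
        rw [← hc0j] at h2 h3
        have h4 := (hFj j).2.2.2 0 p h2
        intro h5
        apply h3
        have h6 := (Int.dvd_add_right h4).1 h5
        rw [hκ] at h6
        exact h6
      · apply no_fixed (F (u0, c0)) κ (fun j => by rw [(hFj j).1]; exact hg j) p hp
        · have e : ∑ j, (F (u0, c0) j).natDegree = ∑ j, (g j).natDegree := sum_congr rfl fun j _ => (hFj j).1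
          rw [e]
          by_contra h
          exact hpT (hT2 ⟨p, hp⟩ (not_lt.1 h))
        · intro j hdiv
          have h1 : (p : ℤ) ∣ (GG (g j) D).leadingCoeff * (M : ℤ) ^ (g j).natDegree := by
            rw [← (hFj j).2.1]
            exact hdiv.mul_left _
          rw [GG_lead] at h1
          have hpp := Nat.prime_iff_prime_int.1 hp
          have hpD : ¬ (p : ℤ) ∣ (D : ℤ) := by
            intro h2
            have h3 : p ∣ ∏ q ∈ T, (q : ℕ) ^ N := by rw [← hD]; exact_mod_cast h2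
            exact hpT (mem_of_dvd_prod T N ⟨p, hp⟩ h3)
          have hpM : ¬ (p : ℤ) ∣ (M : ℤ) := by
            intro h2
            have h3 : p ∣ ∏ q ∈ T, (q : ℕ) ^ E0 := by rw [← hM]; exact_mod_cast h2
            exact hpT (mem_of_dvd_prod T E0 ⟨p, hp⟩ h3)
          rcases hpp.dvd_or_dvd h1 with h2 | h2
          · rcases hpp.dvd_or_dvd h2 with h3 | h3
            · exact hpD (hpp.dvd_of_dvd_pow h3)
            · exact hpT (hT3 ⟨p, hp⟩ ⟨j, h3⟩)
          · exact hpM (hpp.dvd_of_dvd_pow h2)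
    -- the values on the real interval
    have hDr : (1 : ℝ) ≤ D := by exact_mod_cast hD1
    have hBr : (1 : ℝ) ≤ B := by exact_mod_cast hB
    have hB'r : (1 : ℝ) ≤ B' := by exact_mod_cast hB'1
    have hvr0 : 0 < vr := by
      by_contra h
      have : (B : ℝ) * vr ≤ 0 := mul_nonpos_of_nonneg_of_nonpos (by linarith) (not_lt.1 h)
      have := hdat.r1
      linarith
    have hsgn : ∀ n : ℕ, n ≤ l * y → H * (l * y) ≤ H * n + l * y → ∀ j, 0 < PP g k j (((u0 : ℝ) + M * n) / D) * PP g k j vr := by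
      intro n hn1 hn2 j
      have h1 := hscale n hn1 hn2
      obtain ⟨x, hx⟩ : ∃ x : ℝ, x = ((u0 : ℝ) + M * n) / D := ⟨_, rfl⟩
      rw [← hx] at h1 ⊢
      have h2 : |x - vr| ≤ Y / B' := by
        rw [le_div_iff₀ (by linarith)]
        exact h1
      have h3 : |x - vr| ≤ Y := h2.trans (div_le_self hY0.le hB'r)
      have hR1 : |vr| ≤ 2 * B * Y := by
        rw [abs_of_pos hvr0]
        have := hdat.r2
        nlinarith
      have hR2 : |x| ≤ 2 * B * Y := by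
        have h4 : |x| ≤ |x - vr| + |vr| := by
          calc |x| = |(x - vr) + vr| := by ring_nf
            _ ≤ _ := abs_add_le _ _
        rw [abs_of_pos hvr0] at h4
        have := hdat.r2
        nlinarith
      have h4 := hKl j (2 * B * Y) x vr (by nlinarith) hR2 hR1
      have h5 : |PP g k j x - PP g k j vr| = |aeval x (g j) - aeval vr (g j)| := by
        unfold PP
        rw [add_sub_add_right_eq_sub]
      rw [← h5] at h4
      have h6 : (Kl j : ℝ) * (2 * B * Y) ^ ((g j).natDegree - 1) * |x - vr| < |PP g k j vr| := by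
        have h7 := hdat.r3 j
        have h8 : (Kl j : ℝ) * (2 * B * Y) ^ ((g j).natDegree - 1) * |x - vr| * B < (Y : ℝ) ^ (g j).natDegree := by
          have hd1 := hg j
          obtain ⟨d, hd⟩ : ∃ d, (g j).natDegree = d + 1 := ⟨(g j).natDegree - 1, by omega⟩
          have h9 : (Kl j : ℝ) ≤ K1 := by
            have : Kl j ≤ K1 := by rw [hK1]; exact single_le_sum (f := Kl) (fun _ _ => Nat.zero_le _) (mem_univ j)
            exact_mod_cast this
          have h10 : (2 * (B : ℝ)) ^ d ≤ (2 * B) ^ dm := by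
            apply pow_le_pow_right₀ (by linarith)
            have := hgdm j
            omega
          rw [hd, Nat.add_sub_cancel]
          have h11 : (Kl j : ℝ) * (2 * B * Y) ^ d * |x - vr| * B ≤ (K1 * (2 * B) ^ dm * B) * (Y ^ d * |x - vr|) := by
            calc (Kl j : ℝ) * (2 * B * Y) ^ d * |x - vr| * B = (Kl j * (2 * B) ^ d * B) * (Y ^ d * |x - vr|) := by rw [mul_pow]; ring
              _ ≤ (K1 * (2 * B) ^ dm * B) * (Y ^ d * |x - vr|) := by gcongr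
          refine h11.trans_lt ?_
          have h12 : (K1 : ℝ) * (2 * B) ^ dm * B < B' := by
            rw [hB']
            push_cast
            linarith
          have h13 : (Y : ℝ) ^ d * |x - vr| ≤ Y ^ d * (Y / B') := mul_le_mul_of_nonneg_left h2 (by positivity)
          have hYd : 0 < (Y : ℝ) ^ d := by positivity
          calc ((K1 : ℝ) * (2 * B) ^ dm * B) * (Y ^ d * |x - vr|) ≤ (K1 * (2 * B) ^ dm * B) * (Y ^ d * (Y / B')) :=
                mul_le_mul_of_nonneg_left h13 (by positivity)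
            _ < B' * (Y ^ d * (Y / B')) := by
                apply mul_lt_mul_of_pos_right h12
                positivity
            _ = Y ^ (d + 1) := by
                rw [pow_succ]
                field_simp
        have h9 : (Kl j : ℝ) * (2 * B * Y) ^ ((g j).natDegree - 1) * |x - vr| * B < |PP g k j vr| * B := by
          calc _ < (Y : ℝ) ^ (g j).natDegree := h8
            _ ≤ B * |PP g k j vr| := h7
            _ = _ := mul_comm _ _
        exact lt_of_mul_lt_mul_right h9 (by linarith)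
      have h7 := h4.trans_lt h6
      rcases lt_trichotomy (PP g k j vr) 0 with h | h | h
      · rw [abs_of_neg h, abs_lt] at h7
        nlinarith
      · rw [h, abs_zero] at h7
        exact absurd h7 (not_lt.2 (abs_nonneg _))
      · rw [abs_of_pos h, abs_lt] at h7
        nlinarith
    have hDF : (D : ℝ) ≠ 0 := by linarith
    -- the value of the polynomial
    have hvalR : ∀ (n : ℕ) (j : Fin s), (c0 j : ℝ) * (((F (u0, c0) j).eval (n : ℤ) + κ j : ℤ) : ℝ) =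
        (D : ℝ) ^ (2 * (g j).natDegree) * PP g k j (((u0 : ℝ) + M * n) / D) := by
      intro n j
      have h1 : (c0 j : ℤ) * ((F (u0, c0) j).eval (n : ℤ) + κ j) = (GG (g j) D).eval ((u0 : ℤ) + M * n) + (D : ℤ) ^ (2 * (g j).natDegree) * k j := by
        rw [mul_add, hκc, (hFj j).2.2.1, hV0e]
        ring
      have h2 := GG_aeval (g j) D hD0 (((u0 : ℝ) + M * n) / D)
      rw [mul_div_cancel₀ _ hDF] at h2
      have h3 : aeval ((u0 : ℝ) + M * n) (GG (g j) D) = (((GG (g j) D).eval ((u0 : ℤ) + M * n) : ℤ) : ℝ) := by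
        rw [← aeval_int]
        push_cast
        rfl
      have h4 := congrArg (fun z : ℤ => (z : ℝ)) h1
      push_cast at h4
      push_cast
      rw [h4]
      unfold PP
      rw [mul_add, ← h2, h3]
    obtain ⟨n, hn1, hn2, hn3⟩ := (hBB (u0, c0) l hiI hl).2 κ hkh (by rw [hκ]; exact hkN) hnf (fun j => if 0 < PP g k j vr then 1 else -1)
      (fun j => by
        split_ifs
        · exact Or.inl rfl
        · exact Or.inr rfl) (by
      intro n hn1 hn2 j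
      have h1 := hsgn n hn1 hn2 j
      have h2 := hvalR n j
      have h3 : (0 : ℝ) < (D : ℝ) ^ (2 * (g j).natDegree) := by positivity
      have h4 : (0 : ℝ) < c0 j := by exact_mod_cast Nat.pos_of_ne_zero (hc00 j)
      split_ifs with h
      · rw [one_mul]
        have h5 : 0 < PP g k j (((u0 : ℝ) + M * n) / D) := (pos_iff_pos_of_mul_pos h1).2 h
        have h6 : 0 < (c0 j : ℝ) * (((F (u0, c0) j).eval (n : ℤ) + κ j : ℤ) : ℝ) := by rw [h2]; positivity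
        have h7 := (pos_iff_pos_of_mul_pos h6).1 h4
        exact_mod_cast h7
      · have hneg : PP g k j vr < 0 := by
          rcases lt_trichotomy (PP g k j vr) 0 with h' | h' | h'
          · exact h'
          · rw [h', mul_zero] at h1
            exact absurd h1 (lt_irrefl _)
          · exact absurd h' h
        have h5 : PP g k j (((u0 : ℝ) + M * n) / D) < 0 := by
          by_contra h6
          have := mul_nonpos_of_nonneg_of_nonpos (not_lt.1 h6) hneg.le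
          linarith
        have h6 : (c0 j : ℝ) * (((F (u0, c0) j).eval (n : ℤ) + κ j : ℤ) : ℝ) < 0 := by
          rw [h2]
          exact mul_neg_of_pos_of_neg h3 h5
        have h7 : (((F (u0, c0) j).eval (n : ℤ) + κ j : ℤ) : ℝ) < 0 := by
          by_contra h8
          have := mul_nonneg h4.le (not_lt.1 h8)
          linarith
        have h8 : (F (u0, c0) j).eval (n : ℤ) + κ j < 0 := by exact_mod_cast h7
        linarith)
    -- the rational point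
    obtain ⟨u, hu⟩ : ∃ u : ℤ, u = (u0 : ℤ) + M * n := ⟨_, rfl⟩
    have hur : ((u : ℤ) : ℝ) = (u0 : ℝ) + M * n := by rw [hu]; push_cast; ring
    have hcl : ∀ p ∈ T, ‖(u : ℚ_[((p : Nat.Primes) : ℕ)]) - D * v p‖ ≤ (((p : ℕ) : ℝ) ^ E0)⁻¹ := by
      intro p hp
      rw [hu]
      exact hu0 n p hp
    refine ⟨(u : ℚ) / D, ?_, ?_, ?_, ?_⟩
    · intro p hp
      have hppos : (0 : ℝ) < ((p : ℕ) : ℝ) := p_pos (p := (p : ℕ))
      have hp1 : (1 : ℝ) < ((p : ℕ) : ℝ) := one_lt_p (p := (p : ℕ))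
      have hDFp : (D : ℚ_[(p : ℕ)]) ≠ 0 := by exact_mod_cast hD0
      have e : (((u : ℚ) / D : ℚ) : ℚ_[(p : ℕ)]) - v p = ((u : ℚ_[(p : ℕ)]) - D * v p) / D := by
        push_cast
        field_simp
      have hDn : ‖(D : ℚ_[(p : ℕ)])‖ = (((p : ℕ) : ℝ) ^ N)⁻¹ := by rw [hD]; exact norm_D T N p hp
      rw [e, norm_div, hDn, div_inv_eq_mul]
      calc ‖(u : ℚ_[(p : ℕ)]) - D * v p‖ * ((p : ℕ) : ℝ) ^ N ≤ (((p : ℕ) : ℝ) ^ E0)⁻¹ * ((p : ℕ) : ℝ) ^ N :=
            mul_le_mul_of_nonneg_right (hcl p hp) (by positivity)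
        _ ≤ (((p : ℕ) : ℝ) ^ (2 * N))⁻¹ * ((p : ℕ) : ℝ) ^ N := by
            apply mul_le_mul_of_nonneg_right _ (by positivity)
            apply inv_anti₀ (by positivity)
            apply pow_le_pow_right₀ hp1.le
            rw [hE0]
            nlinarith
        _ = (((p : ℕ) : ℝ) ^ N)⁻¹ := by
            rw [pow_mul', pow_two]
            field_simp
    · have h1 := hscale n hn1 hn2
      have e : (((u : ℚ) / D : ℚ) : ℝ) = ((u0 : ℝ) + M * n) / D := by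
        push_cast
        rw [hur]
      rw [e]
      refine le_trans ?_ h1
      apply mul_le_mul_of_nonneg_left _ (abs_nonneg _)
      exact_mod_cast hB'B
    · intro j
      have e : (((u : ℚ) / D : ℚ) : ℝ) = ((u0 : ℝ) + M * n) / D := by
        push_cast
        rw [hur]
      rw [e]
      exact hsgn n hn1 hn2 j
    · intro j
      have hDs : Smooth T D := by rw [hD]; exact smooth_prod T N
      obtain ⟨q, hq⟩ : ∃ q, q = ((F (u0, c0) j).eval (n : ℤ) + κ j).natAbs := ⟨_, rfl⟩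
      have hqp : q.Prime := by rw [hq]; exact hn3 j
      refine ⟨c0 j, D ^ (2 * (g j).natDegree), q, ⟨hc00 j, fun p hp => ?_⟩, hDs.pow _, hqp, ⟨hqp.ne_zero, fun p hp hpT => ?_⟩, ?_⟩
      · have h2 : (p : ℕ) ∣ M := hp.trans (hc0M j)
        rw [hM] at h2
        exact mem_of_dvd_prod T E0 p h2
      · have h1 := val_near (g j) T N E0 (hE0j j) (k j) v p hpT (hdat.v2 _ hpT j) (hdat.v1 _ hpT) (u0 : ℤ) D hD (by
          have := hu0 0 p hpT
          simpa using this)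
        rw [← hV0e] at h1
        obtain ⟨m, hm, -⟩ := prod_split T E0 p hpT
        obtain ⟨h2, h3⟩ := gcd_facts (V0 j) M p E0 m p.2 (by rw [hM]; exact hm) hM0 h1
        rw [← hc0j] at h2 h3
        have h4 := (hFj j).2.2.2 n p h2
        apply h3
        have h5 : ((p : ℕ) : ℤ) ∣ (F (u0, c0) j).eval (n : ℤ) + κ j := by
          rw [← Int.natAbs_dvd_natAbs, Int.natAbs_natCast, ← hq]
          exact hp
        have h6 := (Int.dvd_add_right h4).1 h5
        rw [hκ] at h6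
        exact h6
      · have hDQ : (D : ℚ) ≠ 0 := by exact_mod_cast hD0
        have h1 : (c0 j : ℤ) * ((F (u0, c0) j).eval (n : ℤ) + κ j) = (GG (g j) D).eval u + (D : ℤ) ^ (2 * (g j).natDegree) * k j := by
          rw [mul_add, hκc, (hFj j).2.2.1, hV0e, hu]
          ring
        have h2 := GG_aeval (g j) D hD0 ((u : ℚ) / D)
        rw [mul_div_cancel₀ _ hDQ, aeval_int] at h2
        have h3 : (D : ℚ) ^ (2 * (g j).natDegree) * PP g k j ((u : ℚ) / D) =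
            (c0 j : ℚ) * (((F (u0, c0) j).eval (n : ℤ) + κ j : ℤ) : ℚ) := by
          have h4 : (((c0 j : ℤ) * ((F (u0, c0) j).eval (n : ℤ) + κ j) : ℤ) : ℚ) =
              (((GG (g j) D).eval u + (D : ℤ) ^ (2 * (g j).natDegree) * k j : ℤ) : ℚ) := by rw [h1]
          push_cast at h4 ⊢
          rw [h4, h2]
          unfold PP
          ring
        have h4 : (D : ℚ) ^ (2 * (g j).natDegree) * |PP g k j ((u : ℚ) / D)| = (c0 j : ℚ) * q := by
          have hDp : (0 : ℚ) < (D : ℚ) ^ (2 * (g j).natDegree) := by positivity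
          have hcp : (0 : ℚ) ≤ (c0 j : ℚ) := Nat.cast_nonneg _
          rw [← abs_of_pos hDp, ← abs_mul, h3, abs_mul, abs_of_nonneg hcp, hq, Nat.cast_natAbs, Int.cast_abs]
        have hDp : (D : ℚ) ^ (2 * (g j).natDegree) ≠ 0 := pow_ne_zero _ hDQ
        push_cast
        rw [eq_div_iff hDp, ← h4]
        ring

end Pool.Agent.R479.NF
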