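import Pool.Agent.R479.NF.Sv1

/-!
# Several norm equations over shifted polynomials
-/

set_option autoImplicit false
set_option linter.unusedSectionVars false

namespace Pool.Agent.R479.NF

open NumberField Module TensorProduct Finset Filter Polynomial
open Pool.Agent.TH204.HP (lip2)
open Pool.Agent.Y714.RC (PP real_lip)

variable (m : ℕ) [NeZero m] {L : Type} [Field L] [NumberField L] [IsCyclotomicExtension {m} ℚ L]
variable {ι : Type} {s : ℕ}

/-- the local data -/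
def LcS (K : ι → IntermediateField ℚ L) (g : Fin s → ℤ[X]) (φ : ι → Fin s) (c : ι → ℤ)
    (T : Finset Nat.Primes) (N : ℕ) (k : Fin s → ℤ) (v : (p : Nat.Primes) → ℚ_[(p : ℕ)]) : Prop :=
  ∀ p ∈ T, ‖v p‖ ≤ ((p : ℕ) : ℝ) ^ N ∧ (∀ j, (((p : ℕ) : ℝ) ^ N)⁻¹ ≤ ‖PP g k j (v p)‖) ∧
    ∀ i, IsNp (K i) (p : ℕ) ((c i : ℚ_[(p : ℕ)]) * PP g k (φ i) (v p))

/-- the signs -/
def RcS (K : ι → IntermediateField ℚ L) (g : Fin s → ℤ[X]) (φ : ι → Fin s) (c : ι → ℤ)
    (k : Fin s → ℤ) (vr : ℝ) : Prop :=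
  ∀ i, (∃ x : K i, Algebra.norm ℚ x = -1) ∨ 0 < (c i : ℝ) * PP g k (φ i) vr

/-- the rational point -/
def GlS (K : ι → IntermediateField ℚ L) (g : Fin s → ℤ[X]) (φ : ι → Fin s) (c : ι → ℤ)
    (T : Finset Nat.Primes) (N B Y : ℕ) (k : Fin s → ℤ) (v : (p : Nat.Primes) → ℚ_[(p : ℕ)]) (vr : ℝ) : Prop :=
  ∃ q : ℚ, (∀ p ∈ T, ‖(q : ℚ_[(p : ℕ)]) - v p‖ ≤ (((p : ℕ) : ℝ) ^ N)⁻¹) ∧ |(q : ℝ) - vr| * B ≤ Y ∧
    (∀ j, 0 < PP g k j (q : ℝ) * PP g k j vr) ∧ ∀ i, IsN (K i) ((c i : ℚ) * PP g k (φ i) q)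

include m in
theorem svP (K : ι → IntermediateField ℚ L) (hh : ∀ i, (classNumber (K i)).Coprime (finrank ℚ (K i)))
    (hs : ∀ i, Sgn (K i)) (g : Fin s → ℤ[X]) (hg : ∀ j, 1 ≤ (g j).natDegree) (φ : ι → Fin s)
    (c : ι → ℤ) (hc : ∀ i, c i ≠ 0) (T : Finset Nat.Primes)
    (hTm : ∀ p : Nat.Primes, (p : ℕ) ∣ m → p ∈ T) (hTc : ∀ i, Smooth T (c i).natAbs)
    (hT2 : ∀ p : Nat.Primes, (p : ℕ) ≤ ∑ j, (g j).natDegree → p ∈ T)
    (hT3 : ∀ p : Nat.Primes, (∃ j, ((p : ℕ) : ℤ) ∣ (g j).leadingCoeff) → p ∈ T) (N B U : ℕ) (hB : 1 ≤ B) :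
    ∃ Y0 : ℕ, ∀ Y : ℕ, Y0 ≤ Y → ∃ Bad : Finset (Fin s → ℤ), (#Bad : ℝ) ≤ (∏ j, (Y : ℝ) ^ (g j).natDegree) / Real.log Y ^ U ∧
      ∀ k : Fin s → ℤ, (∀ j, |k j| ≤ ((B * Y ^ (g j).natDegree : ℕ) : ℤ)) → k ∉ Bad →
      ∀ (v : (p : Nat.Primes) → ℚ_[(p : ℕ)]) (vr : ℝ), LcS K g φ c T N k v → RcS K g φ c k vr →
        (Y : ℝ) ≤ B * vr → vr ≤ B * Y → (∀ j, (Y : ℝ) ^ (g j).natDegree ≤ B * |PP g k j vr|) →
        GlS K g φ c T N B Y k v vr := by
  classical
  obtain ⟨N', hN'⟩ : ∃ N', N' = N + m := ⟨_, rfl⟩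
  obtain ⟨dm, hdm⟩ : ∃ dm, dm = ∑ j, (g j).natDegree := ⟨_, rfl⟩
  have hgdm : ∀ j, (g j).natDegree ≤ dm := fun j => by
    rw [hdm]
    exact single_le_sum (f := fun j => (g j).natDegree) (fun _ _ => Nat.zero_le _) (mem_univ j)
  obtain ⟨E, hE⟩ : ∃ E, E = (2 * dm + 3) * N' + 3 := ⟨_, rfl⟩
  have hN'E : N' ≤ E := by
    rw [hE]
    nlinarith
  obtain ⟨Y0, hY0⟩ := pvS g hg T hT2 hT3 E B U hB
  refine ⟨Y0, fun Y hY => ?_⟩
  obtain ⟨Bad, hB1, hB2⟩ := hY0 Y hY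
  refine ⟨Bad, hB1, fun k hk hkB v vr hloc hre h1 h2 h3 => ?_⟩
  have hone : ∀ p : Nat.Primes, (1 : ℝ) < ((p : ℕ) : ℝ) := fun p => by exact_mod_cast p.2.one_lt
  obtain ⟨q, hq1, hq2, hq3, hq4⟩ := hB2 k hk hkB v vr
    ⟨fun p hp => (hloc p hp).1.trans (pow_le_pow_right₀ (hone p).le (by omega)), fun p hp j => by
      have h0 : (0 : ℝ) < ((p : ℕ) : ℝ) := by linarith [hone p]
      exact (inv_anti₀ (by positivity) (pow_le_pow_right₀ (hone p).le (by omega))).trans ((hloc p hp).2.1 j), h1, h2, h3⟩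
  refine ⟨q, fun p hp => (hq1 p hp).trans ?_, hq2, hq3, fun i => ?_⟩
  · have h0 : (0 : ℝ) < ((p : ℕ) : ℝ) := by linarith [hone p]
    exact inv_anti₀ (by positivity) (pow_le_pow_right₀ (hone p).le (by omega))
  -- the sign of the value
  obtain ⟨a, ha⟩ : ∃ a : ℚ, a = PP g k (φ i) q := ⟨_, rfl⟩
  have har : PP g k (φ i) (q : ℝ) = (a : ℝ) := by
    rw [ha]
    unfold PP
    have e2 : ((aeval q (g (φ i)) : ℚ) : ℝ) = aeval (q : ℝ) (g (φ i)) := by
      have := aeval_algebraMap_apply ℝ q (g (φ i))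
      simp only [eq_ratCast] at this
      exact this.symm
    push_cast
    rw [e2]
  have hPV := hq4 (φ i)
  rw [← ha] at hPV
  have ha0 : a ≠ 0 := by
    intro h0
    rw [h0, abs_zero] at hPV
    exact absurd hPV.pos (lt_irrefl _)
  obtain ⟨τ, hτ, hτa, hτr⟩ : ∃ τ : ℤ, (τ = 1 ∨ τ = -1) ∧ |a| = (τ : ℚ) * a ∧ 0 < (τ : ℝ) * PP g k (φ i) vr := by
    have h4 := hq3 (φ i)
    rw [har] at h4
    rcases lt_or_gt_of_ne ha0 with h | h
    · refine ⟨-1, Or.inr rfl, ?_, ?_⟩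
      · rw [abs_of_neg h]
        push_cast
        ring
      · have h5 : (a : ℝ) < 0 := by exact_mod_cast h
        have h6 : PP g k (φ i) vr < 0 := by
          by_contra h7
          have := mul_nonpos_of_nonpos_of_nonneg h5.le (not_lt.1 h7)
          linarith
        push_cast
        linarith
    · refine ⟨1, Or.inl rfl, ?_, ?_⟩
      · rw [abs_of_pos h]
        push_cast
        ring
      · have h5 : (0 : ℝ) < a := by exact_mod_cast h
        have h6 := (pos_iff_pos_of_mul_pos h4).1 h5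
        push_cast
        linarith
  have hττ : τ * τ = 1 := by rcases hτ with h | h <;> rw [h] <;> norm_num
  have hcτ : c i * τ ≠ 0 := mul_ne_zero (hc i) (by rcases hτ with h | h <;> rw [h] <;> norm_num)
  -- the sign condition
  have hsg : (∃ x : K i, Algebra.norm ℚ x = -1) ∨ 0 < c i * τ := by
    rcases hre i with h | h
    · exact Or.inl h
    · right
      have h5 := mul_pos h hτr
      have e : (c i : ℝ) * PP g k (φ i) vr * (τ * PP g k (φ i) vr) = ((c i * τ : ℤ) : ℝ) * (PP g k (φ i) vr) ^ 2 := by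
        push_cast
        ring
      rw [e] at h5
      have h6 : (0 : ℝ) < ((c i * τ : ℤ) : ℝ) := by
        by_contra h7
        have := mul_nonpos_of_nonpos_of_nonneg (not_lt.1 h7) (sq_nonneg (PP g k (φ i) vr))
        linarith
      exact_mod_cast h6
  have hτn : ∀ (p : ℕ) [Fact p.Prime], ‖((τ : ℤ) : ℚ_[p])‖ = 1 := by
    intro p _
    rcases hτ with h | h <;> rw [h] <;> simp
  have hnat : (c i).natAbs = (c i * τ).natAbs := by
    rw [Int.natAbs_mul]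
    rcases hτ with h | h <;> rw [h] <;> simp
  have key : IsN (K i) (((c i * τ).natAbs : ℚ) * |a|) := by
    refine isN_of_close m (K i) (hh i) (hs i) T hTm N' (by omega) (c i * τ).natAbs (by rw [← hnat]; exact hTc i) _ hPV
      (fun p => (τ : ℚ_[(p : ℕ)]) * PP g k (φ i) (v p)) ?_ ?_ ?_
    · intro p hp
      have h0 : (0 : ℝ) < ((p : ℕ) : ℝ) := by linarith [hone p]
      rw [norm_mul, hτn, one_mul]
      exact (inv_anti₀ (by positivity) (pow_le_pow_right₀ (hone p).le (by omega))).trans ((hloc p hp).2.1 (φ i))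
    · intro p hp
      have h0 : (0 : ℝ) < ((p : ℕ) : ℝ) := by linarith [hone p]
      have h4 := hq1 p hp
      have h5 : ‖v p‖ ≤ ((p : ℕ) : ℝ) ^ N' := (hloc p hp).1.trans (pow_le_pow_right₀ (hone p).le (by omega))
      have h6 : ‖(q : ℚ_[(p : ℕ)])‖ ≤ ((p : ℕ) : ℝ) ^ N' := by
        have e : (q : ℚ_[(p : ℕ)]) = ((q : ℚ_[(p : ℕ)]) - v p) + v p := by ring
        rw [e]
        refine (Padic.nonarchimedean _ _).trans (max_le ?_ h5)
        exact h4.trans (le_trans (inv_le_one_of_one_le₀ (one_le_pow₀ (hone p).le)) (one_le_pow₀ (hone p).le))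
      have h7 := lip2 (g (φ i)) T N' p hp (q : ℚ_[(p : ℕ)]) (v p) h6 h5 (by
        refine h4.trans (inv_anti₀ (by positivity) (pow_le_pow_right₀ (hone p).le ?_))
        rw [hE]
        have : (2 * (g (φ i)).natDegree + 3) * N' ≤ (2 * dm + 3) * N' := Nat.mul_le_mul_right _ (by have := hgdm (φ i); omega)
        omega)
      have e : ((|a| : ℚ) : ℚ_[(p : ℕ)]) - (τ : ℚ_[(p : ℕ)]) * PP g k (φ i) (v p) =
          (τ : ℚ_[(p : ℕ)]) * (aeval (q : ℚ_[(p : ℕ)]) (g (φ i)) - aeval (v p) (g (φ i))) := by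
        have e2 : ((aeval q (g (φ i)) : ℚ) : ℚ_[(p : ℕ)]) = aeval (q : ℚ_[(p : ℕ)]) (g (φ i)) := by
          have := aeval_algebraMap_apply ℚ_[(p : ℕ)] q (g (φ i))
          simp only [eq_ratCast] at this
          exact this.symm
        rw [hτa, ha]
        unfold PP
        push_cast
        rw [e2]
        ring
      rw [e, norm_mul, hτn, one_mul]
      exact h7
    · intro p hp
      have h4 := (hloc p hp).2.2 i
      have hττp : ((τ : ℤ) : ℚ_[(p : ℕ)]) * τ = 1 := by exact_mod_cast congrArg (fun z : ℤ => (z : ℚ_[(p : ℕ)])) hττ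
      rcases lt_or_gt_of_ne hcτ with hneg | hpos
      · have h5 : ∃ x : K i, Algebra.norm ℚ x = -1 := hsg.resolve_right (by omega)
        have h6 := h4.neg h5
        have h7 : (((c i * τ).natAbs : ℕ) : ℚ_[(p : ℕ)]) = -((c i * τ : ℤ) : ℚ_[(p : ℕ)]) := by
          have : (((c i * τ).natAbs : ℕ) : ℤ) = -(c i * τ) := by
            rw [Int.natCast_natAbs, abs_of_neg hneg]
          have h8 : ((((c i * τ).natAbs : ℕ) : ℤ) : ℚ_[(p : ℕ)]) = ((-(c i * τ) : ℤ) : ℚ_[(p : ℕ)]) := by rw [this]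
          rw [Int.cast_natCast] at h8
          rw [h8, Int.cast_neg]
        rw [h7]
        have e : -((c i * τ : ℤ) : ℚ_[(p : ℕ)]) * ((τ : ℚ_[(p : ℕ)]) * PP g k (φ i) (v p)) =
            -((c i : ℚ_[(p : ℕ)]) * PP g k (φ i) (v p)) := by
          push_cast
          linear_combination (-(c i : ℚ_[(p : ℕ)]) * PP g k (φ i) (v p)) * hττp
        rw [e]
        exact h6
      · have h7 : (((c i * τ).natAbs : ℕ) : ℚ_[(p : ℕ)]) = ((c i * τ : ℤ) : ℚ_[(p : ℕ)]) := by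
          have : (((c i * τ).natAbs : ℕ) : ℤ) = (c i * τ) := by
            rw [Int.natCast_natAbs, abs_of_pos hpos]
          have h8 : ((((c i * τ).natAbs : ℕ) : ℤ) : ℚ_[(p : ℕ)]) = ((c i * τ : ℤ) : ℚ_[(p : ℕ)]) := by rw [this]
          rw [Int.cast_natCast] at h8
          exact h8
        rw [h7]
        have e : ((c i * τ : ℤ) : ℚ_[(p : ℕ)]) * ((τ : ℚ_[(p : ℕ)]) * PP g k (φ i) (v p)) =
            ((c i : ℚ_[(p : ℕ)]) * PP g k (φ i) (v p)) := by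
          push_cast
          linear_combination ((c i : ℚ_[(p : ℕ)]) * PP g k (φ i) (v p)) * hττp
        rw [e]
        exact h4
  have hττq : ((τ : ℤ) : ℚ) * τ = 1 := by exact_mod_cast congrArg (fun z : ℤ => (z : ℚ)) hττ
  rw [← ha]
  rcases lt_or_gt_of_ne hcτ with hneg | hpos
  · have h2 : IsN (K i) (-1) := hsg.resolve_right (by omega)
    have h3 := h2.mul key
    have h4 : (((c i * τ).natAbs : ℕ) : ℚ) = -((c i * τ : ℤ) : ℚ) := by
      have : (((c i * τ).natAbs : ℕ) : ℤ) = -(c i * τ) := by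
        rw [Int.natCast_natAbs, abs_of_neg hneg]
      rw [← Int.cast_natCast (R := ℚ), this, Int.cast_neg]
    rw [h4, hτa] at h3
    have e : (-1 : ℚ) * (-((c i * τ : ℤ) : ℚ) * ((τ : ℚ) * a)) = (c i : ℚ) * a := by
      push_cast
      linear_combination ((c i : ℚ) * a) * hττq
    rwa [e] at h3
  · have h4 : (((c i * τ).natAbs : ℕ) : ℚ) = ((c i * τ : ℤ) : ℚ) := by
      have : (((c i * τ).natAbs : ℕ) : ℤ) = (c i * τ) := by
        rw [Int.natCast_natAbs, abs_of_pos hpos]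
      rw [← Int.cast_natCast (R := ℚ), this]
    rw [h4, hτa] at key
    have e : ((c i * τ : ℤ) : ℚ) * ((τ : ℚ) * a) = (c i : ℚ) * a := by
      push_cast
      linear_combination ((c i : ℚ) * a) * hττq
    rwa [e] at key

end Pool.Agent.R479.NF
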