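import Pool.Agent.R479.NF.Sv2

/-!
# Several norm equations over shifted polynomials: the real place, all coordinates
-/

set_option autoImplicit false
set_option linter.unusedSectionVars false

namespace Pool.Agent.R479.NF

open NumberField Module TensorProduct Finset Filter Polynomial
open Pool.Agent.TH204.HP (lip2)
open Pool.Agent.Y714.RC (PP)

variable (m : ℕ) [NeZero m] {L : Type} [Field L] [NumberField L] [IsCyclotomicExtension {m} ℚ L]
variable {ι : Type} {s : ℕ}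

/-- the rational point near the real point -/
def GlR (K : ι → IntermediateField ℚ L) (f : Fin s → ℤ[X]) (φ : ι → Fin s) (c : ι → ℤ)
    (T : Finset Nat.Primes) (N B X : ℕ) (k : Fin s → ℤ) (t : (p : Nat.Primes) → ℚ_[(p : ℕ)]) (tr : ℝ) : Prop :=
  ∃ q : ℚ, (∀ p ∈ T, ‖(q : ℚ_[(p : ℕ)]) - t p‖ ≤ (((p : ℕ) : ℝ) ^ N)⁻¹) ∧ B * |(q : ℝ) - tr| ≤ X ∧
    (∀ j, 0 < PP f k j (q : ℝ) * PP f k j tr) ∧ ∀ i, IsN (K i) ((c i : ℚ) * PP f k (φ i) q)

include m in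
theorem svT (K : ι → IntermediateField ℚ L) (hh : ∀ i, (classNumber (K i)).Coprime (finrank ℚ (K i)))
    (hs : ∀ i, Sgn (K i)) (f : Fin s → ℤ[X]) (hf : ∀ j, 1 ≤ (f j).natDegree) (φ : ι → Fin s)
    (c : ι → ℤ) (hc : ∀ i, c i ≠ 0) (T : Finset Nat.Primes)
    (hTm : ∀ p : Nat.Primes, (p : ℕ) ∣ m → p ∈ T) (hTc : ∀ i, Smooth T (c i).natAbs)
    (hT2 : ∀ p : Nat.Primes, (p : ℕ) ≤ ∑ j, (f j).natDegree → p ∈ T)
    (hT3 : ∀ p : Nat.Primes, (∃ j, ((p : ℕ) : ℤ) ∣ (f j).leadingCoeff) → p ∈ T) (N B U : ℕ) (hB : 1 ≤ B) :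
    ∃ X0 : ℕ, ∀ X : ℕ, X0 ≤ X → ∃ Bad : Finset (Fin s → ℤ), (#Bad : ℝ) ≤ (∏ j, (X : ℝ) ^ (f j).natDegree) / Real.log X ^ U ∧
      ∀ k : Fin s → ℤ, (∀ j, |k j| ≤ ((B * X ^ (f j).natDegree : ℕ) : ℤ)) → k ∉ Bad →
      ∀ (t : (p : Nat.Primes) → ℚ_[(p : ℕ)]) (tr : ℝ), LcS K f φ c T N k t → RcS K f φ c k tr →
        |tr| ≤ B * X → (∀ j, (X : ℝ) ^ (f j).natDegree ≤ B * |PP f k j tr|) →
        GlR K f φ c T N B X k t tr := by
  classical
  obtain ⟨B1, hB1, hreal⟩ := real_close f hf B hB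
  have hsv : ∀ σ : ℤ, (σ = 1 ∨ σ = -1) → ∃ Y0 : ℕ, ∀ Y : ℕ, Y0 ≤ Y → ∃ Bad : Finset (Fin s → ℤ),
      (#Bad : ℝ) ≤ (∏ j, (Y : ℝ) ^ (f j).natDegree) / Real.log Y ^ (U + 1) ∧
      ∀ k : Fin s → ℤ, (∀ j, |k j| ≤ ((B1 * Y ^ (f j).natDegree : ℕ) : ℤ)) → k ∉ Bad →
      ∀ (v : (p : Nat.Primes) → ℚ_[(p : ℕ)]) (vr : ℝ), LcS K (sf σ f) φ c T N k v → RcS K (sf σ f) φ c k vr →
        (Y : ℝ) ≤ B1 * vr → vr ≤ B1 * Y → (∀ j, (Y : ℝ) ^ (f j).natDegree ≤ B1 * |PP (sf σ f) k j vr|) →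
        GlS K (sf σ f) φ c T N B1 Y k v vr := by
    intro σ hσ
    have hσ0 : σ ≠ 0 := by rcases hσ with h | h <;> rw [h] <;> norm_num
    have hσu : IsUnit σ := by rcases hσ with h | h <;> rw [h] <;> decide
    have h := svP m K hh hs (sf σ f) (fun j => by rw [sf_deg σ hσ0]; exact hf j) φ c hc T hTm hTc (by
      intro p hp
      rw [sum_congr rfl (fun j _ => sf_deg σ hσ0 f j)] at hp
      exact hT2 p hp) (by
      rintro p ⟨j, h⟩
      rw [sf_lead σ hσ0] at h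
      have h1 : ((p : ℕ) : ℤ) ∣ (f j).leadingCoeff := by
        rcases (Nat.prime_iff_prime_int.1 p.2).dvd_or_dvd h with h | h
        · exact h
        · exact absurd ((Nat.prime_iff_prime_int.1 p.2).dvd_of_dvd_pow h) (fun h2 => (Nat.prime_iff_prime_int.1 p.2).not_unit (isUnit_of_dvd_unit h2 hσu))
      exact hT3 p ⟨j, h1⟩) N B1 (U + 1) (by omega)
    simp only [sf_deg σ hσ0 f] at h
    exact h
  obtain ⟨Y1, h1⟩ := hsv 1 (Or.inl rfl)
  obtain ⟨Y2, h2⟩ := hsv (-1) (Or.inr rfl)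
  obtain ⟨Y3, hY3⟩ := eventually_atTop.1 (Pool.Agent.TH204.WR.evt_log_ge 2)
  refine ⟨max (max Y1 Y2) (max Y3 1), fun X hX => ?_⟩
  obtain ⟨Ba, hBa1, hBa2⟩ := h1 X ((le_trans (le_max_left _ _) (le_max_left _ _)).trans hX)
  obtain ⟨Bb, hBb1, hBb2⟩ := h2 X ((le_trans (le_max_right _ _) (le_max_left _ _)).trans hX)
  have hL := hY3 X ((le_trans (le_max_left _ _) (le_max_right _ _)).trans hX)
  have hX1 : 1 ≤ X := (le_trans (le_max_right _ _) (le_max_right _ _)).trans hX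
  refine ⟨Ba ∪ Bb, ?_, fun k hk hkB t tr hloc hre htr hPr => ?_⟩
  · have h3 : (#(Ba ∪ Bb) : ℝ) ≤ (#Ba : ℝ) + #Bb := by exact_mod_cast card_union_le Ba Bb
    refine h3.trans ?_
    obtain ⟨P, hP⟩ : ∃ P : ℝ, P = ∏ j, (X : ℝ) ^ (f j).natDegree := ⟨_, rfl⟩
    rw [← hP] at hBa1 hBb1 ⊢
    have h5 : P / Real.log X ^ U = Real.log X * (P / Real.log X ^ (U + 1)) := by
      have : Real.log X ≠ 0 := by linarith
      rw [pow_succ]
      field_simp
    rw [h5]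
    have h6 : 0 ≤ P / Real.log X ^ (U + 1) := le_trans (Nat.cast_nonneg _) hBa1
    nlinarith
  rw [mem_union, not_or] at hkB
  have hone : ∀ p : Nat.Primes, (1 : ℝ) < ((p : ℕ) : ℝ) := fun p => by exact_mod_cast p.2.one_lt
  have hXr : (1 : ℝ) ≤ X := by exact_mod_cast hX1
  have hBr : (1 : ℝ) ≤ B := by exact_mod_cast hB
  have hB1r : (2 : ℝ) * B + 1 ≤ B1 := by exact_mod_cast hB1
  have hB10 : (0 : ℝ) < B1 := by linarith
  obtain ⟨σ, hσ, hσt, hG⟩ : ∃ σ : ℤ, (σ = 1 ∨ σ = -1) ∧ 0 ≤ (σ : ℝ) * tr ∧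
      ((∀ j, |k j| ≤ ((B1 * X ^ (f j).natDegree : ℕ) : ℤ)) →
      ∀ (v : (p : Nat.Primes) → ℚ_[(p : ℕ)]) (vr : ℝ), LcS K (sf σ f) φ c T N k v → RcS K (sf σ f) φ c k vr →
        (X : ℝ) ≤ B1 * vr → vr ≤ B1 * X → (∀ j, (X : ℝ) ^ (f j).natDegree ≤ B1 * |PP (sf σ f) k j vr|) →
        GlS K (sf σ f) φ c T N B1 X k v vr) := by
    rcases le_total 0 tr with h | h
    · exact ⟨1, Or.inl rfl, by simpa using h, fun hk => hBa2 k hk hkB.1⟩
    · exact ⟨-1, Or.inr rfl, by push_cast; linarith, fun hk => hBb2 k hk hkB.2⟩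
  have hσ0 : σ ≠ 0 := by rcases hσ with h | h <;> rw [h] <;> norm_num
  have hσF : ∀ (F : Type) [Field F], (σ : F) * σ = 1 := by
    intro F _
    rcases hσ with h | h <;> rw [h] <;> simp
  have hσa : |(σ : ℝ)| = 1 := by rcases hσ with h | h <;> rw [h] <;> simp
  obtain ⟨vr, hvr⟩ : ∃ vr : ℝ, vr = σ * tr + X / B1 := ⟨_, rfl⟩
  obtain ⟨tr', htr'⟩ : ∃ tr' : ℝ, tr' = σ * vr := ⟨_, rfl⟩
  have htt : tr' - tr = σ * (X / B1) := by
    rw [htr', hvr, mul_add, ← mul_assoc, hσF ℝ, one_mul]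
    ring
  have htt2 : |tr' - tr| = X / B1 := by
    rw [htt, abs_mul, hσa, one_mul, abs_of_nonneg (by positivity)]
  have hvabs : σ * tr = |tr| := by
    rw [← abs_of_nonneg hσt, abs_mul, hσa, one_mul]
  have hclose1 := hreal X hX1 k tr tr' htr hPr (by
    rw [htt2, mul_div_cancel₀ _ hB10.ne']
    linarith)
  have hPPv : ∀ j, PP (sf σ f) k j vr = PP f k j tr' := fun j => by rw [sf_PP, htr']
  have hPPp : ∀ (p : Nat.Primes) j, PP (sf σ f) k j ((σ : ℚ_[(p : ℕ)]) * t p) = PP f k j (t p) := fun p j => by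
    rw [sf_PP, ← mul_assoc, hσF ℚ_[(p : ℕ)], one_mul]
  -- the same signs, comparable sizes
  have hpos : ∀ j, 0 < PP f k j tr' * PP f k j tr ∧ |PP f k j tr| ≤ 2 * |PP f k j tr'| := by
    intro j
    obtain ⟨h3, h4⟩ := hclose1 j
    have h5 : |PP f k j tr' / PP f k j tr - 1| ≤ 1 / 2 := by
      refine h4.trans ?_
      apply one_div_le_one_div_of_le (by norm_num)
      have : (1 : ℝ) ≤ 2 ^ s := one_le_pow₀ (by norm_num)
      nlinarith
    rw [abs_le] at h5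
    have h6 : 1 / 2 ≤ PP f k j tr' / PP f k j tr := by linarith [h5.1]
    have h7 : PP f k j tr' * PP f k j tr = (PP f k j tr' / PP f k j tr) * PP f k j tr ^ 2 := by field_simp
    have h8 : 0 < PP f k j tr ^ 2 := by positivity
    refine ⟨by rw [h7]; nlinarith, ?_⟩
    have h9 : |PP f k j tr'| = |PP f k j tr' / PP f k j tr| * |PP f k j tr| := by
      rw [← abs_mul]
      congr 1
      field_simp
    rw [h9, abs_of_pos (by linarith : 0 < PP f k j tr' / PP f k j tr)]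
    nlinarith [abs_nonneg (PP f k j tr)]
  obtain ⟨q, hq1, hq2, hq3, hq4⟩ := hG (by
      intro j
      refine (hk j).trans ?_
      exact_mod_cast Nat.mul_le_mul_right _ (by omega : B ≤ B1)) (fun p => (σ : ℚ_[(p : ℕ)]) * t p) vr (by
      intro p hp
      obtain ⟨h3, h4, h5⟩ := hloc p hp
      refine ⟨?_, fun j => ?_, fun i => ?_⟩
      · rw [norm_mul]
        calc ‖(σ : ℚ_[(p : ℕ)])‖ * ‖t p‖ ≤ 1 * ((p : ℕ) : ℝ) ^ N :=
              mul_le_mul (Padic.norm_int_le_one σ) h3 (norm_nonneg _) zero_le_one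
          _ = _ := one_mul _
      · rw [hPPp]
        exact h4 j
      · rw [hPPp]
        exact h5 i) (by
      intro i
      rcases hre i with h | h
      · exact Or.inl h
      · right
        rw [hPPv]
        have h3 := (hpos (φ i)).1
        have h4 := mul_pos h h3
        have e : (c i : ℝ) * PP f k (φ i) tr * (PP f k (φ i) tr' * PP f k (φ i) tr) =
            ((c i : ℝ) * PP f k (φ i) tr') * PP f k (φ i) tr ^ 2 := by ring
        rw [e] at h4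
        by_contra h5
        have := mul_nonpos_of_nonpos_of_nonneg (not_lt.1 h5) (sq_nonneg (PP f k (φ i) tr))
        linarith) (by
      rw [hvr, mul_add, mul_div_cancel₀ _ hB10.ne']
      have : 0 ≤ B1 * (σ * tr) := mul_nonneg hB10.le hσt
      linarith) (by
      rw [hvr, hvabs]
      have h1 : (X : ℝ) / B1 ≤ X := div_le_self (by linarith) (by linarith)
      nlinarith) (by
      intro j
      rw [hPPv]
      refine (hPr j).trans ?_
      calc (B : ℝ) * |PP f k j tr| ≤ B * (2 * |PP f k j tr'|) := mul_le_mul_of_nonneg_left (hpos j).2 (by linarith)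
        _ = (2 * B) * |PP f k j tr'| := by ring
        _ ≤ B1 * |PP f k j tr'| := mul_le_mul_of_nonneg_right (by linarith) (abs_nonneg _))
  have hPPq : ∀ j, PP (sf σ f) k j q = PP f k j ((σ : ℚ) * q) := fun j => by rw [sf_PP]
  have hPPr : ∀ j, PP (sf σ f) k j (q : ℝ) = PP f k j (((σ : ℚ) * q : ℚ) : ℝ) := fun j => by
    rw [sf_PP]
    push_cast
    rfl
  refine ⟨(σ : ℚ) * q, fun p hp => ?_, ?_, fun j => ?_, fun i => ?_⟩
  · have h3 := hq1 p hp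
    have e : (((σ : ℚ) * q : ℚ) : ℚ_[(p : ℕ)]) - t p = (σ : ℚ_[(p : ℕ)]) * ((q : ℚ_[(p : ℕ)]) - (σ : ℚ_[(p : ℕ)]) * t p) := by
      rw [mul_sub, ← mul_assoc, hσF ℚ_[(p : ℕ)], one_mul]
      push_cast
      ring
    rw [e, norm_mul]
    exact (mul_le_of_le_one_left (norm_nonneg _) (Padic.norm_int_le_one σ)).trans h3
  · have e : (((σ : ℚ) * q : ℚ) : ℝ) - tr = σ * ((q : ℝ) - vr) + (tr' - tr) := by
      rw [htr']
      push_cast
      ring
    have h3 : |(((σ : ℚ) * q : ℚ) : ℝ) - tr| ≤ |(q : ℝ) - vr| + X / B1 := by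
      rw [e]
      refine (abs_add_le _ _).trans ?_
      rw [abs_mul, hσa, one_mul, htt2]
    have h4 : |(q : ℝ) - vr| ≤ X / B1 := by
      rw [le_div_iff₀ hB10]
      exact hq2
    calc (B : ℝ) * |(((σ : ℚ) * q : ℚ) : ℝ) - tr| ≤ B * (X / B1 + X / B1) := by
          apply mul_le_mul_of_nonneg_left _ (by linarith)
          linarith
      _ = (2 * B) * X / B1 := by ring
      _ ≤ X := by
          rw [div_le_iff₀ hB10]
          nlinarith
  · rw [← hPPr]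
    have h3 := hq3 j
    rw [hPPv] at h3
    have h4 := mul_pos h3 (hpos j).1
    have e : PP (sf σ f) k j (q : ℝ) * PP f k j tr' * (PP f k j tr' * PP f k j tr) =
        (PP (sf σ f) k j (q : ℝ) * PP f k j tr) * PP f k j tr' ^ 2 := by ring
    rw [e] at h4
    by_contra h5
    have := mul_nonpos_of_nonpos_of_nonneg (not_lt.1 h5) (sq_nonneg (PP f k j tr'))
    linarith
  · rw [← hPPq]
    exact hq4 i

variable {r : ℕ}

/-- the local points with all coordinates -/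
def LcZ (K : Fin r → IntermediateField ℚ L) (f : Fin s → ℤ[X]) (φ : Fin r → Fin s) (c : Fin r → ℤ)
    (T : Finset Nat.Primes) (N : ℕ) (k : Fin s → ℤ) (t : (p : Nat.Primes) → ℚ_[(p : ℕ)])
    (z : (p : Nat.Primes) → (i : Fin r) → Ap (K i) (p : ℕ)) : Prop :=
  ∀ p ∈ T, ‖t p‖ ≤ ((p : ℕ) : ℝ) ^ N ∧ (∀ j, (((p : ℕ) : ℝ) ^ N)⁻¹ ≤ ‖PP f k j (t p)‖) ∧
    ∀ i, Algebra.norm ℚ_[(p : ℕ)] (z p i) = (c i : ℚ_[(p : ℕ)]) * PP f k (φ i) (t p) ∧
      ∀ j, ‖cd (p : ℕ) (z p i) j‖ ≤ ((p : ℕ) : ℝ) ^ N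

/-- all coordinates for the cyclic fields -/
theorem sz_of (K : Fin r → IntermediateField ℚ L) (f : Fin s → ℤ[X]) (φ : Fin r → Fin s) (c : Fin r → ℤ)
    (hc : ∀ i, c i ≠ 0) (T : Finset Nat.Primes) (N B X E : ℕ)
    (hE : E = (2 * (∑ j, (f j).natDegree) + 3) * (2 * N + 2 * ∑ i, finrank ℚ (K i)) + 3) (k : Fin s → ℤ)
    (t : (p : Nat.Primes) → ℚ_[(p : ℕ)]) (z : (p : Nat.Primes) → (i : Fin r) → Ap (K i) (p : ℕ)) (tr : ℝ)
    (hloc : LcZ K f φ c T N k t z) (B' : ℕ) (hg : GlR K f φ c T E B' X k t tr) :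
    ∃ (q : ℚ) (y : (i : Fin r) → K i), (∀ j, 0 < PP f k j (q : ℝ) * PP f k j tr) ∧ B' * |(q : ℝ) - tr| ≤ X ∧
      (∀ i, Algebra.norm ℚ (y i) = (c i : ℚ) * PP f k (φ i) q) ∧
      ∀ p ∈ T, ‖(q : ℚ_[(p : ℕ)]) - t p‖ ≤ (((p : ℕ) : ℝ) ^ N)⁻¹ ∧
        ∀ i, IsGalois ℚ (K i) → (∃ σ : K i ≃ₐ[ℚ] K i, Gen σ) → ∀ j,
          ‖cd (p : ℕ) ((1 : ℚ_[(p : ℕ)]) ⊗ₜ[ℚ] (y i) : Ap (K i) (p : ℕ)) j - cd (p : ℕ) (z p i) j‖ ≤ (((p : ℕ) : ℝ) ^ N)⁻¹ := by
  classical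
  obtain ⟨q, hs3, hs1, hs2, hs4⟩ := hg
  obtain ⟨D, hD⟩ : ∃ D, D = ∑ i, finrank ℚ (K i) := ⟨_, rfl⟩
  rw [← hD] at hE
  obtain ⟨N3, hN3⟩ : ∃ N3, N3 = 2 * N + 2 * D := ⟨_, rfl⟩
  rw [← hN3] at hE
  obtain ⟨dm, hdm⟩ : ∃ dm, dm = ∑ j, (f j).natDegree := ⟨_, rfl⟩
  rw [← hdm] at hE
  have hgdm : ∀ j, (f j).natDegree ≤ dm := fun j => by
    rw [hdm]
    exact single_le_sum (f := fun j => (f j).natDegree) (fun _ _ => Nat.zero_le _) (mem_univ j)
  have hone : ∀ p : Nat.Primes, (1 : ℝ) < ((p : ℕ) : ℝ) := fun p => by exact_mod_cast p.2.one_lt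
  have hNE : N ≤ E := by
    rw [hE]
    nlinarith
  have hq0 : ∀ j, PP f k j q ≠ 0 := by
    intro j h0
    have h1 := hs2 j
    have e : PP f k j (q : ℝ) = ((PP f k j q : ℚ) : ℝ) := by
      unfold PP
      have e2 : ((aeval q (f j) : ℚ) : ℝ) = aeval (q : ℝ) (f j) := by
        have := aeval_algebraMap_apply ℝ q (f j)
        simp only [eq_ratCast] at this
        exact this.symm
      push_cast
      rw [e2]
    rw [e, h0, Rat.cast_zero, zero_mul] at h1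
    exact lt_irrefl _ h1
  have hlip : ∀ p ∈ T, ∀ j, ‖PP f k j (q : ℚ_[((p : Nat.Primes) : ℕ)]) - PP f k j (t p)‖ ≤ (((p : ℕ) : ℝ) ^ (3 * N3 + 3))⁻¹ := by
    intro p hp j
    have h1p := hone p
    have h0p : (0 : ℝ) < ((p : ℕ) : ℝ) := by linarith
    have ht : ‖t p‖ ≤ ((p : ℕ) : ℝ) ^ N3 := (hloc p hp).1.trans (pow_le_pow_right₀ h1p.le (by omega))
    have hst := hs3 p hp
    have hs : ‖(q : ℚ_[(p : ℕ)])‖ ≤ ((p : ℕ) : ℝ) ^ N3 := by
      have e : (q : ℚ_[(p : ℕ)]) = ((q : ℚ_[(p : ℕ)]) - t p) + t p := by ring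
      rw [e]
      refine (Padic.nonarchimedean _ _).trans (max_le ?_ ht)
      exact hst.trans (le_trans (inv_le_one_of_one_le₀ (one_le_pow₀ h1p.le)) (one_le_pow₀ h1p.le))
    have h5 := lip2 (f j) T N3 p hp (q : ℚ_[(p : ℕ)]) (t p) hs ht (by
      refine hst.trans (inv_anti₀ (by positivity) (pow_le_pow_right₀ h1p.le ?_))
      rw [hE]
      have : (2 * (f j).natDegree + 3) * N3 ≤ (2 * dm + 3) * N3 := Nat.mul_le_mul_right _ (by have := hgdm j; omega)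
      omega)
    unfold PP
    rw [add_sub_add_right_eq_sub]
    exact h5
  have hy : ∀ i, ∃ y : K i, Algebra.norm ℚ y = (c i : ℚ) * PP f k (φ i) q ∧
      ∀ p ∈ T, IsGalois ℚ (K i) → (∃ σ : K i ≃ₐ[ℚ] K i, Gen σ) → ∀ j,
        ‖cd (p : ℕ) ((1 : ℚ_[((p : Nat.Primes) : ℕ)]) ⊗ₜ[ℚ] y : Ap (K i) (p : ℕ)) j - cd (p : ℕ) (z p i) j‖ ≤ (((p : ℕ) : ℝ) ^ N)⁻¹ := by
    intro i
    by_cases hc' : IsGalois ℚ (K i) ∧ ∃ σ : K i ≃ₐ[ℚ] K i, Gen σ
    · obtain ⟨hgal, σ, hσ⟩ := hc'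
      have ha : (c i : ℚ) * PP f k (φ i) q ≠ 0 := mul_ne_zero (by exact_mod_cast hc i) (hq0 _)
      obtain ⟨y, hy1, hy2⟩ := wa_one hσ T N D (by
        rw [hD]
        exact single_le_sum (f := fun i => finrank ℚ (K i)) (fun _ _ => Nat.zero_le _) (mem_univ i)) _ ha (hs4 i)
        (fun p => (c i : ℚ_[(p : ℕ)]) * PP f k (φ i) (t p)) (fun p => z p i) (by
          intro p hp
          obtain ⟨h1, h2, h3⟩ := hloc p hp
          have h1p := hone p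
          have h0p : (0 : ℝ) < ((p : ℕ) : ℝ) := by linarith
          have hpN : (0 : ℝ) < (((p : ℕ) : ℝ) ^ N)⁻¹ := by positivity
          exact ⟨(h3 i).1, mul_ne_zero (by exact_mod_cast hc i) (norm_pos_iff.1 (hpN.trans_le (h2 _))), (h3 i).2⟩) (by
          intro p hp
          obtain ⟨h1, h2, h3⟩ := hloc p hp
          have h1p := hone p
          have h0p : (0 : ℝ) < ((p : ℕ) : ℝ) := by linarith
          have hpN : (0 : ℝ) < (((p : ℕ) : ℝ) ^ N)⁻¹ := by positivity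
          have e : (((c i : ℚ) * PP f k (φ i) q : ℚ) : ℚ_[(p : ℕ)]) - (c i : ℚ_[(p : ℕ)]) * PP f k (φ i) (t p) =
              (c i : ℚ_[(p : ℕ)]) * (PP f k (φ i) (q : ℚ_[(p : ℕ)]) - PP f k (φ i) (t p)) := by
            have e2 : ((PP f k (φ i) q : ℚ) : ℚ_[(p : ℕ)]) = PP f k (φ i) (q : ℚ_[(p : ℕ)]) := by
              unfold PP
              have e3 : ((aeval q (f (φ i)) : ℚ) : ℚ_[(p : ℕ)]) = aeval (q : ℚ_[(p : ℕ)]) (f (φ i)) := by
                have := aeval_algebraMap_apply ℚ_[(p : ℕ)] q (f (φ i))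
                simp only [eq_ratCast] at this
                exact this.symm
              push_cast
              rw [e3]
            rw [← e2]
            push_cast
            ring
          rw [e, norm_mul, norm_mul, mul_left_comm]
          apply mul_le_mul_of_nonneg_left _ (norm_nonneg _)
          refine (hlip p hp (φ i)).trans ?_
          calc (((p : ℕ) : ℝ) ^ (3 * N3 + 3))⁻¹ ≤ (((p : ℕ) : ℝ) ^ ((2 * N + 2 * D + 1) + N))⁻¹ := by
                apply inv_anti₀ (by positivity)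
                apply pow_le_pow_right₀ h1p.le
                omega
            _ = (((p : ℕ) : ℝ) ^ (2 * N + 2 * D + 1))⁻¹ * (((p : ℕ) : ℝ) ^ N)⁻¹ := by
                rw [pow_add _ (2 * N + 2 * D + 1), mul_inv]
            _ ≤ _ := mul_le_mul_of_nonneg_left (h2 _) (by positivity))
      exact ⟨y, hy1, fun p hp _ _ j => hy2 p hp j⟩
    · obtain ⟨y, hy⟩ := hs4 i
      exact ⟨y, hy, fun p _ h1 h2 => absurd ⟨h1, h2⟩ hc'⟩
  choose y hy1 hy2 using hy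
  refine ⟨q, y, hs2, hs1, hy1, fun p hp => ⟨(hs3 p hp).trans ?_, fun i h1 h2 j => hy2 i p hp h1 h2 j⟩⟩
  have h1p := hone p
  have h0p : (0 : ℝ) < ((p : ℕ) : ℝ) := by linarith
  exact inv_anti₀ (by positivity) (pow_le_pow_right₀ h1p.le hNE)

end Pool.Agent.R479.NF
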