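import Pool.Agent.Y714.RC.C2
import Pool.Agent.Y714.RC.C3

/-!
# Common exact divisibility of shifted polynomials, with exponents
(the proofs follow Pool/Agent/Y714/RC/C3)
-/

set_option autoImplicit false
set_option linter.unusedVariables false

namespace Pool.Agent.R479.NF

open Finset Polynomial
open Pool.Agent.Y714.RC (PerS card_full)
open Pool.Agent.H771R2.Dens (Big big_ap exists_exp_small)

/-- at some integer `t` the value number `j` has the valuation `w j` at `q`, for all `j` -/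
def HitW {s : ℕ} (f : Fin s → ℤ[X]) (q : ℕ) (w : Fin s → ℕ) (k : Fin s → ℤ) : Prop :=
  ∃ t : ℤ, ∀ j, (q : ℤ) ^ w j ∣ (f j).eval t + k j ∧ ¬ (q : ℤ) ^ (w j + 1) ∣ (f j).eval t + k j

lemma card_exE (q : ℕ) (hq : 2 ≤ q) (W w : ℕ) (hw : w ≤ W) (a : ℤ) :
    (q : ℝ) ^ (W + 1) / 2 * (1 / (q : ℝ) ^ w) ≤
      #((Ico (0 : ℤ) (q ^ (W + 1) : ℕ)).filter (fun x => (q : ℤ) ^ w ∣ a + x ∧ ¬ (q : ℤ) ^ (w + 1) ∣ a + x)) := by
  classical
  obtain ⟨v, rfl⟩ : ∃ v, W = w + v := ⟨W - w, by omega⟩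
  have h1 := card_full (q ^ w) (q ^ (v + 1)) (by positivity) a
  have h2 := card_full (q ^ (w + 1)) (q ^ v) (by positivity) a
  have e1 : q ^ w * q ^ (v + 1) = q ^ (w + v + 1) := by rw [← pow_add]; ring_nf
  have e2 : q ^ (w + 1) * q ^ v = q ^ (w + v + 1) := by rw [← pow_add]; ring_nf
  rw [e1] at h1
  rw [e2] at h2
  have h3 : (Ico (0 : ℤ) (q ^ (w + v + 1) : ℕ)).filter (fun x => ((q ^ w : ℕ) : ℤ) ∣ a + x) ⊆
      (Ico (0 : ℤ) (q ^ (w + v + 1) : ℕ)).filter (fun x => (q : ℤ) ^ w ∣ a + x ∧ ¬ (q : ℤ) ^ (w + 1) ∣ a + x) ∪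
      (Ico (0 : ℤ) (q ^ (w + v + 1) : ℕ)).filter (fun x => ((q ^ (w + 1) : ℕ) : ℤ) ∣ a + x) := by
    intro x hx
    rw [mem_filter] at hx
    rw [mem_union, mem_filter, mem_filter]
    push_cast at hx ⊢
    by_cases h : (q : ℤ) ^ (w + 1) ∣ a + x
    · exact Or.inr ⟨hx.1, h⟩
    · exact Or.inl ⟨hx.1, hx.2, h⟩
  have h4 := (card_le_card h3).trans (card_union_le _ _)
  rw [h1, h2] at h4
  have h5 : (q : ℝ) ^ (v + 1) ≤ #((Ico (0 : ℤ) (q ^ (w + v + 1) : ℕ)).filter (fun x => (q : ℤ) ^ w ∣ a + x ∧ ¬ (q : ℤ) ^ (w + 1) ∣ a + x)) + (q : ℝ) ^ v := by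
    exact_mod_cast h4
  have hqr : (2 : ℝ) ≤ q := by exact_mod_cast hq
  have hqv : (0 : ℝ) < (q : ℝ) ^ v := by positivity
  have h6 : (q : ℝ) ^ (w + v + 1) / 2 * (1 / (q : ℝ) ^ w) = (q : ℝ) ^ (v + 1) / 2 := by
    rw [add_assoc, pow_add (q : ℝ) w (v + 1)]
    field_simp
  rw [h6]
  have h7 : (q : ℝ) ^ v ≤ (q : ℝ) ^ (v + 1) / 2 := by
    rw [pow_succ]
    nlinarith
  linarith

open Classical in
/-- the local count -/
lemma hitW_per {s : ℕ} (f : Fin s → ℤ[X]) (q : ℕ) (hq : q.Prime) (β : Fin s) (w : Fin s → ℕ) (e : ℕ) (he : 1 ≤ e)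
    (hwβ : w β = e) (hwe : ∀ j, w j ≤ e) (hsum : ∑ j, w j = e + 1) (d : ℕ) (hd1 : 1 ≤ (f β).natDegree)
    (hd : (f β).natDegree ≤ d) (hl : ¬ (q : ℤ) ∣ (f β).leadingCoeff) (hqd : 2 * d < q) :
    PerS (fun k => ¬ HitW f q w k) (q ^ (e + 1)) (Real.exp (-(1 / (2 ^ (s + 1) * d * (q : ℝ))))) := by
  have hq0 : 0 < q := hq.pos
  have hq2 : 2 ≤ q := hq.two_le
  have hqp := Nat.prime_iff_prime_int.1 hq
  have hqr : (0 : ℝ) < q := by exact_mod_cast hq0
  have hdr : (0 : ℝ) < d := by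
    have : 0 < d := by omega
    exact_mod_cast this
  obtain ⟨e', he'⟩ : ∃ e', e = e' + 1 := ⟨e - 1, by omega⟩
  have hper : ∀ k k' : Fin s → ℤ, (∀ j, ((q ^ (e + 1) : ℕ) : ℤ) ∣ k j - k' j) → HitW f q w k → HitW f q w k' := by
    rintro k k' hk ⟨t, ht⟩
    refine ⟨t, fun j => ?_⟩
    have h1 := ht j
    have h2 := hk j
    push_cast at h2
    have h3 : (q : ℤ) ^ w j ∣ k j - k' j := (pow_dvd_pow _ (by have := hwe j; omega)).trans h2
    have h4 : (q : ℤ) ^ (w j + 1) ∣ k j - k' j := (pow_dvd_pow _ (by have := hwe j; omega)).trans h2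
    have e : (f j).eval t + k j = ((f j).eval t + k' j) + (k j - k' j) := by ring
    rw [e, Int.dvd_add_left h3, Int.dvd_add_left h4] at h1
    exact h1
  refine ⟨by positivity, fun k k' hk h h' => h (hper k' k (fun j => ?_) h'), ?_⟩
  · have := hk j
    rw [← dvd_neg] at this
    have e : k' j - k j = -(k j - k' j) := by ring
    rw [e]
    exact this
  obtain ⟨Bx, hBx⟩ : ∃ Bx, Bx = (Fintype.piFinset fun _ : Fin s => Ico (0 : ℤ) (q ^ (e + 1) : ℕ)) := ⟨_, rfl⟩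
  have hcard : (#Bx : ℝ) = ((q ^ (e + 1) : ℕ) : ℝ) ^ s := by
    rw [hBx, Fintype.card_piFinset, prod_const, card_univ, Fintype.card_fin, Int.card_Ico, sub_zero, Int.toNat_natCast]
    push_cast
    ring
  rw [← hBx]
  obtain ⟨Cd, hCd⟩ : ∃ Cd : ℤ → (Fin s → ℤ) → Prop, Cd = fun t k => ∀ j, (q : ℤ) ^ w j ∣ (f j).eval t + k j ∧ ¬ (q : ℤ) ^ (w j + 1) ∣ (f j).eval t + k j := ⟨_, rfl⟩
  have hlow : ∀ t : ℤ, ((q : ℝ) ^ (e + 1) / 2) ^ s / (q : ℝ) ^ (e + 1) ≤ #(Bx.filter (fun k => Cd t k)) := by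
    intro t
    have h1 : Bx.filter (fun k => Cd t k) = Fintype.piFinset fun j : Fin s => (Ico (0 : ℤ) (q ^ (e + 1) : ℕ)).filter (fun x =>
        (q : ℤ) ^ w j ∣ (f j).eval t + x ∧ ¬ (q : ℤ) ^ (w j + 1) ∣ (f j).eval t + x) := by
      ext k
      rw [mem_filter, hBx, Fintype.mem_piFinset, Fintype.mem_piFinset, hCd]
      simp only [mem_filter]
      exact ⟨fun h j => ⟨h.1 j, h.2 j⟩, fun h => ⟨fun j => (h j).1, fun j => (h j).2⟩⟩
    rw [h1, Fintype.card_piFinset]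
    push_cast
    have h2 : ((q : ℝ) ^ (e + 1) / 2) ^ s / (q : ℝ) ^ (e + 1) = ∏ j : Fin s, (((q : ℝ) ^ (e + 1) / 2) * (1 / (q : ℝ) ^ w j)) := by
      rw [prod_mul_distrib, prod_const, card_univ, Fintype.card_fin, prod_div_distrib, prod_const_one, prod_pow_eq_pow_sum, hsum]
      ring
    rw [h2]
    apply prod_le_prod
    · intro j _
      positivity
    · intro j _
      have := card_exE q hq2 e (w j) (hwe j) ((f j).eval t)
      push_cast at this
      exact this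
  -- the roots modulo `q` with a derivative prime to `q`
  obtain ⟨A0, hA0⟩ : ∃ A0 : Finset ℕ, A0 = (range q).filter (fun t : ℕ => ¬ (q : ℤ) ∣ (derivative (f β)).eval (t : ℤ)) := ⟨_, rfl⟩
  have hA0c : (q : ℝ) / 2 ≤ #A0 := by
    have h1 : #((range q).filter (fun t : ℕ => (q : ℤ) ∣ (derivative (f β)).eval (t : ℤ))) ≤ (f β).natDegree - 1 := by
      apply Pool.Agent.H373R2.T7.roots_le _ q hq ((f β).natDegree - 1)
      · exact natDegree_derivative_le _
      · rw [coeff_derivative, Nat.sub_add_cancel hd1]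
        intro h
        rcases hqp.dvd_or_dvd h with h | h
        · exact hl h
        · have h2 : (q : ℤ) ∣ ((f β).natDegree : ℤ) := by
            have e3 : (((f β).natDegree - 1 : ℕ) : ℤ) + 1 = ((f β).natDegree : ℤ) := by
              have : (f β).natDegree - 1 + 1 = (f β).natDegree := Nat.sub_add_cancel hd1
              exact_mod_cast this
            rw [e3] at h
            exact h
          have h3 : q ∣ (f β).natDegree := by exact_mod_cast h2
          have := Nat.le_of_dvd (by omega) h3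
          omega
    have h2 := card_filter_add_card_filter_not (s := range q) (fun t : ℕ => (q : ℤ) ∣ (derivative (f β)).eval (t : ℤ))
    rw [← hA0, card_range] at h2
    have h3 : q ≤ d + #A0 := by omega
    have h4 : (q : ℝ) ≤ d + #A0 := by exact_mod_cast h3
    have h5 : (2 : ℝ) * d < q := by exact_mod_cast hqd
    linarith
  -- double counting
  have hdc : ∑ x ∈ A0 ×ˢ range (q ^ e'), #(Bx.filter (fun k => Cd ((x.1 : ℤ) + q * x.2) k)) ≤ d * #(Bx.filter (fun k => HitW f q w k)) := by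
    have h1 : ∑ x ∈ A0 ×ˢ range (q ^ e'), #(Bx.filter (fun k => Cd ((x.1 : ℤ) + q * x.2) k)) =
        ∑ k ∈ Bx, #((A0 ×ˢ range (q ^ e')).filter (fun x : ℕ × ℕ => Cd ((x.1 : ℤ) + q * x.2) k)) := by
      simp_rw [card_filter]
      rw [sum_comm]
    rw [h1]
    have h2 : ∑ k ∈ Bx, #((A0 ×ˢ range (q ^ e')).filter (fun x : ℕ × ℕ => Cd ((x.1 : ℤ) + q * x.2) k)) =
        ∑ k ∈ Bx.filter (fun k => HitW f q w k), #((A0 ×ˢ range (q ^ e')).filter (fun x : ℕ × ℕ => Cd ((x.1 : ℤ) + q * x.2) k)) := by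
      symm
      apply sum_subset (filter_subset _ _)
      intro k hk hk'
      rw [card_eq_zero, filter_eq_empty_iff]
      intro x _ hx
      apply hk'
      rw [mem_filter]
      rw [hCd] at hx
      exact ⟨hk, ((x.1 : ℤ) + q * x.2), hx⟩
    rw [h2, mul_comm, ← smul_eq_mul, ← sum_const]
    apply sum_le_sum
    intro k _
    have h3 : #((A0 ×ˢ range (q ^ e')).filter (fun x : ℕ × ℕ => Cd ((x.1 : ℤ) + q * x.2) k)) ≤
        #((range q).filter (fun t : ℕ => (q : ℤ) ∣ ((f β) + C (k β)).eval (t : ℤ))) := by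
      apply card_le_card_of_injOn (fun x : ℕ × ℕ => x.1)
      · intro x hx
        rw [mem_coe, mem_filter, mem_product, hA0, mem_filter, hCd] at hx
        rw [mem_coe, mem_filter]
        refine ⟨hx.1.1.1, ?_⟩
        have h4 := (hx.2 β).1
        rw [hwβ] at h4
        have h5 : (q : ℤ) ∣ (f β).eval ((x.1 : ℤ) + q * x.2) + k β := (dvd_pow_self _ (by omega)).trans h4
        rw [eval_add, eval_C]
        have h6 : (q : ℤ) ∣ (f β).eval ((x.1 : ℤ) + q * x.2) - (f β).eval (x.1 : ℤ) := by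
          have h7 := (f β).sub_dvd_eval_sub ((x.1 : ℤ) + q * x.2) (x.1 : ℤ)
          rw [add_sub_cancel_left] at h7
          exact (dvd_mul_right _ _).trans h7
        have h8 := dvd_sub h5 h6
        have e9 : (f β).eval ((x.1 : ℤ) + q * x.2) + k β - ((f β).eval ((x.1 : ℤ) + q * x.2) - (f β).eval (x.1 : ℤ)) =
            (f β).eval (x.1 : ℤ) + k β := by ring
        rw [e9] at h8
        exact h8
      · intro x hx y hy hxy
        rw [mem_coe, mem_filter, mem_product, hA0, mem_filter, hCd] at hx hy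
        simp only at hxy
        have hx2 := (hx.2 β).1
        have hy2 := (hy.2 β).1
        rw [hwβ] at hx2 hy2
        rw [hxy] at hx2
        obtain ⟨G, hG⟩ := (f β).binomExpansion ((y.1 : ℤ) + q * y.2) ((q : ℤ) * ((x.2 : ℤ) - y.2))
        have ex : ((y.1 : ℤ) + q * y.2) + (q : ℤ) * ((x.2 : ℤ) - y.2) = (y.1 : ℤ) + q * x.2 := by ring
        rw [ex] at hG
        have h4 := dvd_sub hx2 hy2
        have e4 : (f β).eval ((y.1 : ℤ) + q * x.2) + k β - ((f β).eval ((y.1 : ℤ) + q * y.2) + k β) =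
            ((q : ℤ) * ((x.2 : ℤ) - y.2)) * ((derivative (f β)).eval ((y.1 : ℤ) + q * y.2) + G * ((q : ℤ) * ((x.2 : ℤ) - y.2))) := by
          rw [hG]
          ring
        rw [e4] at h4
        have h5 : ¬ (q : ℤ) ∣ (derivative (f β)).eval ((y.1 : ℤ) + q * y.2) + G * ((q : ℤ) * ((x.2 : ℤ) - y.2)) := by
          intro h6
          apply hy.1.1.2
          have h7 : (q : ℤ) ∣ G * ((q : ℤ) * ((x.2 : ℤ) - y.2)) := Dvd.dvd.mul_left (dvd_mul_right _ _) _
          have h8 := (Int.dvd_add_left h7).1 h6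
          have h9 : (q : ℤ) ∣ (derivative (f β)).eval ((y.1 : ℤ) + q * y.2) - (derivative (f β)).eval (y.1 : ℤ) := by
            have h10 := (derivative (f β)).sub_dvd_eval_sub ((y.1 : ℤ) + q * y.2) (y.1 : ℤ)
            rw [add_sub_cancel_left] at h10
            exact (dvd_mul_right _ _).trans h10
          have h11 := dvd_sub h8 h9
          have e9 : (derivative (f β)).eval ((y.1 : ℤ) + q * y.2) - ((derivative (f β)).eval ((y.1 : ℤ) + q * y.2) - (derivative (f β)).eval (y.1 : ℤ)) =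
              (derivative (f β)).eval (y.1 : ℤ) := by ring
          rw [e9] at h11
          exact h11
        have h6 : (q : ℤ) ^ e ∣ (q : ℤ) * ((x.2 : ℤ) - y.2) := by
          have h7 : IsCoprime ((q : ℤ) ^ e) ((derivative (f β)).eval ((y.1 : ℤ) + q * y.2) + G * ((q : ℤ) * ((x.2 : ℤ) - y.2))) :=
            IsCoprime.pow_left ((Prime.coprime_iff_not_dvd hqp).2 h5)
          exact h7.dvd_of_dvd_mul_right h4
        rw [he', pow_succ', mul_dvd_mul_iff_left hqp.ne_zero] at h6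
        have hxr := mem_range.1 hx.1.2
        have hyr := mem_range.1 hy.1.2
        have h7 : (x.2 : ℤ) - y.2 = 0 := by
          apply Int.eq_zero_of_abs_lt_dvd h6
          have h8 : (x.2 : ℤ) < (q : ℤ) ^ e' := by exact_mod_cast hxr
          have h9 : (y.2 : ℤ) < (q : ℤ) ^ e' := by exact_mod_cast hyr
          rw [abs_lt]
          constructor <;> omega
        have h8 : x.2 = y.2 := by omega
        exact Prod.ext hxy h8
    refine h3.trans ((Pool.Agent.H373R2.T7.roots_le _ q hq (f β).natDegree ?_ ?_).trans hd)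
    · refine (natDegree_add_le _ _).trans ?_
      rw [natDegree_C]
      simp
    · rw [coeff_add, coeff_C, if_neg (by omega), add_zero]
      exact hl
  have hsum' : ((q : ℝ) ^ e / 2) * (((q : ℝ) ^ (e + 1) / 2) ^ s / (q : ℝ) ^ (e + 1)) ≤ d * #(Bx.filter (fun k => HitW f q w k)) := by
    have h1 : (q : ℝ) ^ e / 2 ≤ #(A0 ×ˢ range (q ^ e')) := by
      rw [card_product, card_range]
      push_cast
      rw [he', pow_succ]
      calc (q : ℝ) ^ e' * q / 2 = (q / 2) * q ^ e' := by ring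
        _ ≤ #A0 * (q : ℝ) ^ e' := mul_le_mul_of_nonneg_right hA0c (by positivity)
    calc ((q : ℝ) ^ e / 2) * (((q : ℝ) ^ (e + 1) / 2) ^ s / (q : ℝ) ^ (e + 1))
        ≤ #(A0 ×ˢ range (q ^ e')) * (((q : ℝ) ^ (e + 1) / 2) ^ s / (q : ℝ) ^ (e + 1)) :=
          mul_le_mul_of_nonneg_right h1 (by positivity)
      _ = ∑ _x ∈ A0 ×ˢ range (q ^ e'), (((q : ℝ) ^ (e + 1) / 2) ^ s / (q : ℝ) ^ (e + 1)) := by
          rw [sum_const, nsmul_eq_mul]
      _ ≤ ∑ x ∈ A0 ×ˢ range (q ^ e'), (#(Bx.filter (fun k => Cd ((x.1 : ℤ) + q * x.2) k)) : ℝ) := sum_le_sum fun x _ => hlow _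
      _ ≤ _ := by exact_mod_cast hdc
  have hcomp := card_filter_add_card_filter_not (s := Bx) (fun k => HitW f q w k)
  have hcomp' : (#(Bx.filter (fun k => HitW f q w k)) : ℝ) + #(Bx.filter (fun k => ¬ HitW f q w k)) = ((q ^ (e + 1) : ℕ) : ℝ) ^ s := by
    rw [← hcard]
    exact_mod_cast hcomp
  have hq2s : (0 : ℝ) < ((q ^ (e + 1) : ℕ) : ℝ) ^ s := by positivity
  have hlow2 : ((q ^ (e + 1) : ℕ) : ℝ) ^ s * (1 / (2 ^ (s + 1) * d * (q : ℝ))) ≤ #(Bx.filter (fun k => HitW f q w k)) := by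
    rw [mul_one_div, div_le_iff₀ (by positivity)]
    have e5 : ((q : ℝ) ^ e / 2) * (((q : ℝ) ^ (e + 1) / 2) ^ s / (q : ℝ) ^ (e + 1)) = ((q ^ (e + 1) : ℕ) : ℝ) ^ s / (2 ^ (s + 1) * q) := by
      push_cast
      rw [div_pow, pow_succ (q : ℝ) e, pow_succ (2 : ℝ) s]
      field_simp
    rw [e5, div_le_iff₀ (by positivity)] at hsum'
    calc ((q ^ (e + 1) : ℕ) : ℝ) ^ s ≤ _ := hsum'
      _ = _ := by ring
  have hexp := Real.one_sub_le_exp_neg (1 / (2 ^ (s + 1) * d * (q : ℝ)))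
  have fin : (#(Bx.filter (fun k => ¬ HitW f q w k)) : ℝ) ≤ Real.exp (-(1 / (2 ^ (s + 1) * d * (q : ℝ)))) * ((q ^ (e + 1) : ℕ) : ℝ) ^ s := by
    calc (#(Bx.filter (fun k => ¬ HitW f q w k)) : ℝ) = ((q ^ (e + 1) : ℕ) : ℝ) ^ s - #(Bx.filter (fun k => HitW f q w k)) := by linarith
      _ ≤ ((q ^ (e + 1) : ℕ) : ℝ) ^ s - ((q ^ (e + 1) : ℕ) : ℝ) ^ s * (1 / (2 ^ (s + 1) * d * (q : ℝ))) := by linarith
      _ = (1 - 1 / (2 ^ (s + 1) * d * (q : ℝ))) * ((q ^ (e + 1) : ℕ) : ℝ) ^ s := by ring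
      _ ≤ _ := mul_le_mul_of_nonneg_right hexp hq2s.le
  convert fin

end Pool.Agent.R479.NF
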