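import Pool.Agent.R479.NF.Br4
import Pool.Agent.R479.NF.Sw1

/-!
# Auxiliary lemmas for products of shifted polynomials
-/

set_option autoImplicit false
set_option linter.unusedSectionVars false

namespace Pool.Agent.R479.NF

open NumberField Module TensorProduct Finset Filter Polynomial
open Pool.Agent.TH204.HP (gcd_facts prod_split mem_of_dvd_prod eval_shift int_norm_gt)
open Pool.Agent.H771R2.Dens (Big big_ap exists_exp_small)
open Pool.Agent.Y714.RC (PerS)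

variable (m : ℕ) [NeZero m] {L : Type} [Field L] [NumberField L] [IsCyclotomicExtension {m} ℚ L]
variable {r : ℕ}

/-- the properties of the integers `c` for the prime `q` -/
def CRP (m : ℕ) (T : Finset Nat.Primes) (M u0 : ℕ) (σ : ℤ) (q : Nat.Primes) : Prop :=
  ∀ j : ℕ, Nat.totient m ∣ j + 1 → ∀ B : ℕ,
      ∃ (c : ℤ) (l : Nat.Primes) (c1 : ℤ), B < (l : ℕ) ∧ l ≠ q ∧ c ≠ 0 ∧ 0 < σ * c ∧ (M : ℤ) ∣ c - u0 ∧
        c = ((q : ℕ) : ℤ) ^ j * c1 ∧ ¬ ((q : ℕ) : ℤ) ∣ c1 ∧ (l : ℕ) ≡ 1 [MOD m] ∧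
        ∀ p : Nat.Primes, ((p : ℕ) : ℤ) ∣ c → p ∈ T ∨ p = q ∨ p = l

lemma exists_cr2 (m : ℕ) [NeZero m] (T : Finset Nat.Primes) (E M u0 : ℕ) (hM : M = ∏ p ∈ T, (p : ℕ) ^ E) (hmM : m ∣ M)
    (σ : ℤ) (hσ : σ = 1 ∨ σ = -1) (hu : ∀ p ∈ T, ¬ (((p : ℕ) ^ E : ℕ) : ℤ) ∣ (u0 : ℤ)) :
    ∃ a : ZMod m, IsUnit a ∧ ∀ q : Nat.Primes, q ∉ T → ((q : ℕ) : ZMod m) = a → CRP m T M u0 σ q := by
  have hM0 : M ≠ 0 := by rw [hM]; exact prod_ne_zero_iff.2 fun p _ => pow_ne_zero _ p.2.ne_zero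
  obtain ⟨g, hg⟩ : ∃ g, g = Nat.gcd u0 M := ⟨_, rfl⟩
  have hgpos : 0 < g := by rw [hg]; exact Nat.gcd_pos_of_pos_right _ (Nat.pos_of_ne_zero hM0)
  have hgM : g ∣ M := by rw [hg]; exact Nat.gcd_dvd_right _ _
  obtain ⟨u1, hu1⟩ : g ∣ u0 := by rw [hg]; exact Nat.gcd_dvd_left _ _
  have hcop : Nat.Coprime u1 M := by
    rw [hM]
    apply Nat.Coprime.prod_right
    intro p hp
    apply Nat.Coprime.pow_right
    rw [Nat.coprime_comm, Nat.Prime.coprime_iff_not_dvd p.2]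
    intro hdiv
    obtain ⟨m', hm', -⟩ := prod_split T E p hp
    have h1 := (gcd_facts (u0 : ℤ) M p E m' p.2 (by rw [hM]; exact hm') hM0 (hu p hp)).2
    rw [Int.natAbs_natCast, ← hg] at h1
    apply h1
    rw [hu1]
    push_cast
    rw [Int.mul_ediv_cancel_left _ (by exact_mod_cast hgpos.ne')]
    exact_mod_cast hdiv
  haveI : NeZero M := ⟨hM0⟩
  have hσσ : σ * σ = 1 := by rcases hσ with h | h <;> rw [h] <;> norm_num
  have hunit : ∀ M' : ℕ, M' ∣ M → IsUnit ((σ * (u1 : ℤ) : ℤ) : ZMod M') := by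
    intro M' hM'
    have h1 : IsUnit ((u1 : ℕ) : ZMod M') := (ZMod.isUnit_iff_coprime u1 M').2 (hcop.coprime_dvd_right hM')
    push_cast
    refine IsUnit.mul ?_ (by exact_mod_cast h1)
    rcases hσ with h | h <;> rw [h]
    · simp
    · simp
  obtain ⟨a, ha⟩ := (hunit m hmM).exists_right_inv
  refine ⟨a, IsUnit.of_mul_eq_one_right _ ha, fun q hq hqa j hj B => ?_⟩
  have hqM : Nat.Coprime (q : ℕ) M := by
    rw [Nat.Prime.coprime_iff_not_dvd q.2, hM]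
    exact fun h => hq (mem_of_dvd_prod T E q h)
  have hqu : IsUnit ((q : ℕ) : ZMod M) := (ZMod.isUnit_iff_coprime _ M).2 hqM
  obtain ⟨w, hw⟩ := (hqu.pow j).exists_right_inv
  have hwu : IsUnit w := IsUnit.of_mul_eq_one_right _ hw
  obtain ⟨l, hl, hlp, hlM⟩ := Nat.forall_exists_prime_gt_and_eq_mod ((hunit M dvd_rfl).mul hwu) (B + q)
  have hkey : (l : ZMod M) * ((q : ℕ) : ZMod M) ^ j = ((σ * (u1 : ℤ) : ℤ) : ZMod M) := by
    rw [hlM, mul_assoc, mul_comm w, hw, mul_one]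
  have hkeyZ : (M : ℤ) ∣ (l : ℤ) * ((q : ℕ) : ℤ) ^ j - σ * u1 := by
    rw [← ZMod.intCast_zmod_eq_zero_iff_dvd]
    push_cast
    push_cast at hkey
    rw [hkey, sub_self]
  have hqm : Nat.Coprime (q : ℕ) m := hqM.coprime_dvd_right hmM
  have hl1 : l ≡ 1 [MOD m] := by
    rw [← ZMod.natCast_eq_natCast_iff]
    have h1 : ((l : ℤ) * ((q : ℕ) : ℤ) ^ j - σ * u1 : ℤ) = ((0 : ℤ) : ZMod m) := by
      rw [Int.cast_zero, ZMod.intCast_zmod_eq_zero_iff_dvd]
      exact (Int.natCast_dvd_natCast.2 hmM).trans hkeyZ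
    have h2 : ((q : ℕ) : ZMod m) ^ (j + 1) = 1 := by
      obtain ⟨e, he⟩ := hj
      rw [he, pow_mul]
      have h3 : ((q : ℕ) : ZMod m) ^ Nat.totient m = 1 := by
        have := Nat.ModEq.pow_totient hqm
        rw [← ZMod.natCast_eq_natCast_iff] at this
        push_cast at this
        exact this
      rw [h3, one_pow]
    push_cast at h1 ha
    have h3 : (l : ZMod m) * ((q : ℕ) : ZMod m) ^ j = (σ : ZMod m) * u1 := by
      linear_combination h1
    have h4 : (l : ZMod m) * ((q : ℕ) : ZMod m) ^ (j + 1) = (σ : ZMod m) * u1 * a := by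
      rw [pow_succ, ← mul_assoc, h3, hqa]
    rw [h2, mul_one, ha] at h4
    rw [h4]
    simp
  have hlq : (q : ℕ) < l := by omega
  have hgq : ¬ ((q : ℕ) : ℤ) ∣ (g : ℤ) := by
    intro h
    have h2 : (q : ℕ) ∣ g := by exact_mod_cast h
    have h3 := (Nat.Prime.coprime_iff_not_dvd q.2).1 hqM
    exact h3 (h2.trans hgM)
  have hqp := Nat.prime_iff_prime_int.1 q.2
  have hσd : ∀ p : Nat.Primes, ¬ ((p : ℕ) : ℤ) ∣ σ := by
    intro p h
    have hpp := Nat.prime_iff_prime_int.1 p.2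
    have h4 : ((p : ℕ) : ℤ) ∣ 1 := by
      rcases hσ with h5 | h5 <;> rw [h5] at h
      · exact h
      · exact (dvd_neg).1 h
    exact hpp.not_dvd_one h4
  have hqpos : (0 : ℤ) < ((q : ℕ) : ℤ) := by exact_mod_cast q.2.pos
  refine ⟨((q : ℕ) : ℤ) ^ j * (σ * (g * l)), ⟨l, hlp⟩, σ * (g * l), by show B < l; omega, ?_, ?_, ?_, ?_, rfl, ?_, hl1, ?_⟩
  · rintro rfl
    exact lt_irrefl _ hlq
  · have h1 : (g : ℤ) ≠ 0 := by exact_mod_cast hgpos.ne'
    have h2 : (l : ℤ) ≠ 0 := by exact_mod_cast hlp.ne_zero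
    have h3 : σ ≠ 0 := by rcases hσ with h | h <;> rw [h] <;> norm_num
    exact mul_ne_zero (pow_ne_zero _ hqpos.ne') (mul_ne_zero h3 (mul_ne_zero h1 h2))
  · have h1 : (0 : ℤ) < g := by exact_mod_cast hgpos
    have h2 : (0 : ℤ) < l := by exact_mod_cast hlp.pos
    have e : σ * (((q : ℕ) : ℤ) ^ j * (σ * (g * l))) = (σ * σ) * (((q : ℕ) : ℤ) ^ j * (g * l)) := by ring
    rw [e, hσσ, one_mul]
    positivity
  · have e : ((q : ℕ) : ℤ) ^ j * (σ * (g * l)) - (u0 : ℤ) = σ * g * ((l : ℤ) * ((q : ℕ) : ℤ) ^ j - σ * u1) := by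
      rw [hu1]
      push_cast
      linear_combination ((g : ℤ) * u1) * hσσ
    rw [e]
    exact hkeyZ.mul_left _
  · intro h
    rcases hqp.dvd_or_dvd h with h | h
    · exact hσd q h
    · rcases hqp.dvd_or_dvd h with h | h
      · exact hgq h
      · have h2 : (q : ℕ) ∣ l := by exact_mod_cast h
        have := (Nat.prime_dvd_prime_iff_eq q.2 hlp).1 h2
        omega
  · intro p hp
    have hpp := Nat.prime_iff_prime_int.1 p.2
    rcases hpp.dvd_or_dvd hp with h | h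
    · right
      left
      have h2 : (p : ℕ) ∣ (q : ℕ) := by exact_mod_cast hpp.dvd_of_dvd_pow h
      exact Subtype.ext ((Nat.prime_dvd_prime_iff_eq p.2 q.2).1 h2)
    · rcases hpp.dvd_or_dvd h with h | h
      · exact absurd h (hσd p)
      · rcases hpp.dvd_or_dvd h with h1 | h1
        · left
          have h2 : (p : ℕ) ∣ g := by exact_mod_cast h1
          have h3 : (p : ℕ) ∣ ∏ q ∈ T, (q : ℕ) ^ E := by rw [← hM]; exact h2.trans hgM
          exact mem_of_dvd_prod T E p h3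
        · right
          right
          have h2 : (p : ℕ) ∣ l := by exact_mod_cast h1
          exact Subtype.ext ((Nat.prime_dvd_prime_iff_eq p.2 hlp).1 h2)

include m in
/-- numbers whose valuation is divisible by the exponent are norms -/
lemma val_norm (K : Fin r → IntermediateField ℚ L) (hh : ∀ i, (classNumber (K i)).Coprime (finrank ℚ (K i)))
    (hs : ∀ i, Sgn (K i)) (i : Fin r) {q : ℕ} [hq : Fact q.Prime] (hqm : ¬ q ∣ m) (x : ℚ_[q]) (w : ℕ)
    (hx : ‖x‖ = ((q : ℝ) ^ (ex K * w))⁻¹) : IsNp (K i) q x := by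
  have hq0 : (q : ℚ_[q]) ≠ 0 := by exact_mod_cast hq.out.ne_zero
  have hqr : (0 : ℝ) < q := by exact_mod_cast hq.out.pos
  obtain ⟨u, hu⟩ : ∃ u : ℚ_[q], u = x * (((q : ℚ_[q]) ^ w) ^ ex K)⁻¹ := ⟨_, rfl⟩
  have hun : ‖u‖ = 1 := by
    rw [hu, norm_mul, norm_inv, norm_pow, norm_pow, Padic.norm_p, hx, ← pow_mul, inv_pow, inv_inv, mul_comm w,
      inv_mul_cancel₀ (by positivity)]
  have e : x = u * ((q : ℚ_[q]) ^ w) ^ ex K := by
    rw [hu]
    field_simp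
  rw [e]
  exact (unit_norm m (K i) (hh i) (hs i) hqm u hun).mul (isNp_ex K i _)

/-- almost all shifts have the given valuations at some auxiliary prime -/
lemma hit_set (m : ℕ) [NeZero m] (u : ZMod m) (hu : IsUnit u) {s : ℕ} (f : Fin s → ℤ[X]) (hf : ∀ j, 1 ≤ (f j).natDegree) (Kb : ℕ)
    (hK : ∀ j, ∀ q : ℕ, q.Prime → (q : ℤ) ∣ (f j).leadingCoeff → q ≤ Kb) (hK2 : 2 * (1 + ∑ j, (f j).natDegree) ≤ Kb)
    (β : Fin s) (w : Fin s → ℕ) (e : ℕ) (he : 1 ≤ e) (hwβ : w β = e) (hwe : ∀ j, w j ≤ e) (hsum : ∑ j, w j = e + 1)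
    (δ : ℝ) (hδ : 0 < δ) :
    ∃ F : Finset Nat.Primes, (∀ q ∈ F, Kb < (q : ℕ) ∧ ((q : ℕ) : ZMod m) = u) ∧
      PerS (fun k => ∀ q ∈ F, ¬ HitW f q w k) (∏ q ∈ F, (q : ℕ) ^ (e + 1)) δ := by
  classical
  obtain ⟨d, hd⟩ : ∃ d, d = 1 + ∑ j, (f j).natDegree := ⟨_, rfl⟩
  have hd1 : ∀ j, (f j).natDegree ≤ d := by
    intro j
    have h1 : (f j).natDegree ≤ ∑ j, (f j).natDegree := single_le_sum (f := fun j => (f j).natDegree) (fun _ _ => Nat.zero_le _) (mem_univ j)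
    omega
  have hdr : (1 : ℝ) ≤ d := by
    have : 1 ≤ d := by omega
    exact_mod_cast this
  obtain ⟨F0, hF0, hsum'⟩ := ((big_ap hu).large Kb) (-(2 ^ (s + 1) * d) * Real.log δ)
  refine ⟨F0.subtype Nat.Prime, ?_, ?_⟩
  · intro q hq
    obtain ⟨-, h1, h2⟩ := hF0 q (Finset.mem_subtype.1 hq)
    exact ⟨h2, h1⟩
  have h1 := PerS.forall (F0.subtype Nat.Prime) (fun (q : Nat.Primes) k => ¬ HitW f q w k) (fun q => (q : ℕ) ^ (e + 1))
    (fun q => Real.exp (-(1 / (2 ^ (s + 1) * d * (((q : ℕ)) : ℝ)))))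
    (fun q hq => hitW_per f q q.2 β w e he hwβ hwe hsum d (hf β) (hd1 β) (fun h => by
      have h3 := hK β q q.2 h
      have h4 := (hF0 q (Finset.mem_subtype.1 hq)).2.2
      omega) (by
      have h4 := (hF0 q (Finset.mem_subtype.1 hq)).2.2
      omega)) (fun _ _ => (Real.exp_pos _).le) (by
      intro p hp q hq hpq
      apply Nat.Coprime.pow
      exact (Nat.coprime_primes p.2 q.2).2 (fun h3 => hpq (Subtype.ext h3)))
  apply h1.mono
  rw [← Real.exp_sum, ← Real.le_log_iff_exp_le hδ]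
  have h5 : ∑ q ∈ F0.subtype Nat.Prime, -(1 / (2 ^ (s + 1) * d * (((q : ℕ)) : ℝ))) =
      ∑ q ∈ F0.filter Nat.Prime, -(1 / (2 ^ (s + 1) * d * (q : ℝ))) :=
    sum_subtype_eq_sum_filter (fun q : ℕ => -(1 / (2 ^ (s + 1) * d * (q : ℝ))))
  rw [h5, filter_true_of_mem (fun r hr => (hF0 r hr).1)]
  have e : ∑ q ∈ F0, -(1 / (2 ^ (s + 1) * d * (q : ℝ))) = -(1 / (2 ^ (s + 1) * d)) * ∑ q ∈ F0, 1 / (q : ℝ) := by
    rw [mul_sum]
    apply sum_congr rfl
    intro q _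
    field_simp
  rw [e]
  have h2 : (0 : ℝ) < 2 ^ (s + 1) * d := by positivity
  have h3 : -(1 / (2 ^ (s + 1) * (d : ℝ))) * ∑ q ∈ F0, 1 / (q : ℝ) ≤ -(1 / (2 ^ (s + 1) * (d : ℝ))) * (-(2 ^ (s + 1) * d) * Real.log δ) := by
    apply mul_le_mul_of_nonpos_left hsum'
    rw [neg_nonpos]
    positivity
  refine h3.trans (le_of_eq ?_)
  field_simp

/-- disjoint choices -/
lemma disj_fam {I : Type} [DecidableEq I] (S : Finset I) (P : I → Finset Nat.Primes → Prop) (K0 : ℕ)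
    (h : ∀ x ∈ S, ∀ Kb : ℕ, K0 ≤ Kb → ∃ F : Finset Nat.Primes, (∀ q ∈ F, Kb < (q : ℕ)) ∧ P x F) :
    ∃ F : I → Finset Nat.Primes, (∀ x ∈ S, P x (F x)) ∧ ∀ x ∈ S, ∀ y ∈ S, x ≠ y → ∀ q ∈ F x, q ∉ F y := by
  induction S using Finset.induction_on with
  | empty => exact ⟨fun _ => ∅, by simp, by simp⟩
  | insert a S ha ih =>
    obtain ⟨F, h1, h2⟩ := ih (fun x hx => h x (mem_insert_of_mem hx))
    obtain ⟨Fa, h3, h4⟩ := h a (mem_insert_self _ _) (K0 + ∑ x ∈ S, ∑ q ∈ F x, (q : ℕ)) (by omega)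
    have h5 : ∀ x ∈ S, ∀ q ∈ F x, q ∉ Fa := by
      intro x hx q hq hqa
      have h6 := h3 q hqa
      have h7 : (q : ℕ) ≤ ∑ q ∈ F x, (q : ℕ) := single_le_sum (f := fun q : Nat.Primes => (q : ℕ)) (fun _ _ => Nat.zero_le _) hq
      have h8 : ∑ q ∈ F x, (q : ℕ) ≤ ∑ x ∈ S, ∑ q ∈ F x, (q : ℕ) :=
        single_le_sum (f := fun x => ∑ q ∈ F x, (q : ℕ)) (fun _ _ => Nat.zero_le _) hx
      omega
    have hne : ∀ x ∈ S, x ≠ a := fun x hx h => ha (h ▸ hx)
    refine ⟨Function.update F a Fa, ?_, ?_⟩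
    · intro x hx
      rcases mem_insert.1 hx with rfl | hx
      · rw [Function.update_self]
        exact h4
      · rw [Function.update_of_ne (hne x hx)]
        exact h1 x hx
    · intro x hx y hy hxy q hq
      by_cases hxa : x = a
      · rw [hxa, Function.update_self] at hq
        have hya : y ≠ a := fun h => hxy (hxa.trans h.symm)
        have hyS : y ∈ S := (mem_insert.1 hy).resolve_left hya
        rw [Function.update_of_ne hya]
        exact fun h6 => h5 y hyS q h6 hq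
      · have hxS : x ∈ S := (mem_insert.1 hx).resolve_left hxa
        rw [Function.update_of_ne hxa] at hq
        by_cases hya : y = a
        · rw [hya, Function.update_self]
          exact h5 x hxS q hq
        · have hyS : y ∈ S := (mem_insert.1 hy).resolve_left hya
          rw [Function.update_of_ne hya]
          exact h2 x hxS y hyS hxy q hq

end Pool.Agent.R479.NF
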