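import Pool.Agent.R479.NF.Sw2
import Pool.Agent.R479.NF.Sv3

/-!
# Products of shifted polynomials: local lemmas
-/

set_option autoImplicit false
set_option linter.unusedSectionVars false

namespace Pool.Agent.R479.NF

open NumberField Module TensorProduct Finset Filter Polynomial
open Pool.Agent.TH204.HP (aeval_int)
open Pool.Agent.Y714.RC (PP)

variable (m : ℕ) [NeZero m] {L : Type} [Field L] [NumberField L] [IsCyclotomicExtension {m} ℚ L]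
variable {r s e : ℕ}

/-- the indices of the factors of one product -/
def blk (ψ : Fin s → Fin e) (y : Fin e) : Finset (Fin s) := univ.filter (fun j => ψ j = y)

/-- the local data -/
def LcX (K : Fin r → IntermediateField ℚ L) (f : Fin s → ℤ[X]) (ψ : Fin s → Fin e) (φ : Fin r → Fin e) (c : Fin r → ℤ)
    (T : Finset Nat.Primes) (N : ℕ) (k : Fin s → ℤ) (t : (p : Nat.Primes) → ℚ_[(p : ℕ)]) : Prop :=
  ∀ p ∈ T, ‖t p‖ ≤ ((p : ℕ) : ℝ) ^ N ∧ (∀ j, (((p : ℕ) : ℝ) ^ N)⁻¹ ≤ ‖PP f k j (t p)‖) ∧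
    ∀ i, IsNp (K i) (p : ℕ) ((c i : ℚ_[(p : ℕ)]) * ∏ j ∈ blk ψ (φ i), PP f k j (t p))

/-- the signs -/
def RcX (K : Fin r → IntermediateField ℚ L) (f : Fin s → ℤ[X]) (ψ : Fin s → Fin e) (φ : Fin r → Fin e) (c : Fin r → ℤ)
    (k : Fin s → ℤ) (tr : ℝ) : Prop :=
  ∀ i, (∃ x : K i, Algebra.norm ℚ x = -1) ∨ 0 < (c i : ℝ) * ∏ j ∈ blk ψ (φ i), PP f k j tr

/-- the rational point -/
def GlX (K : Fin r → IntermediateField ℚ L) (f : Fin s → ℤ[X]) (ψ : Fin s → Fin e) (φ : Fin r → Fin e) (c : Fin r → ℤ)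
    (T : Finset Nat.Primes) (N B X : ℕ) (k : Fin s → ℤ) (t : (p : Nat.Primes) → ℚ_[(p : ℕ)]) (tr : ℝ) : Prop :=
  ∃ q : ℚ, (∀ p ∈ T, ‖(q : ℚ_[(p : ℕ)]) - t p‖ ≤ (((p : ℕ) : ℝ) ^ N)⁻¹) ∧ B * |(q : ℝ) - tr| ≤ X ∧
    (∀ j, 0 < PP f k j (q : ℝ) * PP f k j tr) ∧ ∀ i, IsN (K i) ((c i : ℚ) * ∏ j ∈ blk ψ (φ i), PP f k j q)

/-- the valuations at the auxiliary prime -/
def wt (n : ℕ) (ψ : Fin s → Fin e) (β : Fin e → Fin s) (j : Fin s) : Fin s → ℕ :=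
  fun x => if x = β (ψ j) then n - 1 else if x = j then 1 else 0

lemma norm_exact {p : ℕ} [hp : Fact p.Prime] (w : ℕ) (a : ℤ) (h1 : (p : ℤ) ^ w ∣ a) (h2 : ¬ (p : ℤ) ^ (w + 1) ∣ a) :
    ‖(a : ℚ_[p])‖ = ((p : ℝ) ^ w)⁻¹ := by
  obtain ⟨b, rfl⟩ := h1
  have hb : ¬ (p : ℤ) ∣ b := by
    intro h
    apply h2
    rw [pow_succ]
    exact mul_dvd_mul_left _ h
  have hbn : ‖(b : ℚ_[p])‖ = 1 := by
    refine le_antisymm (Padic.norm_int_le_one _) ?_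
    by_contra h
    exact hb (Padic.norm_intCast_lt_one_iff.1 (not_le.1 h))
  push_cast
  rw [norm_mul, norm_pow, Padic.norm_p, hbn, mul_one, inv_pow]

lemma norm_one_int {p : ℕ} [hp : Fact p.Prime] (a : ℤ) (h : ¬ (p : ℤ) ∣ a) : ‖(a : ℚ_[p])‖ = 1 := by
  refine le_antisymm (Padic.norm_int_le_one _) ?_
  by_contra h'
  exact h (Padic.norm_intCast_lt_one_iff.1 (not_le.1 h'))

lemma PP_int {F : Type} [Field F] (f : Fin s → ℤ[X]) (k : Fin s → ℤ) (j : Fin s) (t : ℤ) :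
    PP f k j (t : F) = (((f j).eval t + k j : ℤ) : F) := by
  unfold PP
  rw [aeval_int]
  push_cast
  rfl

lemma root_T {p : ℕ} [hp : Fact p.Prime] (n N H E D : ℕ) (hn : 2 ≤ n) (hNH : N ≤ H) (hE : 2 * (n * H) + 2 * n + 1 ≤ E)
    (hD : ‖(D : ℚ_[p])‖ = ((p : ℝ) ^ H)⁻¹) (g : ℚ_[p]) (hg : ((p : ℝ) ^ N)⁻¹ ≤ ‖g‖) (c : ℤ) (hc0 : c ≠ 0)
    (hc : ‖(c : ℚ_[p]) - ((D : ℚ_[p]) ^ n) * g ^ (n - 1)‖ ≤ ((p : ℝ) ^ E)⁻¹) :
    ∃ s : ℚ_[p], s ≠ 0 ∧ (c : ℚ_[p]) * g = s ^ n := by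
  have h1p : (1 : ℝ) < p := by exact_mod_cast hp.out.one_lt
  have h0p : (0 : ℝ) < p := by linarith
  have hD0 : (D : ℚ_[p]) ≠ 0 := by
    intro h
    rw [h, norm_zero] at hD
    have : (0 : ℝ) < ((p : ℝ) ^ H)⁻¹ := by positivity
    linarith
  have hg0 : g ≠ 0 := by
    intro h
    rw [h, norm_zero] at hg
    have : (0 : ℝ) < ((p : ℝ) ^ N)⁻¹ := by positivity
    linarith
  obtain ⟨y, hy⟩ : ∃ y, y = (D : ℚ_[p]) ^ n * g ^ (n - 1) := ⟨_, rfl⟩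
  have hy0 : y ≠ 0 := by rw [hy]; exact mul_ne_zero (pow_ne_zero _ hD0) (pow_ne_zero _ hg0)
  have hyn : ((p : ℝ) ^ (2 * (n * H)))⁻¹ ≤ ‖y‖ := by
    rw [hy, norm_mul, norm_pow, norm_pow, hD]
    calc ((p : ℝ) ^ (2 * (n * H)))⁻¹ = (((p : ℝ) ^ H)⁻¹) ^ n * (((p : ℝ) ^ H)⁻¹) ^ n := by
          rw [← pow_add, inv_pow, ← pow_mul]
          congr 2
          ring
      _ ≤ (((p : ℝ) ^ H)⁻¹) ^ n * ‖g‖ ^ (n - 1) := by
          apply mul_le_mul_of_nonneg_left _ (by positivity)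
          calc (((p : ℝ) ^ H)⁻¹) ^ n ≤ (((p : ℝ) ^ H)⁻¹) ^ (n - 1) :=
                pow_le_pow_of_le_one (by positivity) (inv_le_one_of_one_le₀ (one_le_pow₀ h1p.le)) (by omega)
            _ ≤ _ := pow_le_pow_left₀ (by positivity) ((inv_anti₀ (by positivity) (pow_le_pow_right₀ h1p.le hNH)).trans hg) _
  have hnn : ((p : ℝ) ^ n)⁻¹ < ‖((n : ℕ) : ℚ_[p])‖ := natCast_norm_gt n (by omega)
  rw [← hy] at hc
  obtain ⟨s, hs⟩ := root_near n (c : ℚ_[p]) y hy0 (by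
    calc ‖(c : ℚ_[p]) - y‖ ≤ ((p : ℝ) ^ E)⁻¹ := hc
      _ ≤ ((p : ℝ) ^ (2 * n + 2 * (n * H)))⁻¹ := by
          apply inv_anti₀ (by positivity)
          apply pow_le_pow_right₀ h1p.le
          omega
      _ = (((p : ℝ) ^ n)⁻¹) ^ 2 * ((p : ℝ) ^ (2 * (n * H)))⁻¹ := by
          rw [pow_add, mul_inv, pow_mul', inv_pow]
      _ < ‖((n : ℕ) : ℚ_[p])‖ ^ 2 * ‖y‖ :=
          mul_lt_mul (pow_lt_pow_left₀ hnn (by positivity) (by norm_num)) hyn (by positivity) (by positivity))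
  refine ⟨D * g * s, ?_, ?_⟩
  · have hs0 : s ≠ 0 := by
      rintro rfl
      rw [zero_pow (by omega), mul_zero] at hs
      exact hc0 (by exact_mod_cast hs)
    exact mul_ne_zero (mul_ne_zero hD0 hg0) hs0
  · rw [hs, hy, mul_pow, mul_pow]
    have h6 : g ^ n = g ^ (n - 1) * g := by
      rw [← pow_succ]
      congr 1
      omega
    rw [h6]
    ring

lemma alg_T {F : Type} [Field F] (n : ℕ) (hn : 1 ≤ n) (A : Finset (Fin s)) (g cc S : Fin s → F) (c gb : F)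
    (h : ∀ j ∈ A, cc j * g j = S j ^ n) (hcc : ∀ j ∈ A, cc j ≠ 0) (hS : ∀ j ∈ A, S j ≠ 0) :
    c * (∏ j ∈ A, cc j) ^ (n - 1) * gb = (c * (gb * ∏ j ∈ A, g j)) * (∏ j ∈ A, cc j / S j) ^ n := by
  have h1 : (∏ j ∈ A, cc j) ^ (n - 1) = (∏ j ∈ A, g j) * (∏ j ∈ A, cc j / S j) ^ n := by
    rw [← prod_pow, ← prod_pow, ← prod_mul_distrib]
    apply prod_congr rfl
    intro j hj
    have h2 := h j hj
    have h3 := hcc j hj
    have h4 := hS j hj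
    have h5 : cc j ^ n = cc j ^ (n - 1) * cc j := by
      rw [← pow_succ]
      congr 1
      omega
    have h6 : g j ≠ 0 := by
      intro h0
      rw [h0, mul_zero] at h2
      exact pow_ne_zero n h4 h2.symm
    rw [div_pow, ← h2, h5]
    field_simp
  rw [h1]
  ring

lemma sgn_base (ci gb P Q : ℝ) (n : ℕ) (hn : Even n) (hn2 : 2 ≤ n) (h1 : 0 < ci * (gb * P)) (h2 : 0 < Q * P) :
    0 < ci * Q ^ (n - 1) * gb := by
  obtain ⟨m', rfl⟩ := hn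
  have hQ : Q ≠ 0 := by
    rintro rfl
    simp at h2
  have hP : P ≠ 0 := by
    rintro rfl
    simp at h2
  have h3 := mul_pos h1 h2
  have e : ci * Q ^ (m' + m' - 1) * gb = ((ci * (gb * P)) * (Q * P)) * ((Q ^ (m' - 1)) ^ 2 / P ^ 2) := by
    have e1 : Q ^ (m' + m' - 1) = (Q ^ (m' - 1)) ^ 2 * Q := by
      rw [← pow_mul, ← pow_succ]
      congr 1
      omega
    rw [e1]
    field_simp
  rw [e]
  positivity

lemma isN_prod {K : Type} [Field K] [NumberField K] (A : Finset (Fin s)) (g : Fin s → ℚ) (h : ∀ j ∈ A, IsN K (g j)) :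
    IsN K (∏ j ∈ A, g j) := by
  classical
  induction A using Finset.induction_on with
  | empty => exact ⟨1, by simp⟩
  | insert a A ha ih =>
    rw [prod_insert ha]
    exact (h a (mem_insert_self _ _)).mul (ih fun j hj => h j (mem_insert_of_mem hj))

end Pool.Agent.R479.NF
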