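import Pool.Agent.R479.NF.Sw3

/-!
# Products of shifted polynomials: one set of auxiliary data
-/

set_option autoImplicit false
set_option linter.unusedSectionVars false

namespace Pool.Agent.R479.NF

open NumberField Module TensorProduct Finset Filter Polynomial
open Pool.Agent.TH204.HP (aeval_int norm_D)
open Pool.Agent.Y714.RC (PP)

variable (m : ℕ) [NeZero m] {L : Type} [Field L] [NumberField L] [IsCyclotomicExtension {m} ℚ L]
variable {r s e : ℕ}

include m in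
theorem lemA (K : Fin r → IntermediateField ℚ L) (hh : ∀ i, (classNumber (K i)).Coprime (finrank ℚ (K i)))
    (hs : ∀ i, Sgn (K i)) (f : Fin s → ℤ[X]) (hf : ∀ j, 1 ≤ (f j).natDegree) (ψ : Fin s → Fin e) (φ : Fin r → Fin e)
    (β : Fin e → Fin s) (hβ : ∀ y, ψ (β y) = y) (c : Fin r → ℤ) (hc : ∀ i, c i ≠ 0) (T : Finset Nat.Primes)
    (hT : ∀ p : Nat.Primes, ((p : ℕ) ≤ ∑ j, (f j).natDegree ∨ (p : ℕ) ∣ m ∨
      (∃ j, ((p : ℕ) : ℤ) ∣ (f j).leadingCoeff) ∨ ∃ i, ((p : ℕ) : ℤ) ∣ c i) → p ∈ T)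
    (N H D2 E M : ℕ) (hNH : N ≤ H) (hD2 : D2 = ∏ p ∈ T, (p : ℕ) ^ (ex K * H))
    (hE : 2 * (ex K * H) + 2 * ex K + 1 ≤ E)
    (u0 : Fin s → ℕ) (σ : Fin s → ℤ) (hσ : ∀ j, σ j = 1 ∨ σ j = -1) (q : Fin s → Nat.Primes)
    (hqT : ∀ j, j ≠ β (ψ j) → q j ∉ T) (hqi : ∀ j, j ≠ β (ψ j) → ∀ j', j' ≠ β (ψ j') → q j = q j' → j = j')
    (hCR : ∀ j, j ≠ β (ψ j) → CRP m T M (u0 j) (σ j) (q j)) (B U : ℕ) (hB : 1 ≤ B) :
    ∃ X1 : ℕ, ∀ X : ℕ, X1 ≤ X → ∃ Bad : Finset (Fin s → ℤ), (#Bad : ℝ) ≤ (∏ j, (X : ℝ) ^ (f j).natDegree) / Real.log X ^ U ∧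
      ∀ k : Fin s → ℤ, (∀ j, |k j| ≤ ((B * X ^ (f j).natDegree : ℕ) : ℤ)) → k ∉ Bad →
        (∀ j, j ≠ β (ψ j) → HitW f (q j) (wt (ex K) ψ β j) k) →
        ∀ (t : (p : Nat.Primes) → ℚ_[(p : ℕ)]) (tr : ℝ), LcX K f ψ φ c T N k t → RcX K f ψ φ c k tr →
        |tr| ≤ B * X → (∀ j, (X : ℝ) ^ (f j).natDegree ≤ B * |PP f k j tr|) →
        (∀ j, 0 < (σ j : ℝ) * PP f k j tr) →
        (∀ j, ∀ w : ℤ, ∀ p ∈ T, ‖(((u0 j : ℤ) + M * w : ℤ) : ℚ_[(p : ℕ)]) - D2 * (PP f k j (t p)) ^ (ex K - 1)‖ ≤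
          (((p : ℕ) : ℝ) ^ E)⁻¹) →
        GlX K f ψ φ c T N B X k t tr := by
  classical
  obtain ⟨n, hn⟩ : ∃ n, n = ex K := ⟨_, rfl⟩
  rw [← hn] at hD2 hE
  have hn2 : 2 ≤ n := by rw [hn]; exact ex_ge K
  have hneven : Even n := by rw [hn]; exact ex_even K
  have hm0 : m ≠ 0 := NeZero.ne m
  have hone : ∀ p : Nat.Primes, (1 : ℝ) < ((p : ℕ) : ℝ) := fun p => by exact_mod_cast p.2.one_lt
  have hφ : 0 < Nat.totient m := Nat.totient_pos.2 (Nat.pos_of_ne_zero hm0)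
  obtain ⟨e2, he2⟩ : ∃ e2, e2 = Nat.totient m := ⟨_, rfl⟩
  obtain ⟨jj, hjj⟩ : ∃ jj, jj + 1 = n * e2 := ⟨n * e2 - 1, by
    have : 1 ≤ n * e2 := Nat.one_le_iff_ne_zero.2 (mul_ne_zero (by omega) (by omega))
    omega⟩
  have hjφ : Nat.totient m ∣ jj + 1 := by
    rw [hjj, he2]
    exact dvd_mul_left _ _
  have hch : ∀ j : Fin s, ∃ (c : ℤ) (l : Nat.Primes) (c1 : ℤ), j ≠ β (ψ j) →
        (∑ p ∈ T, (p : ℕ)) + ∑ x, (q x : ℕ) < (l : ℕ) ∧ l ≠ q j ∧ c ≠ 0 ∧ 0 < σ j * c ∧ (M : ℤ) ∣ c - u0 j ∧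
        c = ((q j : ℕ) : ℤ) ^ jj * c1 ∧ ¬ ((q j : ℕ) : ℤ) ∣ c1 ∧ (l : ℕ) ≡ 1 [MOD m] ∧
        ∀ p : Nat.Primes, ((p : ℕ) : ℤ) ∣ c → p ∈ T ∨ p = q j ∨ p = l := by
    intro j
    by_cases hj : j ≠ β (ψ j)
    · obtain ⟨c, l, c1, h⟩ := hCR j hj jj hjφ ((∑ p ∈ T, (p : ℕ)) + ∑ x, (q x : ℕ))
      exact ⟨c, l, c1, fun _ => h⟩
    · exact ⟨0, ⟨2, Nat.prime_two⟩, 0, fun h => absurd h hj⟩
  choose cc l c1 hcc using hch
  have hlT : ∀ j, j ≠ β (ψ j) → l j ∉ T := by
    intro j hj h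
    have h1 := (hcc j hj).1
    have h2 := single_le_sum (f := fun p : Nat.Primes => (p : ℕ)) (fun _ _ => Nat.zero_le _) h
    omega
  have hlq : ∀ j, j ≠ β (ψ j) → ∀ j', q j' ≠ l j := by
    intro j hj j' h
    have h1 := (hcc j hj).1
    have h2 := single_le_sum (f := fun x => (q x : ℕ)) (fun _ _ => Nat.zero_le _) (mem_univ j')
    simp only [h] at h2
    omega
  -- the blocks
  have hbm : ∀ y, β y ∈ blk ψ y := fun y => by
    unfold blk
    rw [mem_filter]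
    exact ⟨mem_univ _, hβ y⟩
  have hmb : ∀ y j, j ∈ (blk ψ y).erase (β y) ↔ ψ j = y ∧ j ≠ β (ψ j) := by
    intro y j
    unfold blk
    rw [mem_erase, mem_filter]
    constructor
    · rintro ⟨h1, -, h2⟩
      exact ⟨h2, by rw [h2]; exact h1⟩
    · rintro ⟨h1, h2⟩
      rw [h1] at h2
      exact ⟨h2, mem_univ _, h1⟩
  -- the set of primes
  obtain ⟨J, hJ⟩ : ∃ J : Finset (Fin s), J = univ.filter (fun j => j ≠ β (ψ j)) := ⟨_, rfl⟩
  obtain ⟨T2, hT2⟩ : ∃ T2 : Finset Nat.Primes, T2 = T ∪ (J.image q ∪ J.image l) := ⟨_, rfl⟩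
  have hT2m : ∀ p, p ∈ T2 ↔ p ∈ T ∨ (∃ j, j ≠ β (ψ j) ∧ q j = p) ∨ ∃ j, j ≠ β (ψ j) ∧ l j = p := by
    intro p
    rw [hT2, mem_union, mem_union, mem_image, mem_image, hJ]
    simp only [mem_filter, mem_univ, true_and]
  -- the coefficients
  obtain ⟨C, hC⟩ : ∃ C : Fin r → ℤ, C = fun i => c i * (∏ j ∈ (blk ψ (φ i)).erase (β (φ i)), cc j) ^ (n - 1) := ⟨_, rfl⟩
  obtain ⟨c', hc'⟩ : ∃ c' : {x : Fin r × Fin s // ψ x.2 = φ x.1} → ℤ,
    c' = fun x => if x.1.2 = β (ψ x.1.2) then C x.1.1 else cc x.1.2 := ⟨_, rfl⟩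
  have hc'b : ∀ x : {x : Fin r × Fin s // ψ x.2 = φ x.1}, x.1.2 = β (ψ x.1.2) → c' x = C x.1.1 := by
    intro x hx
    rw [hc']
    exact if_pos hx
  have hc'n : ∀ x : {x : Fin r × Fin s // ψ x.2 = φ x.1}, x.1.2 ≠ β (ψ x.1.2) → c' x = cc x.1.2 := by
    intro x hx
    rw [hc']
    exact if_neg hx
  have hprod0 : ∀ i, ∏ j ∈ (blk ψ (φ i)).erase (β (φ i)), cc j ≠ 0 := fun i =>
    prod_ne_zero_iff.2 fun j hj => (hcc j ((hmb _ _).1 hj).2).2.2.1
  have hC0 : ∀ i, C i ≠ 0 := by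
    intro i
    rw [hC]
    exact mul_ne_zero (hc i) (pow_ne_zero _ (hprod0 i))
  have hc'0 : ∀ x, c' x ≠ 0 := by
    intro x
    by_cases hx : x.1.2 = β (ψ x.1.2)
    · rw [hc'b x hx]
      exact hC0 _
    · rw [hc'n x hx]
      exact (hcc _ hx).2.2.1
  have hccT : ∀ j, j ≠ β (ψ j) → ∀ p : Nat.Primes, ((p : ℕ) : ℤ) ∣ cc j → p ∈ T2 := by
    intro j hj p hp
    rw [hT2m]
    rcases (hcc j hj).2.2.2.2.2.2.2.2 p hp with h | h | h
    · exact Or.inl h
    · exact Or.inr (Or.inl ⟨j, hj, h.symm⟩)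
    · exact Or.inr (Or.inr ⟨j, hj, h.symm⟩)
  have hTT2 : T ⊆ T2 := by
    rw [hT2]
    exact subset_union_left
  have hTc : ∀ x, Smooth T2 (c' x).natAbs := by
    intro x
    refine ⟨Int.natAbs_ne_zero.2 (hc'0 x), fun p hp => ?_⟩
    have hpp := Nat.prime_iff_prime_int.1 p.2
    have hp' := Int.natCast_dvd.2 hp
    by_cases hx : x.1.2 = β (ψ x.1.2)
    · rw [hc'b x hx, hC] at hp'
      rcases hpp.dvd_or_dvd hp' with h | h
      · exact hTT2 (hT p (Or.inr (Or.inr (Or.inr ⟨_, h⟩))))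
      · obtain ⟨j, hj, hj2⟩ := hpp.exists_mem_finset_dvd (hpp.dvd_of_dvd_pow h)
        exact hccT j ((hmb _ _).1 hj).2 p hj2
    · rw [hc'n x hx] at hp'
      exact hccT _ hx p hp'
  obtain ⟨N2, hN2⟩ : ∃ N2, N2 = N + n := ⟨_, rfl⟩
  obtain ⟨X1, hX1⟩ := svT m (fun x : {x : Fin r × Fin s // ψ x.2 = φ x.1} => K x.1.1) (fun x => hh _) (fun x => hs _) f hf
    (fun x => x.1.2) c' hc'0 T2 (fun p hp => hTT2 (hT p (Or.inr (Or.inl hp)))) hTc (fun p hp => hTT2 (hT p (Or.inl hp)))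
    (fun p hp => hTT2 (hT p (Or.inr (Or.inr (Or.inl hp))))) N2 B U hB
  refine ⟨X1, fun X hX => ?_⟩
  obtain ⟨Bad, hB1, hB2⟩ := hX1 X hX
  refine ⟨Bad, hB1, fun k hk hkB hhit t tr hloc hre htr hPr hσt hu0 => ?_⟩
  obtain ⟨D, hD⟩ : ∃ D, D = ∏ p ∈ T, (p : ℕ) ^ H := ⟨_, rfl⟩
  have hDD : D2 = D ^ n := by
    rw [hD2, hD, ← prod_pow]
    apply prod_congr rfl
    intro p _
    rw [← pow_mul, mul_comm]
  -- norms at the auxiliary primes
  have hccq : ∀ j, j ≠ β (ψ j) → ∀ j', j' ≠ β (ψ j') → ‖(cc j' : ℚ_[(q j : ℕ)])‖ = if j' = j then (((q j : ℕ) : ℝ) ^ jj)⁻¹ else 1 := by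
    intro j hj j' hj'
    have hqp := Nat.prime_iff_prime_int.1 (q j).2
    by_cases h : j' = j
    · rw [if_pos h, h]
      obtain ⟨-, -, -, -, -, h1, h2, -⟩ := hcc j hj
      refine norm_exact jj (cc j) (Dvd.intro _ h1.symm) ?_
      rw [h1, pow_succ]
      intro h3
      exact h2 (Int.dvd_of_mul_dvd_mul_left (pow_ne_zero _ hqp.ne_zero) h3)
    · rw [if_neg h]
      apply norm_one_int
      intro h1
      rcases (hcc j' hj').2.2.2.2.2.2.2.2 (q j) h1 with h2 | h2 | h2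
      · exact hqT j hj h2
      · exact h (hqi j hj j' hj' h2).symm
      · exact hlq j' hj' j h2
  -- the family of local points
  have hfam : ∀ p : Nat.Primes, ∃ v' : ℚ_[(p : ℕ)], (p ∈ T → v' = t p) ∧ (p ∈ T2 → ‖v'‖ ≤ ((p : ℕ) : ℝ) ^ N2 ∧
      (∀ j, (((p : ℕ) : ℝ) ^ N2)⁻¹ ≤ ‖PP f k j v'‖) ∧
      ∀ x : {x : Fin r × Fin s // ψ x.2 = φ x.1}, IsNp (K x.1.1) (p : ℕ) ((c' x : ℚ_[(p : ℕ)]) * PP f k x.1.2 v')) := by
    intro p
    have h1p := hone p
    have h0p : (0 : ℝ) < ((p : ℕ) : ℝ) := by linarith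
    by_cases hp : p ∈ T
    · obtain ⟨ha, hb, hd⟩ := hloc p hp
      refine ⟨t p, fun _ => rfl, fun _ => ⟨?_, fun j => ?_, fun x => ?_⟩⟩
      · exact ha.trans (pow_le_pow_right₀ h1p.le (by omega))
      · exact (inv_anti₀ (by positivity) (pow_le_pow_right₀ h1p.le (by omega))).trans (hb j)
      · have hroot : ∀ j, ∃ S : ℚ_[(p : ℕ)], j ≠ β (ψ j) → S ≠ 0 ∧ (cc j : ℚ_[(p : ℕ)]) * PP f k j (t p) = S ^ n := by
          intro j
          by_cases hj : j ≠ β (ψ j)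
          · obtain ⟨S, h1, h2⟩ := root_T n N H E D hn2 hNH (by omega) (by rw [hD]; exact norm_D T H p hp) (PP f k j (t p)) (hb j) (cc j)
              (hcc j hj).2.2.1 (by
              obtain ⟨w, hw⟩ := (hcc j hj).2.2.2.2.1
              have h1 := hu0 j w p hp
              have e3 : (u0 j : ℤ) + (M : ℤ) * w = cc j := by linarith
              rw [e3, hDD, ← hn] at h1
              push_cast at h1
              exact h1)
            exact ⟨S, fun _ => ⟨h1, h2⟩⟩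
          · exact ⟨0, fun h => absurd h hj⟩
        choose S hS using hroot
        by_cases hx : x.1.2 = β (ψ x.1.2)
        · rw [hc'b x hx, hC]
          have hx2 : x.1.2 = β (φ x.1.1) := by rw [← x.2]; exact hx
          have h1 := alg_T n (by omega) ((blk ψ (φ x.1.1)).erase (β (φ x.1.1))) (fun j => PP f k j (t p))
            (fun j => (cc j : ℚ_[(p : ℕ)])) S (c x.1.1 : ℚ_[(p : ℕ)]) (PP f k x.1.2 (t p))
            (fun j hj => (hS j ((hmb _ _).1 hj).2).2) (fun j hj => by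
              have := (hcc j ((hmb _ _).1 hj).2).2.2.1
              exact_mod_cast this) (fun j hj => (hS j ((hmb _ _).1 hj).2).1)
          push_cast
          rw [h1]
          have h2 := hd x.1.1
          rw [← mul_prod_erase _ _ (hbm (φ x.1.1)), ← hx2] at h2
          rw [← hx2] at *
          rw [hn]
          exact h2.mul (isNp_ex K _ _)
        · rw [hc'n x hx, (hS _ hx).2, hn]
          exact isNp_ex K _ _
    · by_cases hq' : ∃ j, j ≠ β (ψ j) ∧ q j = p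
      · obtain ⟨j, hj, rfl⟩ := hq'
        obtain ⟨t0, ht0⟩ := hhit j hj
        have hqm : ¬ ((q j : ℕ) ∣ m) := fun h => hp (hT _ (Or.inr (Or.inl h)))
        have hPPn : ∀ x, ‖PP f k x (t0 : ℚ_[(q j : ℕ)])‖ = (((q j : ℕ) : ℝ) ^ wt (ex K) ψ β j x)⁻¹ := by
          intro x
          rw [PP_int]
          exact norm_exact _ _ (ht0 x).1 (ht0 x).2
        rw [← hn] at hPPn
        refine ⟨(t0 : ℚ_[(q j : ℕ)]), fun h => absurd h hp, fun _ => ⟨?_, fun x => ?_, fun x => ?_⟩⟩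
        · exact (Padic.norm_int_le_one _).trans (one_le_pow₀ h1p.le)
        · rw [hPPn]
          apply inv_anti₀ (by positivity)
          apply pow_le_pow_right₀ h1p.le
          unfold wt
          split_ifs <;> omega
        · have hci : ‖(c x.1.1 : ℚ_[(q j : ℕ)])‖ = 1 := norm_one_int _ (fun h => hp (hT _ (Or.inr (Or.inr (Or.inr ⟨_, h⟩)))))
          by_cases hx : x.1.2 = β (ψ x.1.2)
          · rw [hc'b x hx, hC]
            push_cast
            have hx2 : x.1.2 = β (φ x.1.1) := by rw [← x.2]; exact hx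
            have h1 : ‖∏ j' ∈ (blk ψ (φ x.1.1)).erase (β (φ x.1.1)), (cc j' : ℚ_[(q j : ℕ)])‖ =
                if j ∈ (blk ψ (φ x.1.1)).erase (β (φ x.1.1)) then (((q j : ℕ) : ℝ) ^ jj)⁻¹ else 1 := by
              rw [norm_prod, prod_congr rfl (fun j' hj' => hccq j hj j' ((hmb _ _).1 hj').2), prod_ite_eq']
            by_cases hy : ψ j = φ x.1.1
            · refine val_norm m K hh hs x.1.1 hqm _ (e2 * (n - 1)) ?_
              rw [norm_mul, norm_mul, norm_pow, hci, one_mul, h1, if_pos ((hmb _ _).2 ⟨hy, hj⟩), hPPn]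
              have h2 : wt n ψ β j x.1.2 = n - 1 := by
                unfold wt
                rw [if_pos (by rw [hy]; exact hx2)]
              rw [h2, ← hn, inv_pow, ← mul_inv, ← pow_mul, ← pow_add]
              congr 2
              obtain ⟨n', hn'⟩ : ∃ n', n = n' + 1 := ⟨n - 1, by omega⟩
              have h3 : n - 1 = n' := by omega
              rw [h3, ← mul_assoc, ← hjj]
              ring
            · refine val_norm m K hh hs x.1.1 hqm _ 0 ?_
              have h2 : wt n ψ β j x.1.2 = 0 := by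
                unfold wt
                rw [if_neg, if_neg]
                · intro h3
                  apply hy
                  rw [← h3]
                  exact x.2
                · intro h3
                  apply hy
                  rw [← x.2, h3, hβ]
              rw [norm_mul, norm_mul, norm_pow, hci, one_mul, h1, if_neg (fun h => hy ((hmb _ _).1 h).1), hPPn, h2]
              simp
          · rw [hc'n x hx]
            by_cases hxj : x.1.2 = j
            · refine val_norm m K hh hs x.1.1 hqm _ e2 ?_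
              have h2 : wt n ψ β j x.1.2 = 1 := by
                unfold wt
                rw [if_neg (by rw [hxj]; exact hj), if_pos hxj]
              rw [norm_mul, hccq j hj _ hx, if_pos hxj, hPPn, h2, ← mul_inv, ← pow_add, hjj, hn]
            · refine val_norm m K hh hs x.1.1 hqm _ 0 ?_
              have h2 : wt n ψ β j x.1.2 = 0 := by
                unfold wt
                rw [if_neg, if_neg hxj]
                intro h3
                apply hx
                have h4 : ψ x.1.2 = ψ j := by rw [h3, hβ]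
                rw [h4]
                exact h3
              rw [norm_mul, hccq j hj _ hx, if_neg hxj, hPPn, h2]
              simp
      · by_cases hl' : ∃ j, j ≠ β (ψ j) ∧ l j = p
        · obtain ⟨j, hj, rfl⟩ := hl'
          have hl1 : ¬ (l j : ℕ) ≤ ∑ j, (f j).natDegree := fun h => hp (hT _ (Or.inl h))
          have hl2 : ¬ (l j : ℕ) ∣ m := fun h => hp (hT _ (Or.inr (Or.inl h)))
          obtain ⟨t0, ht0⟩ := no_fixed f k hf (l j) (l j).2 (by omega) (fun x h => hp (hT _ (Or.inr (Or.inr (Or.inl ⟨x, h⟩)))))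
          have hPPn : ∀ x, ‖PP f k x (t0 : ℚ_[(l j : ℕ)])‖ = 1 := by
            intro x
            rw [PP_int]
            exact norm_one_int _ (ht0 x)
          refine ⟨(t0 : ℚ_[(l j : ℕ)]), fun h => absurd h hp, fun _ => ⟨?_, fun x => ?_, fun x => ?_⟩⟩
          · exact (Padic.norm_int_le_one _).trans (one_le_pow₀ h1p.le)
          · rw [hPPn]
            exact inv_le_one_of_one_le₀ (one_le_pow₀ h1p.le)
          · refine split_norm m (K x.1.1) (hh _) (hs _) hl2 (hcc j hj).2.2.2.2.2.2.2.1 _ ?_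
            apply mul_ne_zero
            · exact_mod_cast hc'0 x
            · intro h0
              have h1 := hPPn x.1.2
              rw [h0, norm_zero] at h1
              exact zero_ne_one h1
        · refine ⟨0, fun h => absurd h hp, fun h => ?_⟩
          rw [hT2m] at h
          rcases h with h | h | h
          · exact absurd h hp
          · exact absurd h hq'
          · exact absurd h hl'
  choose v hv1 hv2 using hfam
  obtain ⟨x, hx1, hx2, hx3, hx4⟩ := hB2 k hk hkB v tr (fun p hp => hv2 p hp) (by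
    intro x
    by_cases hx : x.1.2 = β (ψ x.1.2)
    · rcases hre x.1.1 with h | h
      · exact Or.inl h
      · right
        have hx2 : x.1.2 = β (φ x.1.1) := by rw [← x.2]; exact hx
        rw [hc'b x hx, hC]
        rw [← mul_prod_erase _ _ (hbm (φ x.1.1)), ← hx2] at h
        push_cast
        refine sgn_base _ _ _ _ n hneven hn2 h ?_
        rw [hx2, ← prod_mul_distrib]
        apply prod_pos
        intro j hj
        have h1 : (0 : ℝ) < (σ j : ℝ) * cc j := by exact_mod_cast (hcc j ((hmb _ _).1 hj).2).2.2.2.1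
        have h2 : (σ j : ℝ) * σ j = 1 := by rcases hσ j with h | h <;> rw [h] <;> norm_num
        have h3 := mul_pos h1 (hσt j)
        have e3 : (σ j : ℝ) * cc j * (σ j * PP f k j tr) = (σ j * σ j) * (cc j * PP f k j tr) := by ring
        rw [e3, h2, one_mul] at h3
        exact h3
    · right
      rw [hc'n x hx]
      have h1 : (0 : ℝ) < (σ x.1.2 : ℝ) * cc x.1.2 := by exact_mod_cast (hcc _ hx).2.2.2.1
      have h2 : (σ x.1.2 : ℝ) * σ x.1.2 = 1 := by rcases hσ x.1.2 with h | h <;> rw [h] <;> norm_num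
      have h3 := mul_pos h1 (hσt x.1.2)
      have e3 : (σ x.1.2 : ℝ) * cc x.1.2 * (σ x.1.2 * PP f k x.1.2 tr) = (σ x.1.2 * σ x.1.2) * (cc x.1.2 * PP f k x.1.2 tr) := by ring
      rw [e3, h2, one_mul] at h3
      exact h3) htr hPr
  refine ⟨x, fun p hp => ?_, hx2, hx3, fun i => ?_⟩
  · have h1 := hx1 p (hTT2 hp)
    rw [hv1 p hp] at h1
    have h1p := hone p
    have h0p : (0 : ℝ) < ((p : ℕ) : ℝ) := by linarith
    exact h1.trans (inv_anti₀ (by positivity) (pow_le_pow_right₀ h1p.le (by omega)))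
  · have hb1 : β (φ i) = β (ψ (β (φ i))) := by rw [hβ]
    have h1 := hx4 ⟨(i, β (φ i)), hβ _⟩
    rw [hc'b ⟨(i, β (φ i)), hβ _⟩ hb1, hC] at h1
    have h2 : IsN (K i) (∏ j ∈ (blk ψ (φ i)).erase (β (φ i)), ((cc j : ℚ) * PP f k j x)) := by
      apply isN_prod
      intro j hj
      obtain ⟨h3, h4⟩ := (hmb _ _).1 hj
      have h5 := hx4 ⟨(i, j), h3⟩
      rw [hc'n ⟨(i, j), h3⟩ h4] at h5
      exact h5
    have h3 := (h1.mul h2).mul (isN_ex K i ((∏ j ∈ (blk ψ (φ i)).erase (β (φ i)), (cc j : ℚ))⁻¹))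
    have e3 : (c i : ℚ) * ∏ j ∈ blk ψ (φ i), PP f k j x =
        (((c i * (∏ j ∈ (blk ψ (φ i)).erase (β (φ i)), cc j) ^ (n - 1) : ℤ) : ℚ) * PP f k (β (φ i)) x *
          ∏ j ∈ (blk ψ (φ i)).erase (β (φ i)), ((cc j : ℚ) * PP f k j x)) *
          ((∏ j ∈ (blk ψ (φ i)).erase (β (φ i)), (cc j : ℚ))⁻¹) ^ ex K := by
      rw [← mul_prod_erase _ _ (hbm (φ i)), prod_mul_distrib, ← hn]
      push_cast
      obtain ⟨Q, hQ⟩ : ∃ Q : ℚ, Q = ∏ j ∈ (blk ψ (φ i)).erase (β (φ i)), (cc j : ℚ) := ⟨_, rfl⟩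
      have hQ0 : Q ≠ 0 := by
        rw [hQ]
        exact_mod_cast hprod0 i
      rw [← hQ]
      have h6 : Q ^ (n - 1) * Q * (Q⁻¹) ^ n = 1 := by
        rw [← pow_succ, inv_pow]
        have : n - 1 + 1 = n := by omega
        rw [this]
        exact mul_inv_cancel₀ (pow_ne_zero _ hQ0)
      linear_combination (-(c i : ℚ) * (PP f k (β (φ i)) x * ∏ j ∈ (blk ψ (φ i)).erase (β (φ i)), PP f k j x)) * h6
    rw [e3]
    exact h3

end Pool.Agent.R479.NF
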