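import Pool.Agent.R479.NF.Sw4

/-!
# Products of shifted polynomials: the theorem for almost all shifts
-/

set_option autoImplicit false
set_option linter.unusedSectionVars false

namespace Pool.Agent.R479.NF

open NumberField Module TensorProduct Finset Filter Polynomial
open Pool.Agent.TH204.HP (aeval_int norm_D exists_u0 norm_eq_of_near)
open Pool.Agent.Y714.RC (PP PerS)

variable (m : ℕ) [NeZero m] {L : Type} [Field L] [NumberField L] [IsCyclotomicExtension {m} ℚ L]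
variable {r s e : ℕ}

lemma aeval_bd {p : ℕ} [hp : Fact p.Prime] (g : ℤ[X]) (N d : ℕ) (hd : g.natDegree ≤ d) (t : ℚ_[p]) (ht : ‖t‖ ≤ (p : ℝ) ^ N) :
    ‖aeval t g‖ ≤ (p : ℝ) ^ (N * d) := by
  have h1p : (1 : ℝ) < p := by exact_mod_cast hp.out.one_lt
  rw [aeval_eq_sum_range]
  apply IsUltrametricDist.norm_sum_le_of_forall_le_of_nonneg (by positivity)
  intro i hi
  rw [mem_range] at hi
  rw [zsmul_eq_mul, norm_mul, norm_pow]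
  calc ‖((g.coeff i : ℤ) : ℚ_[p])‖ * ‖t‖ ^ i ≤ 1 * ((p : ℝ) ^ N) ^ i :=
        mul_le_mul (Padic.norm_int_le_one _) (pow_le_pow_left₀ (norm_nonneg _) ht _) (by positivity) zero_le_one
    _ = (p : ℝ) ^ (N * i) := by rw [one_mul, ← pow_mul]
    _ ≤ _ := pow_le_pow_right₀ h1p.le (Nat.mul_le_mul_left _ (by omega))

lemma PP_bd {p : ℕ} [hp : Fact p.Prime] (f : Fin s → ℤ[X]) (k : Fin s → ℤ) (j : Fin s) (N : ℕ) (t : ℚ_[p]) (ht : ‖t‖ ≤ (p : ℝ) ^ N) :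
    ‖PP f k j t‖ ≤ (p : ℝ) ^ (N * (∑ j, (f j).natDegree)) := by
  have h1p : (1 : ℝ) < p := by exact_mod_cast hp.out.one_lt
  unfold PP
  refine (Padic.nonarchimedean _ _).trans (max_le (aeval_bd _ _ _ ?_ t ht) ?_)
  · exact single_le_sum (f := fun j => (f j).natDegree) (fun _ _ => Nat.zero_le _) (mem_univ j)
  · exact (Padic.norm_int_le_one _).trans (one_le_pow₀ h1p.le)

lemma wt_sum (n : ℕ) (hn : 2 ≤ n) (ψ : Fin s → Fin e) (β : Fin e → Fin s) (j : Fin s) (hj : j ≠ β (ψ j)) :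
    ∑ x, wt n ψ β j x = n - 1 + 1 := by
  classical
  have h1 : ∀ x, wt n ψ β j x = (if x = β (ψ j) then n - 1 else 0) + (if x = j then 1 else 0) := by
    intro x
    unfold wt
    by_cases h2 : x = β (ψ j)
    · rw [if_pos h2, if_pos h2, if_neg (fun h3 => hj (h3.symm.trans h2)), add_zero]
    · rw [if_neg h2, if_neg h2, zero_add]
  rw [sum_congr rfl (fun x _ => h1 x), sum_add_distrib, sum_ite_eq', sum_ite_eq', if_pos (mem_univ _), if_pos (mem_univ _)]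

lemma num_delta (ε : ℝ) (hε : 0 < ε) (I B s : ℕ) (hB : 1 ≤ B) : 0 < ε / (2 * ((I : ℝ) + 1) * (4 * B) ^ s) := by
  have hBr : (1 : ℝ) ≤ B := by exact_mod_cast hB
  positivity

lemma num_I (ε : ℝ) (hε : 0 < ε) (I B s : ℕ) (hB : 1 ≤ B) (Pr : ℝ) (hPr : 0 < Pr) :
    (I : ℝ) * (ε / (2 * ((I : ℝ) + 1) * (4 * B) ^ s) * (4 * B) ^ s * Pr) ≤ ε / 2 * Pr := by
  have hBr : (1 : ℝ) ≤ B := by exact_mod_cast hB
  have e4 : (I : ℝ) * (ε / (2 * ((I : ℝ) + 1) * (4 * B) ^ s) * (4 * B) ^ s * Pr) = (ε / 2 * Pr) * (I / (I + 1)) := by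
    have : ((4 : ℝ) * B) ^ s ≠ 0 := by positivity
    field_simp
  rw [e4]
  apply mul_le_of_le_one_right (by positivity)
  rw [div_le_one (by positivity)]
  linarith

lemma num_Q (ε : ℝ) (hε : 0 < ε) (Q : ℕ) (Pr lg : ℝ) (hPr : 0 < Pr) (hL : 2 * Q / ε + 1 ≤ lg) :
    (Q : ℝ) * (Pr / lg ^ 1) ≤ ε / 2 * Pr := by
  have hLpos : 0 < lg := lt_of_lt_of_le (by positivity) hL
  rw [pow_one, ← mul_div_assoc, div_le_iff₀ hLpos]
  have h5 : (Q : ℝ) ≤ ε / 2 * lg := by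
    have h6 : 2 * (Q : ℝ) / ε ≤ lg := by linarith
    rw [div_le_iff₀ hε] at h6
    linarith
  calc (Q : ℝ) * Pr ≤ (ε / 2 * lg) * Pr := mul_le_mul_of_nonneg_right h5 hPr.le
    _ = _ := by ring

lemma num_box (B X M d : ℕ) (hB : 1 ≤ B) (hd : 1 ≤ d) (h : 1 + M ≤ X) :
    0 ≤ 2 * ((B * X ^ d : ℕ) : ℝ) + 1 + (M : ℕ) ∧ 2 * ((B * X ^ d : ℕ) : ℝ) + 1 + (M : ℕ) ≤ 4 * B * (X : ℝ) ^ d := by
  have hBr : (1 : ℝ) ≤ B := by exact_mod_cast hB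
  refine ⟨by positivity, ?_⟩
  have h5 : X ≤ X ^ d := Nat.le_self_pow (by omega) _
  have h6 : 1 + M ≤ X ^ d := by omega
  have h7 : (1 : ℝ) + M ≤ (X : ℝ) ^ d := by exact_mod_cast h6
  have hX : (1 : ℝ) ≤ X := by
    have : 1 ≤ X := by omega
    exact_mod_cast this
  have h8 : (0 : ℝ) < (X : ℝ) ^ d := by positivity
  have h10 : (X : ℝ) ^ d ≤ B * (X : ℝ) ^ d := le_mul_of_one_le_left h8.le hBr
  push_cast
  linarith

lemma low_bd {p : ℕ} [hp : Fact p.Prime] (n N H D2 : ℕ) (hNH : N ≤ H)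
    (hD : ‖(D2 : ℚ_[p])‖ = ((p : ℝ) ^ (n * H))⁻¹) (g : ℚ_[p]) (hg : ((p : ℝ) ^ N)⁻¹ ≤ ‖g‖) :
    ((p : ℝ) ^ (2 * (n * H)))⁻¹ ≤ ‖(D2 : ℚ_[p]) * g ^ (n - 1)‖ := by
  have h1p : (1 : ℝ) < p := by exact_mod_cast hp.out.one_lt
  have h0p : (0 : ℝ) < p := by linarith
  rw [norm_mul, norm_pow, hD]
  calc ((p : ℝ) ^ (2 * (n * H)))⁻¹ = ((p : ℝ) ^ (n * H))⁻¹ * ((p : ℝ) ^ (n * H))⁻¹ := by
        rw [← mul_inv, ← pow_add]
        congr 2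
        ring
    _ ≤ ((p : ℝ) ^ (n * H))⁻¹ * ‖g‖ ^ (n - 1) := by
        apply mul_le_mul_of_nonneg_left _ (by positivity)
        calc ((p : ℝ) ^ (n * H))⁻¹ ≤ ((p : ℝ) ^ (N * (n - 1)))⁻¹ := by
              apply inv_anti₀ (by positivity)
              apply pow_le_pow_right₀ h1p.le
              rw [mul_comm n]
              exact Nat.mul_le_mul hNH (by omega)
          _ = (((p : ℝ) ^ N)⁻¹) ^ (n - 1) := by rw [inv_pow, ← pow_mul]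
          _ ≤ _ := pow_le_pow_left₀ (by positivity) hg _

lemma up_bd {p : ℕ} [hp : Fact p.Prime] (n N H A : ℕ) (hH : N * A ≤ H) (g : ℚ_[p]) (hg : ‖g‖ ≤ (p : ℝ) ^ (N * A)) :
    ‖g ^ (n - 1)‖ ≤ (p : ℝ) ^ (n * H) := by
  have h1p : (1 : ℝ) < p := by exact_mod_cast hp.out.one_lt
  rw [norm_pow]
  calc ‖g‖ ^ (n - 1) ≤ ((p : ℝ) ^ (N * A)) ^ (n - 1) := pow_le_pow_left₀ (norm_nonneg _) hg _
    _ = (p : ℝ) ^ ((N * A) * (n - 1)) := by rw [← pow_mul]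
    _ ≤ _ := by
        apply pow_le_pow_right₀ h1p.le
        rw [mul_comm n]
        exact Nat.mul_le_mul hH (by omega)

lemma not_dvd_of_near {p : ℕ} [hp : Fact p.Prime] (E A : ℕ) (hAE : A < E) (u : ℕ) (x : ℚ_[p]) (hx : ((p : ℝ) ^ A)⁻¹ ≤ ‖x‖)
    (h : ‖((u : ℤ) : ℚ_[p]) - x‖ ≤ ((p : ℝ) ^ E)⁻¹) : ¬ ((p ^ E : ℕ) : ℤ) ∣ (u : ℤ) := by
  intro hdiv
  have h1p : (1 : ℝ) < p := by exact_mod_cast hp.out.one_lt
  have h0p : (0 : ℝ) < p := by linarith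
  have hElt : ((p : ℝ) ^ E)⁻¹ < ‖x‖ := by
    refine lt_of_lt_of_le ?_ hx
    apply inv_strictAnti₀ (by positivity)
    exact pow_lt_pow_right₀ h1p hAE
  have h1 := (Padic.norm_int_le_pow_iff_dvd (p := p) (u : ℤ) E).2 (by exact_mod_cast hdiv)
  rw [zpow_neg, zpow_natCast] at h1
  have h3 := norm_eq_of_near _ _ (h.trans_lt hElt)
  rw [h3] at h1
  exact absurd h1 (not_le.2 hElt)

lemma sgn_ex (x : ℝ) (h : x ≠ 0) : ∃ σ : ℤ, (σ = 1 ∨ σ = -1) ∧ 0 < (σ : ℝ) * x := by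
  rcases lt_or_gt_of_ne h with h | h
  · exact ⟨-1, Or.inr rfl, by push_cast; linarith⟩
  · exact ⟨1, Or.inl rfl, by push_cast; linarith⟩

lemma ne_of_big (x B : ℝ) (P : ℝ) (hP : 0 < P) (h : P ≤ B * |x|) : x ≠ 0 := by
  rintro rfl
  rw [abs_zero, mul_zero] at h
  linarith

include m in
open Classical in
theorem wxT (K : Fin r → IntermediateField ℚ L) (hh : ∀ i, (classNumber (K i)).Coprime (finrank ℚ (K i)))
    (hs : ∀ i, Sgn (K i)) (f : Fin s → ℤ[X]) (hf : ∀ j, 1 ≤ (f j).natDegree) (ψ : Fin s → Fin e) (φ : Fin r → Fin e)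
    (β : Fin e → Fin s) (hβ : ∀ y, ψ (β y) = y) (c : Fin r → ℤ) (hc : ∀ i, c i ≠ 0) (T : Finset Nat.Primes)
    (hT : ∀ p : Nat.Primes, ((p : ℕ) ≤ ∑ j, (f j).natDegree ∨ (p : ℕ) ∣ m ∨
      (∃ j, ((p : ℕ) : ℤ) ∣ (f j).leadingCoeff) ∨ ∃ i, ((p : ℕ) : ℤ) ∣ c i) → p ∈ T)
    (N B : ℕ) (hB : 1 ≤ B) (ε : ℝ) (hε : 0 < ε) :
    ∃ X0 : ℕ, ∀ X : ℕ, X0 ≤ X → ∃ Bad : Finset (Fin s → ℤ), (#Bad : ℝ) ≤ ε * ∏ j, (X : ℝ) ^ (f j).natDegree ∧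
      ∀ k : Fin s → ℤ, (∀ j, |k j| ≤ ((B * X ^ (f j).natDegree : ℕ) : ℤ)) → k ∉ Bad →
        ∀ (t : (p : Nat.Primes) → ℚ_[(p : ℕ)]) (tr : ℝ), LcX K f ψ φ c T N k t → RcX K f ψ φ c k tr →
        |tr| ≤ B * X → (∀ j, (X : ℝ) ^ (f j).natDegree ≤ B * |PP f k j tr|) →
        GlX K f ψ φ c T N B X k t tr := by
  obtain ⟨n, hn⟩ : ∃ n, n = ex K := ⟨_, rfl⟩
  have hn2 : 2 ≤ n := by rw [hn]; exact ex_ge K
  have hm0 : m ≠ 0 := NeZero.ne m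
  have hone : ∀ p : Nat.Primes, (1 : ℝ) < ((p : ℕ) : ℝ) := fun p => by exact_mod_cast p.2.one_lt
  obtain ⟨dm, hdm⟩ : ∃ dm, dm = ∑ j, (f j).natDegree := ⟨_, rfl⟩
  obtain ⟨H, hH⟩ : ∃ H, H = N * dm + N := ⟨_, rfl⟩
  obtain ⟨D2, hD2⟩ : ∃ D2, D2 = ∏ p ∈ T, (p : ℕ) ^ (n * H) := ⟨_, rfl⟩
  obtain ⟨E, hE⟩ : ∃ E, E = 2 * (n * H) + 2 * n + 1 + m := ⟨_, rfl⟩
  obtain ⟨M, hM⟩ : ∃ M, M = ∏ p ∈ T, (p : ℕ) ^ E := ⟨_, rfl⟩
  have hmM : m ∣ M := by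
    rw [hM]
    exact dvd_prod_pow T m E hm0 (fun p hp => hT p (Or.inr (Or.inl hp))) (by omega)
  obtain ⟨J, hJ⟩ : ∃ J : Finset (Fin s), J = univ.filter (fun j => j ≠ β (ψ j)) := ⟨_, rfl⟩
  have hJm : ∀ j, j ∈ J ↔ j ≠ β (ψ j) := fun j => by
    rw [hJ, mem_filter]
    simp only [mem_univ, true_and]
  obtain ⟨I0, hI0⟩ : ∃ I0 : Finset (Fin s × ℕ × ℤ), I0 = J ×ˢ (range M ×ˢ ({1, -1} : Finset ℤ)) := ⟨_, rfl⟩
  obtain ⟨cond, hcond⟩ : ∃ cond : Fin s × ℕ × ℤ → Prop, cond = fun x => ∀ p ∈ T, ¬ ((((p : Nat.Primes) : ℕ) ^ E : ℕ) : ℤ) ∣ (x.2.1 : ℤ) := ⟨_, rfl⟩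
  obtain ⟨δ, hδ⟩ : ∃ δ : ℝ, δ = ε / (2 * (#I0 + 1) * (4 * B) ^ s) := ⟨_, rfl⟩
  have hBr : (1 : ℝ) ≤ B := by exact_mod_cast hB
  have hδ0 : 0 < δ := by
    rw [hδ]
    exact num_delta ε hε #I0 B s hB
  obtain ⟨F, hF1, hF2⟩ := disj_fam I0 (fun x F => cond x → (∀ q ∈ F, q ∉ T ∧ CRP m T M x.2.1 x.2.2 q) ∧
      PerS (fun k => ∀ q ∈ F, ¬ HitW f (q : ℕ) (wt n ψ β x.1) k) (∏ q ∈ F, (q : ℕ) ^ (n - 1 + 1)) δ)
      ((∑ p ∈ T, (p : ℕ)) + 2 * (1 + ∑ j, (f j).natDegree)) (by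
    intro x hx Kb hKb
    by_cases hxc : cond x
    · rw [hI0, mem_product, mem_product, hJm, mem_insert, mem_singleton] at hx
      have hxc' := hxc
      rw [hcond] at hxc'
      obtain ⟨a, ha, hA⟩ := exists_cr2 m T E M x.2.1 hM hmM x.2.2 hx.2.2 hxc'
      obtain ⟨F, h1, h2⟩ := hit_set m a ha f hf Kb (fun j q hq hq2 => by
        have h3 := hT ⟨q, hq⟩ (Or.inr (Or.inr (Or.inl ⟨j, hq2⟩)))
        have h4 := single_le_sum (f := fun p : Nat.Primes => (p : ℕ)) (fun _ _ => Nat.zero_le _) h3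
        have h5 : q ≤ ∑ p ∈ T, (p : ℕ) := h4
        omega) (by omega) (β (ψ x.1)) (wt n ψ β x.1) (n - 1) (by omega) (by unfold wt; exact if_pos rfl) (by
        intro j
        unfold wt
        split_ifs <;> omega) (wt_sum n hn2 ψ β x.1 hx.1) δ hδ0
      refine ⟨F, fun q hq => (h1 q hq).1, fun _ => ⟨fun q hq => ?_, h2⟩⟩
      have hqT : q ∉ T := by
        intro h
        have h4 := single_le_sum (f := fun p : Nat.Primes => (p : ℕ)) (fun _ _ => Nat.zero_le _) h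
        have h5 := (h1 q hq).1
        have h6 : (q : ℕ) ≤ ∑ p ∈ T, (p : ℕ) := h4
        omega
      exact ⟨hqT, hA q hqT (h1 q hq).2⟩
    · exact ⟨∅, by simp, fun h => absurd h hxc⟩)
  -- the parameters
  obtain ⟨p2, -⟩ : ∃ p2 : Nat.Primes, p2 = ⟨2, Nat.prime_two⟩ := ⟨_, rfl⟩
  obtain ⟨Qs, hQs⟩ : ∃ Qs : Finset (Fin s → ℕ × ℤ × Nat.Primes), Qs = Fintype.piFinset (fun _ : Fin s =>
    range M ×ˢ (({1, -1} : Finset ℤ) ×ˢ insert p2 (I0.biUnion F))) := ⟨_, rfl⟩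
  obtain ⟨cy, hcy⟩ : ∃ cy : (Fin s → ℕ × ℤ × Nat.Primes) → Prop, cy = fun y => (∀ j, (y j).2.1 = 1 ∨ (y j).2.1 = -1) ∧
    (∀ j, j ≠ β (ψ j) → (y j).2.2 ∉ T) ∧ (∀ j, j ≠ β (ψ j) → ∀ j', j' ≠ β (ψ j') → (y j).2.2 = (y j').2.2 → j = j') ∧
    ∀ j, j ≠ β (ψ j) → CRP m T M (y j).1 (y j).2.1 (y j).2.2 := ⟨_, rfl⟩
  obtain ⟨Cc, hCc⟩ : ∃ Cc : (Fin s → ℕ × ℤ × Nat.Primes) → ℕ → Finset (Fin s → ℤ) → Prop, Cc = fun y X Bad =>
      ∀ k : Fin s → ℤ, (∀ j, |k j| ≤ ((B * X ^ (f j).natDegree : ℕ) : ℤ)) → k ∉ Bad →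
        (∀ j, j ≠ β (ψ j) → HitW f ((y j).2.2) (wt (ex K) ψ β j) k) →
        ∀ (t : (p : Nat.Primes) → ℚ_[(p : ℕ)]) (tr : ℝ), LcX K f ψ φ c T N k t → RcX K f ψ φ c k tr →
        |tr| ≤ B * X → (∀ j, (X : ℝ) ^ (f j).natDegree ≤ B * |PP f k j tr|) →
        (∀ j, 0 < ((y j).2.1 : ℝ) * PP f k j tr) →
        (∀ j, ∀ w : ℤ, ∀ p ∈ T, ‖((((y j).1 : ℤ) + M * w : ℤ) : ℚ_[(p : ℕ)]) - D2 * (PP f k j (t p)) ^ (ex K - 1)‖ ≤
          (((p : ℕ) : ℝ) ^ E)⁻¹) →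
        GlX K f ψ φ c T N B X k t tr := ⟨_, rfl⟩
  have hA : ∀ y : Fin s → ℕ × ℤ × Nat.Primes, ∃ X1 : ℕ, ∀ X : ℕ, X1 ≤ X → ∃ Bad : Finset (Fin s → ℤ),
      (#Bad : ℝ) ≤ (∏ j, (X : ℝ) ^ (f j).natDegree) / Real.log X ^ 1 ∧ (cy y → Cc y X Bad) := by
    intro y
    by_cases hy : cy y
    · have hy' := hy
      rw [hcy] at hy'
      obtain ⟨h1, h2, h3, h4⟩ := hy'
      obtain ⟨X1, h5⟩ := lemA m K hh hs f hf ψ φ β hβ c hc T hT N H D2 E M (by omega) (by rw [hD2, hn])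
        (by rw [← hn]; omega) (fun j => (y j).1) (fun j => (y j).2.1) h1 (fun j => (y j).2.2) h2 h3 h4 B 1 hB
      refine ⟨X1, fun X hX => ?_⟩
      obtain ⟨Bad, h6, h7⟩ := h5 X hX
      exact ⟨Bad, h6, fun _ => by rw [hCc]; exact h7⟩
    · refine ⟨0, fun X _ => ⟨∅, ?_, fun h => absurd h hy⟩⟩
      rw [card_empty, Nat.cast_zero]
      exact div_nonneg (prod_nonneg fun j _ => by positivity) (pow_nonneg (Real.log_natCast_nonneg _) _)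
  choose X1 hX1 using hA
  obtain ⟨X3, hX3⟩ := eventually_atTop.1 (Pool.Agent.TH204.WR.evt_log_ge (2 * #Qs / ε + 1))
  obtain ⟨Mx, hMx⟩ : ∃ Mx : Fin s × ℕ × ℤ → ℕ, Mx = fun x => ∏ q ∈ F x, (q : ℕ) ^ (n - 1 + 1) := ⟨_, rfl⟩
  refine ⟨max (max (∑ y ∈ Qs, X1 y) (1 + ∑ x ∈ I0, Mx x)) X3, fun X hX => ?_⟩
  have hXa : ∀ y ∈ Qs, X1 y ≤ X := fun y hy =>
    (single_le_sum (f := X1) (fun _ _ => Nat.zero_le _) hy).trans ((le_trans (le_max_left _ _) (le_max_left _ _)).trans hX)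
  have hXb : 1 + ∑ x ∈ I0, Mx x ≤ X := (le_trans (le_max_right _ _) (le_max_left _ _)).trans hX
  have hL := hX3 X ((le_max_right _ _).trans hX)
  have hX1' : 1 ≤ X := by omega
  have hXr : (1 : ℝ) ≤ X := by exact_mod_cast hX1'
  obtain ⟨Pr, hPr⟩ : ∃ Pr : ℝ, Pr = ∏ j, (X : ℝ) ^ (f j).natDegree := ⟨_, rfl⟩
  have hPr0 : 0 < Pr := by rw [hPr]; exact prod_pos fun j _ => by positivity
  have hbad : ∀ y : Fin s → ℕ × ℤ × Nat.Primes, ∃ Bad : Finset (Fin s → ℤ), y ∈ Qs →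
      (#Bad : ℝ) ≤ (∏ j, (X : ℝ) ^ (f j).natDegree) / Real.log X ^ 1 ∧ (cy y → Cc y X Bad) := by
    intro y
    by_cases hy : y ∈ Qs
    · obtain ⟨Bad, h⟩ := hX1 y X (hXa y hy)
      exact ⟨Bad, fun _ => h⟩
    · exact ⟨∅, fun h => absurd h hy⟩
  choose Ba hBa using hbad
  obtain ⟨B0, hB0⟩ : ∃ B0 : Fin s × ℕ × ℤ → Finset (Fin s → ℤ), B0 = fun x => (box f B X).filter (fun k => cond x ∧
    ∀ q ∈ F x, ¬ HitW f (q : ℕ) (wt n ψ β x.1) k) := ⟨_, rfl⟩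
  have hB0c : ∀ x ∈ I0, (#(B0 x) : ℝ) ≤ δ * (4 * B) ^ s * Pr := by
    intro x hx
    by_cases hxc : cond x
    · have h1 := ((hF1 x hx hxc).2).count (fun j => B * X ^ (f j).natDegree)
      have h2 : B0 x = (Fintype.piFinset fun j : Fin s => Icc (-((B * X ^ (f j).natDegree : ℕ) : ℤ)) ((B * X ^ (f j).natDegree : ℕ) : ℤ)).filter
          (fun k => ∀ q ∈ F x, ¬ HitW f (q : ℕ) (wt n ψ β x.1) k) := by
        rw [hB0]
        unfold box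
        simp only [hxc, true_and]
      have h1b : (#(B0 x) : ℝ) ≤ δ * ∏ j, (2 * ((B * X ^ (f j).natDegree : ℕ) : ℝ) + 1 + (Mx x : ℕ)) := by
        rw [h2, hMx]
        convert h1
      refine h1b.trans ?_
      rw [mul_assoc]
      apply mul_le_mul_of_nonneg_left _ hδ0.le
      rw [hPr]
      have h3 : ((4 : ℝ) * B) ^ s = ∏ _j : Fin s, ((4 : ℝ) * B) := by rw [prod_const, card_univ, Fintype.card_fin]
      rw [h3, ← prod_mul_distrib]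
      have h4 : Mx x ≤ ∑ x ∈ I0, Mx x := single_le_sum (f := Mx) (fun _ _ => Nat.zero_le _) hx
      have h4' : 1 + Mx x ≤ X := (Nat.add_le_add_left h4 1).trans hXb
      apply Finset.prod_le_prod
      · intro j _
        exact (num_box B X (Mx x) (f j).natDegree hB (hf j) h4').1
      · intro j _
        exact (num_box B X (Mx x) (f j).natDegree hB (hf j) h4').2
    · have h2 : B0 x = ∅ := by
        rw [hB0]
        simp only [hxc, false_and, filter_false]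
      rw [h2, card_empty, Nat.cast_zero]
      exact mul_nonneg (mul_nonneg hδ0.le (pow_nonneg (by linarith) _)) hPr0.le
  refine ⟨I0.biUnion B0 ∪ Qs.biUnion Ba, ?_, fun k hk hkB t tr hloc hre htr hPR => ?_⟩
  · have h1 : (#(I0.biUnion B0 ∪ Qs.biUnion Ba) : ℝ) ≤ ∑ x ∈ I0, (#(B0 x) : ℝ) + ∑ y ∈ Qs, (#(Ba y) : ℝ) := by
      exact_mod_cast (card_union_le _ _).trans (Nat.add_le_add card_biUnion_le card_biUnion_le)
    refine h1.trans ?_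
    have h2 : ∑ x ∈ I0, (#(B0 x) : ℝ) ≤ #I0 * (δ * (4 * B) ^ s * Pr) := by
      rw [← nsmul_eq_mul, ← sum_const]
      exact sum_le_sum hB0c
    have h3 : ∑ y ∈ Qs, (#(Ba y) : ℝ) ≤ #Qs * (Pr / Real.log X ^ 1) := by
      rw [← nsmul_eq_mul, ← sum_const, hPr]
      exact sum_le_sum fun y hy => (hBa y hy).1
    have h4 : (#Qs : ℝ) * (Pr / Real.log X ^ 1) ≤ ε / 2 * Pr := num_Q ε hε #Qs Pr _ hPr0 hL
    have h5 : (#I0 : ℝ) * (δ * (4 * B) ^ s * Pr) ≤ ε / 2 * Pr := by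
      rw [hδ]
      exact num_I ε hε #I0 B s hB Pr hPr0
    rw [← hPr]
    linarith
  rw [mem_union, not_or, mem_biUnion, mem_biUnion] at hkB
  push Not at hkB
  obtain ⟨hkB1, hkB2⟩ := hkB
  -- the classes
  have hu : ∀ j, ∃ u0 : ℕ, u0 < M ∧ ∀ w : ℤ, ∀ p ∈ T, ‖(((u0 : ℤ) + M * w : ℤ) : ℚ_[(p : ℕ)]) - D2 * (PP f k j (t p)) ^ (n - 1)‖ ≤
      (((p : ℕ) : ℝ) ^ E)⁻¹ := by
    intro j
    exact exists_u0 T (n * H) E D2 M (fun p => (PP f k j (t p)) ^ (n - 1)) (fun p hp =>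
      up_bd n N H (∑ j, (f j).natDegree) (by rw [hH, hdm]; exact Nat.le_add_right _ _) _
        (PP_bd f k j N (t p) (hloc p hp).1)) hD2 hM
  choose u hu1 hu2 using hu
  have hσ : ∀ j, ∃ σ : ℤ, (σ = 1 ∨ σ = -1) ∧ 0 < (σ : ℝ) * PP f k j tr := fun j =>
    sgn_ex _ (ne_of_big _ B _ (pow_pos (lt_of_lt_of_le one_pos hXr) _) (hPR j))
  choose σ hσ1 hσ2 using hσ
  have hxI : ∀ j, j ≠ β (ψ j) → (j, u j, σ j) ∈ I0 := by
    intro j hj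
    rw [hI0, mem_product, mem_product, hJm, mem_insert, mem_singleton]
    exact ⟨hj, mem_range.2 (hu1 j), hσ1 j⟩
  have hxc : ∀ j, cond (j, u j, σ j) := by
    intro j
    rw [hcond]
    intro p hp
    have h2 := hu2 j 0 p hp
    rw [mul_zero, add_zero] at h2
    exact not_dvd_of_near E (2 * (n * H)) (by omega) (u j) _
      (low_bd n N H D2 (by rw [hH]; exact Nat.le_add_left _ _) (by rw [hD2]; exact norm_D T (n * H) p hp) _ ((hloc p hp).2.1 j)) h2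
  have hkbox : k ∈ box f B X := by
    unfold box
    rw [Fintype.mem_piFinset]
    exact fun j => mem_Icc.2 (abs_le.1 (hk j))
  have hq : ∀ j, ∃ q : Nat.Primes, q ∈ insert p2 (I0.biUnion F) ∧ (j ≠ β (ψ j) → q ∈ F (j, u j, σ j) ∧ HitW f (q : ℕ) (wt n ψ β j) k) := by
    intro j
    by_cases hj : j ≠ β (ψ j)
    · have h1 := hkB1 _ (hxI j hj)
      rw [hB0] at h1
      simp only [mem_filter, hkbox, true_and, not_and] at h1
      have h2 := h1 (hxc j)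
      push Not at h2
      obtain ⟨q, hq1, hq2⟩ := h2
      exact ⟨q, mem_insert_of_mem (mem_biUnion.2 ⟨_, hxI j hj, hq1⟩), fun _ => ⟨hq1, hq2⟩⟩
    · exact ⟨p2, mem_insert_self _ _, fun h => absurd h hj⟩
  choose q hq1 hq2 using hq
  have hyQ : (fun j => (u j, σ j, q j)) ∈ Qs := by
    rw [hQs, Fintype.mem_piFinset]
    intro j
    rw [mem_product, mem_product, mem_insert, mem_singleton]
    exact ⟨mem_range.2 (hu1 j), hσ1 j, hq1 j⟩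
  have hcyy : cy (fun j => (u j, σ j, q j)) := by
    rw [hcy]
    refine ⟨hσ1, fun j hj => ?_, fun j hj j' hj' hqq => ?_, fun j hj => ?_⟩
    · exact ((hF1 _ (hxI j hj) (hxc j)).1 _ (hq2 j hj).1).1
    · by_contra hne
      refine hF2 _ (hxI j hj) _ (hxI j' hj') (fun h => hne (congrArg Prod.fst h)) _ (hq2 j hj).1 ?_
      have h3 : q j = q j' := hqq
      rw [h3]
      exact (hq2 j' hj').1
    · exact ((hF1 _ (hxI j hj) (hxc j)).1 _ (hq2 j hj).1).2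
  have h9 := (hBa _ hyQ).2 hcyy
  rw [hCc] at h9
  exact h9 k hk (hkB2 _ hyQ) (fun j hj => by rw [← hn]; exact (hq2 j hj).2) t tr hloc hre htr hPR hσ2 (by rw [← hn]; exact hu2)

end Pool.Agent.R479.NF
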