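import Pool.Agent.R479.NF.Sw3

/-!
# Products of shifted polynomials: the coordinates
-/

set_option autoImplicit false
set_option linter.unusedSectionVars false

namespace Pool.Agent.R479.NF

open NumberField Module TensorProduct Finset Filter Polynomial
open Pool.Agent.TH204.HP (lip2)
open Pool.Agent.Y714.RC (PP)

variable {L : Type} [Field L] [NumberField L]
variable {r s e : ℕ}

lemma prod_close {p : ℕ} [hp : Fact p.Prime] (A : Finset (Fin s)) (x y : Fin s → ℚ_[p]) (δ : ℝ) (hδ0 : 0 ≤ δ) (hδ1 : δ ≤ 1)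
    (h : ∀ j ∈ A, ‖x j - y j‖ ≤ δ * ‖y j‖) : ‖∏ j ∈ A, x j - ∏ j ∈ A, y j‖ ≤ δ * ‖∏ j ∈ A, y j‖ := by
  classical
  induction A using Finset.induction_on with
  | empty => simpa using hδ0
  | insert a A ha ih =>
    rw [prod_insert ha, prod_insert ha]
    have h1 := ih (fun j hj => h j (mem_insert_of_mem hj))
    have h2 := h a (mem_insert_self _ _)
    have h3 : ‖x a‖ ≤ ‖y a‖ := by
      have e : x a = (x a - y a) + y a := by ring
      rw [e]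
      refine (Padic.nonarchimedean _ _).trans (max_le (h2.trans ?_) le_rfl)
      exact mul_le_of_le_one_left (norm_nonneg _) hδ1
    have e : x a * ∏ j ∈ A, x j - y a * ∏ j ∈ A, y j = x a * (∏ j ∈ A, x j - ∏ j ∈ A, y j) + (x a - y a) * ∏ j ∈ A, y j := by ring
    rw [e]
    refine (Padic.nonarchimedean _ _).trans (max_le ?_ ?_)
    · rw [norm_mul, norm_mul]
      calc ‖x a‖ * ‖∏ j ∈ A, x j - ∏ j ∈ A, y j‖ ≤ ‖y a‖ * (δ * ‖∏ j ∈ A, y j‖) := mul_le_mul h3 h1 (norm_nonneg _) (norm_nonneg _)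
        _ = _ := by ring
    · rw [norm_mul, norm_mul]
      calc ‖x a - y a‖ * ‖∏ j ∈ A, y j‖ ≤ (δ * ‖y a‖) * ‖∏ j ∈ A, y j‖ := mul_le_mul_of_nonneg_right h2 (norm_nonneg _)
        _ = _ := by ring

/-- the local points with all coordinates -/
def LcY (K : Fin r → IntermediateField ℚ L) (f : Fin s → ℤ[X]) (ψ : Fin s → Fin e) (φ : Fin r → Fin e) (c : Fin r → ℤ)
    (T : Finset Nat.Primes) (N : ℕ) (k : Fin s → ℤ) (t : (p : Nat.Primes) → ℚ_[(p : ℕ)])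
    (z : (p : Nat.Primes) → (i : Fin r) → Ap (K i) (p : ℕ)) : Prop :=
  ∀ p ∈ T, ‖t p‖ ≤ ((p : ℕ) : ℝ) ^ N ∧ (∀ j, (((p : ℕ) : ℝ) ^ N)⁻¹ ≤ ‖PP f k j (t p)‖) ∧
    ∀ i, Algebra.norm ℚ_[(p : ℕ)] (z p i) = (c i : ℚ_[(p : ℕ)]) * ∏ j ∈ blk ψ (φ i), PP f k j (t p) ∧
      ∀ j, ‖cd (p : ℕ) (z p i) j‖ ≤ ((p : ℕ) : ℝ) ^ N

/-- all coordinates for the cyclic fields -/
theorem sx_of (K : Fin r → IntermediateField ℚ L) (f : Fin s → ℤ[X]) (ψ : Fin s → Fin e) (φ : Fin r → Fin e) (c : Fin r → ℤ)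
    (hc : ∀ i, c i ≠ 0) (T : Finset Nat.Primes) (N B X E : ℕ)
    (hE : E = (2 * (∑ j, (f j).natDegree) + 3) * (2 * N + 2 * ∑ i, finrank ℚ (K i)) + 3) (k : Fin s → ℤ)
    (t : (p : Nat.Primes) → ℚ_[(p : ℕ)]) (z : (p : Nat.Primes) → (i : Fin r) → Ap (K i) (p : ℕ)) (tr : ℝ)
    (hloc : LcY K f ψ φ c T N k t z) (B' : ℕ) (hg : GlX K f ψ φ c T E B' X k t tr) :
    ∃ (q : ℚ) (y : (i : Fin r) → K i), (∀ j, 0 < PP f k j (q : ℝ) * PP f k j tr) ∧ B' * |(q : ℝ) - tr| ≤ X ∧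
      (∀ i, Algebra.norm ℚ (y i) = (c i : ℚ) * ∏ j ∈ blk ψ (φ i), PP f k j q) ∧
      ∀ p ∈ T, ‖(q : ℚ_[(p : ℕ)]) - t p‖ ≤ (((p : ℕ) : ℝ) ^ N)⁻¹ ∧
        ∀ i, IsGalois ℚ (K i) → (∃ σ : K i ≃ₐ[ℚ] K i, Gen σ) → ∀ j,
          ‖cd (p : ℕ) ((1 : ℚ_[(p : ℕ)]) ⊗ₜ[ℚ] (y i) : Ap (K i) (p : ℕ)) j - cd (p : ℕ) (z p i) j‖ ≤ (((p : ℕ) : ℝ) ^ N)⁻¹ := by
  classical
  obtain ⟨q, hs3, hs1, hs2, hs4⟩ := hg
  obtain ⟨D, hD⟩ : ∃ D, D = ∑ i, finrank ℚ (K i) := ⟨_, rfl⟩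
  rw [← hD] at hE
  obtain ⟨N3, hN3⟩ : ∃ N3, N3 = 2 * N + 2 * D := ⟨_, rfl⟩
  rw [← hN3] at hE
  obtain ⟨dm, hdm⟩ : ∃ dm, dm = ∑ j, (f j).natDegree := ⟨_, rfl⟩
  rw [← hdm] at hE
  have hgdm : ∀ j, (f j).natDegree ≤ dm := fun j => by
    rw [hdm]
    exact single_le_sum (f := fun j => (f j).natDegree) (fun _ _ => Nat.zero_le _) (mem_univ j)
  have hone : ∀ p : Nat.Primes, (1 : ℝ) < ((p : ℕ) : ℝ) := fun p => by exact_mod_cast p.2.one_lt
  have hNE : N ≤ E := by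
    rw [hE]
    nlinarith
  have hq0 : ∀ j, PP f k j q ≠ 0 := by
    intro j h0
    have h1 := hs2 j
    have e : PP f k j (q : ℝ) = ((PP f k j q : ℚ) : ℝ) := by
      unfold PP
      have e2 : ((aeval q (f j) : ℚ) : ℝ) = aeval (q : ℝ) (f j) := by
        have := aeval_algebraMap_apply ℝ q (f j)
        simp only [eq_ratCast] at this
        exact this.symm
      push_cast
      rw [e2]
    rw [e, h0, Rat.cast_zero, zero_mul] at h1
    exact lt_irrefl _ h1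
  have hlip : ∀ p ∈ T, ∀ j, ‖PP f k j (q : ℚ_[((p : Nat.Primes) : ℕ)]) - PP f k j (t p)‖ ≤ (((p : ℕ) : ℝ) ^ (3 * N3 + 3))⁻¹ := by
    intro p hp j
    have h1p := hone p
    have h0p : (0 : ℝ) < ((p : ℕ) : ℝ) := by linarith
    have ht : ‖t p‖ ≤ ((p : ℕ) : ℝ) ^ N3 := (hloc p hp).1.trans (pow_le_pow_right₀ h1p.le (by omega))
    have hst := hs3 p hp
    have hs : ‖(q : ℚ_[(p : ℕ)])‖ ≤ ((p : ℕ) : ℝ) ^ N3 := by
      have e : (q : ℚ_[(p : ℕ)]) = ((q : ℚ_[(p : ℕ)]) - t p) + t p := by ring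
      rw [e]
      refine (Padic.nonarchimedean _ _).trans (max_le ?_ ht)
      exact hst.trans (le_trans (inv_le_one_of_one_le₀ (one_le_pow₀ h1p.le)) (one_le_pow₀ h1p.le))
    have h5 := lip2 (f j) T N3 p hp (q : ℚ_[(p : ℕ)]) (t p) hs ht (by
      refine hst.trans (inv_anti₀ (by positivity) (pow_le_pow_right₀ h1p.le ?_))
      rw [hE]
      have : (2 * (f j).natDegree + 3) * N3 ≤ (2 * dm + 3) * N3 := Nat.mul_le_mul_right _ (by have := hgdm j; omega)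
      omega)
    unfold PP
    rw [add_sub_add_right_eq_sub]
    exact h5
  have hy : ∀ i, ∃ y : K i, Algebra.norm ℚ y = (c i : ℚ) * ∏ j ∈ blk ψ (φ i), PP f k j q ∧
      ∀ p ∈ T, IsGalois ℚ (K i) → (∃ σ : K i ≃ₐ[ℚ] K i, Gen σ) → ∀ j,
        ‖cd (p : ℕ) ((1 : ℚ_[((p : Nat.Primes) : ℕ)]) ⊗ₜ[ℚ] y : Ap (K i) (p : ℕ)) j - cd (p : ℕ) (z p i) j‖ ≤ (((p : ℕ) : ℝ) ^ N)⁻¹ := by
    intro i
    by_cases hc' : IsGalois ℚ (K i) ∧ ∃ σ : K i ≃ₐ[ℚ] K i, Gen σ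
    · obtain ⟨hgal, σ, hσ⟩ := hc'
      have ha : (c i : ℚ) * ∏ j ∈ blk ψ (φ i), PP f k j q ≠ 0 := mul_ne_zero (by exact_mod_cast hc i) (prod_ne_zero_iff.2 fun j _ => hq0 j)
      obtain ⟨y, hy1, hy2⟩ := wa_one hσ T N D (by
        rw [hD]
        exact single_le_sum (f := fun i => finrank ℚ (K i)) (fun _ _ => Nat.zero_le _) (mem_univ i)) _ ha (hs4 i)
        (fun p => (c i : ℚ_[(p : ℕ)]) * ∏ j ∈ blk ψ (φ i), PP f k j (t p)) (fun p => z p i) (by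
          intro p hp
          obtain ⟨h1, h2, h3⟩ := hloc p hp
          have h1p := hone p
          have h0p : (0 : ℝ) < ((p : ℕ) : ℝ) := by linarith
          have hpN : (0 : ℝ) < (((p : ℕ) : ℝ) ^ N)⁻¹ := by positivity
          exact ⟨(h3 i).1, mul_ne_zero (by exact_mod_cast hc i) (prod_ne_zero_iff.2 fun j _ => norm_pos_iff.1 (hpN.trans_le (h2 j))), (h3 i).2⟩) (by
          intro p hp
          obtain ⟨h1, h2, h3⟩ := hloc p hp
          have h1p := hone p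
          have h0p : (0 : ℝ) < ((p : ℕ) : ℝ) := by linarith
          have hpN : (0 : ℝ) < (((p : ℕ) : ℝ) ^ N)⁻¹ := by positivity
          have e : (((c i : ℚ) * ∏ j ∈ blk ψ (φ i), PP f k j q : ℚ) : ℚ_[(p : ℕ)]) - (c i : ℚ_[(p : ℕ)]) * ∏ j ∈ blk ψ (φ i), PP f k j (t p) =
              (c i : ℚ_[(p : ℕ)]) * (∏ j ∈ blk ψ (φ i), PP f k j (q : ℚ_[(p : ℕ)]) - ∏ j ∈ blk ψ (φ i), PP f k j (t p)) := by
            have e2 : ∀ j, ((PP f k j q : ℚ) : ℚ_[(p : ℕ)]) = PP f k j (q : ℚ_[(p : ℕ)]) := by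
              intro j
              unfold PP
              have e3 : ((aeval q (f j) : ℚ) : ℚ_[(p : ℕ)]) = aeval (q : ℚ_[(p : ℕ)]) (f j) := by
                have := aeval_algebraMap_apply ℚ_[(p : ℕ)] q (f j)
                simp only [eq_ratCast] at this
                exact this.symm
              push_cast
              rw [e3]
            push_cast
            rw [prod_congr rfl (fun j _ => e2 j)]
            ring
          rw [e, norm_mul, norm_mul, mul_left_comm]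
          apply mul_le_mul_of_nonneg_left _ (norm_nonneg _)
          refine prod_close _ _ _ _ (by positivity) (inv_le_one_of_one_le₀ (one_le_pow₀ h1p.le)) (fun j _ => ?_)
          refine (hlip p hp j).trans ?_
          calc (((p : ℕ) : ℝ) ^ (3 * N3 + 3))⁻¹ ≤ (((p : ℕ) : ℝ) ^ ((2 * N + 2 * D + 1) + N))⁻¹ := by
                apply inv_anti₀ (by positivity)
                apply pow_le_pow_right₀ h1p.le
                omega
            _ = (((p : ℕ) : ℝ) ^ (2 * N + 2 * D + 1))⁻¹ * (((p : ℕ) : ℝ) ^ N)⁻¹ := by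
                rw [pow_add _ (2 * N + 2 * D + 1), mul_inv]
            _ ≤ _ := mul_le_mul_of_nonneg_left (h2 _) (by positivity))
      exact ⟨y, hy1, fun p hp _ _ j => hy2 p hp j⟩
    · obtain ⟨y, hy⟩ := hs4 i
      exact ⟨y, hy, fun p _ h1 h2 => absurd ⟨h1, h2⟩ hc'⟩
  choose y hy1 hy2 using hy
  refine ⟨q, y, hs2, hs1, hy1, fun p hp => ⟨(hs3 p hp).trans ?_, fun i h1 h2 j => hy2 i p hp h1 h2 j⟩⟩
  have h1p := hone p
  have h0p : (0 : ℝ) < ((p : ℕ) : ℝ) := by linarith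
  exact inv_anti₀ (by positivity) (pow_le_pow_right₀ h1p.le hNE)

end Pool.Agent.R479.NF
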