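import Pool.Agent.R479.NF.Sw5
import Pool.Agent.R479.NF.Sw6
import Pool.Agent.R479.NF.Br6

/-!
# Products of shifted polynomials: any finite set of primes
-/

set_option autoImplicit false
set_option linter.unusedSectionVars false

namespace Pool.Agent.R479.NF

open NumberField Module TensorProduct Finset Filter Polynomial
open Pool.Agent.TH204.HP (int_norm_gt primes_upto)
open Pool.Agent.Y714.RC (PP)

variable (m : ℕ) [NeZero m] {L : Type} [Field L] [NumberField L] [IsCyclotomicExtension {m} ℚ L]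
variable {r s e : ℕ}

/-- a local point far away -/
lemma far_pt (K : Fin r → IntermediateField ℚ L) (f : Fin s → ℤ[X]) (hf : ∀ j, 1 ≤ (f j).natDegree) (ψ : Fin s → Fin e)
    (φ : Fin r → Fin e) (c : Fin r → ℤ)
    (hlead : ∀ i, IsN (K i) ((c i : ℚ) * ∏ j ∈ blk ψ (φ i), ((f j).leadingCoeff : ℚ))) (N0 : ℕ)
    (hN0 : N0 = 2 * ex K + ∑ j, (f j).leadingCoeff.natAbs + 1) (k : Fin s → ℤ) (p : Nat.Primes) :
    ∃ t : ℚ_[(p : ℕ)], ‖t‖ ≤ ((p : ℕ) : ℝ) ^ (ex K * N0) ∧ (∀ j, (((p : ℕ) : ℝ) ^ N0)⁻¹ ≤ ‖PP f k j t‖) ∧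
      ∀ i, IsNp (K i) (p : ℕ) ((c i : ℚ_[(p : ℕ)]) * ∏ j ∈ blk ψ (φ i), PP f k j t) := by
  classical
  have h1p : (1 : ℝ) < ((p : ℕ) : ℝ) := by exact_mod_cast p.2.one_lt
  have h0p : (0 : ℝ) < ((p : ℕ) : ℝ) := by linarith
  have hp0 : ((p : ℕ) : ℚ_[(p : ℕ)]) ≠ 0 := by exact_mod_cast p.2.ne_zero
  obtain ⟨n, hn⟩ : ∃ n, n = ex K := ⟨_, rfl⟩
  have hn2 : 2 ≤ n := by rw [hn]; exact ex_ge K
  have hl0 : ∀ j, (f j).leadingCoeff ≠ 0 := by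
    intro j
    rw [Ne, leadingCoeff_eq_zero]
    intro h
    have := hf j
    rw [h] at this
    simp at this
  have hle : ∀ j, (f j).leadingCoeff.natAbs ≤ ∑ j, (f j).leadingCoeff.natAbs := fun j =>
    single_le_sum (f := fun j => (f j).leadingCoeff.natAbs) (fun _ _ => Nat.zero_le _) (mem_univ j)
  have hln : ∀ j, (((p : ℕ) : ℝ) ^ (f j).leadingCoeff.natAbs)⁻¹ < ‖(((f j).leadingCoeff : ℤ) : ℚ_[(p : ℕ)])‖ := by
    intro j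
    apply int_norm_gt p _ _
    intro h
    have h1 : (p : ℕ) ^ (f j).leadingCoeff.natAbs ∣ (f j).leadingCoeff.natAbs := by
      have := Int.natAbs_dvd_natAbs.2 h
      rwa [Int.natAbs_pow, Int.natAbs_natCast] at this
    have h2 := Nat.le_of_dvd (Int.natAbs_pos.2 (hl0 j)) h1
    have h3 : (f j).leadingCoeff.natAbs < (p : ℕ) ^ (f j).leadingCoeff.natAbs := Nat.lt_pow_self p.2.one_lt
    omega
  obtain ⟨t, ht⟩ : ∃ t : ℚ_[(p : ℕ)], t = ((((p : ℕ) : ℚ_[(p : ℕ)]) ^ N0)⁻¹) ^ n := ⟨_, rfl⟩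
  have htn : ‖t‖ = ((p : ℕ) : ℝ) ^ (n * N0) := by
    rw [ht, norm_pow, norm_inv, norm_pow, Padic.norm_p]
    simp only [inv_pow, inv_inv]
    rw [← pow_mul, mul_comm]
  have ht1 : ((p : ℕ) : ℝ) ^ N0 ≤ ‖t‖ := by
    rw [htn]
    exact pow_le_pow_right₀ h1p.le (Nat.le_mul_of_pos_left _ (by omega))
  have hnn : (((p : ℕ) : ℝ) ^ n)⁻¹ < ‖((n : ℕ) : ℚ_[(p : ℕ)])‖ := natCast_norm_gt n (by omega)
  have hfar : ∀ j, ∃ S : ℚ_[(p : ℕ)], PP f k j t = (((f j).leadingCoeff : ℤ) : ℚ_[(p : ℕ)]) * t ^ (f j).natDegree * S ^ n ∧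
      ‖PP f k j t‖ = ‖(((f j).leadingCoeff : ℤ) : ℚ_[(p : ℕ)])‖ * ‖t‖ ^ (f j).natDegree := by
    intro j
    refine far_root n (by omega) (f j) (hf j) N0 ?_ (k j) t ht1
    have h1 : (((p : ℕ) : ℝ) ^ (2 * n + (f j).leadingCoeff.natAbs))⁻¹ <
        ‖((n : ℕ) : ℚ_[(p : ℕ)])‖ ^ 2 * ‖(((f j).leadingCoeff : ℤ) : ℚ_[(p : ℕ)])‖ := by
      calc (((p : ℕ) : ℝ) ^ (2 * n + (f j).leadingCoeff.natAbs))⁻¹ = ((((p : ℕ) : ℝ) ^ n)⁻¹) ^ 2 * (((p : ℕ) : ℝ) ^ (f j).leadingCoeff.natAbs)⁻¹ := by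
            rw [pow_add, mul_inv, pow_mul', inv_pow]
        _ < _ := mul_lt_mul (pow_lt_pow_left₀ hnn (by positivity) (by norm_num)) (hln j).le (by positivity) (by positivity)
    have h2 : ((p : ℕ) : ℝ) ^ (2 * n + (f j).leadingCoeff.natAbs) ≤ ((p : ℕ) : ℝ) ^ N0 := by
      apply pow_le_pow_right₀ h1p.le
      have := hle j
      omega
    calc (1 : ℝ) = ((p : ℕ) : ℝ) ^ (2 * n + (f j).leadingCoeff.natAbs) * (((p : ℕ) : ℝ) ^ (2 * n + (f j).leadingCoeff.natAbs))⁻¹ := by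
          rw [mul_inv_cancel₀ (by positivity)]
      _ < ((p : ℕ) : ℝ) ^ (2 * n + (f j).leadingCoeff.natAbs) * (‖((n : ℕ) : ℚ_[(p : ℕ)])‖ ^ 2 * ‖(((f j).leadingCoeff : ℤ) : ℚ_[(p : ℕ)])‖) :=
          mul_lt_mul_of_pos_left h1 (by positivity)
      _ ≤ _ := mul_le_mul_of_nonneg_right h2 (by positivity)
  choose S hS1 hS2 using hfar
  refine ⟨t, by rw [htn, hn], fun j => ?_, fun i => ?_⟩
  · rw [hS2]
    have h1 : (1 : ℝ) ≤ ‖t‖ ^ (f j).natDegree := one_le_pow₀ ((one_le_pow₀ h1p.le).trans ht1)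
    calc (((p : ℕ) : ℝ) ^ N0)⁻¹ ≤ (((p : ℕ) : ℝ) ^ (f j).leadingCoeff.natAbs)⁻¹ := by
          apply inv_anti₀ (by positivity)
          apply pow_le_pow_right₀ h1p.le
          have := hle j
          omega
      _ ≤ ‖(((f j).leadingCoeff : ℤ) : ℚ_[(p : ℕ)])‖ * 1 := by rw [mul_one]; exact (hln j).le
      _ ≤ _ := mul_le_mul_of_nonneg_left h1 (norm_nonneg _)
  · obtain ⟨y, hy⟩ := hlead i
    have e1 : (c i : ℚ_[(p : ℕ)]) * ∏ j ∈ blk ψ (φ i), PP f k j t =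
        (((c i : ℚ) * ∏ j ∈ blk ψ (φ i), ((f j).leadingCoeff : ℚ) : ℚ) : ℚ_[(p : ℕ)]) *
          (∏ j ∈ blk ψ (φ i), (((((p : ℕ) : ℚ_[(p : ℕ)]) ^ N0)⁻¹) ^ (f j).natDegree * S j)) ^ ex K := by
      rw [prod_congr rfl (fun j _ => hS1 j), ← hn, ← prod_pow]
      push_cast
      rw [mul_assoc, ← prod_mul_distrib]
      congr 1
      apply prod_congr rfl
      intro j _
      rw [ht, mul_pow, ← pow_mul, ← pow_mul, mul_comm n, mul_assoc]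
    rw [e1]
    refine IsNp.mul ⟨(1 : ℚ_[(p : ℕ)]) ⊗ₜ y, ?_⟩ (isNp_ex K i _)
    rw [norm_one_tmul, hy]

include m in
open Classical in
theorem wxAny (K : Fin r → IntermediateField ℚ L) (hh : ∀ i, (classNumber (K i)).Coprime (finrank ℚ (K i)))
    (hs : ∀ i, Sgn (K i)) (f : Fin s → ℤ[X]) (hf : ∀ j, 1 ≤ (f j).natDegree) (ψ : Fin s → Fin e) (φ : Fin r → Fin e)
    (β : Fin e → Fin s) (hβ : ∀ y, ψ (β y) = y) (c : Fin r → ℤ) (hc : ∀ i, c i ≠ 0)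
    (hlead : ∀ i, IsN (K i) ((c i : ℚ) * ∏ j ∈ blk ψ (φ i), ((f j).leadingCoeff : ℚ))) (T : Finset Nat.Primes)
    (N B : ℕ) (hB : 1 ≤ B) (ε : ℝ) (hε : 0 < ε) :
    ∃ X0 : ℕ, ∀ X : ℕ, X0 ≤ X → ∃ Bad : Finset (Fin s → ℤ), (#Bad : ℝ) ≤ ε * ∏ j, (X : ℝ) ^ (f j).natDegree ∧
      ∀ k : Fin s → ℤ, (∀ j, |k j| ≤ ((B * X ^ (f j).natDegree : ℕ) : ℤ)) → k ∉ Bad →
        ∀ (t : (p : Nat.Primes) → ℚ_[(p : ℕ)]) (tr : ℝ), LcX K f ψ φ c T N k t → RcX K f ψ φ c k tr →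
        |tr| ≤ B * X → (∀ j, (X : ℝ) ^ (f j).natDegree ≤ B * |PP f k j tr|) →
        GlX K f ψ φ c T N B X k t tr := by
  have hm0 : 0 < m := Nat.pos_of_ne_zero (NeZero.ne m)
  have hone : ∀ p : Nat.Primes, (1 : ℝ) < ((p : ℕ) : ℝ) := fun p => by exact_mod_cast p.2.one_lt
  have hl0 : ∀ j, (f j).leadingCoeff ≠ 0 := by
    intro j
    rw [Ne, leadingCoeff_eq_zero]
    intro h
    have := hf j
    rw [h] at this
    simp at this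
  obtain ⟨T0, hT0⟩ := primes_upto (∑ j, (f j).natDegree + ∑ j, (f j).leadingCoeff.natAbs + m + ∑ i, (c i).natAbs)
  obtain ⟨T1, hT1⟩ : ∃ T1 : Finset Nat.Primes, T1 = T ∪ T0 := ⟨_, rfl⟩
  have hT : ∀ p : Nat.Primes, ((p : ℕ) ≤ ∑ j, (f j).natDegree ∨ (p : ℕ) ∣ m ∨
      (∃ j, ((p : ℕ) : ℤ) ∣ (f j).leadingCoeff) ∨ ∃ i, ((p : ℕ) : ℤ) ∣ c i) → p ∈ T1 := by
    intro p hp
    rw [hT1]
    apply mem_union_right
    apply hT0
    rcases hp with h | h | ⟨j, h⟩ | ⟨i, h⟩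
    · omega
    · have := Nat.le_of_dvd hm0 h
      omega
    · have h1 := Nat.le_of_dvd (Int.natAbs_pos.2 (hl0 j)) (Int.natCast_dvd.1 h)
      have h2 : (f j).leadingCoeff.natAbs ≤ ∑ j, (f j).leadingCoeff.natAbs :=
        single_le_sum (f := fun j => (f j).leadingCoeff.natAbs) (fun _ _ => Nat.zero_le _) (mem_univ j)
      omega
    · have h1 := Nat.le_of_dvd (Int.natAbs_pos.2 (hc i)) (Int.natCast_dvd.1 h)
      have h2 : (c i).natAbs ≤ ∑ i, (c i).natAbs :=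
        single_le_sum (f := fun i => (c i).natAbs) (fun _ _ => Nat.zero_le _) (mem_univ i)
      omega
  obtain ⟨N0, hN0⟩ : ∃ N0, N0 = 2 * ex K + ∑ j, (f j).leadingCoeff.natAbs + 1 := ⟨_, rfl⟩
  obtain ⟨N', hN'⟩ : ∃ N', N' = N + ex K * N0 + N0 := ⟨_, rfl⟩
  obtain ⟨X0, h⟩ := wxT m K hh hs f hf ψ φ β hβ c hc T1 hT N' B hB ε hε
  refine ⟨X0, fun X hX => ?_⟩
  obtain ⟨Bad, hB1, hB2⟩ := h X hX
  refine ⟨Bad, hB1, fun k hk hkB t tr hloc hre htr hPR => ?_⟩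
  have hfam : ∀ p : Nat.Primes, ∃ v : ℚ_[(p : ℕ)], (p ∈ T → v = t p) ∧ ‖v‖ ≤ ((p : ℕ) : ℝ) ^ N' ∧
      (∀ j, (((p : ℕ) : ℝ) ^ N')⁻¹ ≤ ‖PP f k j v‖) ∧
      ∀ i, IsNp (K i) (p : ℕ) ((c i : ℚ_[(p : ℕ)]) * ∏ j ∈ blk ψ (φ i), PP f k j v) := by
    intro p
    have h1p := hone p
    have h0p : (0 : ℝ) < ((p : ℕ) : ℝ) := by linarith
    by_cases hp : p ∈ T
    · obtain ⟨h1, h2, h3⟩ := hloc p hp
      exact ⟨t p, fun _ => rfl, h1.trans (pow_le_pow_right₀ h1p.le (by omega)), fun j =>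
        (inv_anti₀ (by positivity) (pow_le_pow_right₀ h1p.le (by omega))).trans (h2 j), h3⟩
    · obtain ⟨v, h1, h2, h3⟩ := far_pt K f hf ψ φ c hlead N0 hN0 k p
      exact ⟨v, fun h => absurd h hp, h1.trans (pow_le_pow_right₀ h1p.le (by omega)), fun j =>
        (inv_anti₀ (by positivity) (pow_le_pow_right₀ h1p.le (by omega))).trans (h2 j), h3⟩
  choose v hv1 hv2 hv3 hv4 using hfam
  obtain ⟨x, hx1, hx2, hx3, hx4⟩ := hB2 k hk hkB v tr (fun p _ => ⟨hv2 p, hv3 p, hv4 p⟩) hre htr hPR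
  refine ⟨x, fun p hp => ?_, hx2, hx3, hx4⟩
  have h1p := hone p
  have h0p : (0 : ℝ) < ((p : ℕ) : ℝ) := by linarith
  have h1 := hx1 p (by rw [hT1]; exact mem_union_left _ hp)
  rw [hv1 p hp] at h1
  exact h1.trans (inv_anti₀ (by positivity) (pow_le_pow_right₀ h1p.le (by omega)))

end Pool.Agent.R479.NF
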