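import Pool.Agent.R479.NF.Hil
import Pool.Agent.TH204.HP.H8

/-!
# Weak approximation for the elements of given norm, for cyclic fields
-/

set_option autoImplicit false
set_option linter.unusedSectionVars false

namespace Pool.Agent.R479.NF

open NumberField Module TensorProduct Finset Filter

section

variable {K : Type} [Field K] [NumberField K] (p : ℕ) [Fact p.Prime] (σ : K ≃ₐ[ℚ] K)

/-- the product of the other conjugates -/
noncomputable def dn (y : Ap K p) : Ap K p := ∏ j ∈ range (finrank ℚ K - 1), (sA p σ)^[j + 1] y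

lemma dn_cont : Continuous (dn p σ) := continuous_finsetProd _ fun j _ => sA_iter_cont p σ (j + 1)

lemma dn_mul [IsGalois ℚ K] {σ : K ≃ₐ[ℚ] K} (hσ : Gen σ) (y : Ap K p) :
    y * dn p σ y = algebraMap ℚ_[p] (Ap K p) (Algebra.norm ℚ_[p] y) := by
  rw [← norm_prod_A p hσ, dn]
  obtain ⟨n, hn⟩ : ∃ n, finrank ℚ K = n + 1 := ⟨finrank ℚ K - 1, by
    have : 0 < finrank ℚ K := finrank_pos
    omega⟩
  rw [hn, prod_range_succ', Function.iterate_zero, id_eq, mul_comm]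
  rfl

/-- the approximating map -/
noncomputable def Gm (θ w : K) (v : Ap K p) : Ap K p :=
  ((1 : ℚ_[p]) ⊗ₜ[ℚ] w) * yy p σ θ v * sA p σ (dn p σ (yy p σ θ v)) *
    algebraMap ℚ_[p] (Ap K p) (Algebra.norm ℚ_[p] (yy p σ θ v))⁻¹

lemma Gm_cont (θ w : K) (u : Ap K p) (hu : Algebra.norm ℚ_[p] (yy p σ θ u) ≠ 0) : ContinuousAt (Gm p σ θ w) u := by
  have h1 : Continuous (fun v => Algebra.norm ℚ_[p] (yy p σ θ v)) := (norm_cont p).comp (yy_cont p σ θ)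
  have h2 : Continuous (fun v => ((1 : ℚ_[p]) ⊗ₜ[ℚ] w) * yy p σ θ v * sA p σ (dn p σ (yy p σ θ v))) :=
    (continuous_const.mul (yy_cont p σ θ)).mul ((sA_cont p σ).comp ((dn_cont p σ).comp (yy_cont p σ θ)))
  have h3 : ContinuousAt (fun v => (Algebra.norm ℚ_[p] (yy p σ θ v))⁻¹) u := h1.continuousAt.inv₀ hu
  have h4 : Continuous (algebraMap ℚ_[p] (Ap K p)) := continuous_algebraMap _ _
  exact h2.continuousAt.mul (h4.continuousAt.comp h3)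

lemma sA_alg (c : ℚ_[p]) : sA p σ (algebraMap ℚ_[p] (Ap K p) c) = algebraMap ℚ_[p] (Ap K p) c := AlgHom.commutes _ _

lemma Gm_self [IsGalois ℚ K] {σ : K ≃ₐ[ℚ] K} (hσ : Gen σ) (θ w : K) (u : Ap K p) (hu : Algebra.norm ℚ_[p] u = 1)
    (hy : Algebra.norm ℚ_[p] (yy p σ θ u) ≠ 0) : Gm p σ θ w u = ((1 : ℚ_[p]) ⊗ₜ[ℚ] w) * u := by
  obtain ⟨y, hyd⟩ : ∃ y, y = yy p σ θ u := ⟨_, rfl⟩
  have h1 : u * sA p σ y = y := by rw [hyd]; exact yy_eq p hσ θ u hu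
  rw [Gm, ← hyd]
  rw [← hyd] at hy
  have h2 : sA p σ y * sA p σ (dn p σ y) = algebraMap ℚ_[p] (Ap K p) (Algebra.norm ℚ_[p] y) := by
    rw [← map_mul, dn_mul p hσ, sA_alg]
  have h3 : algebraMap ℚ_[p] (Ap K p) (Algebra.norm ℚ_[p] y) * algebraMap ℚ_[p] (Ap K p) (Algebra.norm ℚ_[p] y)⁻¹ = 1 := by
    rw [← map_mul, mul_inv_cancel₀ hy, map_one]
  calc ((1 : ℚ_[p]) ⊗ₜ[ℚ] w) * y * sA p σ (dn p σ y) * algebraMap ℚ_[p] (Ap K p) (Algebra.norm ℚ_[p] y)⁻¹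
      = ((1 : ℚ_[p]) ⊗ₜ[ℚ] w) * (u * sA p σ y) * sA p σ (dn p σ y) * algebraMap ℚ_[p] (Ap K p) (Algebra.norm ℚ_[p] y)⁻¹ := by rw [h1]
    _ = ((1 : ℚ_[p]) ⊗ₜ[ℚ] w) * u * ((sA p σ y * sA p σ (dn p σ y)) * algebraMap ℚ_[p] (Ap K p) (Algebra.norm ℚ_[p] y)⁻¹) := by ring
    _ = _ := by rw [h2, h3, mul_one]

/-- the twisted sum in `K` -/
noncomputable def yk (θ v : K) : K := ∑ i ∈ range (finrank ℚ K), (∏ j ∈ range i, σ^[j] v) * σ^[i] θ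

lemma inc_prod {ι : Type} (S : Finset ι) (g : ι → K) :
    ∏ j ∈ S, ((1 : ℚ_[p]) ⊗ₜ[ℚ] (g j) : Ap K p) = (1 : ℚ_[p]) ⊗ₜ[ℚ] (∏ j ∈ S, g j) := by
  have h4 := map_prod (Algebra.TensorProduct.includeRight : K →ₐ[ℚ] Ap K p) g S
  simp only [Algebra.TensorProduct.includeRight_apply] at h4
  exact h4.symm

lemma yy_inc (θ v : K) : yy p σ θ ((1 : ℚ_[p]) ⊗ₜ[ℚ] v) = (1 : ℚ_[p]) ⊗ₜ[ℚ] (yk σ θ v) := by
  rw [yy, yk, TensorProduct.tmul_sum]
  refine Finset.sum_congr rfl fun i _ => ?_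
  simp only [sA_iter]
  rw [inc_prod, Algebra.TensorProduct.tmul_mul_tmul, one_mul]

lemma dn_inc (y : K) : dn p σ ((1 : ℚ_[p]) ⊗ₜ[ℚ] y) = (1 : ℚ_[p]) ⊗ₜ[ℚ] (∏ j ∈ range (finrank ℚ K - 1), σ^[j + 1] y) := by
  rw [dn]
  simp only [sA_iter]
  rw [inc_prod]

lemma alg_inc (c : ℚ) : algebraMap ℚ_[p] (Ap K p) (c : ℚ_[p]) = (1 : ℚ_[p]) ⊗ₜ[ℚ] (algebraMap ℚ K c) := by
  have h5 : ((1 : ℚ_[p]) ⊗ₜ[ℚ] (algebraMap ℚ K c) : Ap K p) = ((algebraMap ℚ ℚ_[p] c) ⊗ₜ[ℚ] (1 : K)) := by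
    rw [Algebra.algebraMap_eq_smul_one, Algebra.algebraMap_eq_smul_one, TensorProduct.tmul_smul, TensorProduct.smul_tmul']
  rw [h5]
  rfl

lemma Gm_inc [IsGalois ℚ K] {σ : K ≃ₐ[ℚ] K} (hσ : Gen σ) (θ w v : K) (hy : yk σ θ v ≠ 0) :
    Gm p σ θ w ((1 : ℚ_[p]) ⊗ₜ[ℚ] v) = (1 : ℚ_[p]) ⊗ₜ[ℚ] (w * (yk σ θ v / σ (yk σ θ v))) := by
  obtain ⟨y, hyd⟩ : ∃ y, y = yk σ θ v := ⟨_, rfl⟩
  rw [Gm, yy_inc, ← hyd, dn_inc, sA_tmul, norm_one_tmul, ← Rat.cast_inv, alg_inc,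
    Algebra.TensorProduct.tmul_mul_tmul, Algebra.TensorProduct.tmul_mul_tmul, Algebra.TensorProduct.tmul_mul_tmul]
  rw [← hyd] at hy
  simp only [mul_one]
  congr 1
  have h1 : σ y * σ (∏ j ∈ range (finrank ℚ K - 1), σ^[j + 1] y) = algebraMap ℚ K (Algebra.norm ℚ y) := by
    rw [← map_mul]
    have h2 : y * ∏ j ∈ range (finrank ℚ K - 1), σ^[j + 1] y = algebraMap ℚ K (Algebra.norm ℚ y) := by
      rw [← norm_prod_K hσ]
      obtain ⟨n, hn⟩ : ∃ n, finrank ℚ K = n + 1 := ⟨finrank ℚ K - 1, by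
        have : 0 < finrank ℚ K := finrank_pos
        omega⟩
      rw [hn, prod_range_succ', Function.iterate_zero, id_eq, mul_comm]
      rfl
    rw [h2, AlgEquiv.commutes]
  have hσy : σ y ≠ 0 := by
    rw [Ne, EmbeddingLike.map_eq_zero_iff]
    exact hy
  have hN : Algebra.norm ℚ y ≠ 0 := by
    rw [Algebra.norm_ne_zero_iff]
    exact hy
  have hN' : algebraMap ℚ K (Algebra.norm ℚ y) ≠ 0 := by
    rw [Ne, FaithfulSMul.algebraMap_eq_zero_iff]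
    exact hN
  rw [map_inv₀]
  field_simp
  rw [← h1]
  ring

end

variable {K : Type} [Field K] [NumberField K]

lemma cd_inc (p : ℕ) [Fact p.Prime] (q : Ix K → ℚ) (i : Ix K) :
    cd p ((1 : ℚ_[p]) ⊗ₜ[ℚ] (∑ j, q j • integralBasis K j) : Ap K p) i = ((q i : ℚ) : ℚ_[p]) := by
  rw [cd, Basis.equivFun_apply, Algebra.TensorProduct.basis_repr_tmul]
  simp [Finsupp.single_apply]

/-- Weak approximation for the elements of given norm. -/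
theorem wa_norm [IsGalois ℚ K] {σ : K ≃ₐ[ℚ] K} (hσ : Gen σ) (T : Finset Nat.Primes) (a : ℚ) (ha : a ≠ 0) (w : K)
    (hw : Algebra.norm ℚ w = a) (z : (p : Nat.Primes) → Ap K (p : ℕ))
    (hz : ∀ p ∈ T, Algebra.norm ℚ_[((p : Nat.Primes) : ℕ)] (z p) = (a : ℚ_[(p : ℕ)])) (δ : ℝ) (hδ : 0 < δ) :
    ∃ x : K, Algebra.norm ℚ x = a ∧ ∀ p ∈ T, ∀ j, ‖cd (p : ℕ) ((1 : ℚ_[(p : ℕ)]) ⊗ₜ[ℚ] x : Ap K (p : ℕ)) j - cd (p : ℕ) (z p) j‖ < δ := by
  classical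
  rcases T.eq_empty_or_nonempty with rfl | ⟨p0, hp0⟩
  · exact ⟨w, hw, fun p hp => absurd hp (Finset.notMem_empty p)⟩
  have hw0 : w ≠ 0 := by
    rintro rfl
    rw [Algebra.norm_zero] at hw
    exact ha hw.symm
  obtain ⟨u, hu⟩ : ∃ u : (p : Nat.Primes) → Ap K (p : ℕ), u = fun p => z p * ((1 : ℚ_[(p : ℕ)]) ⊗ₜ[ℚ] w⁻¹) := ⟨_, rfl⟩
  have huN : ∀ p ∈ T, Algebra.norm ℚ_[((p : Nat.Primes) : ℕ)] (u p) = 1 := by
    intro p hp
    have h1 : Algebra.norm ℚ w⁻¹ = a⁻¹ := by rw [nh_apply, map_inv₀, ← nh_apply, hw]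
    rw [hu]
    simp only
    rw [map_mul, hz p hp, norm_one_tmul, h1]
    push_cast
    exact mul_inv_cancel₀ (by exact_mod_cast ha)
  -- the choice of `θ`
  obtain ⟨θ, hθ⟩ : ∃ θ : K, ∀ p ∈ T, yy (p : ℕ) σ θ (u p) ≠ 0 := by
    have h1 := Subspace.biUnion_ne_univ_of_top_notMem (k := ℚ) (E := K)
      (s := T.image (fun p : Nat.Primes => LinearMap.ker (yl (p : ℕ) σ (u p)))) (by
        intro h
        rw [mem_image] at h
        obtain ⟨p, -, hp⟩ := h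
        exact yl_ne (p : ℕ) hσ (u p) hp)
    rw [Ne, Set.eq_univ_iff_forall] at h1
    push Not at h1
    obtain ⟨θ, hθ⟩ := h1
    refine ⟨θ, fun p hp h0 => hθ ?_⟩
    rw [Set.mem_iUnion₂]
    refine ⟨LinearMap.ker (yl (p : ℕ) σ (u p)), mem_image_of_mem _ hp, ?_⟩
    rw [SetLike.mem_coe, LinearMap.mem_ker, yl_apply]
    exact h0
  have hθN : ∀ p ∈ T, Algebra.norm ℚ_[((p : Nat.Primes) : ℕ)] (yy (p : ℕ) σ θ (u p)) ≠ 0 :=
    fun p hp => yy_norm (p : ℕ) hσ θ (u p) (huN p hp) (hθ p hp)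
  -- continuity
  have hcont : ∀ p : Nat.Primes, ∃ ε : ℝ, 0 < ε ∧ (p ∈ T → ∀ v : Ix K → ℚ_[(p : ℕ)], (∀ j, ‖v j - cd (p : ℕ) (u p) j‖ < ε) →
      Algebra.norm ℚ_[(p : ℕ)] (yy (p : ℕ) σ θ ((cd (p : ℕ)).symm v)) ≠ 0 ∧
      ∀ j, ‖cd (p : ℕ) (Gm (p : ℕ) σ θ w ((cd (p : ℕ)).symm v)) j - cd (p : ℕ) (z p) j‖ < δ) := by
    intro p
    by_cases hp : p ∈ T
    · have hup : (cd (K := K) (p : ℕ)).symm (cd (p : ℕ) (u p)) = u p := LinearEquiv.symm_apply_apply _ _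
      have hG : Gm (p : ℕ) σ θ w (u p) = z p := by
        rw [Gm_self (p : ℕ) hσ θ w (u p) (huN p hp) (hθN p hp), hu]
        simp only
        rw [mul_left_comm, Algebra.TensorProduct.tmul_mul_tmul, one_mul, mul_inv_cancel₀ hw0]
        exact mul_one _
      have h1 : ContinuousAt (fun v : Ix K → ℚ_[(p : ℕ)] => Algebra.norm ℚ_[(p : ℕ)] (yy (p : ℕ) σ θ ((cd (p : ℕ)).symm v)))
          (cd (p : ℕ) (u p)) :=
        (((norm_cont (p : ℕ)).comp (yy_cont (p : ℕ) σ θ)).comp (cd_symm_cont (p : ℕ))).continuousAt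
      have h2 : ContinuousAt (fun v : Ix K → ℚ_[(p : ℕ)] => cd (p : ℕ) (Gm (p : ℕ) σ θ w ((cd (p : ℕ)).symm v)))
          (cd (p : ℕ) (u p)) := by
        have h2' : ContinuousAt (Gm (p : ℕ) σ θ w) ((cd (K := K) (p : ℕ)).symm (cd (p : ℕ) (u p))) := by
          rw [hup]
          exact Gm_cont (p : ℕ) σ θ w (u p) (hθN p hp)
        have h3' := ContinuousAt.comp (x := cd (K := K) (p : ℕ) (u p)) h2' (cd_symm_cont (p : ℕ)).continuousAt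
        exact ContinuousAt.comp (x := cd (K := K) (p : ℕ) (u p)) (cd_cont (p : ℕ)).continuousAt h3'
      have h3 : ∀ᶠ v in nhds (cd (p : ℕ) (u p)), Algebra.norm ℚ_[(p : ℕ)] (yy (p : ℕ) σ θ ((cd (p : ℕ)).symm v)) ≠ 0 := by
        apply h1.eventually_ne
        simp only [hup]
        exact hθN p hp
      have h4 : ∀ᶠ v in nhds (cd (p : ℕ) (u p)),
          dist (cd (p : ℕ) (Gm (p : ℕ) σ θ w ((cd (p : ℕ)).symm v))) (cd (p : ℕ) (z p)) < δ := by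
        have h5 := Metric.tendsto_nhds.1 h2 δ hδ
        simp only [hup, hG] at h5
        exact h5
      obtain ⟨ε, hε, h5⟩ := Metric.eventually_nhds_iff.1 (h3.and h4)
      refine ⟨ε, hε, fun _ v hv => ?_⟩
      have h6 := h5 (y := v) (by
        rw [dist_pi_lt_iff hε]
        intro j
        rw [dist_eq_norm]
        exact hv j)
      refine ⟨h6.1, fun j => ?_⟩
      rw [← dist_eq_norm]
      exact (dist_le_pi_dist _ _ j).trans_lt h6.2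
    · exact ⟨1, one_pos, fun h => absurd h hp⟩
  choose ε hε hε2 using hcont
  obtain ⟨η, hη, hηε⟩ := exists_small T ε (fun p _ => hε p)
  have hq : ∀ j : Ix K, ∃ q : ℚ, ∀ p ∈ T, ‖(q : ℚ_[((p : Nat.Primes) : ℕ)]) - cd (p : ℕ) (u p) j‖ < η := by
    intro j
    obtain ⟨q, hq⟩ := Pool.Agent.TH204.HP.approx_Q T (fun p => cd (p : ℕ) (u p) j) (η / 2) (by positivity)
    exact ⟨q, fun p hp => (hq p hp).trans (by linarith)⟩
  choose q hq using hq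
  obtain ⟨v, hv⟩ : ∃ v : K, v = ∑ j, q j • integralBasis K j := ⟨_, rfl⟩
  have hcdv : ∀ p : Nat.Primes, (cd (K := K) (p : ℕ)).symm (fun j => ((q j : ℚ) : ℚ_[(p : ℕ)])) = (1 : ℚ_[(p : ℕ)]) ⊗ₜ[ℚ] v := by
    intro p
    rw [LinearEquiv.symm_apply_eq, hv]
    funext i
    rw [cd_inc]
  have hkey := fun (p : Nat.Primes) (hp : p ∈ T) => hε2 p hp (fun j => ((q j : ℚ) : ℚ_[(p : ℕ)]))
    (fun j => (hq j p hp).trans_le (hηε p hp))
  simp only [hcdv] at hkey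
  have hy : yk σ θ v ≠ 0 := by
    intro h0
    apply (hkey p0 hp0).1
    rw [yy_inc, h0, TensorProduct.tmul_zero, Algebra.norm_eq_matrix_det (Algebra.TensorProduct.basis ℚ_[(p0 : ℕ)] (integralBasis K)),
      map_zero]
    have : Nonempty (Ix K) := by
      rw [← Fintype.card_pos_iff, ← Module.finrank_eq_card_basis (integralBasis K)]
      exact finrank_pos
    exact Matrix.det_zero
  refine ⟨w * (yk σ θ v / σ (yk σ θ v)), ?_, fun p hp j => ?_⟩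
  · have h1 : Algebra.norm ℚ (σ (yk σ θ v)) = Algebra.norm ℚ (yk σ θ v) := Algebra.norm_eq_of_algEquiv σ _
    have hN : Algebra.norm ℚ (yk σ θ v) ≠ 0 := by
      rw [Algebra.norm_ne_zero_iff]
      exact hy
    rw [map_mul, hw, nh_apply, map_div₀, ← nh_apply, ← nh_apply, h1, div_self hN, mul_one]
  · have h1 := (hkey p hp).2 j
    rw [Gm_inc (p : ℕ) hσ θ w v hy] at h1
    exact h1

end Pool.Agent.R479.NF
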