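import Pool.Agent.TH204.HP.H6
import Pool.Agent.TH204.HP.H13
import Pool.Agent.R479.NF.Apx

/-!
# Prime values of shifted polynomials near local points
(the proofs follow Pool/Agent/TH204/HP)
-/

set_option autoImplicit false
set_option linter.unusedVariables false

namespace Pool.Agent.R479.NF

open Finset Polynomial Filter Topology
open Pool.Agent.TH204.WR (rho evt_log_ge evt_log_pow)
open Pool.Agent.TH204.QF (rho_lt)
open Pool.Agent.TH204.HP

/-- the local conditions of level `N` -/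
def LocP (f : ℤ[X]) (T : Finset Nat.Primes) (N : ℕ) (k : ℤ) (t : (p : Nat.Primes) → ℚ_[(p : ℕ)]) : Prop :=
  ∀ p ∈ T, ‖t p‖ ≤ ((p : ℕ) : ℝ) ^ N ∧ (((p : ℕ) : ℝ) ^ N)⁻¹ ≤ ‖aeval (t p) f + (k : ℚ_[(p : ℕ)])‖

/-- the rational point with a prime value -/
def GlobP (f : ℤ[X]) (T : Finset Nat.Primes) (N : ℕ) (k : ℤ) (t : (p : Nat.Primes) → ℚ_[(p : ℕ)]) : Prop :=
  ∃ s : ℚ, (∀ p ∈ T, ‖((s : ℚ) : ℚ_[(p : ℕ)]) - t p‖ ≤ (((p : ℕ) : ℝ) ^ N)⁻¹) ∧ PrimeVal T (aeval s f + (k : ℚ))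

theorem pv0 (f : ℤ[X]) (hd : 2 ≤ f.natDegree) (T : Finset Nat.Primes) (hT : BigT f ∅ T) (N U V : ℕ) :
    ∃ X0 : ℕ, ∀ X : ℕ, X0 ≤ X → ∃ Bad : Finset ℤ, (#Bad : ℝ) ≤ X / Real.log X ^ U ∧
      ∀ k : ℤ, |k| ≤ X → k ∉ Bad → (0 < f.leadingCoeff ∨ (X : ℝ) / Real.log X ^ V ≤ k) →
      ∀ t : (p : Nat.Primes) → ℚ_[(p : ℕ)], LocP f T N k t → GlobP f T N k t := by
  classical
  obtain ⟨d, hdd⟩ : ∃ d, d = f.natDegree := ⟨_, rfl⟩
  obtain ⟨E, hE⟩ : ∃ E, E = (2 * f.natDegree + 1) * N + 3 := ⟨_, rfl⟩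
  obtain ⟨D, hD⟩ : ∃ D, D = ∏ p ∈ T, (p : ℕ) ^ N := ⟨_, rfl⟩
  obtain ⟨M, hM⟩ : ∃ M, M = ∏ p ∈ T, (p : ℕ) ^ E := ⟨_, rfl⟩
  have hD0 : D ≠ 0 := by rw [hD]; exact prod_ne_zero_iff.2 fun p _ => pow_ne_zero _ p.2.ne_zero
  have hM0 : M ≠ 0 := by rw [hM]; exact prod_ne_zero_iff.2 fun p _ => pow_ne_zero _ p.2.ne_zero
  have hGd : (GG f D).natDegree = d := by rw [GG_natDegree f D hD0, hdd]
  -- the polynomials
  have hF : ∀ i : ℕ × ℕ, ∃ F : ℤ[X], i.2 ∣ M → F.natDegree = d ∧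
      (i.2 : ℤ) * F.leadingCoeff = (GG f D).leadingCoeff * (M : ℤ) ^ d ∧
      (∀ x : ℤ, (i.2 : ℤ) * F.eval x = (GG f D).eval ((i.1 : ℤ) + M * x) - (GG f D).eval (i.1 : ℤ)) ∧
      (∀ (x : ℤ) (p : ℕ), i.2 * p ∣ M → (p : ℤ) ∣ F.eval x) := by
    intro i
    by_cases h : i.2 ∣ M
    · obtain ⟨F, h1, h2, h3, h4⟩ := exists_F (GG f D) (by rw [hGd]; omega) M hM0 (i.1 : ℤ) i.2 h
      rw [hGd] at h1 h2
      exact ⟨F, fun _ => ⟨h1, h2, h3, h4⟩⟩
    · exact ⟨0, fun h' => absurd h' h⟩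
  choose F hF using hF
  obtain ⟨I, hI⟩ : ∃ I : Finset (ℕ × ℕ), I = range M ×ˢ M.divisors := ⟨_, rfl⟩
  have hIm : ∀ i ∈ I, i.2 ∣ M := fun i hi => by
    rw [hI, mem_product] at hi
    exact Nat.dvd_of_mem_divisors hi.2
  obtain ⟨n, hn⟩ : ∃ n, d = n + 1 := ⟨d - 1, by omega⟩
  have hex : ∀ i : ℕ × ℕ, ∃ X1 : ℕ, i ∈ I → ∀ x : ℕ, X1 ≤ x → ∃ Bad : Finset ℤ, (#Bad : ℝ) ≤ x / Real.log x ^ (U + 1) ∧
    ∀ t : ℤ, |t| ≤ x → t ∉ Bad → (∀ p : ℕ, p.Prime → rho (F i) t p < p) →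
      (0 < (F i).leadingCoeff ∨ (x : ℝ) / Real.log x ^ (V + 1) ≤ t) →
      ∃ (w : ℤ) (q : ℕ), q.Prime ∧ (F i).eval w + t = q := by
    intro i
    by_cases hi : i ∈ I
    · obtain ⟨X1, h1⟩ := exists_prime n (by omega) (F i) (by rw [(hF i (hIm i hi)).1, hn]) (U + 1) (V + 1)
      exact ⟨X1, fun _ => h1⟩
    · exact ⟨0, fun h => absurd h hi⟩
  choose X1 hX1 using hex
  obtain ⟨K, hK⟩ : ∃ K : ℕ, K = D ^ (2 * d) + ∑ u ∈ range M, ((GG f D).eval (u : ℤ)).natAbs := ⟨_, rfl⟩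
  have hK1 : 1 ≤ K := by
    rw [hK]
    have : 1 ≤ D ^ (2 * d) := Nat.one_le_pow _ _ (Nat.pos_of_ne_zero hD0)
    omega
  have hM1 : 1 ≤ M := Nat.pos_of_ne_zero hM0
  have hev : ∀ᶠ X : ℕ in atTop, (((#I : ℕ) : ℝ) * K + 2 * K * M + 1 ≤ Real.log X) ∧ Real.log X ^ (V + 1) ≤ (X : ℝ) ^ (1 : ℝ) := by
    filter_upwards [evt_log_ge (((#I : ℕ) : ℝ) * K + 2 * K * M + 1), evt_log_pow (V + 1) 1 (by norm_num)] with x h1 h2
    exact ⟨h1, h2⟩
  obtain ⟨X2, hX2⟩ := eventually_atTop.1 hev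
  refine ⟨max (max (∑ i ∈ I, X1 i) X2) 1, fun X hX => ?_⟩
  have hXa : ∀ i ∈ I, X1 i ≤ K * X := fun i hi => by
    calc X1 i ≤ ∑ i ∈ I, X1 i := single_le_sum (fun _ _ => Nat.zero_le _) hi
      _ ≤ X := (le_trans (le_max_left _ _) (le_max_left _ _)).trans hX
      _ ≤ K * X := Nat.le_mul_of_pos_left _ hK1
  obtain ⟨hL, hLX⟩ := hX2 X ((le_trans (le_max_right _ _) (le_max_left _ _)).trans hX)
  have hXone : 1 ≤ X := (le_max_right _ _).trans hX
  clear hX2 hX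
  have hXr : (1 : ℝ) ≤ X := by exact_mod_cast hXone
  have hKr : (1 : ℝ) ≤ K := by exact_mod_cast hK1
  have hMr : (1 : ℝ) ≤ M := by exact_mod_cast hM1
  obtain ⟨x, hx⟩ : ∃ x : ℕ, x = K * X := ⟨_, rfl⟩
  have hxX : (X : ℝ) ≤ x := by
    rw [hx]
    push_cast
    nlinarith
  obtain ⟨L, hLd⟩ : ∃ L, L = Real.log X := ⟨_, rfl⟩
  rw [← hLd] at hL hLX ⊢
  rw [Real.rpow_one] at hLX
  have hL1 : 1 ≤ L := by
    have h1 : 0 ≤ ((#I : ℕ) : ℝ) * K := by positivity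
    have h2 : (0 : ℝ) ≤ 2 * K * M := by positivity
    linarith
  have hL0 : 0 < L := by linarith
  have hLx : L ≤ Real.log x := by
    rw [hLd]
    exact Real.log_le_log (by linarith) hxX
  have hbad : ∀ i : ℕ × ℕ, ∃ Bad : Finset ℤ, i ∈ I → (#Bad : ℝ) ≤ x / Real.log x ^ (U + 1) ∧
    ∀ t : ℤ, |t| ≤ x → t ∉ Bad → (∀ p : ℕ, p.Prime → rho (F i) t p < p) →
      (0 < (F i).leadingCoeff ∨ (x : ℝ) / Real.log x ^ (V + 1) ≤ t) →
      ∃ (w : ℤ) (q : ℕ), q.Prime ∧ (F i).eval w + t = q := by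
    intro i
    by_cases hi : i ∈ I
    · obtain ⟨B, hB⟩ := hX1 i hi x (by rw [hx]; exact hXa i hi)
      exact ⟨B, fun _ => hB⟩
    · exact ⟨∅, fun h => absurd h hi⟩
  choose B hB using hbad
  obtain ⟨vv, hvv⟩ : ∃ vv : ℕ → ℤ → ℤ, vv = fun (u : ℕ) (k : ℤ) => (GG f D).eval ((u : ℕ) : ℤ) + (D : ℤ) ^ (2 * d) * k := ⟨_, rfl⟩
  have hvinj : ∀ u k k', vv u k = vv u k' → k = k' := by
    intro u k k' h
    rw [hvv] at h
    have h1 : (D : ℤ) ^ (2 * d) * k = (D : ℤ) ^ (2 * d) * k' := by simpa using h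
    exact mul_left_cancel₀ (pow_ne_zero _ (by exact_mod_cast hD0)) h1
  refine ⟨(Icc (-(X : ℤ)) X).filter (fun k => ∃ i ∈ I, (i.2 : ℤ) ∣ vv i.1 k ∧ vv i.1 k / (i.2 : ℤ) ∈ B i), ?_, ?_⟩
  · -- the number of exceptions
    have h1 : (Icc (-(X : ℤ)) X).filter (fun k => ∃ i ∈ I, (i.2 : ℤ) ∣ vv i.1 k ∧ vv i.1 k / (i.2 : ℤ) ∈ B i) ⊆
        I.biUnion (fun i => (Icc (-(X : ℤ)) X).filter (fun k => (i.2 : ℤ) ∣ vv i.1 k ∧ vv i.1 k / (i.2 : ℤ) ∈ B i)) := by
      intro k hk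
      rw [mem_filter] at hk
      obtain ⟨i, hi, h2⟩ := hk.2
      rw [mem_biUnion]
      exact ⟨i, hi, mem_filter.2 ⟨hk.1, h2⟩⟩
    have h2 : ∀ i ∈ I, #((Icc (-(X : ℤ)) X).filter (fun k => (i.2 : ℤ) ∣ vv i.1 k ∧ vv i.1 k / (i.2 : ℤ) ∈ B i)) ≤ #(B i) := by
      intro i hi
      have hi0 : (i.2 : ℤ) ≠ 0 := by
        intro h
        have h' : i.2 = 0 := by exact_mod_cast h
        have := hIm i hi
        rw [h'] at this
        exact hM0 (Nat.eq_zero_of_zero_dvd this)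
      apply card_le_card_of_injOn (fun k => vv i.1 k / (i.2 : ℤ))
      · intro k hk
        rw [mem_coe, mem_filter] at hk
        exact hk.2.2
      · intro k hk k' hk' h
        rw [mem_coe, mem_filter] at hk hk'
        simp only at h
        apply hvinj i.1
        rw [← Int.ediv_mul_cancel hk.2.1, ← Int.ediv_mul_cancel hk'.2.1, h]
    have h3 : (#((Icc (-(X : ℤ)) X).filter (fun k => ∃ i ∈ I, (i.2 : ℤ) ∣ vv i.1 k ∧ vv i.1 k / (i.2 : ℤ) ∈ B i)) : ℝ) ≤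
        ∑ i ∈ I, (#(B i) : ℝ) := by
      have := (card_le_card h1).trans (card_biUnion_le.trans (sum_le_sum h2))
      exact_mod_cast this
    refine h3.trans ?_
    calc ∑ i ∈ I, (#(B i) : ℝ) ≤ ∑ i ∈ I, (x : ℝ) / L ^ (U + 1) := by
          apply sum_le_sum
          intro i hi
          refine ((hB i hi).1).trans ?_
          apply div_le_div_of_nonneg_left (Nat.cast_nonneg _) (by positivity)
          exact pow_le_pow_left₀ hL0.le hLx _
      _ = ((#I : ℕ) : ℝ) * K * X / L ^ (U + 1) := by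
          rw [sum_const, nsmul_eq_mul, hx]
          push_cast
          ring
      _ ≤ L * X / L ^ (U + 1) := by
          apply div_le_div_of_nonneg_right _ (by positivity)
          apply mul_le_mul_of_nonneg_right _ (by positivity)
          have h2 : (0 : ℝ) ≤ 2 * K * M := by positivity
          linarith
      _ = X / L ^ U := by
          rw [pow_succ]
          field_simp
  · intro k hk hkB hcase t hloc
    obtain ⟨u0, hu0M, hu0⟩ := exists_u0 T N E D M t (fun p hp => (hloc p hp).1) hD hM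
    obtain ⟨v0, hv0⟩ : ∃ v0 : ℤ, v0 = vv u0 k := ⟨_, rfl⟩
    have hv0e : v0 = (GG f D).eval (u0 : ℤ) + (D : ℤ) ^ (2 * d) * k := by rw [hv0, hvv]
    obtain ⟨c0, hc0⟩ : ∃ c0 : ℕ, c0 = Nat.gcd v0.natAbs M := ⟨_, rfl⟩
    have hc0M : c0 ∣ M := by rw [hc0]; exact Nat.gcd_dvd_right _ _
    have hc0v : (c0 : ℤ) ∣ v0 := by rw [hc0]; exact Int.natCast_dvd.2 (Nat.gcd_dvd_left _ _)
    have hc00 : c0 ≠ 0 := by
      rw [hc0]
      exact (Nat.gcd_pos_of_pos_right _ (Nat.pos_of_ne_zero hM0)).ne'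
    have hiI : (u0, c0) ∈ I := by
      rw [hI, mem_product]
      exact ⟨mem_range.2 hu0M, Nat.mem_divisors.2 ⟨hc0M, hM0⟩⟩
    obtain ⟨hFd, hFl, hFe, hFp⟩ := hF (u0, c0) hc0M
    simp only at hFl hFe hFp
    have hkN : v0 / (c0 : ℤ) ∉ B (u0, c0) := by
      intro h
      apply hkB
      rw [mem_filter, mem_Icc]
      refine ⟨abs_le.1 hk, (u0, c0), hiI, ?_, ?_⟩
      · simp only
        rw [← hv0]
        exact hc0v
      · simp only
        rw [← hv0]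
        exact h
    have hc0pos : (0 : ℤ) < c0 := by exact_mod_cast Nat.pos_of_ne_zero hc00
    have hGK : |(GG f D).eval (u0 : ℤ)| + (D : ℤ) ^ (2 * d) ≤ K := by
      rw [hK]
      push_cast
      have h1 : ((GG f D).eval (u0 : ℤ)).natAbs ≤ ∑ u ∈ range M, ((GG f D).eval (u : ℤ)).natAbs :=
        single_le_sum (f := fun u : ℕ => ((GG f D).eval (u : ℤ)).natAbs) (fun _ _ => Nat.zero_le _) (mem_range.2 hu0M)
      have h2 : (((GG f D).eval (u0 : ℤ)).natAbs : ℤ) ≤ ((∑ u ∈ range M, ((GG f D).eval (u : ℤ)).natAbs : ℕ) : ℤ) := by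
        exact_mod_cast h1
      rw [Int.natCast_natAbs] at h2
      push_cast at h2
      linarith
    have hDk : (1 : ℤ) ≤ (D : ℤ) ^ (2 * d) := one_le_pow₀ (by exact_mod_cast Nat.pos_of_ne_zero hD0)
    have hkh : |v0 / (c0 : ℤ)| ≤ (x : ℤ) := by
      have h1 : |v0 / (c0 : ℤ)| ≤ |v0| := by
        obtain ⟨b, hb⟩ := hc0v
        rw [hb, Int.mul_ediv_cancel_left _ hc0pos.ne', abs_mul, abs_of_pos hc0pos]
        exact le_mul_of_one_le_left (abs_nonneg _) (by linarith)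
      have h2 : |v0| ≤ |(GG f D).eval (u0 : ℤ)| + (D : ℤ) ^ (2 * d) * |k| := by
        rw [hv0e]
        refine (abs_add_le _ _).trans ?_
        rw [abs_mul, abs_of_pos (show 0 < (D : ℤ) ^ (2 * d) by linarith)]
      have h3 : (1 : ℤ) ≤ X := by exact_mod_cast hXone
      have h4 := abs_nonneg ((GG f D).eval (u0 : ℤ))
      rw [hx]
      push_cast
      nlinarith
    have hrho : ∀ p : ℕ, p.Prime → rho (F (u0, c0)) (v0 / (c0 : ℤ)) p < p := by
      intro p hp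
      by_cases hpT : (⟨p, hp⟩ : Nat.Primes) ∈ T
      · -- a prime in `T`
        obtain ⟨hl1, hl2⟩ := hloc _ hpT
        have h1 := val_near f T N E (le_of_eq hE.symm) k t ⟨p, hp⟩ hpT hl2 hl1 (u0 : ℤ) D hD (by
          have := hu0 0 ⟨p, hp⟩ hpT
          simpa using this)
        rw [← hdd, ← hv0e] at h1
        obtain ⟨m, hm, -⟩ := prod_split T E ⟨p, hp⟩ hpT
        obtain ⟨h2, h3⟩ := gcd_facts v0 M p E m hp (by rw [hM]; exact hm) hM0 h1
        rw [← hc0] at h2 h3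
        apply rho_lt _ _ _ hp
        refine ⟨0, fun h4 => h3 ?_⟩
        exact (Int.dvd_add_right (hFp 0 p h2)).1 h4
      · -- another prime
        have hnb : ¬ ((p ≤ f.natDegree) ∨ (p : ℤ) ∣ f.leadingCoeff ∨ (∃ z ∈ (∅ : Finset (ℤ × ℤ)), (p : ℤ) ∣ z.1 ∨ (p : ℤ) ∣ z.2)) :=
          fun h => hpT (hT ⟨p, hp⟩ h)
        push Not at hnb
        apply rho_lt_deg _ _ _ hp (by rw [hFd, hdd]; exact hnb.1) _ (by rw [hFd]; omega)
        intro h
        have h1 : (p : ℤ) ∣ (GG f D).leadingCoeff * (M : ℤ) ^ d := by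
          rw [← hFl]
          exact h.mul_left _
        rw [GG_lead] at h1
        have hpp := Nat.prime_iff_prime_int.1 hp
        rcases hpp.dvd_or_dvd h1 with h2 | h2
        · rcases hpp.dvd_or_dvd h2 with h3 | h3
          · have h4 := hpp.dvd_of_dvd_pow h3
            apply hpT
            apply mem_of_dvd_prod T N ⟨p, hp⟩
            rw [← hD]
            exact_mod_cast h4
          · exact hnb.2.1 h3
        · have h4 := hpp.dvd_of_dvd_pow h2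
          apply hpT
          apply mem_of_dvd_prod T E ⟨p, hp⟩
          rw [← hM]
          exact_mod_cast h4
    have hside : 0 < (F (u0, c0)).leadingCoeff ∨ (x : ℝ) / Real.log x ^ (V + 1) ≤ ((v0 / (c0 : ℤ) : ℤ) : ℝ) := by
      rcases hcase with h | h
      · left
        have h1 : 0 < (c0 : ℤ) * (F (u0, c0)).leadingCoeff := by
          rw [hFl, GG_lead]
          have hDpos : (0 : ℤ) < D := by exact_mod_cast Nat.pos_of_ne_zero hD0
          have hMpos : (0 : ℤ) < M := by exact_mod_cast Nat.pos_of_ne_zero hM0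
          positivity
        exact (mul_pos_iff_of_pos_left hc0pos).1 h1
      · right
        obtain ⟨b, hb⟩ := hc0v
        rw [hb, Int.mul_ediv_cancel_left _ hc0pos.ne']
        have h1 : ((c0 : ℤ) : ℝ) * b = (((GG f D).eval (u0 : ℤ) : ℤ) : ℝ) + (D : ℝ) ^ (2 * d) * k := by
          have := hb.symm.trans hv0e
          exact_mod_cast this
        have h2 : |(((GG f D).eval (u0 : ℤ) : ℤ) : ℝ)| + (D : ℝ) ^ (2 * d) ≤ K := by exact_mod_cast hGK
        have h3 : (1 : ℝ) ≤ (D : ℝ) ^ (2 * d) := by exact_mod_cast hDk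
        have h4 : (c0 : ℝ) ≤ M := by
          have := Nat.le_of_dvd (Nat.pos_of_ne_zero hM0) hc0M
          exact_mod_cast this
        have h5 : (1 : ℝ) ≤ c0 := by exact_mod_cast Nat.pos_of_ne_zero hc00
        have hk0 : (0 : ℝ) ≤ k := le_trans (by positivity) h
        have h6 : (k : ℝ) - K ≤ (c0 : ℝ) * b := by
          have h7 := (abs_le.1 (show |(((GG f D).eval (u0 : ℤ) : ℤ) : ℝ)| ≤ K by linarith)).1
          have h8 : (k : ℝ) ≤ (D : ℝ) ^ (2 * d) * k := le_mul_of_one_le_left hk0 h3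
          have h9 : ((c0 : ℤ) : ℝ) = (c0 : ℝ) := by norm_cast
          rw [h9] at h1
          rw [h1]
          linarith
        have hLV : (0 : ℝ) < L ^ V := by positivity
        have h10 : (x : ℝ) / Real.log x ^ (V + 1) ≤ K * X / L ^ (V + 1) := by
          rw [hx]
          push_cast
          rw [hx] at hLx
          push_cast at hLx
          apply div_le_div_of_nonneg_left (by positivity) (by positivity)
          exact pow_le_pow_left₀ hL0.le hLx _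
        refine h10.trans ?_
        -- `K X / L ^ (V + 1) ≤ b`
        have h11 : (M : ℝ) * (K * X / L ^ (V + 1)) ≤ (k : ℝ) / 2 := by
          have e : (M : ℝ) * (K * X / L ^ (V + 1)) = (X / L ^ V) * (K * M / L) := by
            rw [pow_succ]
            field_simp
          rw [e]
          have h12 : (K : ℝ) * M / L ≤ 1 / 2 := by
            rw [div_le_div_iff₀ hL0 (by norm_num)]
            have : 0 ≤ ((#I : ℕ) : ℝ) * K := mul_nonneg (Nat.cast_nonneg _) (Nat.cast_nonneg _)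
            linarith
          calc (X : ℝ) / L ^ V * (K * M / L) ≤ X / L ^ V * (1 / 2) := mul_le_mul_of_nonneg_left h12 (by positivity)
            _ ≤ k * (1 / 2) := mul_le_mul_of_nonneg_right h (by norm_num)
            _ = (k : ℝ) / 2 := by ring
        have h13 : (K : ℝ) ≤ (k : ℝ) / 2 := by
          have h14 : L ≤ X / L ^ V := by
            rw [le_div_iff₀ hLV, ← pow_succ']
            exact hLX
          have h15 : 2 * (K : ℝ) ≤ 2 * K * M := le_mul_of_one_le_right (by positivity) hMr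
          have : 0 ≤ ((#I : ℕ) : ℝ) * K := mul_nonneg (Nat.cast_nonneg _) (Nat.cast_nonneg _)
          linarith
        have hpos1 : (0 : ℝ) ≤ K * X / L ^ (V + 1) := by positivity
        have h16 : (c0 : ℝ) * (K * X / L ^ (V + 1)) ≤ c0 * b := by
          calc (c0 : ℝ) * (K * X / L ^ (V + 1)) ≤ M * (K * X / L ^ (V + 1)) := mul_le_mul_of_nonneg_right h4 hpos1
            _ ≤ (k : ℝ) - K := by linarith
            _ ≤ _ := h6
        exact le_of_mul_le_mul_left h16 (by linarith)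
    obtain ⟨w, q, hq, hwq⟩ := (hB (u0, c0) hiI).2 (v0 / (c0 : ℤ)) hkh hkN hrho hside
    obtain ⟨u, hud⟩ : ∃ u : ℤ, u = (u0 : ℤ) + M * w := ⟨_, rfl⟩
    have huc : ∀ p ∈ T, ‖(u : ℚ_[((p : Nat.Primes) : ℕ)]) - D * t p‖ ≤ (((p : ℕ) : ℝ) ^ E)⁻¹ := by
      rw [hud]
      exact hu0 w
    have hv : (GG f D).eval u + (D : ℤ) ^ (2 * d) * k = (c0 : ℤ) * q := by
      rw [hud, ← hwq, mul_add, hFe w, Int.mul_ediv_cancel' hc0v, hv0e]
      ring
    have hDs : Smooth T D := by rw [hD]; exact smooth_prod T N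
    refine ⟨(u : ℚ) / D, ?_, c0, D ^ (2 * d), q, ⟨hc00, fun p hp => ?_⟩, hDs.pow _, hq, ⟨hq.ne_zero, fun p hp hpT => ?_⟩, ?_⟩
    · intro p hp
      have hpos : (0 : ℝ) < ((p : ℕ) : ℝ) := by exact_mod_cast p.2.pos
      have hone : (1 : ℝ) ≤ ((p : ℕ) : ℝ) := by exact_mod_cast p.2.one_lt.le
      have hDn : ‖(D : ℚ_[(p : ℕ)])‖ = (((p : ℕ) : ℝ) ^ N)⁻¹ := by
        rw [hD]
        exact norm_D T N p hp
      have hDF : (D : ℚ_[(p : ℕ)]) ≠ 0 := by exact_mod_cast hD0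
      have e : (((u : ℚ) / D : ℚ) : ℚ_[(p : ℕ)]) - t p = ((u : ℚ_[(p : ℕ)]) - D * t p) / D := by
        push_cast
        field_simp
      rw [e, norm_div, hDn, div_inv_eq_mul]
      calc ‖(u : ℚ_[(p : ℕ)]) - D * t p‖ * ((p : ℕ) : ℝ) ^ N ≤ (((p : ℕ) : ℝ) ^ E)⁻¹ * ((p : ℕ) : ℝ) ^ N :=
            mul_le_mul_of_nonneg_right (huc p hp) (by positivity)
        _ ≤ (((p : ℕ) : ℝ) ^ (2 * N))⁻¹ * ((p : ℕ) : ℝ) ^ N := by
            apply mul_le_mul_of_nonneg_right _ (by positivity)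
            apply inv_anti₀ (by positivity)
            apply pow_le_pow_right₀ hone
            rw [hE]
            nlinarith
        _ = (((p : ℕ) : ℝ) ^ N)⁻¹ := by
            have := hpos.ne'
            rw [pow_mul', pow_two]
            field_simp
    · apply mem_of_dvd_prod T E p
      rw [← hM]
      exact hp.trans hc0M
    · obtain ⟨hl1, hl2⟩ := hloc p hpT
      have h1 := val_near f T N E (le_of_eq hE.symm) k t p hpT hl2 hl1 (u0 : ℤ) D hD (by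
        have := hu0 0 p hpT
        simpa using this)
      rw [← hdd, ← hv0e] at h1
      obtain ⟨m, hm, -⟩ := prod_split T E p hpT
      obtain ⟨h2, h3⟩ := gcd_facts v0 M p E m p.2 (by rw [hM]; exact hm) hM0 h1
      rw [← hc0] at h2 h3
      apply h3
      have h4 : ((p : ℕ) : ℤ) ∣ (F (u0, c0)).eval w + v0 / (c0 : ℤ) := by
        rw [hwq]
        exact_mod_cast hp
      exact (Int.dvd_add_right (hFp w p h2)).1 h4
    · have hDF : (D : ℚ) ≠ 0 := by exact_mod_cast hD0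
      have h1 := GG_aeval f D hD0 ((u : ℚ) / D)
      rw [mul_div_cancel₀ _ hDF, aeval_int, ← hdd] at h1
      have h2 : (((GG f D).eval u : ℤ) : ℚ) + (D : ℚ) ^ (2 * d) * k = (c0 : ℚ) * q := by exact_mod_cast hv
      rw [h1] at h2
      push_cast
      rw [eq_div_iff (pow_ne_zero _ hDF), ← h2]
      ring

theorem pv1 (f : ℤ[X]) (hd : 2 ≤ f.natDegree) (T : Finset Nat.Primes) (hT : BigT f ∅ T) (N U : ℕ) :
    ∃ X0 : ℕ, ∀ X : ℕ, X0 ≤ X → ∃ Bad : Finset ℤ, (#Bad : ℝ) ≤ X / Real.log X ^ U ∧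
      ∀ k : ℤ, |k| ≤ X → k ∉ Bad → (∃ r : ℝ, 0 < aeval r f + k) →
      ∀ t : (p : Nat.Primes) → ℚ_[(p : ℕ)], LocP f T N k t → GlobP f T N k t := by
  classical
  have hf0 : f.leadingCoeff ≠ 0 := by
    rw [Ne, leadingCoeff_eq_zero]
    rintro rfl
    simp at hd
  rcases lt_or_gt_of_ne hf0 with hl | hl
  · rcases Nat.even_or_odd f.natDegree with he | ho
    · -- even degree
      obtain ⟨X1, h1⟩ := pv0 f hd T hT N (U + 1) (U + 1)
      obtain ⟨K0, hK0⟩ := bdd f (by omega) he hl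
      obtain ⟨X2, hX2⟩ := eventually_atTop.1 ((evt_log_ge ((K0 : ℝ) + 4)).and (evt_log_pow (U + 1) 1 (by norm_num)))
      refine ⟨max X1 X2, fun X hX => ?_⟩
      obtain ⟨Bad, hB1, hB2⟩ := h1 X ((le_max_left _ _).trans hX)
      obtain ⟨hL, hLX⟩ := hX2 X ((le_max_right _ _).trans hX)
      rw [Real.rpow_one] at hLX
      obtain ⟨L, hLd⟩ : ∃ L, L = Real.log X := ⟨_, rfl⟩
      rw [← hLd] at hL hLX hB1 hB2 ⊢
      have hL0 : 0 < L := by
        have : (0 : ℝ) ≤ K0 := Nat.cast_nonneg _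
        linarith
      obtain ⟨J, hJ⟩ : ∃ J : ℕ, J = ⌈(X : ℝ) / L ^ (U + 1)⌉₊ := ⟨_, rfl⟩
      have hJ1 : (X : ℝ) / L ^ (U + 1) ≤ J := by rw [hJ]; exact Nat.le_ceil _
      have hJ2 : (J : ℝ) ≤ X / L ^ (U + 1) + 1 := by
        rw [hJ]
        exact (Nat.ceil_lt_add_one (by positivity)).le
      refine ⟨Bad ∪ Ioo (-(K0 : ℤ)) J, ?_, ?_⟩
      · have h2 : #(Bad ∪ Ioo (-(K0 : ℤ)) J) ≤ #Bad + (J + K0) := by
          refine (card_union_le _ _).trans ?_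
          rw [Int.card_Ioo]
          have : ((J : ℤ) - -(K0 : ℤ) - 1).toNat ≤ J + K0 := by omega
          omega
        have h3 : (#(Bad ∪ Ioo (-(K0 : ℤ)) J) : ℝ) ≤ (#Bad : ℝ) + (J + K0) := by exact_mod_cast h2
        refine h3.trans ?_
        have h4 : 1 ≤ (X : ℝ) / L ^ (U + 1) := by
          rw [le_div_iff₀ (by positivity), one_mul]
          exact hLX
        have h5 : (X : ℝ) / L ^ U = L * (X / L ^ (U + 1)) := by
          rw [pow_succ]
          field_simp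
        rw [h5]
        have hK00 : (0 : ℝ) ≤ K0 := Nat.cast_nonneg _
        nlinarith
      · intro k hk hkB hr t hloc
        rw [mem_union, not_or, mem_Ioo] at hkB
        obtain ⟨r, hr⟩ := hr
        have h2 : -(K0 : ℤ) < k := by
          have h3 := hK0 r
          have h4 : -(K0 : ℝ) < k := by linarith
          exact_mod_cast h4
        have h3 : (J : ℤ) ≤ k := by
          by_contra hcon
          exact hkB.2 ⟨h2, not_le.1 hcon⟩
        refine hB2 k hk hkB.1 (Or.inr (hJ1.trans (by exact_mod_cast h3))) t hloc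
    · -- odd degree
      obtain ⟨X1, h1⟩ := pv0 (f.comp (-X)) (by rw [comp_neg_natDegree]; exact hd) T (by
        intro p hp
        apply hT p
        rw [comp_neg_natDegree, comp_neg_lead, ho.neg_one_pow, mul_neg_one, dvd_neg] at hp
        exact hp) N U 0
      refine ⟨X1, fun X hX => ?_⟩
      obtain ⟨Bad, hB1, hB2⟩ := h1 X hX
      refine ⟨Bad, hB1, fun k hk hkB _ t hloc => ?_⟩
      obtain ⟨s, hs1, hs2⟩ := hB2 k hk hkB (Or.inl (by
        rw [comp_neg_lead, ho.neg_one_pow, mul_neg_one]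
        linarith)) (fun p => -t p) (by
        intro p hp
        obtain ⟨h2, h3⟩ := hloc p hp
        simp only [aeval_comp_neg, norm_neg]
        exact ⟨h2, h3⟩)
      have e : aeval (-s) f = aeval s (f.comp (-Polynomial.X)) := by
        rw [← aeval_comp_neg, neg_neg]
      refine ⟨-s, ?_, ?_⟩
      · intro p hp
        have h2 := hs1 p hp
        have e2 : (((-s : ℚ)) : ℚ_[(p : ℕ)]) - t p = -(((s : ℚ) : ℚ_[(p : ℕ)]) - -t p) := by
          push_cast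
          ring
        rw [e2, norm_neg]
        exact h2
      · rw [e]
        exact hs2
  · obtain ⟨X1, h1⟩ := pv0 f hd T hT N U 0
    refine ⟨X1, fun X hX => ?_⟩
    obtain ⟨Bad, hB1, hB2⟩ := h1 X hX
    exact ⟨Bad, hB1, fun k hk hkB _ t hloc => hB2 k hk hkB (Or.inl hl) t hloc⟩

/-- the local conditions of level `N` -/
def LocPM {m : ℕ} (f : MvPolynomial (Fin m) ℤ) (T : Finset Nat.Primes) (N : ℕ) (k : ℤ)
    (t : (p : Nat.Primes) → Fin m → ℚ_[(p : ℕ)]) : Prop :=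
  ∀ p ∈ T, (∀ j, ‖t p j‖ ≤ ((p : ℕ) : ℝ) ^ N) ∧ (((p : ℕ) : ℝ) ^ N)⁻¹ ≤ ‖MvPolynomial.aeval (t p) f + (k : ℚ_[(p : ℕ)])‖

/-- the rational point with a prime value -/
def GlobPM {m : ℕ} (f : MvPolynomial (Fin m) ℤ) (T : Finset Nat.Primes) (N : ℕ) (k : ℤ)
    (t : (p : Nat.Primes) → Fin m → ℚ_[(p : ℕ)]) : Prop :=
  ∃ s : Fin m → ℚ, (∀ p ∈ T, (∀ j, ‖((s j : ℚ) : ℚ_[(p : ℕ)]) - t p j‖ ≤ (((p : ℕ) : ℝ) ^ N)⁻¹) ∧
      ‖((MvPolynomial.aeval s f : ℚ) : ℚ_[(p : ℕ)]) - MvPolynomial.aeval (t p) f‖ ≤ (((p : ℕ) : ℝ) ^ (3 * N + 3))⁻¹) ∧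
      PrimeVal T (MvPolynomial.aeval s f + (k : ℚ))

theorem pvM {m : ℕ} (f : MvPolynomial (Fin m) ℤ) (hd : 2 ≤ f.totalDegree)
    (β : Fin m → ℤ) (hβ : lead f β ≠ 0) (T : Finset Nat.Primes)
    (hT : ∀ p : Nat.Primes, (p : ℕ) ≤ f.totalDegree ∨ ((p : ℕ) : ℤ) ∣ lead f β → p ∈ T) (N U : ℕ) :
    ∃ X0 : ℕ, ∀ X : ℕ, X0 ≤ X → ∃ Bad : Finset ℤ, (#Bad : ℝ) ≤ X / Real.log X ^ U ∧
      ∀ k : ℤ, |k| ≤ X → k ∉ Bad → (0 < lead f β ∨ 0 < k) →
      ∀ t : (p : Nat.Primes) → Fin m → ℚ_[(p : ℕ)], LocPM f T N k t → GlobPM f T N k t := by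
  classical
  obtain ⟨d, hdd⟩ : ∃ d, d = f.totalDegree := ⟨_, rfl⟩
  obtain ⟨E, hE⟩ : ∃ E, E = (2 * d + 3) * N + 3 := ⟨_, rfl⟩
  obtain ⟨D, hD⟩ : ∃ D, D = ∏ p ∈ T, (p : ℕ) ^ N := ⟨_, rfl⟩
  obtain ⟨M, hM⟩ : ∃ M, M = ∏ p ∈ T, (p : ℕ) ^ E := ⟨_, rfl⟩
  have hD0 : D ≠ 0 := by rw [hD]; exact prod_ne_zero_iff.2 fun p _ => pow_ne_zero _ p.2.ne_zero
  obtain ⟨P, hP⟩ : ∃ P : (Fin m → ℕ) → ℤ[X], P = fun u => FU f D β (fun j => (u j : ℤ)) := ⟨_, rfl⟩
  have hPd : ∀ u, (P u).natDegree = d := fun u => by rw [hP, hdd]; exact FU_natDegree f D hD0 β _ hβ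
  have hPl : ∀ u, (P u).leadingCoeff = (D : ℤ) ^ d * lead f β := fun u => by rw [hP, hdd]; exact FU_lead f D hD0 β _ hβ
  have hBT : ∀ u, BigT (P u) ∅ T := by
    intro u p hp
    rw [hPd, hPl] at hp
    rcases hp with h | h | h
    · exact hT p (Or.inl (by rw [← hdd]; exact h))
    · have hpp := Nat.prime_iff_prime_int.1 p.2
      rcases hpp.dvd_or_dvd h with h2 | h2
      · have h4 := hpp.dvd_of_dvd_pow h2
        apply mem_of_dvd_prod T N p
        rw [← hD]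
        exact_mod_cast h4
      · exact hT p (Or.inr h2)
    · obtain ⟨z, hz, -⟩ := h
      exact absurd hz (Finset.notMem_empty z)
  have hex := fun u => pv1 (P u) (by rw [hPd, hdd]; exact hd) T (hBT u) E (U + 1)
  choose X1 hX1 using hex
  obtain ⟨I, hI⟩ : ∃ I : Finset (Fin m → ℕ), I = Fintype.piFinset (fun _ : Fin m => range M) := ⟨_, rfl⟩
  obtain ⟨K0, hK0⟩ : ∃ K0 : ℕ, K0 = ∑ u ∈ I, ((P u).eval 0).natAbs := ⟨_, rfl⟩
  obtain ⟨Q, hQ⟩ : ∃ Q : ℕ, Q = D ^ (2 * d) := ⟨_, rfl⟩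
  have hQ1 : 1 ≤ Q := by rw [hQ]; exact Nat.one_le_pow _ _ (Nat.pos_of_ne_zero hD0)
  obtain ⟨cI, hcI⟩ : ∃ cI : ℕ, cI = #I := ⟨_, rfl⟩
  have hev : ∀ᶠ X : ℕ in atTop, ((cI : ℝ) * Q + 2 * K0 + 1 ≤ Real.log X) ∧ Real.log X ^ (U + 1) ≤ (X : ℝ) ^ (1 : ℝ) := by
    filter_upwards [evt_log_ge ((cI : ℝ) * Q + 2 * K0 + 1), evt_log_pow (U + 1) 1 (by norm_num)] with x h1 h2
    exact ⟨h1, h2⟩
  obtain ⟨X2, hX2⟩ := eventually_atTop.1 hev
  refine ⟨max (max (∑ u ∈ I, X1 u) X2) 1, fun X hX => ?_⟩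
  obtain ⟨x, hx⟩ : ∃ x : ℕ, x = Q * X := ⟨_, rfl⟩
  have hXx : X ≤ x := by rw [hx]; exact Nat.le_mul_of_pos_left _ hQ1
  have hXa : ∀ u ∈ I, X1 u ≤ x := fun u hu => by
    calc X1 u ≤ ∑ u ∈ I, X1 u := single_le_sum (fun _ _ => Nat.zero_le _) hu
      _ ≤ X := (le_trans (le_max_left _ _) (le_max_left _ _)).trans hX
      _ ≤ x := hXx
  obtain ⟨hL, hLX⟩ := hX2 X ((le_trans (le_max_right _ _) (le_max_left _ _)).trans hX)
  have hXone : 1 ≤ X := (le_max_right _ _).trans hX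
  have hXr : (1 : ℝ) ≤ X := by exact_mod_cast hXone
  clear hX2 hX
  obtain ⟨L, hLd⟩ : ∃ L, L = Real.log X := ⟨_, rfl⟩
  rw [← hLd] at hL hLX ⊢
  rw [Real.rpow_one] at hLX
  have hcIQ : (0 : ℝ) ≤ (cI : ℝ) * Q := by positivity
  have hK00 : (0 : ℝ) ≤ K0 := Nat.cast_nonneg _
  have hL1 : 1 ≤ L := by linarith
  have hL0 : 0 < L := by linarith
  have hLx : L ≤ Real.log x := by
    rw [hLd]
    exact Real.log_le_log (by linarith) (by exact_mod_cast hXx)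
  have hbad : ∀ u, ∃ Bad : Finset ℤ, u ∈ I → (#Bad : ℝ) ≤ x / Real.log x ^ (U + 1) ∧
      ∀ k : ℤ, |k| ≤ x → k ∉ Bad →
      (∃ r : ℝ, 0 < aeval r (P u) + (k : ℝ)) →
      ∀ t : (p : Nat.Primes) → ℚ_[(p : ℕ)], LocP (P u) T E k t → GlobP (P u) T E k t := by
    intro u
    by_cases hu : u ∈ I
    · obtain ⟨B, hB⟩ := hX1 u x (hXa u hu)
      exact ⟨B, fun _ => hB⟩
    · exact ⟨∅, fun h => absurd h hu⟩
  choose B hB using hbad
  have hQz : (Q : ℤ) ≠ 0 := by exact_mod_cast (Nat.pos_of_ne_zero (by omega)).ne'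
  refine ⟨Icc (-(K0 : ℤ)) K0 ∪ (Icc (-(X : ℤ)) X).filter (fun k => ∃ u ∈ I, (Q : ℤ) * k ∈ B u), ?_, ?_⟩
  · -- the number of exceptions
    have h1 : (Icc (-(X : ℤ)) X).filter (fun k => ∃ u ∈ I, (Q : ℤ) * k ∈ B u) ⊆
        I.biUnion (fun u => (Icc (-(X : ℤ)) X).filter (fun k => (Q : ℤ) * k ∈ B u)) := by
      intro k hk
      rw [mem_filter] at hk
      obtain ⟨u, hu, h2⟩ := hk.2
      rw [mem_biUnion]
      exact ⟨u, hu, mem_filter.2 ⟨hk.1, h2⟩⟩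
    have h2 : ∀ u ∈ I, #((Icc (-(X : ℤ)) X).filter (fun k => (Q : ℤ) * k ∈ B u)) ≤ #(B u) := by
      intro u _
      apply card_le_card_of_injOn (fun k => (Q : ℤ) * k)
      · intro k hk
        rw [mem_coe, mem_filter] at hk
        exact hk.2
      · intro k _ k' _ h
        exact mul_left_cancel₀ hQz h
    have h3 : #(Icc (-(K0 : ℤ)) K0) = 2 * K0 + 1 := by
      rw [Int.card_Icc]
      omega
    have h4 : (#(Icc (-(K0 : ℤ)) K0 ∪ (Icc (-(X : ℤ)) X).filter (fun k => ∃ u ∈ I, (Q : ℤ) * k ∈ B u)) : ℝ) ≤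
        (2 * K0 + 1) + ∑ u ∈ I, (#(B u) : ℝ) := by
      have := (card_union_le (Icc (-(K0 : ℤ)) K0) ((Icc (-(X : ℤ)) X).filter (fun k => ∃ u ∈ I, (Q : ℤ) * k ∈ B u))).trans
        (add_le_add (le_of_eq h3) ((card_le_card h1).trans (card_biUnion_le.trans (sum_le_sum h2))))
      exact_mod_cast this
    refine h4.trans ?_
    have h5 : ∑ u ∈ I, (#(B u) : ℝ) ≤ (cI : ℝ) * Q * (X / L ^ (U + 1)) := by
      calc ∑ u ∈ I, (#(B u) : ℝ) ≤ ∑ u ∈ I, (x : ℝ) / L ^ (U + 1) := by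
            apply sum_le_sum
            intro u hu
            refine ((hB u hu).1).trans ?_
            apply div_le_div_of_nonneg_left (Nat.cast_nonneg _) (by positivity)
            exact pow_le_pow_left₀ hL0.le hLx _
        _ = (cI : ℝ) * Q * (X / L ^ (U + 1)) := by
            rw [sum_const, nsmul_eq_mul, hx, ← hcI]
            push_cast
            ring
    have h6 : 1 ≤ (X : ℝ) / L ^ (U + 1) := by
      rw [le_div_iff₀ (by positivity), one_mul]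
      exact hLX
    have h7 : (X : ℝ) / L ^ U = L * (X / L ^ (U + 1)) := by
      rw [pow_succ]
      field_simp
    rw [h7]
    nlinarith
  · intro k hk hkB hsign t hloc
    rw [mem_union, not_or] at hkB
    -- the residue classes
    have hu : ∀ j : Fin m, ∃ u0 : ℕ, u0 < M ∧ ∀ p ∈ T, ‖((u0 : ℤ) : ℚ_[(p : ℕ)]) - D * t p j‖ ≤ (((p : ℕ) : ℝ) ^ E)⁻¹ := by
      intro j
      obtain ⟨u0, h1, h2⟩ := exists_u0 T N E D M (fun p => t p j) (fun p hp => (hloc p hp).1 j) hD hM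
      refine ⟨u0, h1, fun p hp => ?_⟩
      have := h2 0 p hp
      simpa using this
    choose u hu1 hu2 using hu
    have huI : u ∈ I := by
      rw [hI, Fintype.mem_piFinset]
      exact fun j => mem_range.2 (hu1 j)
    have hkx : |(Q : ℤ) * k| ≤ x := by
      rw [abs_mul, abs_of_nonneg (by positivity), hx]
      push_cast
      exact mul_le_mul_of_nonneg_left hk (by positivity)
    have hkB' : (Q : ℤ) * k ∉ B u := by
      intro h
      apply hkB.2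
      rw [mem_filter, mem_Icc]
      exact ⟨abs_le.1 hk, u, huI, h⟩
    have hP0 : ∀ (F : Type) [Field F] (s : F), aeval s (P u) = MvPolynomial.aeval (fun j => ((u j : ℕ) : F) + (β j : F) * s) (GM f D) := by
      intro F _ s
      rw [hP]
      simp only
      rw [FU_aeval]
      simp only [Int.cast_natCast]
    -- the real place
    have hreal : ∃ r : ℝ, 0 < aeval r (P u) + (((Q : ℤ) * k : ℤ) : ℝ) := by
      rcases hsign with h | h
      · obtain ⟨r, hr⟩ := pos_inf (P u) (by rw [hPd]; omega) (by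
          rw [hPl]
          have hDp : (0 : ℤ) < (D : ℤ) ^ d := pow_pos (by exact_mod_cast Nat.pos_of_ne_zero hD0) _
          exact mul_pos hDp h) (-((((Q : ℤ) * k : ℤ) : ℝ)))
        refine ⟨r, ?_⟩
        linarith
      · refine ⟨0, ?_⟩
        have h1 : aeval (0 : ℝ) (P u) = (((P u).eval 0 : ℤ) : ℝ) := by
          have := aeval_int (F := ℝ) (P u) 0
          rw [Int.cast_zero] at this
          exact this
        rw [h1]
        have h2 : |(P u).eval 0| ≤ (K0 : ℤ) := by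
          have h3 : ((P u).eval 0).natAbs ≤ K0 := by
            rw [hK0]
            exact single_le_sum (f := fun u => ((P u).eval 0).natAbs) (fun _ _ => Nat.zero_le _) huI
          rw [Int.abs_eq_natAbs]
          exact_mod_cast h3
        have h4 : (K0 : ℤ) < |k| := by
          by_contra hcon
          apply hkB.1
          rw [mem_Icc]
          exact abs_le.1 (not_lt.1 hcon)
        rw [abs_of_pos h] at h4
        have h7 : 0 < (P u).eval 0 + (Q : ℤ) * k := by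
          have h8 := (abs_le.1 h2).1
          have h9 : (1 : ℤ) ≤ Q := by exact_mod_cast hQ1
          nlinarith
        exact_mod_cast h7
    have hppos : ∀ p : Nat.Primes, (0 : ℝ) < ((p : ℕ) : ℝ) := fun p => p_pos (p := (p : ℕ))
    have hp1 : ∀ p : Nat.Primes, (1 : ℝ) < ((p : ℕ) : ℝ) := fun p => one_lt_p (p := (p : ℕ))
    have hDn : ∀ p ∈ T, ‖(D : ℚ_[(p : ℕ)])‖ = (((p : ℕ) : ℝ) ^ N)⁻¹ := by
      intro p hp
      rw [hD]
      exact norm_D T N p hp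
    have hDt : ∀ p ∈ T, ∀ j, ‖(D : ℚ_[(p : ℕ)]) * t p j‖ ≤ 1 := by
      intro p hp j
      have := hppos p
      rw [norm_mul, hDn p hp]
      calc (((p : ℕ) : ℝ) ^ N)⁻¹ * ‖t p j‖ ≤ (((p : ℕ) : ℝ) ^ N)⁻¹ * ((p : ℕ) : ℝ) ^ N :=
            mul_le_mul_of_nonneg_left ((hloc p hp).1 j) (by positivity)
        _ = 1 := inv_mul_cancel₀ (by positivity)
    -- the local conditions
    have hlocP : LocP (P u) T E ((Q : ℤ) * k) (fun _ => 0) := by
      intro p hp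
      have hpos := hppos p
      obtain ⟨hl1, hl2⟩ := hloc p hp
      have hDF : (D : ℚ_[(p : ℕ)]) ≠ 0 := by exact_mod_cast hD0
      obtain ⟨y, hy⟩ : ∃ y : ℚ_[(p : ℕ)], y = (D : ℚ_[(p : ℕ)]) ^ (2 * d) * (MvPolynomial.aeval (t p) f + k) := ⟨_, rfl⟩
      obtain ⟨v, hv⟩ : ∃ v : ℚ_[(p : ℕ)], v = aeval (0 : ℚ_[(p : ℕ)]) (P u) + (((Q : ℤ) * k : ℤ) : ℚ_[(p : ℕ)]) := ⟨_, rfl⟩
      have hyn : (((p : ℕ) : ℝ) ^ ((2 * d + 1) * N))⁻¹ ≤ ‖y‖ := by
        rw [hy, norm_mul, norm_pow, hDn p hp]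
        calc (((p : ℕ) : ℝ) ^ ((2 * d + 1) * N))⁻¹ = ((((p : ℕ) : ℝ) ^ N)⁻¹) ^ (2 * d) * (((p : ℕ) : ℝ) ^ N)⁻¹ := by
              rw [inv_pow, ← mul_inv, ← pow_mul, ← pow_add]
              congr 2
              ring
          _ ≤ _ := mul_le_mul_of_nonneg_left hl2 (by positivity)
      have hyx : ‖v - y‖ ≤ (((p : ℕ) : ℝ) ^ E)⁻¹ := by
        have h1 : v = MvPolynomial.aeval (fun j => ((u j : ℤ) : ℚ_[(p : ℕ)])) (GM f D) + (D : ℚ_[(p : ℕ)]) ^ (2 * d) * k := by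
          rw [hv, hP0, hQ]
          push_cast
          simp
        have h2 : y = MvPolynomial.aeval (fun j => (D : ℚ_[(p : ℕ)]) * t p j) (GM f D) + (D : ℚ_[(p : ℕ)]) ^ (2 * d) * k := by
          rw [hy, GM_scale, ← hdd]
          ring
        rw [h1, h2, add_sub_add_right_eq_sub]
        exact lipM _ _ _ (fun j => Padic.norm_int_le_one _) (hDt p hp) E (fun j => hu2 j p hp)
      have hy0 : y ≠ 0 := by
        intro h
        rw [h, norm_zero] at hyn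
        have : (0 : ℝ) < (((p : ℕ) : ℝ) ^ ((2 * d + 1) * N))⁻¹ := by positivity
        linarith
      have hlt : ‖v - y‖ < ‖(4 : ℚ_[(p : ℕ)])‖ * ‖y‖ := by
        refine hyx.trans_lt ?_
        calc (((p : ℕ) : ℝ) ^ E)⁻¹ ≤ (((p : ℕ) : ℝ) ^ ((2 * d + 1) * N + 3))⁻¹ := by
              apply inv_anti₀ (by positivity)
              apply pow_le_pow_right₀ (hp1 p).le
              rw [hE]
              nlinarith
          _ = (((p : ℕ) : ℝ) ^ 3)⁻¹ * (((p : ℕ) : ℝ) ^ ((2 * d + 1) * N))⁻¹ := by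
              rw [pow_add, mul_inv, mul_comm]
          _ < ‖(4 : ℚ_[(p : ℕ)])‖ * (((p : ℕ) : ℝ) ^ ((2 * d + 1) * N))⁻¹ :=
              mul_lt_mul_of_pos_right (norm_four_gt p) (by positivity)
          _ ≤ ‖(4 : ℚ_[(p : ℕ)])‖ * ‖y‖ := mul_le_mul_of_nonneg_left hyn (norm_nonneg _)
      have hvn : ‖v‖ = ‖y‖ := norm_eq_of_near v y (hlt.trans_le (mul_le_of_le_one_left (norm_nonneg _) four_norm_le))
      refine ⟨by rw [norm_zero]; positivity, ?_⟩
      rw [← hv, hvn]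
      refine le_trans ?_ hyn
      apply inv_anti₀ (by positivity)
      apply pow_le_pow_right₀ (hp1 p).le
      rw [hE]
      nlinarith
    obtain ⟨σ, hσ1, hσ2⟩ := (hB u huI).2 ((Q : ℤ) * k) hkx hkB' hreal (fun _ => 0) hlocP
    have hDQ : (D : ℚ) ≠ 0 := by exact_mod_cast hD0
    obtain ⟨s, hs⟩ : ∃ s : Fin m → ℚ, s = fun j => ((u j : ℕ) + (β j : ℚ) * σ) / D := ⟨_, rfl⟩
    have hDs : (fun j => (D : ℚ) * s j) = fun j => ((u j : ℕ) : ℚ) + (β j : ℚ) * σ := by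
      funext j
      rw [hs]
      field_simp
    have hval : aeval σ (P u) + (((Q : ℤ) * k : ℤ) : ℚ) = (D : ℚ) ^ (2 * d) * (MvPolynomial.aeval s f + k) := by
      rw [hP0, ← hDs, GM_scale, ← hdd, hQ]
      push_cast
      ring
    refine ⟨s, ?_, ?_⟩
    · intro p hp
      have hpos := hppos p
      have hDF : (D : ℚ_[(p : ℕ)]) ≠ 0 := by exact_mod_cast hD0
      have hDsp : ∀ j, (D : ℚ_[(p : ℕ)]) * (s j : ℚ_[(p : ℕ)]) = ((u j : ℤ) : ℚ_[(p : ℕ)]) + (β j : ℚ_[(p : ℕ)]) * (σ : ℚ_[(p : ℕ)]) := by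
        intro j
        have h1 : (D : ℚ) * s j = ((u j : ℕ) : ℚ) + (β j : ℚ) * σ := congrFun hDs j
        have h2 := congrArg (fun w : ℚ => (w : ℚ_[(p : ℕ)])) h1
        push_cast at h2 ⊢
        exact h2
      have hclose : ∀ j, ‖(D : ℚ_[(p : ℕ)]) * (s j : ℚ_[(p : ℕ)]) - (D : ℚ_[(p : ℕ)]) * t p j‖ ≤ (((p : ℕ) : ℝ) ^ E)⁻¹ := by
        intro j
        rw [hDsp j]
        have e : ((u j : ℤ) : ℚ_[(p : ℕ)]) + (β j : ℚ_[(p : ℕ)]) * (σ : ℚ_[(p : ℕ)]) - (D : ℚ_[(p : ℕ)]) * t p j =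
            (((u j : ℤ) : ℚ_[(p : ℕ)]) - (D : ℚ_[(p : ℕ)]) * t p j) + (β j : ℚ_[(p : ℕ)]) * (σ : ℚ_[(p : ℕ)]) := by ring
        rw [e]
        refine (Padic.nonarchimedean _ _).trans (max_le (hu2 j p hp) ?_)
        rw [norm_mul]
        have h3 := hσ1 p hp
        rw [sub_zero] at h3
        calc ‖(β j : ℚ_[(p : ℕ)])‖ * ‖(σ : ℚ_[(p : ℕ)])‖ ≤ 1 * (((p : ℕ) : ℝ) ^ E)⁻¹ :=
              mul_le_mul (Padic.norm_int_le_one _) h3 (norm_nonneg _) (by norm_num)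
          _ = _ := one_mul _
      constructor
      · intro j
        have h1 : ‖(D : ℚ_[(p : ℕ)])‖ * ‖(s j : ℚ_[(p : ℕ)]) - t p j‖ ≤ (((p : ℕ) : ℝ) ^ E)⁻¹ := by
          rw [← norm_mul, mul_sub]
          exact hclose j
        rw [hDn p hp] at h1
        have h2 : (((p : ℕ) : ℝ) ^ E)⁻¹ ≤ (((p : ℕ) : ℝ) ^ N)⁻¹ * (((p : ℕ) : ℝ) ^ N)⁻¹ := by
          rw [← mul_inv, ← pow_add]
          apply inv_anti₀ (by positivity)
          apply pow_le_pow_right₀ (hp1 p).le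
          rw [hE]
          nlinarith
        exact le_of_mul_le_mul_left (h1.trans h2) (by positivity)
      · rw [cast_aeval]
        have h1 := lipM (GM f D) (fun j => (D : ℚ_[(p : ℕ)]) * (s j : ℚ_[(p : ℕ)])) (fun j => (D : ℚ_[(p : ℕ)]) * t p j) (by
          intro j
          have e : (D : ℚ_[(p : ℕ)]) * (s j : ℚ_[(p : ℕ)]) = ((D : ℚ_[(p : ℕ)]) * (s j : ℚ_[(p : ℕ)]) - (D : ℚ_[(p : ℕ)]) * t p j) +
            (D : ℚ_[(p : ℕ)]) * t p j := by ring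
          rw [e]
          refine (Padic.nonarchimedean _ _).trans (max_le ((hclose j).trans ?_) (hDt p hp j))
          exact inv_le_one_of_one_le₀ (one_le_pow₀ (hp1 p).le)) (hDt p hp) E hclose
        rw [GM_scale, GM_scale, ← mul_sub, norm_mul, norm_pow, hDn p hp, ← hdd] at h1
        have h2 : (((p : ℕ) : ℝ) ^ E)⁻¹ = ((((p : ℕ) : ℝ) ^ N)⁻¹) ^ (2 * d) * (((p : ℕ) : ℝ) ^ (3 * N + 3))⁻¹ := by
          rw [inv_pow, ← mul_inv, ← pow_mul, ← pow_add, hE]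
          congr 2
          ring
        rw [h2] at h1
        exact le_of_mul_le_mul_left h1 (by positivity)
    · have hDs : Smooth T D := by rw [hD]; exact smooth_prod T N
      obtain ⟨c, D', q, hc, hD', hq, hqr, he⟩ := hσ2
      refine ⟨c, D' * D ^ (2 * d), q, hc, hD'.mul (hDs.pow _), hq, hqr, ?_⟩
      rw [hval] at he
      have hD'0 : (D' : ℚ) ≠ 0 := by exact_mod_cast hD'.1
      push_cast
      field_simp at he ⊢
      linear_combination he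

end Pool.Agent.R479.NF
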